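import Pool.Agent.Work.MP_2eb777_ag.Quad

set_option autoImplicit false

open CategoryTheory CategoryTheory.Limits AlgebraicGeometry Polynomial

namespace Pool.Agent.Work.MP_2eb777_ag

/-- The structure constants of an algebra with basis `1, y, e₁, e₂`:
`e₁ ^ 2 = b₁ y + (a b₁ + c b₂)`, `e₁ e₂ = b₂ y + (a b₂ + c b₃)`, `e₂ ^ 2 = b₃ y + (b b₂ - a b₃)`,
`y e₁ = a e₁ + c e₂`, `y e₂ = b e₁ - a e₂`, `y ^ 2 = a ^ 2 + b c`. -/
structure Dat (S : Type) [CommRing S] where
  b₁ : S
  b₂ : S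
  b₃ : S
  a : S
  b : S
  c : S
  rel : b₁ * b = 2 * a * b₂ + c * b₃

namespace Dat

variable {S S' T : Type} [CommRing S] [CommRing S'] [CommRing T]

/-- The square of `y`. -/
def g (d : Dat S) : S := d.a ^ 2 + d.b * d.c

/-- The determinant of the form `(b₁, b₂, b₃)`. -/
def κ (d : Dat S) : S := d.b₁ * d.b₃ - d.b₂ ^ 2

/-- The constant part of `e₁ ^ 2`. -/
def A₁ (d : Dat S) : S := d.a * d.b₁ + d.c * d.b₂

/-- The constant part of `e₁ e₂`. -/
def A₂ (d : Dat S) : S := d.a * d.b₂ + d.c * d.b₃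

/-- The constant part of `e₂ ^ 2`. -/
def A₃ (d : Dat S) : S := d.b * d.b₂ - d.a * d.b₃

/-- Change of scalars. -/
@[simps]
def map (φ : S →+* S') (d : Dat S) : Dat S' where
  b₁ := φ d.b₁
  b₂ := φ d.b₂
  b₃ := φ d.b₃
  a := φ d.a
  b := φ d.b
  c := φ d.c
  rel := by
    have := congrArg φ d.rel
    simpa only [map_mul, map_add, map_ofNat] using this

@[simp] theorem map_g (φ : S →+* S') (d : Dat S) : (d.map φ).g = φ d.g := by
  simp [g]

@[simp] theorem map_κ (φ : S →+* S') (d : Dat S) : (d.map φ).κ = φ d.κ := by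
  simp [κ]

@[simp] theorem map_A₁ (φ : S →+* S') (d : Dat S) : (d.map φ).A₁ = φ d.A₁ := by
  simp [A₁]

@[simp] theorem map_A₂ (φ : S →+* S') (d : Dat S) : (d.map φ).A₂ = φ d.A₂ := by
  simp [A₂]

@[simp] theorem map_A₃ (φ : S →+* S') (d : Dat S) : (d.map φ).A₃ = φ d.A₃ := by
  simp [A₃]

end Dat

/-- The algebra with structure constants `d`; the element `⟨z, y, e, f⟩` stands for
`z + y * y + e * e₁ + f * e₂`. -/
@[ext]
structure R4 {S : Type} [CommRing S] (d : Dat S) where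
  z : S
  y : S
  e : S
  f : S

namespace R4

variable {S S' T : Type} [CommRing S] [CommRing S'] [CommRing T] {d : Dat S}

instance : Zero (R4 d) := ⟨⟨0, 0, 0, 0⟩⟩
instance : One (R4 d) := ⟨⟨1, 0, 0, 0⟩⟩
instance : Add (R4 d) := ⟨fun s t => ⟨s.z + t.z, s.y + t.y, s.e + t.e, s.f + t.f⟩⟩
instance : Neg (R4 d) := ⟨fun s => ⟨-s.z, -s.y, -s.e, -s.f⟩⟩
instance : Sub (R4 d) := ⟨fun s t => ⟨s.z - t.z, s.y - t.y, s.e - t.e, s.f - t.f⟩⟩
instance : Mul (R4 d) := ⟨fun s t =>
  ⟨s.z * t.z + s.y * t.y * d.g + s.e * t.e * d.A₁ + (s.e * t.f + s.f * t.e) * d.A₂ +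
      s.f * t.f * d.A₃,
    s.z * t.y + s.y * t.z + s.e * t.e * d.b₁ + (s.e * t.f + s.f * t.e) * d.b₂ + s.f * t.f * d.b₃,
    s.z * t.e + s.e * t.z + s.y * (t.e * d.a + t.f * d.b) + t.y * (s.e * d.a + s.f * d.b),
    s.z * t.f + s.f * t.z + s.y * (t.e * d.c - t.f * d.a) + t.y * (s.e * d.c - s.f * d.a)⟩⟩
instance : SMul S (R4 d) := ⟨fun r s => ⟨r * s.z, r * s.y, r * s.e, r * s.f⟩⟩

@[simp] theorem zero_z : (0 : R4 d).z = 0 := rfl
@[simp] theorem zero_y : (0 : R4 d).y = 0 := rfl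
@[simp] theorem zero_e : (0 : R4 d).e = 0 := rfl
@[simp] theorem zero_f : (0 : R4 d).f = 0 := rfl
@[simp] theorem one_z : (1 : R4 d).z = 1 := rfl
@[simp] theorem one_y : (1 : R4 d).y = 0 := rfl
@[simp] theorem one_e : (1 : R4 d).e = 0 := rfl
@[simp] theorem one_f : (1 : R4 d).f = 0 := rfl
@[simp] theorem add_z (s t : R4 d) : (s + t).z = s.z + t.z := rfl
@[simp] theorem add_y (s t : R4 d) : (s + t).y = s.y + t.y := rfl
@[simp] theorem add_e (s t : R4 d) : (s + t).e = s.e + t.e := rfl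
@[simp] theorem add_f (s t : R4 d) : (s + t).f = s.f + t.f := rfl
@[simp] theorem neg_z (s : R4 d) : (-s).z = -s.z := rfl
@[simp] theorem neg_y (s : R4 d) : (-s).y = -s.y := rfl
@[simp] theorem neg_e (s : R4 d) : (-s).e = -s.e := rfl
@[simp] theorem neg_f (s : R4 d) : (-s).f = -s.f := rfl
@[simp] theorem sub_z (s t : R4 d) : (s - t).z = s.z - t.z := rfl
@[simp] theorem sub_y (s t : R4 d) : (s - t).y = s.y - t.y := rfl
@[simp] theorem sub_e (s t : R4 d) : (s - t).e = s.e - t.e := rfl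
@[simp] theorem sub_f (s t : R4 d) : (s - t).f = s.f - t.f := rfl
@[simp] theorem smul_z (r : S) (s : R4 d) : (r • s).z = r * s.z := rfl
@[simp] theorem smul_y (r : S) (s : R4 d) : (r • s).y = r * s.y := rfl
@[simp] theorem smul_e (r : S) (s : R4 d) : (r • s).e = r * s.e := rfl
@[simp] theorem smul_f (r : S) (s : R4 d) : (r • s).f = r * s.f := rfl
@[simp] theorem mul_z (s t : R4 d) : (s * t).z = s.z * t.z + s.y * t.y * d.g + s.e * t.e * d.A₁ +
    (s.e * t.f + s.f * t.e) * d.A₂ + s.f * t.f * d.A₃ := rfl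
@[simp] theorem mul_y (s t : R4 d) : (s * t).y = s.z * t.y + s.y * t.z + s.e * t.e * d.b₁ +
    (s.e * t.f + s.f * t.e) * d.b₂ + s.f * t.f * d.b₃ := rfl
@[simp] theorem mul_e (s t : R4 d) : (s * t).e = s.z * t.e + s.e * t.z +
    s.y * (t.e * d.a + t.f * d.b) + t.y * (s.e * d.a + s.f * d.b) := rfl
@[simp] theorem mul_f (s t : R4 d) : (s * t).f = s.z * t.f + s.f * t.z +
    s.y * (t.e * d.c - t.f * d.a) + t.y * (s.e * d.c - s.f * d.a) := rfl

instance : AddCommGroup (R4 d) where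
  add_assoc s t u := by ext <;> simp [add_assoc]
  zero_add s := by ext <;> simp
  add_zero s := by ext <;> simp
  add_comm s t := by ext <;> simp [add_comm]
  neg_add_cancel s := by ext <;> simp
  sub_eq_add_neg s t := by ext <;> simp [sub_eq_add_neg]
  nsmul := nsmulRec
  zsmul := zsmulRec

instance : CommRing (R4 d) :=
  { (inferInstance : AddCommGroup (R4 d)) with
    mul_assoc := fun s t u => by
      have h := d.rel
      ext
      · simp only [mul_z, mul_y, mul_e, mul_f, Dat.g, Dat.A₁, Dat.A₂, Dat.A₃]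
        linear_combination (d.a * s.y * t.f * u.e - d.a * s.e * t.y * u.f - d.a * s.e * t.f * u.y +
          d.a * s.f * t.y * u.e - d.c * s.y * t.e * u.e + d.c * s.e * t.e * u.y) * h
      · simp only [mul_z, mul_y, mul_e, mul_f, Dat.g, Dat.A₁, Dat.A₂, Dat.A₃]
        linear_combination (s.y * t.f * u.e - s.e * t.y * u.f - s.e * t.f * u.y + s.f * t.y * u.e) * h
      · simp only [mul_z, mul_y, mul_e, mul_f, Dat.g, Dat.A₁, Dat.A₂, Dat.A₃]
        linear_combination (s.e * t.e * u.f - s.f * t.e * u.e) * h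
      · simp only [mul_z, mul_y, mul_e, mul_f, Dat.g, Dat.A₁, Dat.A₂, Dat.A₃]
        ring
    mul_comm := fun s t => by ext <;> simp <;> ring
    one_mul := fun s => by ext <;> simp
    mul_one := fun s => by ext <;> simp
    left_distrib := fun s t u => by ext <;> simp <;> ring
    right_distrib := fun s t u => by ext <;> simp <;> ring
    zero_mul := fun s => by ext <;> simp
    mul_zero := fun s => by ext <;> simp }

instance : Algebra S (R4 d) where
  smul := fun r s => ⟨r * s.z, r * s.y, r * s.e, r * s.f⟩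
  algebraMap :=
    { toFun := fun r => ⟨r, 0, 0, 0⟩
      map_one' := rfl
      map_zero' := rfl
      map_add' := fun r s => by ext <;> simp
      map_mul' := fun r s => by ext <;> simp }
  commutes' := fun r s => mul_comm _ _
  smul_def' := fun r s => by
    change (⟨r * s.z, r * s.y, r * s.e, r * s.f⟩ : R4 d) = (⟨r, 0, 0, 0⟩ : R4 d) * s
    ext <;> simp

theorem algebraMap_eq (r : S) : algebraMap S (R4 d) r = ⟨r, 0, 0, 0⟩ := rfl

/-- The basis element `y`. -/
def Y (d : Dat S) : R4 d := ⟨0, 1, 0, 0⟩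

/-- The basis element `e₁`. -/
def E (d : Dat S) : R4 d := ⟨0, 0, 1, 0⟩

/-- The basis element `e₂`. -/
def F (d : Dat S) : R4 d := ⟨0, 0, 0, 1⟩

theorem eq_sum (s : R4 d) : s = algebraMap S (R4 d) s.z + algebraMap S (R4 d) s.y * Y d +
    algebraMap S (R4 d) s.e * E d + algebraMap S (R4 d) s.f * F d := by
  ext <;> simp [algebraMap_eq, Y, E, F]

theorem Y_mul_Y : Y d * Y d = algebraMap S (R4 d) d.g := by
  ext <;> simp [algebraMap_eq, Y]

theorem Y_mul_E : Y d * E d = algebraMap S (R4 d) d.a * E d + algebraMap S (R4 d) d.c * F d := by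
  ext <;> simp [algebraMap_eq, Y, E, F]

theorem Y_mul_F : Y d * F d = algebraMap S (R4 d) d.b * E d - algebraMap S (R4 d) d.a * F d := by
  ext <;> simp [algebraMap_eq, Y, E, F]

theorem E_mul_E : E d * E d = algebraMap S (R4 d) d.A₁ + algebraMap S (R4 d) d.b₁ * Y d := by
  ext <;> simp [algebraMap_eq, Y, E]

theorem E_mul_F : E d * F d = algebraMap S (R4 d) d.A₂ + algebraMap S (R4 d) d.b₂ * Y d := by
  ext <;> simp [algebraMap_eq, Y, E, F]

theorem F_mul_F : F d * F d = algebraMap S (R4 d) d.A₃ + algebraMap S (R4 d) d.b₃ * Y d := by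
  ext <;> simp [algebraMap_eq, Y, F]

/-- The coordinates. -/
def equivFun (d : Dat S) : R4 d ≃ₗ[S] (Fin 4 → S) where
  toFun s := ![s.z, s.y, s.e, s.f]
  invFun v := ⟨v 0, v 1, v 2, v 3⟩
  map_add' s t := by
    ext i; fin_cases i <;> rfl
  map_smul' r s := by
    ext i; fin_cases i <;> rfl
  left_inv s := rfl
  right_inv v := by
    ext i; fin_cases i <;> rfl

/-- The basis `1, y, e₁, e₂`. -/
noncomputable def basis (d : Dat S) : Module.Basis (Fin 4) S (R4 d) := .ofEquivFun (equivFun d)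

instance : Module.Free S (R4 d) := .of_basis (basis d)

instance : Module.Finite S (R4 d) := .of_basis (basis d)

instance [Nontrivial S] : Nontrivial (R4 d) :=
  ⟨⟨0, 1, fun h => zero_ne_one (congrArg R4.z h)⟩⟩

/-- The relations satisfied by the images of `y`, `e₁`, `e₂`. -/
structure Rels (d : Dat S) (ρ : S →+* T) (y e f : T) : Prop where
  yy : y * y = ρ d.g
  ye : y * e = ρ d.a * e + ρ d.c * f
  yf : y * f = ρ d.b * e - ρ d.a * f
  ee : e * e = ρ d.A₁ + ρ d.b₁ * y
  ef : e * f = ρ d.A₂ + ρ d.b₂ * y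
  ff : f * f = ρ d.A₃ + ρ d.b₃ * y

/-- Homomorphisms out of `R4 d`. -/
def lift (ρ : S →+* T) (y e f : T) (h : Rels d ρ y e f) : R4 d →+* T where
  toFun s := ρ s.z + ρ s.y * y + ρ s.e * e + ρ s.f * f
  map_one' := by simp
  map_zero' := by simp
  map_add' s t := by simp only [add_z, add_y, add_e, add_f, map_add]; ring
  map_mul' s t := by
    simp only [mul_z, mul_y, mul_e, mul_f, map_add, map_mul, map_sub]
    linear_combination (-(ρ s.y * ρ t.y)) * h.yy - (ρ s.y * ρ t.e + ρ s.e * ρ t.y) * h.ye -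
      (ρ s.y * ρ t.f + ρ s.f * ρ t.y) * h.yf - (ρ s.e * ρ t.e) * h.ee -
      (ρ s.e * ρ t.f + ρ s.f * ρ t.e) * h.ef - (ρ s.f * ρ t.f) * h.ff

section

variable (ρ : S →+* T) (y e f : T) (h : Rels d ρ y e f)

theorem lift_apply (s : R4 d) : lift ρ y e f h s = ρ s.z + ρ s.y * y + ρ s.e * e + ρ s.f * f := rfl

@[simp] theorem lift_algebraMap (r : S) : lift ρ y e f h (algebraMap S (R4 d) r) = ρ r := by
  simp [lift_apply, algebraMap_eq]

@[simp] theorem lift_Y : lift ρ y e f h (Y d) = y := by simp [lift_apply, Y]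
@[simp] theorem lift_E : lift ρ y e f h (E d) = e := by simp [lift_apply, E]
@[simp] theorem lift_F : lift ρ y e f h (F d) = f := by simp [lift_apply, F]

end

theorem hom_ext {φ ψ : R4 d →+* T}
    (h : φ.comp (algebraMap S (R4 d)) = ψ.comp (algebraMap S (R4 d)))
    (hy : φ (Y d) = ψ (Y d)) (he : φ (E d) = ψ (E d)) (hf : φ (F d) = ψ (F d)) : φ = ψ := by
  ext s
  have h1 : ∀ r : S, φ (algebraMap S (R4 d) r) = ψ (algebraMap S (R4 d) r) := fun r =>
    congrArg (fun g : S →+* T => g r) h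
  rw [eq_sum s]
  simp only [map_add, map_mul, h1, hy, he, hf]

/-- The structure homomorphism from the base ring of the polynomial ring. -/
noncomputable def base {R : Type} [CommRing R] (d : Dat R[X]) : R →+* R4 d :=
  (algebraMap R[X] (R4 d)).comp C

theorem base_apply {R : Type} [CommRing R] (d : Dat R[X]) (r : R) :
    base d r = algebraMap R[X] (R4 d) (C r) := rfl

theorem rels_self (d : Dat S) : Rels d (algebraMap S (R4 d)) (Y d) (E d) (F d) where
  yy := Y_mul_Y
  ye := Y_mul_E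
  yf := Y_mul_F
  ee := E_mul_E
  ef := E_mul_F
  ff := F_mul_F

end R4

end Pool.Agent.Work.MP_2eb777_ag
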