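import Pool.Agent.Work.MP_2eb777_ag.Q1.Data1

set_option autoImplicit false

open CategoryTheory CategoryTheory.Limits AlgebraicGeometry Polynomial

namespace Pool.Agent.Work.MP_2eb777_ag

namespace Chg

variable {S S' : Type} [CommRing S] [CommRing S']

/-- Extension of scalars of a change of basis. -/
def map (f : S →+* S') {d d' : Dat S} (m : Chg d d') : Chg (d.map f) (d'.map f) where
  τ := f m.τ
  τ' := f m.τ'
  hτ := by rw [← map_mul, m.hτ, map_one]
  p := f m.p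
  q := f m.q
  r := f m.r
  s := f m.s
  δ := f m.δ
  hδ := by
    have := congrArg f m.hδ
    simpa only [map_mul, map_sub, map_one] using this
  hb₁ := by
    have := congrArg f m.hb₁
    simpa only [Dat.map, map_mul, map_add, map_pow, map_ofNat] using this
  hb₂ := by
    have := congrArg f m.hb₂
    simpa only [Dat.map, map_mul, map_add, map_pow, map_ofNat] using this
  hb₃ := by
    have := congrArg f m.hb₃
    simpa only [Dat.map, map_mul, map_add, map_pow, map_ofNat] using this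
  ha₁ := by
    have := congrArg f m.ha₁
    simpa only [Dat.map, map_mul, map_add, map_sub] using this
  hc₁ := by
    have := congrArg f m.hc₁
    simpa only [Dat.map, map_mul, map_add, map_sub] using this
  ha₂ := by
    have := congrArg f m.ha₂
    simpa only [Dat.map, map_mul, map_add, map_sub] using this
  hc₂ := by
    have := congrArg f m.hc₂
    simpa only [Dat.map, map_mul, map_add, map_sub] using this

/-- Composition. -/
def trans {A B D : Dat S} (m₁ : Chg A B) (m₂ : Chg B D) : Chg A D where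
  τ := m₁.τ * m₂.τ
  τ' := m₁.τ' * m₂.τ'
  hτ := by linear_combination (m₂.τ' * m₂.τ) * m₁.hτ + m₂.hτ
  p := m₁.p * m₂.p + m₁.q * m₂.r
  q := m₁.p * m₂.q + m₁.q * m₂.s
  r := m₁.r * m₂.p + m₁.s * m₂.r
  s := m₁.r * m₂.q + m₁.s * m₂.s
  δ := m₁.δ * m₂.δ
  hδ := by linear_combination (m₂.δ * (m₂.p * m₂.s - m₂.q * m₂.r)) * m₁.hδ + m₂.hδ
  hb₁ := by
    linear_combination m₂.τ * m₁.hb₁ + m₁.p ^ 2 * m₂.hb₁ + 2 * m₁.p * m₁.q * m₂.hb₂ +
      m₁.q ^ 2 * m₂.hb₃
  hb₂ := by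
    linear_combination m₂.τ * m₁.hb₂ + m₁.p * m₁.r * m₂.hb₁ +
      (m₁.p * m₁.s + m₁.q * m₁.r) * m₂.hb₂ + m₁.q * m₁.s * m₂.hb₃
  hb₃ := by
    linear_combination m₂.τ * m₁.hb₃ + m₁.r ^ 2 * m₂.hb₁ + 2 * m₁.r * m₁.s * m₂.hb₂ +
      m₁.s ^ 2 * m₂.hb₃
  ha₁ := by
    linear_combination m₁.τ * m₁.p * m₂.ha₁ + m₁.τ * m₁.q * m₂.ha₂ + m₂.p * m₁.ha₁ +
      m₂.r * m₁.hc₁
  hc₁ := by
    linear_combination m₁.τ * m₁.p * m₂.hc₁ + m₁.τ * m₁.q * m₂.hc₂ + m₂.q * m₁.ha₁ +
      m₂.s * m₁.hc₁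
  ha₂ := by
    linear_combination m₁.τ * m₁.r * m₂.ha₁ + m₁.τ * m₁.s * m₂.ha₂ + m₂.p * m₁.ha₂ +
      m₂.r * m₁.hc₂
  hc₂ := by
    linear_combination m₁.τ * m₁.r * m₂.hc₁ + m₁.τ * m₁.s * m₂.hc₂ + m₂.q * m₁.ha₂ +
      m₂.s * m₁.hc₂

/-- The change of basis `A → C` with given coefficients whose composition with `C → D` is a given
change of basis `A → D`. -/
def cancel {A C D : Dat S} (m : Chg A D) (m₃ : Chg C D) (τ τ' p q r s δ : S)
    (hτ : τ' * τ = 1) (hδ : δ * (p * s - q * r) = 1) (h0 : τ * m₃.τ = m.τ)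
    (h1 : p * m₃.p + q * m₃.r = m.p) (h2 : p * m₃.q + q * m₃.s = m.q)
    (h3 : r * m₃.p + s * m₃.r = m.r) (h4 : r * m₃.q + s * m₃.s = m.s) : Chg A C where
  τ := τ
  τ' := τ'
  hτ := hτ
  p := p
  q := q
  r := r
  s := s
  δ := δ
  hδ := hδ
  hb₁ := by
    have e := m.hb₁
    rw [← h0, ← h1, ← h2] at e
    linear_combination m₃.τ' * e - m₃.τ' * p ^ 2 * m₃.hb₁ - m₃.τ' * (2 * p * q) * m₃.hb₂ -
      m₃.τ' * q ^ 2 * m₃.hb₃ -
      (A.b₁ * τ - (p ^ 2 * C.b₁ + 2 * p * q * C.b₂ + q ^ 2 * C.b₃)) * m₃.hτ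
  hb₂ := by
    have e := m.hb₂
    rw [← h0, ← h1, ← h2, ← h3, ← h4] at e
    linear_combination m₃.τ' * e - m₃.τ' * (p * r) * m₃.hb₁ -
      m₃.τ' * (p * s + q * r) * m₃.hb₂ - m₃.τ' * (q * s) * m₃.hb₃ -
      (A.b₂ * τ - (p * r * C.b₁ + (p * s + q * r) * C.b₂ + q * s * C.b₃)) * m₃.hτ
  hb₃ := by
    have e := m.hb₃
    rw [← h0, ← h3, ← h4] at e
    linear_combination m₃.τ' * e - m₃.τ' * r ^ 2 * m₃.hb₁ - m₃.τ' * (2 * r * s) * m₃.hb₂ -
      m₃.τ' * s ^ 2 * m₃.hb₃ -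
      (A.b₃ * τ - (r ^ 2 * C.b₁ + 2 * r * s * C.b₂ + s ^ 2 * C.b₃)) * m₃.hτ
  ha₁ := by
    have e1 := m.ha₁
    have e2 := m.hc₁
    rw [← h0, ← h1, ← h2, ← h3] at e1
    rw [← h0, ← h1, ← h2, ← h4] at e2
    linear_combination m₃.δ * m₃.s * (e1 - τ * p * m₃.ha₁ - τ * q * m₃.ha₂) -
      m₃.δ * m₃.r * (e2 - τ * p * m₃.hc₁ - τ * q * m₃.hc₂) -
      (τ * (p * C.a + q * C.b) - (A.a * p + A.c * r)) * m₃.hδ
  hc₁ := by
    have e1 := m.ha₁
    have e2 := m.hc₁
    rw [← h0, ← h1, ← h2, ← h3] at e1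
    rw [← h0, ← h1, ← h2, ← h4] at e2
    linear_combination m₃.δ * m₃.p * (e2 - τ * p * m₃.hc₁ - τ * q * m₃.hc₂) -
      m₃.δ * m₃.q * (e1 - τ * p * m₃.ha₁ - τ * q * m₃.ha₂) -
      (τ * (p * C.c - q * C.a) - (A.a * q + A.c * s)) * m₃.hδ
  ha₂ := by
    have e1 := m.ha₂
    have e2 := m.hc₂
    rw [← h0, ← h1, ← h3, ← h4] at e1
    rw [← h0, ← h2, ← h3, ← h4] at e2
    linear_combination m₃.δ * m₃.s * (e1 - τ * r * m₃.ha₁ - τ * s * m₃.ha₂) -
      m₃.δ * m₃.r * (e2 - τ * r * m₃.hc₁ - τ * s * m₃.hc₂) -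
      (τ * (r * C.a + s * C.b) - (A.b * p - A.a * r)) * m₃.hδ
  hc₂ := by
    have e1 := m.ha₂
    have e2 := m.hc₂
    rw [← h0, ← h1, ← h3, ← h4] at e1
    rw [← h0, ← h2, ← h3, ← h4] at e2
    linear_combination m₃.δ * m₃.p * (e2 - τ * r * m₃.hc₁ - τ * s * m₃.hc₂) -
      m₃.δ * m₃.q * (e1 - τ * r * m₃.ha₁ - τ * s * m₃.ha₂) -
      (τ * (r * C.c - s * C.a) - (A.b * q - A.a * s)) * m₃.hδ

/-- A change of basis whose coefficients and structure constants come from a subring. -/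
def ofInjective (f : S →+* S') (hf : Function.Injective f) {d d' : Dat S}
    (m : Chg (d.map f) (d'.map f)) (τ τ' p q r s δ : S) (hτ : τ' * τ = 1)
    (hδ : δ * (p * s - q * r) = 1) (h0 : f τ = m.τ) (h1 : f p = m.p) (h2 : f q = m.q)
    (h3 : f r = m.r) (h4 : f s = m.s) : Chg d d' where
  τ := τ
  τ' := τ'
  hτ := hτ
  p := p
  q := q
  r := r
  s := s
  δ := δ
  hδ := hδ
  hb₁ := by
    apply hf
    have e := m.hb₁
    rw [← h0, ← h1, ← h2] at e
    simpa only [Dat.map, map_mul, map_add, map_pow, map_ofNat] using e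
  hb₂ := by
    apply hf
    have e := m.hb₂
    rw [← h0, ← h1, ← h2, ← h3, ← h4] at e
    simpa only [Dat.map, map_mul, map_add, map_pow, map_ofNat] using e
  hb₃ := by
    apply hf
    have e := m.hb₃
    rw [← h0, ← h3, ← h4] at e
    simpa only [Dat.map, map_mul, map_add, map_pow, map_ofNat] using e
  ha₁ := by
    apply hf
    have e := m.ha₁
    rw [← h0, ← h1, ← h2, ← h3] at e
    simpa only [Dat.map, map_mul, map_add, map_sub] using e
  hc₁ := by
    apply hf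
    have e := m.hc₁
    rw [← h0, ← h1, ← h2, ← h4] at e
    simpa only [Dat.map, map_mul, map_add, map_sub] using e
  ha₂ := by
    apply hf
    have e := m.ha₂
    rw [← h0, ← h1, ← h3, ← h4] at e
    simpa only [Dat.map, map_mul, map_add, map_sub] using e
  hc₂ := by
    apply hf
    have e := m.hc₂
    rw [← h0, ← h2, ← h3, ← h4] at e
    simpa only [Dat.map, map_mul, map_add, map_sub] using e

/-- Change of basis between structure constants of the special form. -/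
def mk₁ (ρ l A Q D ρ' l' A' Q' D' p t ρi pi ti : S) (hρ : ρi * ρ = 1) (hp : pi * p = 1)
    (ht : ti * t = 1) (h1 : ρ = p ^ 2 * ρ')
    (h2 : ρ * A * ρ + Q * l = p ^ 2 * (ρ' * A' * ρ' + Q' * l'))
    (h3 : p ^ 2 * (ρ * (ρ * D) - l ^ 2) = t ^ 2 * (ρ' * (ρ' * D') - l' ^ 2))
    (h4 : t * Q = p ^ 3 * Q') : Chg (Dat.mk₁ ρ l A Q D) (Dat.mk₁ ρ' l' A' Q' D') where
  τ := 1
  τ' := 1
  hτ := one_mul 1
  p := p
  q := 0
  r := ρi * (l * p - t * l')
  s := ρi * t * ρ'
  δ := ti * p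
  hδ := by linear_combination (-(ti * t * ρi)) * h1 + ρi * ρ * ht + hρ
  hb₁ := by simp only [Dat.mk₁]; linear_combination h1
  hb₂ := by simp only [Dat.mk₁]; linear_combination (-l) * hρ + (l * ρi) * h1
  hb₃ := by
    simp only [Dat.mk₁]
    linear_combination (ρ' * ρi ^ 2) * h3 + (ρi ^ 2 * ρ ^ 2 * D) * h1 -
      (ρ * D * (ρi * ρ + 1)) * hρ
  ha₁ := by
    simp only [Dat.mk₁]
    linear_combination ρi * (p * ρ' * A' * h1 + l' * h4 - p * h2) -
      (p * ρ' * A' - ρ * A * p) * hρ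
  hc₁ := by
    simp only [Dat.mk₁]
    linear_combination (-(p * Q')) * hρ + (p * Q' * ρi) * h1 - (ρi * ρ') * h4
  ha₂ := by
    simp only [Dat.mk₁]
    have Y : p * ρ * ρ' * A' = ρ ^ 2 * A * p + Q * l * p - Q * t * l' := by
      linear_combination p * ρ' * A' * h1 + l' * h4 - p * h2
    have Z : p * ρ * (l * p * ρ' * A' + t * l' * ρ' * A' + t * ρ' * Q' * D' - ρ * l * A * p -
        ρ * Q * D * p - ρ * A * t * l') = 0 := by
      linear_combination (l * p + t * l') * Y - Q * h3 - t * D' * ρ' ^ 2 * h4 +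
        t * p * ρ' * Q' * D' * h1
    have Z' : l * p * ρ' * A' + t * l' * ρ' * A' + t * ρ' * Q' * D' - ρ * l * A * p -
        ρ * Q * D * p - ρ * A * t * l' = 0 := by
      linear_combination (pi * ρi) * Z - (l * p * ρ' * A' + t * l' * ρ' * A' +
        t * ρ' * Q' * D' - ρ * l * A * p - ρ * Q * D * p - ρ * A * t * l') *
        (pi * p * hρ + hp)
    linear_combination ρi * Z' + ((2 * l * A + Q * D) * p) * hρ
  hc₂ := by
    simp only [Dat.mk₁]
    have W : p ^ 2 * (l * p * Q' - t * l' * Q' - t * ρ' ^ 2 * A' + ρ * A * t * ρ') = 0 := by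
      linear_combination (-l) * h4 + t * h2 - t * ρ * A * h1
    have W' : l * p * Q' - t * l' * Q' - t * ρ' ^ 2 * A' + ρ * A * t * ρ' = 0 := by
      linear_combination pi ^ 2 * W - (l * p * Q' - t * l' * Q' - t * ρ' ^ 2 * A' +
        ρ * A * t * ρ') * (pi * p + 1) * hp
    linear_combination ρi * W'

end Chg

theorem toLaurentInv_injective {R : Type} [CommRing R] :
    Function.Injective (toLaurentInv : R[X] →+* LaurentPolynomial R) := by
  intro p q hpq
  rw [toLaurentInv_apply, toLaurentInv_apply] at hpq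
  exact toLaurent_injective ((LaurentPolynomial.invert (R := R)).injective hpq)

/-- A morphism of gluing data is determined by the change of basis on the first chart and
compatible coefficients on the second. -/
noncomputable def Glu.Hom.ofCompat {R R' : Type} [CommRing R] [CommRing R'] {φ : R →+* R'}
    {l : R'ˣ} {G : Glu R} {G' : Glu R'} (m : Chg (G.d.map (sc φ (l : R'))) G'.d)
    (τ τ' p q r s δ : R'[X]) (hτ : τ' * τ = 1) (hδ : δ * (p * s - q * r) = 1)
    (h0 : scL φ l G.c.τ * toLaurent m.τ = toLaurentInv τ * G'.c.τ)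
    (h1 : scL φ l G.c.p * toLaurent m.p + scL φ l G.c.q * toLaurent m.r =
      toLaurentInv p * G'.c.p + toLaurentInv q * G'.c.r)
    (h2 : scL φ l G.c.p * toLaurent m.q + scL φ l G.c.q * toLaurent m.s =
      toLaurentInv p * G'.c.q + toLaurentInv q * G'.c.s)
    (h3 : scL φ l G.c.r * toLaurent m.p + scL φ l G.c.s * toLaurent m.r =
      toLaurentInv r * G'.c.p + toLaurentInv s * G'.c.r)
    (h4 : scL φ l G.c.r * toLaurent m.q + scL φ l G.c.s * toLaurent m.s =
      toLaurentInv r * G'.c.q + toLaurentInv s * G'.c.s) : Glu.Hom φ l G G' where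
  m := m
  m' :=
    have e1 : (G.d'.map toLaurentInv).map (scL φ l) =
        (G.d'.map (sc φ ((l⁻¹ : R'ˣ) : R'))).map toLaurentInv := by
      ext <;> simp only [Dat.map, scL_toLaurentInv]
    have e2 : (G.d.map (sc φ (l : R'))).map toLaurent =
        (G.d.map toLaurent).map (scL φ l) := by
      ext <;> simp only [Dat.map, scL_toLaurent]
    Chg.ofInjective toLaurentInv toLaurentInv_injective
      (((Chg.congr e1 rfl (G.c.map (scL φ l))).trans
        (Chg.congr e2 rfl (m.map toLaurent))).cancel G'.c (toLaurentInv τ) (toLaurentInv τ')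
        (toLaurentInv p) (toLaurentInv q) (toLaurentInv r) (toLaurentInv s) (toLaurentInv δ)
        (by rw [← map_mul, hτ, map_one])
        (by rw [← map_mul, ← map_mul, ← map_sub, ← map_mul, hδ, map_one])
        h0.symm h1.symm h2.symm h3.symm h4.symm)
      τ τ' p q r s δ hτ hδ rfl rfl rfl rfl rfl
  hτ := h0
  hp := h1
  hq := h2
  hr := h3
  hs := h4

end Pool.Agent.Work.MP_2eb777_ag
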