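import Pool.Agent.Work.MP_2eb777_ag.Connected

set_option autoImplicit false

open Polynomial

namespace Pool.Agent.Work.MP_2eb777_ag

/-- A polynomial with a simple root is not the square of a rational function. -/
theorem nonSquare_of_simple_root {k : Type} [Field k] (f : k[X]) (a : k) (h0 : f.eval a = 0)
    (h1 : (derivative f).eval a ≠ 0) : NonSquare f := by
  intro p q h
  by_contra hq
  have hf0 : f ≠ 0 := by
    rintro rfl
    simp at h1
  have hp : p ≠ 0 := by
    rintro rfl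
    rw [zero_pow two_ne_zero] at h
    exact (mul_ne_zero hf0 (pow_ne_zero 2 hq)) h.symm
  have h2 : f.rootMultiplicity a = 1 := by
    apply le_antisymm
    · by_contra hlt
      have h3 : 1 < f.rootMultiplicity a := by omega
      have h4 := (Polynomial.one_lt_rootMultiplicity_iff_isRoot hf0).1 h3
      exact h1 h4.2
    · exact (Polynomial.rootMultiplicity_pos hf0).2 h0
  have h3 := congrArg (Polynomial.rootMultiplicity a) h
  rw [sq, sq, Polynomial.rootMultiplicity_mul (mul_ne_zero hp hp),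
    Polynomial.rootMultiplicity_mul (mul_ne_zero hf0 (mul_ne_zero hq hq)),
    Polynomial.rootMultiplicity_mul (mul_ne_zero hq hq), h2] at h3
  omega

theorem deriv_g (R : Type) [CommRing R] : derivative (((X : R[X]) ^ 2 - 1) * (X ^ 6 + 1)) =
    8 * X ^ 7 - 6 * X ^ 5 + 2 * X := by
  have h2 : (C 2 : R[X]) = 2 := map_ofNat C 2
  have h6 : (C 6 : R[X]) = 6 := map_ofNat C 6
  simp only [derivative_mul, derivative_sub, derivative_add, derivative_X_pow, derivative_one]
  simp [h2, h6]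
  ring

theorem deriv_g' (R : Type) [CommRing R] : derivative ((1 - (X : R[X]) ^ 2) * (1 + X ^ 6)) =
    -(8 * X ^ 7 - 6 * X ^ 5 + 2 * X) := by
  have h := deriv_g R
  have h2 : (1 - (X : R[X]) ^ 2) * (1 + X ^ 6) = -(((X : R[X]) ^ 2 - 1) * (X ^ 6 + 1)) := by ring
  rw [h2, derivative_neg, h]

theorem span_g {R : Type} [CommRing R] (h12 : IsUnit (12 : R)) :
    Ideal.span {((X : R[X]) ^ 2 - 1) * (X ^ 6 + 1),
      derivative (((X : R[X]) ^ 2 - 1) * (X ^ 6 + 1))} = ⊤ := by
  rw [deriv_g, Ideal.eq_top_iff_one]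
  obtain ⟨t, ht⟩ := h12.exists_left_inv
  have ht' : (C t : R[X]) * 12 = 1 := by
    have := congrArg (C : R →+* R[X]) ht
    simpa only [map_mul, map_ofNat, map_one] using this
  rw [Ideal.mem_span_pair]
  refine ⟨C t * (-8 * X ^ 4 - 10 * X ^ 2 - 12), C t * (X ^ 5 + X ^ 3 + X), ?_⟩
  linear_combination ht'

theorem span_g' {R : Type} [CommRing R] (h12 : IsUnit (12 : R)) :
    Ideal.span {(1 - (X : R[X]) ^ 2) * (1 + X ^ 6),
      derivative ((1 - (X : R[X]) ^ 2) * (1 + X ^ 6))} = ⊤ := by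
  rw [deriv_g', Ideal.eq_top_iff_one]
  obtain ⟨t, ht⟩ := h12.exists_left_inv
  have ht' : (C t : R[X]) * 12 = 1 := by
    have := congrArg (C : R →+* R[X]) ht
    simpa only [map_mul, map_ofNat, map_one] using this
  rw [Ideal.mem_span_pair]
  refine ⟨C t * (8 * X ^ 4 + 10 * X ^ 2 + 12), C t * (-(X ^ 5 + X ^ 3 + X)), ?_⟩
  linear_combination ht'

theorem nonSquare_g {k : Type} [Field k] (h2 : (2 : k) ≠ 0) :
    NonSquare (((X : k[X]) ^ 2 - 1) * (X ^ 6 + 1)) := by
  apply nonSquare_of_simple_root _ 1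
  · simp
  · rw [deriv_g]
    simp only [eval_add, eval_sub, eval_mul, eval_pow, eval_X, eval_ofNat]
    have : (8 * 1 ^ 7 - 6 * 1 ^ 5 + 2 * 1 : k) = 2 * 2 := by ring
    rw [this]
    exact mul_ne_zero h2 h2

end Pool.Agent.Work.MP_2eb777_ag
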