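import Pool.Agent.Work.MP_2eb777_ag.Q1.Hom

set_option autoImplicit false

open CategoryTheory CategoryTheory.Limits AlgebraicGeometry Polynomial

namespace Pool.Agent.Work.MP_2eb777_ag

/-- Gluing data of a curve of degree four over the projective line: the structure constants `d`
over `R[u]`, the structure constants `d'` over `R[v]`, and a change of basis over `R[u, v]`,
`u v = 1`. -/
structure Glu (R : Type) [CommRing R] where
  d : Dat R[X]
  d' : Dat R[X]
  c : Chg (d'.map toLaurentInv) (d.map toLaurent)

namespace Glu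

variable {R R' : Type} [CommRing R] [CommRing R']

/-- The inclusion of the coordinate ring of the first chart. -/
noncomputable def iHom (G : Glu R) : R4 G.d →+* R4 (G.d.map toLaurent) := R4.can toLaurent G.d

/-- The inclusion of the coordinate ring of the second chart. -/
noncomputable def jHom (G : Glu R) : R4 G.d' →+* R4 (G.d.map toLaurent) :=
  G.c.hom.comp (R4.can toLaurentInv G.d')

variable (G : Glu R)

@[simp] theorem iHom_algebraMap (p : R[X]) :
    G.iHom (algebraMap R[X] _ p) = algebraMap _ _ (toLaurent p) := by simp [iHom]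

@[simp] theorem jHom_algebraMap (p : R[X]) :
    G.jHom (algebraMap R[X] _ p) = algebraMap _ _ (toLaurentInv p) := by simp [jHom]

@[simp] theorem iHom_Y : G.iHom (R4.Y _) = R4.Y _ := by simp [iHom]
@[simp] theorem iHom_E : G.iHom (R4.E _) = R4.E _ := by simp [iHom]
@[simp] theorem iHom_F : G.iHom (R4.F _) = R4.F _ := by simp [iHom]
@[simp] theorem jHom_Y : G.jHom (R4.Y _) = algebraMap _ _ G.c.τ * R4.Y _ := by simp [jHom]
@[simp] theorem jHom_E : G.jHom (R4.E _) = algebraMap _ _ G.c.p * R4.E _ +
    algebraMap _ _ G.c.q * R4.F _ := by simp [jHom]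
@[simp] theorem jHom_F : G.jHom (R4.F _) = algebraMap _ _ G.c.r * R4.E _ +
    algebraMap _ _ G.c.s * R4.F _ := by simp [jHom]

theorem iHom_apply (z : R4 G.d) :
    G.iHom z = ⟨toLaurent z.z, toLaurent z.y, toLaurent z.e, toLaurent z.f⟩ :=
  R4.can_apply _ _ _

theorem jHom_apply (z : R4 G.d') :
    G.jHom z = ⟨toLaurentInv z.z, toLaurentInv z.y * G.c.τ,
      toLaurentInv z.e * G.c.p + toLaurentInv z.f * G.c.r,
      toLaurentInv z.e * G.c.q + toLaurentInv z.f * G.c.s⟩ := by
  rw [jHom, RingHom.comp_apply, R4.can_apply, Chg.hom_apply]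

theorem comm : G.iHom.comp (R4.base G.d) = G.jHom.comp (R4.base G.d') := by
  apply RingHom.ext
  intro r
  rw [RingHom.comp_apply, RingHom.comp_apply, R4.base_apply, R4.base_apply, iHom_algebraMap,
    jHom_algebraMap, toLaurent_C, toLaurentInv_apply, toLaurent_C, LaurentPolynomial.invert_C]

theorem iHom_mul_jHom :
    G.iHom (algebraMap R[X] _ X) * G.jHom (algebraMap R[X] _ X) = 1 := by
  rw [iHom_algebraMap, jHom_algebraMap, ← map_mul, toLaurentInv_apply, toLaurent_X,
    LaurentPolynomial.invert_T, ← LaurentPolynomial.T_add, add_neg_cancel,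
    LaurentPolynomial.T_zero, map_one]

theorem isLocalization_comp_bijective {A B C : Type} [CommRing A] [CommRing B] [CommRing C]
    (f : A →+* B) (e : B →+* C) (he : Function.Bijective e) (x : A)
    (h : @IsLocalization.Away _ _ x B _ f.toAlgebra) :
    @IsLocalization.Away _ _ x C _ (e.comp f).toAlgebra := by
  let := f.toAlgebra
  exact @IsLocalization.isLocalization_of_algEquiv _ _ (Submonoid.powers x) _ _ _
    C _ (e.comp f).toAlgebra h
    (@AlgEquiv.ofRingEquiv _ _ _ _ _ _ _ (e.comp f).toAlgebra
      (RingEquiv.ofBijective e he) (fun r => rfl))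

/-- The two charts. -/
noncomputable def curve : TwoCharts (.of R) where
  A := .of (R4 G.d)
  B := .of (R4 G.d')
  C := .of (R4 (G.d.map toLaurent))
  a := CommRingCat.ofHom (R4.base G.d)
  b := CommRingCat.ofHom (R4.base G.d')
  i := CommRingCat.ofHom G.iHom
  j := CommRingCat.ofHom G.jHom
  comm := by rw [← CommRingCat.ofHom_comp, ← CommRingCat.ofHom_comp, G.comm]
  x := algebraMap R[X] (R4 G.d) X
  u := algebraMap R[X] (R4 G.d') X
  hi := R4.can_isLocalization toLaurent G.d X isLocalization_toLaurent
  hj := isLocalization_comp_bijective _ _ G.c.hom_bijective _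
    (R4.can_isLocalization toLaurentInv G.d' X isLocalization_toLaurentInv)
  xu := G.iHom_mul_jHom

theorem finiteType_base (d : Dat R[X]) : (R4.base d).FiniteType := by
  have h1 : (algebraMap R R[X]).FiniteType := by
    rw [RingHom.finiteType_algebraMap]
    infer_instance
  have h2 : (algebraMap R[X] (R4 d)).FiniteType := by
    rw [RingHom.finiteType_algebraMap]
    infer_instance
  exact h2.comp h1

theorem bounded_base (d : Dat R[X]) :
    Bounded (CommRingCat.ofHom (R4.base d)) (A := .of (R4 d)) (algebraMap R[X] (R4 d) X) := by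
  intro O K _ _ _ _ _ _ φ ψ h hx z
  obtain ⟨t, ht⟩ := hx
  have key : ∀ p : R[X], φ (algebraMap R[X] (R4 d) p) =
      algebraMap O K (Polynomial.eval₂ ψ t p) := by
    intro p
    rw [Polynomial.hom_eval₂, ← h, ht]
    have h1 : φ (algebraMap R[X] (R4 d) p) = (φ.comp (algebraMap R[X] (R4 d))) p := rfl
    rw [h1]
    conv_lhs => rw [← Polynomial.eval₂_C_X (p := p)]
    rw [Polynomial.hom_eval₂]
    rfl
  have h1 : (algebraMap R[X] (R4 d)).IsIntegral := fun z => by
    have : Algebra.IsIntegral R[X] (R4 d) := inferInstance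
    exact this.isIntegral z
  obtain ⟨P, hP, hz⟩ := h1 z
  have h2 : IsIntegral O (φ z) := by
    refine ⟨P.map (eval₂RingHom ψ t), hP.map _, ?_⟩
    rw [eval₂_map]
    have h3 : (algebraMap O K).comp (eval₂RingHom ψ t) = φ.comp (algebraMap R[X] (R4 d)) := by
      apply RingHom.ext
      intro p
      exact (key p).symm
    rw [h3, ← Polynomial.hom_eval₂, hz, map_zero]
  exact (IsIntegrallyClosed.isIntegral_iff).1 h2

theorem isProper [IsNoetherianRing R] : IsProper G.curve.toSpec := by
  have : IsNoetherianRing (CommRingCat.of R) := inferInstanceAs (IsNoetherianRing R)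
  exact G.curve.isProper (finiteType_base G.d) (finiteType_base G.d') (bounded_base G.d)
    (bounded_base G.d')

end Glu

end Pool.Agent.Work.MP_2eb777_ag
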