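import Pool.Agent.Work.MP_2eb777_ag.Q1.Hom
import Pool.Agent.Work.MP_2eb777_ag.Q1.Glu
import Pool.Agent.Work.MP_2eb777_ag.Connected

set_option autoImplicit false

open CategoryTheory CategoryTheory.Limits AlgebraicGeometry Polynomial

namespace Pool.Agent.Work.MP_2eb777_ag

theorem NonSquare.ne_zero {k : Type} [Field k] {f : k[X]} (hf : NonSquare f) : f ≠ 0 := by
  rintro rfl
  exact one_ne_zero (hf 0 1 (by ring))

namespace R4

section norm

variable {S : Type} [CommRing S] {d : Dat S}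

/-- first coordinate of the norm to `S + S y` -/
def nr (s : R4 d) : S := s.z ^ 2 + d.g * s.y ^ 2 -
  (s.e ^ 2 * d.A₁ + 2 * s.e * s.f * d.A₂ + s.f ^ 2 * d.A₃)

/-- second coordinate of the norm to `S + S y` -/
def ni (s : R4 d) : S := 2 * s.z * s.y - (s.e ^ 2 * d.b₁ + 2 * s.e * s.f * d.b₂ + s.f ^ 2 * d.b₃)

/-- the norm to `S` -/
def nrm (s : R4 d) : S := s.nr ^ 2 - d.g * s.ni ^ 2

theorem exists_mul_eq_nrm (s : R4 d) : ∃ t : R4 d, s * t = algebraMap S (R4 d) s.nrm := by
  refine ⟨⟨s.z, s.y, -s.e, -s.f⟩ * ⟨s.nr, -s.ni, 0, 0⟩, ?_⟩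
  rw [← mul_assoc]
  have h : s * ⟨s.z, s.y, -s.e, -s.f⟩ = ⟨s.nr, s.ni, 0, 0⟩ := by
    ext <;> simp only [mul_z, mul_y, mul_e, mul_f, nr, ni] <;> ring
  rw [h, algebraMap_eq]
  ext <;> simp only [mul_z, mul_y, mul_e, mul_f, nrm] <;> ring

theorem isDomain_of_nrm [IsDomain S] (h : ∀ s : R4 d, s.nrm = 0 → s = 0) : IsDomain (R4 d) := by
  have hno : NoZeroDivisors (R4 d) := by
    refine ⟨fun {s t} hst => ?_⟩
    obtain ⟨s', hs⟩ := exists_mul_eq_nrm s
    obtain ⟨t', ht⟩ := exists_mul_eq_nrm t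
    have h3 : algebraMap S (R4 d) (s.nrm * t.nrm) = 0 := by
      rw [map_mul, ← hs, ← ht]
      linear_combination (s' * t') * hst
    rw [algebraMap_eq] at h3
    have h4 : s.nrm * t.nrm = 0 := congrArg R4.z h3
    rcases mul_eq_zero.1 h4 with h5 | h5
    · exact Or.inl (h s h5)
    · exact Or.inr (h t h5)
  exact NoZeroDivisors.to_isDomain _

end norm

/-- The algebra with structure constants `d` is a domain. -/
theorem isDomain_of {k : Type} [Field k] (h2 : (2 : k) ≠ 0) (d : Dat k[X])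
    (hg : NonSquare d.g) (hc : d.c ≠ 0)
    (h : NonSquare (-d.κ) ∨ (d.b₁ = 0 ∧ NonSquare d.A₁ ∧ NonSquare (d.A₁ * d.g))) :
    IsDomain (R4 d) := by
  have h2' : (2 : k[X]) ≠ 0 := by
    intro h0
    apply h2
    have := congrArg (Polynomial.eval 0) h0
    simpa using this
  refine isDomain_of_nrm (fun s hs => ?_)
  have hrel := d.rel
  have hni : s.ni = 0 := hg s.nr s.ni (sub_eq_zero.1 hs)
  have hnr : s.nr = 0 := by
    rw [nrm, hni] at hs
    have : s.nr ^ 2 = 0 := by linear_combination hs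
    exact pow_eq_zero_iff (two_ne_zero) |>.1 this
  rw [ni] at hni
  rw [nr] at hnr
  -- `ω = W₀ + f y` vanishes
  have hω : (d.c * s.e - d.a * s.f) ^ 2 - d.g * s.f ^ 2 = 0 := by
    by_contra hr
    set W := d.c * s.e - d.a * s.f with hW
    set r := W ^ 2 - d.g * s.f ^ 2 with hrdef
    set p := d.c * s.z * W - d.g * (d.c * s.y) * s.f with hp
    set q := d.c * s.y * W - d.c * s.z * s.f with hq
    have e1 : (d.c * s.z) ^ 2 + d.g * (d.c * s.y) ^ 2 =
        (W ^ 2 + d.g * s.f ^ 2) * d.A₁ + 2 * W * s.f * d.b₁ * d.g := by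
      rw [hW]
      simp only [Dat.g, Dat.A₁, Dat.A₂, Dat.A₃] at hnr ⊢
      linear_combination d.c ^ 2 * hnr + (-2 * d.c ^ 2 * s.e * s.f + d.a * d.c * s.f ^ 2) * hrel
    have e2 : 2 * (d.c * s.z) * (d.c * s.y) =
        (W ^ 2 + d.g * s.f ^ 2) * d.b₁ + 2 * W * s.f * d.A₁ := by
      rw [hW]
      simp only [Dat.g, Dat.A₁] at hni ⊢
      linear_combination d.c ^ 2 * hni - d.c * s.f ^ 2 * hrel
    have e3 : p ^ 2 + d.g * q ^ 2 = d.A₁ * r ^ 2 := by
      rw [hp, hq, hrdef]
      linear_combination (W ^ 2 + d.g * s.f ^ 2) * e1 - 2 * d.g * W * s.f * e2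
    have e4 : 2 * p * q = d.b₁ * r ^ 2 := by
      rw [hp, hq, hrdef]
      linear_combination (W ^ 2 + d.g * s.f ^ 2) * e2 - 2 * W * s.f * e1
    rcases h with h | ⟨hb, hA, hAg⟩
    · have e5 : d.A₁ ^ 2 - d.g * d.b₁ ^ 2 = -d.κ * d.c ^ 2 := by
        simp only [Dat.g, Dat.A₁, Dat.κ]
        linear_combination (-d.c * d.b₁) * hrel
      have e6 : (p ^ 2 - d.g * q ^ 2) ^ 2 = -d.κ * (d.c * r ^ 2) ^ 2 := by
        linear_combination (p ^ 2 + d.g * q ^ 2 + d.A₁ * r ^ 2) * e3 -
          d.g * (2 * p * q + d.b₁ * r ^ 2) * e4 + r ^ 4 * e5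
      exact (mul_ne_zero hc (pow_ne_zero 2 hr)) (h _ _ e6)
    · rw [hb, zero_mul] at e4
      rcases mul_eq_zero.1 e4 with h5 | h5
      · have h6 : p = 0 := (mul_eq_zero.1 h5).resolve_left h2'
        apply hr
        apply hAg (d.g * q)
        rw [h6] at e3
        linear_combination d.g * e3
      · apply hr
        apply hA p
        rw [h5] at e3
        linear_combination e3
  have hf : s.f = 0 := hg _ _ (sub_eq_zero.1 hω)
  have he : s.e = 0 := by
    rw [hf] at hω
    have : (d.c * s.e) ^ 2 = 0 := by linear_combination hω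
    exact (mul_eq_zero.1 (pow_eq_zero_iff (two_ne_zero) |>.1 this)).resolve_left hc
  rw [hf, he] at hnr hni
  have hzy : s.z * s.y = 0 := by
    have : 2 * (s.z * s.y) = 0 := by linear_combination hni
    exact (mul_eq_zero.1 this).resolve_left h2'
  have hz : s.z = 0 ∧ s.y = 0 := by
    rcases mul_eq_zero.1 hzy with h5 | h5
    · refine ⟨h5, ?_⟩
      rw [h5] at hnr
      have : d.g * s.y ^ 2 = 0 := by linear_combination hnr
      exact pow_eq_zero_iff (two_ne_zero) |>.1 ((mul_eq_zero.1 this).resolve_left hg.ne_zero)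
    · refine ⟨?_, h5⟩
      rw [h5] at hnr
      have : s.z ^ 2 = 0 := by linear_combination hnr
      exact pow_eq_zero_iff (two_ne_zero) |>.1 this
  ext1
  · exact hz.1
  · exact hz.2
  · exact he
  · exact hf

end R4

namespace Glu

/-- The coordinate ring of the second chart is a domain. -/
theorem isDomain_B {k : Type} [Field k] (G : Glu k) (h : IsDomain (R4 G.d)) :
    IsDomain (R4 G.d') := by
  have hC : IsDomain (R4 (G.d.map (toLaurent : k[X] →+* _))) := by
    have h1 := R4.can_isLocalization (toLaurent : k[X] →+* _) G.d X isLocalization_toLaurent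
    let := (R4.can (toLaurent : k[X] →+* _) G.d).toAlgebra
    refine @IsLocalization.isDomain_of_le_nonZeroDivisors (R4 G.d) _
      (Submonoid.powers (algebraMap k[X] (R4 G.d) X))
      (R4 (G.d.map (toLaurent : k[X] →+* _))) _ _ h1 h ?_
    apply powers_le_nonZeroDivisors_of_noZeroDivisors
    intro h0
    have := congrArg R4.z h0
    rw [R4.algebraMap_eq] at this
    exact X_ne_zero this
  have h0 : Function.Injective (toLaurentInv : k[X] →+* LaurentPolynomial k) := by
    intro p q hpq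
    rw [toLaurentInv_apply, toLaurentInv_apply] at hpq
    exact toLaurent_injective (LaurentPolynomial.invert.injective hpq)
  have hj : Function.Injective G.jHom := by
    refine G.c.hom_bijective.1.comp (fun z z' hz => ?_)
    rw [R4.can_apply, R4.can_apply] at hz
    ext1
    · exact h0 (congrArg R4.z hz)
    · exact h0 (congrArg R4.y hz)
    · exact h0 (congrArg R4.e hz)
    · exact h0 (congrArg R4.f hz)
  exact hj.isDomain G.jHom

end Glu

end Pool.Agent.Work.MP_2eb777_ag
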