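import Pool.Agent.Work.MP_2eb777_ag.Q1.GluHom
import Pool.Agent.Work.MP_2eb777_ag.Connected

set_option autoImplicit false

open CategoryTheory CategoryTheory.Limits AlgebraicGeometry Polynomial

namespace Pool.Agent.Work.MP_2eb777_ag

theorem Glu.isCurveFamily {R : Type} [CommRing R] [IsNoetherianRing R] (G : Glu R) (γ : ℕ)
    (hs : SmoothOfRelativeDimension 1 (Spec.map (CommRingCat.ofHom (R4.base G.d))))
    (hs' : SmoothOfRelativeDimension 1 (Spec.map (CommRingCat.ofHom (R4.base G.d'))))
    (hdom : ∀ (k : Type) [Field k] (φ : R →+* k), IsDomain (R4 (G.map φ).d))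
    (hdom' : ∀ (k : Type) [Field k] (φ : R →+* k), IsDomain (R4 (G.map φ).d'))
    (hrank : ∀ (k : Type) [Field k] (φ : R →+* k),
      (letI : Algebra k (G.map φ).curve.C := ((G.map φ).curve.a ≫ (G.map φ).curve.i).hom.toAlgebra
      Module.rank k ((G.map φ).curve.C ⧸ Submodule.span k
        (Set.range (G.map φ).curve.i.hom ∪ Set.range (G.map φ).curve.j.hom))) = (γ : Cardinal)) :
    IsCurveFamily γ G.curve.toSpec := by
  have key : ∀ (k : Type) [Field k] (s : Spec (.of k) ⟶ Spec (.of R)),
      ∃ (D' : TwoCharts (.of k)) (e : D'.X ≅ pullback G.curve.toSpec s),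
        e.hom ≫ pullback.snd _ _ = D'.toSpec ∧ ConnectedSpace D'.X ∧
        HasGenus (pullback.snd G.curve.toSpec s) γ := by
    intro k _ s
    obtain ⟨φ, hφ⟩ : ∃ φ : R →+* k, Spec.map (CommRingCat.ofHom φ) = s :=
      ⟨(Spec.preimage s).hom, by rw [CommRingCat.ofHom_hom, Spec.map_preimage]⟩
    subst hφ
    have hpb := (G.toMap φ).isPullback
    have hconn : ConnectedSpace (G.map φ).curve.X :=
      (G.map φ).curve.connectedSpace (hdom k φ) (hdom' k φ)
        (inferInstanceAs (Nontrivial (R4 ((G.map φ).d.map toLaurent))))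
    have he : hpb.isoPullback.hom ≫ pullback.snd _ _ = (G.map φ).curve.toSpec :=
      hpb.isoPullback_hom_snd
    exact ⟨(G.map φ).curve, hpb.isoPullback, he, hconn,
      (G.map φ).curve.hasGenus _ hpb.isoPullback he γ (hrank k φ)⟩
  refine ⟨?_, G.isProper, ?_, ?_⟩
  · have : IsZariskiLocalAtSource (@SmoothOfRelativeDimension 1) := inferInstance
    exact G.curve.of_charts (P := @SmoothOfRelativeDimension 1) hs hs'
  · intro k _ _ s
    obtain ⟨D', e, -, hconn, -⟩ := key k s
    exact e.hom.homeomorph.surjective.connectedSpace e.hom.continuous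
  · intro k _ _ s
    obtain ⟨D', e, -, -, hg⟩ := key k s
    exact hg

end Pool.Agent.Work.MP_2eb777_ag
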