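import Pool.Agent.Work.MP_2eb777_ag.Q1.Glu
import Pool.Agent.Work.MP_2eb777_ag.GenusCurve

/-!
The rank of the Čech quotient of a curve of degree four over the line.
-/

set_option autoImplicit false

open CategoryTheory CategoryTheory.Limits AlgebraicGeometry Polynomial

namespace Pool.Agent.Work.MP_2eb777_ag

namespace Genus4

variable {k : Type} [Field k]

/-- The part of a Laurent polynomial of exponents at most `N`. -/
noncomputable def tr (N : ℤ) (p : LaurentPolynomial k) : LaurentPolynomial k :=
  AddMonoidAlgebra.ofCoeff (p.coeff.filter (· ≤ N))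

theorem coeff_tr (N : ℤ) (p : LaurentPolynomial k) (n : ℤ) :
    (tr N p).coeff n = if n ≤ N then p.coeff n else 0 := by
  change (p.coeff.filter (· ≤ N)) n = _
  rw [Finsupp.filter_apply]

theorem tr_add (N : ℤ) (p q : LaurentPolynomial k) : tr N (p + q) = tr N p + tr N q := by
  ext n
  rw [coeff_tr]
  simp only [AddMonoidAlgebra.coeff_add, Finsupp.add_apply, coeff_tr]
  split <;> simp

theorem tr_C_mul (N : ℤ) (c : k) (p : LaurentPolynomial k) :
    tr N (LaurentPolynomial.C c * p) = LaurentPolynomial.C c * tr N p := by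
  ext n
  rw [coeff_tr, coeff_C_mul, coeff_C_mul, coeff_tr]
  split <;> simp

theorem tr_zero (N : ℤ) : tr N (0 : LaurentPolynomial k) = 0 := by
  have := tr_add N (0 : LaurentPolynomial k) 0
  rw [add_zero] at this
  exact left_eq_add.mp this

theorem tr_eq_zero {N : ℤ} {p : LaurentPolynomial k} (h : ∀ n ≤ N, p.coeff n = 0) :
    tr N p = 0 := by
  ext n
  rw [coeff_tr]
  split
  · rename_i hn
    rw [h n hn]
    rfl
  · rfl

theorem tr_eq_self {N : ℤ} {p : LaurentPolynomial k} (h : ∀ n, N < n → p.coeff n = 0) :
    tr N p = p := by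
  ext n
  rw [coeff_tr]
  split
  · rfl
  · rename_i hn
    rw [h n (by omega)]

theorem coeff_CT (c : k) (m n : ℤ) :
    (LaurentPolynomial.C c * LaurentPolynomial.T m : LaurentPolynomial k).coeff n =
      if n = m then c else 0 := by
  rw [← LaurentPolynomial.single_eq_C_mul_T, AddMonoidAlgebra.coeff_single, Finsupp.single_apply]
  split <;> split <;> simp_all

/-- The Laurent polynomial with given coefficients at `-1, …, -g`. -/
noncomputable def pol {g : ℕ} (v : Fin g → k) : LaurentPolynomial k :=
  ∑ m : Fin g, LaurentPolynomial.C (v m) * LaurentPolynomial.T (-((m : ℕ) + 1 : ℤ))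

theorem coeff_pol {g : ℕ} (v : Fin g → k) (n : Fin g) :
    (pol v).coeff (-((n : ℕ) + 1 : ℤ)) = v n := by
  unfold pol
  simp only [← LaurentPolynomial.single_eq_C_mul_T, AddMonoidAlgebra.coeff_sum,
    AddMonoidAlgebra.coeff_single]
  rw [Finset.sum_apply', Finset.sum_eq_single n, Finsupp.single_eq_same]
  · intro b _ hb
    rw [Finsupp.single_apply, if_neg]
    intro hbn
    apply hb
    apply Fin.ext
    omega
  · intro hn
    exact absurd (Finset.mem_univ n) hn

theorem coeff_pol_zero {g : ℕ} (v : Fin g → k) (n : ℤ) (hn : n < -(g : ℤ)) :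
    (pol v).coeff n = 0 := by
  unfold pol
  simp only [← LaurentPolynomial.single_eq_C_mul_T, AddMonoidAlgebra.coeff_sum,
    AddMonoidAlgebra.coeff_single]
  rw [Finset.sum_apply']
  refine Finset.sum_eq_zero fun b _ => ?_
  rw [Finsupp.single_apply, if_neg]
  have := b.2
  omega

theorem coeff_inv_pos {p : k[X]} {n : ℤ} (hn : 0 < n) : (toLaurentInv p).coeff n = 0 := by
  rw [toLaurentInv_apply, LaurentPolynomial.invert_apply]
  exact coeff_toLaurent_neg _ _ (by omega)

variable (G : Glu k)

/-- The coordinate ring of the overlap. -/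
abbrev Ov : Type := R4 (G.d.map toLaurent)

/-- The scalars on the overlap. -/
noncomputable def sC : k →+* Ov G := G.iHom.comp (R4.base G.d)

theorem sC_apply (r : k) : sC G r = (⟨LaurentPolynomial.C r, 0, 0, 0⟩ : Ov G) := by
  change G.iHom (R4.base G.d r) = _
  rw [R4.base_apply, Glu.iHom_algebraMap, toLaurent_C, R4.algebraMap_eq]

theorem rank (m n : ℕ) (hm : 1 ≤ m) (hn : 1 ≤ n)
    (hτ : G.c.τ = LaurentPolynomial.T (-4)) (hp : G.c.p = LaurentPolynomial.T (-(m : ℤ)))
    (hr : G.c.r = 0) (hs : G.c.s = LaurentPolynomial.T (-(n : ℤ))) :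
    (letI : Algebra k (Ov G) := (sC G).toAlgebra;
      Module.rank k (Ov G ⧸ Submodule.span k (Set.range G.iHom ∪ Set.range G.jHom))) =
      ((m + n + 1 : ℕ) : Cardinal) := by
  let : Algebra k (Ov G) := (sC G).toAlgebra
  have hsmul : ∀ (r : k) (z : Ov G), (r • z : Ov G) =
      ⟨LaurentPolynomial.C r * z.z, LaurentPolynomial.C r * z.y, LaurentPolynomial.C r * z.e,
        LaurentPolynomial.C r * z.f⟩ := by
    intro r z
    rw [Algebra.smul_def]
    change sC G r * z = _
    rw [sC_apply]
    ext1 <;> simp
  -- the modified last coordinate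
  let W : Ov G → LaurentPolynomial k := fun z =>
    z.f - G.c.q * LaurentPolynomial.T (m : ℤ) * tr (-(m : ℤ)) z.e
  have hWadd : ∀ z z', W (z + z') = W z + W z' := by
    intro z z'
    change (z.f + z'.f) - G.c.q * LaurentPolynomial.T (m : ℤ) * tr (-(m : ℤ)) (z.e + z'.e) =
      (z.f - G.c.q * LaurentPolynomial.T (m : ℤ) * tr (-(m : ℤ)) z.e) +
      (z'.f - G.c.q * LaurentPolynomial.T (m : ℤ) * tr (-(m : ℤ)) z'.e)
    rw [tr_add]
    ring
  have hWsmul : ∀ (r : k) z, W (r • z) = LaurentPolynomial.C r * W z := by
    intro r z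
    rw [hsmul]
    change (LaurentPolynomial.C r * z.f) - G.c.q * LaurentPolynomial.T (m : ℤ) *
      tr (-(m : ℤ)) (LaurentPolynomial.C r * z.e) = LaurentPolynomial.C r *
      (z.f - G.c.q * LaurentPolynomial.T (m : ℤ) * tr (-(m : ℤ)) z.e)
    rw [tr_C_mul]
    ring
  let L : Ov G →ₗ[k] (Fin 3 → k) × (Fin (m - 1) → k) × (Fin (n - 1) → k) :=
    { toFun := fun z => (fun i => z.y.coeff (-((i : ℕ) + 1 : ℤ)),
        fun i => z.e.coeff (-((i : ℕ) + 1 : ℤ)), fun i => (W z).coeff (-((i : ℕ) + 1 : ℤ)))
      map_add' := fun z z' => by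
        refine Prod.ext ?_ (Prod.ext ?_ ?_)
        · ext i
          change (z.y + z'.y).coeff _ = _
          simp
        · ext i
          change (z.e + z'.e).coeff _ = _
          simp
        · ext i
          change (W (z + z')).coeff _ = _
          rw [hWadd]
          simp
      map_smul' := fun r z => by
        refine Prod.ext ?_ (Prod.ext ?_ ?_)
        · ext i
          rw [hsmul]
          exact coeff_C_mul _ _ _
        · ext i
          rw [hsmul]
          exact coeff_C_mul _ _ _
        · ext i
          change (W (r • z)).coeff _ = _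
          rw [hWsmul]
          exact coeff_C_mul _ _ _ }
  have hL1 : ∀ z i, (L z).1 i = z.y.coeff (-((i : ℕ) + 1 : ℤ)) := fun z i => rfl
  have hL2 : ∀ z i, (L z).2.1 i = z.e.coeff (-((i : ℕ) + 1 : ℤ)) := fun z i => rfl
  have hL3 : ∀ z i, (L z).2.2 i = (W z).coeff (-((i : ℕ) + 1 : ℤ)) := fun z i => rfl
  have hsurj : Function.Surjective L := by
    rintro ⟨v1, v2, v3⟩
    refine ⟨⟨0, pol v1, pol v2, pol v3⟩, Prod.ext ?_ (Prod.ext ?_ ?_)⟩
    · ext i
      rw [hL1]
      exact coeff_pol v1 i
    · ext i
      rw [hL2]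
      exact coeff_pol v2 i
    · ext i
      rw [hL3]
      have e : tr (-(m : ℤ)) (pol v2) = 0 := by
        apply tr_eq_zero
        intro a ha
        apply coeff_pol_zero
        omega
      change (pol v3 - G.c.q * LaurentPolynomial.T (m : ℤ) * tr (-(m : ℤ)) (pol v2)).coeff _ = _
      rw [e, mul_zero, sub_zero]
      exact coeff_pol v3 i
  have hker : LinearMap.ker L = Submodule.span k (Set.range G.iHom ∪ Set.range G.jHom) := by
    apply le_antisymm
    · intro z hz
      have hz0 := LinearMap.mem_ker.1 hz
      have hz1 : ∀ i : Fin 3, z.y.coeff (-((i : ℕ) + 1 : ℤ)) = 0 := fun i => by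
        rw [← hL1, hz0]
        rfl
      have hz2 : ∀ i : Fin (m - 1), z.e.coeff (-((i : ℕ) + 1 : ℤ)) = 0 := fun i => by
        rw [← hL2, hz0]
        rfl
      have hz3 : ∀ i : Fin (n - 1), (W z).coeff (-((i : ℕ) + 1 : ℤ)) = 0 := fun i => by
        rw [← hL3, hz0]
        rfl
      have hi : ∀ t, G.iHom t ∈ Submodule.span k (Set.range G.iHom ∪ Set.range G.jHom) :=
        fun t => Submodule.subset_span (Or.inl ⟨t, rfl⟩)
      have hj : ∀ t, G.jHom t ∈ Submodule.span k (Set.range G.iHom ∪ Set.range G.jHom) :=
        fun t => Submodule.subset_span (Or.inr ⟨t, rfl⟩)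
      have einv : ∀ (c : k) (a : ℕ), toLaurentInv (C c * X ^ a) =
          LaurentPolynomial.C c * LaurentPolynomial.T (-(a : ℤ)) := by
        intro c a
        rw [toLaurentInv_apply, toLaurent_C_mul_X_pow, map_mul, LaurentPolynomial.invert_C,
          LaurentPolynomial.invert_T]
      have c1 : ∀ (a : ℤ) (c : k), (⟨LaurentPolynomial.C c * LaurentPolynomial.T a, 0, 0, 0⟩ :
          Ov G) ∈ Submodule.span k (Set.range G.iHom ∪ Set.range G.jHom) := by
        intro a c
        rcases Int.eq_nat_or_neg a with ⟨b, rfl | rfl⟩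
        · have := hi ⟨C c * X ^ b, 0, 0, 0⟩
          rwa [Glu.iHom_apply, map_zero, toLaurent_C_mul_X_pow] at this
        · have := hj ⟨C c * X ^ b, 0, 0, 0⟩
          rw [Glu.jHom_apply, map_zero, einv] at this
          simpa only [zero_mul, add_zero] using this
      have c2 : ∀ (a : ℤ) (c : k), 0 ≤ a ∨ a ≤ -4 →
          (⟨0, LaurentPolynomial.C c * LaurentPolynomial.T a, 0, 0⟩ : Ov G) ∈
          Submodule.span k (Set.range G.iHom ∪ Set.range G.jHom) := by
        intro a c ha
        rcases ha with ha | ha
        · obtain ⟨b, rfl⟩ := Int.eq_ofNat_of_zero_le ha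
          have := hi ⟨0, C c * X ^ b, 0, 0⟩
          rwa [Glu.iHom_apply, map_zero, toLaurent_C_mul_X_pow] at this
        · obtain ⟨b, hb⟩ := Int.eq_ofNat_of_zero_le (show 0 ≤ -(a + 4) by omega)
          have := hj ⟨0, C c * X ^ b, 0, 0⟩
          rw [Glu.jHom_apply, map_zero, einv, hτ, mul_assoc, ← LaurentPolynomial.T_add,
            show -(b : ℤ) + -4 = a by omega] at this
          simpa only [zero_mul, add_zero] using this
      have c3 : ∀ (a : ℤ) (c : k), 0 ≤ a ∨ a ≤ -(m : ℤ) →
          (⟨0, 0, LaurentPolynomial.C c * LaurentPolynomial.T a,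
            G.c.q * LaurentPolynomial.T (m : ℤ) * tr (-(m : ℤ))
              (LaurentPolynomial.C c * LaurentPolynomial.T a)⟩ : Ov G) ∈
          Submodule.span k (Set.range G.iHom ∪ Set.range G.jHom) := by
        intro a c ha
        rcases ha with ha | ha
        · obtain ⟨b, rfl⟩ := Int.eq_ofNat_of_zero_le ha
          have := hi ⟨0, 0, C c * X ^ b, 0⟩
          have e : tr (-(m : ℤ)) (LaurentPolynomial.C c * LaurentPolynomial.T ((b : ℕ) : ℤ)) = 0 := by
            apply tr_eq_zero
            intro x hx
            rw [coeff_CT, if_neg]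
            omega
          rw [e, mul_zero]
          rwa [Glu.iHom_apply, map_zero, toLaurent_C_mul_X_pow] at this
        · obtain ⟨b, hb⟩ := Int.eq_ofNat_of_zero_le (show 0 ≤ -(a + m) by omega)
          have := hj ⟨0, 0, C c * X ^ b, 0⟩
          have e : tr (-(m : ℤ)) (LaurentPolynomial.C c * LaurentPolynomial.T a) =
              LaurentPolynomial.C c * LaurentPolynomial.T a := by
            apply tr_eq_self
            intro x hx
            rw [coeff_CT, if_neg]
            omega
          rw [e]
          rw [Glu.jHom_apply, map_zero, einv, hp] at this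
          have e1 : LaurentPolynomial.C c * LaurentPolynomial.T (-(b : ℤ)) *
              LaurentPolynomial.T (-(m : ℤ)) =
              (LaurentPolynomial.C c * LaurentPolynomial.T a : LaurentPolynomial k) := by
            rw [mul_assoc, ← LaurentPolynomial.T_add, show -(b : ℤ) + -(m : ℤ) = a by omega]
          have e2 : LaurentPolynomial.C c * LaurentPolynomial.T (-(b : ℤ)) * G.c.q =
              G.c.q * LaurentPolynomial.T (m : ℤ) *
                (LaurentPolynomial.C c * LaurentPolynomial.T a : LaurentPolynomial k) := by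
            have e3 : (LaurentPolynomial.T (-(b : ℤ)) : LaurentPolynomial k) =
                LaurentPolynomial.T (m : ℤ) * LaurentPolynomial.T a := by
              rw [← LaurentPolynomial.T_add, show (m : ℤ) + a = -(b : ℤ) by omega]
            rw [e3]
            ring
          rw [e1, e2] at this
          simpa only [zero_mul, add_zero] using this
      have c4 : ∀ (a : ℤ) (c : k), 0 ≤ a ∨ a ≤ -(n : ℤ) →
          (⟨0, 0, 0, LaurentPolynomial.C c * LaurentPolynomial.T a⟩ : Ov G) ∈
          Submodule.span k (Set.range G.iHom ∪ Set.range G.jHom) := by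
        intro a c ha
        rcases ha with ha | ha
        · obtain ⟨b, rfl⟩ := Int.eq_ofNat_of_zero_le ha
          have := hi ⟨0, 0, 0, C c * X ^ b⟩
          rwa [Glu.iHom_apply, map_zero, toLaurent_C_mul_X_pow] at this
        · obtain ⟨b, hb⟩ := Int.eq_ofNat_of_zero_le (show 0 ≤ -(a + n) by omega)
          have := hj ⟨0, 0, 0, C c * X ^ b⟩
          rw [Glu.jHom_apply, map_zero, einv, hr, hs] at this
          simp only [zero_mul, mul_zero, zero_add, add_zero] at this
          rwa [mul_assoc, ← LaurentPolynomial.T_add,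
            show -(b : ℤ) + -(n : ℤ) = a by omega] at this
      let P₁ : LaurentPolynomial k →+ Ov G :=
        { toFun := fun p => ⟨p, 0, 0, 0⟩
          map_zero' := rfl
          map_add' := fun p q => by ext1 <;> simp }
      let P₂ : LaurentPolynomial k →+ Ov G :=
        { toFun := fun p => ⟨0, p, 0, 0⟩
          map_zero' := rfl
          map_add' := fun p q => by ext1 <;> simp }
      let P₃ : LaurentPolynomial k →+ Ov G :=
        { toFun := fun p => ⟨0, 0, p, G.c.q * LaurentPolynomial.T (m : ℤ) * tr (-(m : ℤ)) p⟩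
          map_zero' := by
            ext1
            · rfl
            · rfl
            · rfl
            · change G.c.q * LaurentPolynomial.T (m : ℤ) * tr (-(m : ℤ)) 0 = 0
              rw [tr_zero, mul_zero]
          map_add' := fun p q => by
            ext1
            · simp
            · simp
            · simp
            · simp only [R4.add_f, tr_add, mul_add] }
      let P₄ : LaurentPolynomial k →+ Ov G :=
        { toFun := fun p => ⟨0, 0, 0, p⟩
          map_zero' := rfl
          map_add' := fun p q => by ext1 <;> simp }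
      have hz4 : z = P₁ z.z + P₂ z.y + P₃ z.e + P₄ (W z) := by
        change z = (⟨z.z, 0, 0, 0⟩ : Ov G) + ⟨0, z.y, 0, 0⟩ +
          ⟨0, 0, z.e, G.c.q * LaurentPolynomial.T (m : ℤ) * tr (-(m : ℤ)) z.e⟩ +
          ⟨0, 0, 0, z.f - G.c.q * LaurentPolynomial.T (m : ℤ) * tr (-(m : ℤ)) z.e⟩
        ext1
        · simp only [R4.add_z, add_zero]
        · simp only [R4.add_y, add_zero, zero_add]
        · simp only [R4.add_e, add_zero, zero_add]
        · simp only [R4.add_f, zero_add]
          ring
      have gap : ∀ (g : ℕ) (p : LaurentPolynomial k),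
          (∀ i : Fin (g - 1), p.coeff (-((i : ℕ) + 1 : ℤ)) = 0) → ∀ a ∈ p.coeff.support,
          0 ≤ a ∨ a ≤ -(g : ℤ) := by
        intro g p h a ha
        by_contra hcon
        push Not at hcon
        obtain ⟨b, hb⟩ := Int.eq_ofNat_of_zero_le (show 0 ≤ -a - 1 by omega)
        have hbg : b < g - 1 := by omega
        apply Finsupp.mem_support_iff.1 ha
        have := h ⟨b, hbg⟩
        rwa [show (-(((⟨b, hbg⟩ : Fin (g - 1)) : ℕ) + 1 : ℤ)) = a by simp; omega] at this
      rw [hz4]
      refine Submodule.add_mem _ (Submodule.add_mem _ (Submodule.add_mem _ ?_ ?_) ?_) ?_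
      · conv => arg 2; rw [laurent_sum z.z]
        rw [map_sum]
        exact Submodule.sum_mem _ (fun a _ => c1 a _)
      · conv => arg 2; rw [laurent_sum z.y]
        rw [map_sum]
        exact Submodule.sum_mem _ (fun a ha => c2 a _ (gap 4 z.y hz1 a ha))
      · conv => arg 2; rw [laurent_sum z.e]
        rw [map_sum]
        exact Submodule.sum_mem _ (fun a ha => c3 a _ (gap m z.e hz2 a ha))
      · conv => arg 2; rw [laurent_sum (W z)]
        rw [map_sum]
        exact Submodule.sum_mem _ (fun a ha => c4 a _ (gap n (W z) hz3 a ha))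
    · rw [Submodule.span_le]
      rintro _ (⟨t, rfl⟩ | ⟨t, rfl⟩)
      · apply LinearMap.mem_ker.2
        have e0 : tr (-(m : ℤ)) (toLaurent t.e) = 0 := by
          apply tr_eq_zero
          intro a ha
          exact coeff_toLaurent_neg _ _ (by omega)
        have e1 : W (G.iHom t) = toLaurent t.f := by
          rw [Glu.iHom_apply]
          change toLaurent t.f - G.c.q * LaurentPolynomial.T (m : ℤ) *
            tr (-(m : ℤ)) (toLaurent t.e) = _
          rw [e0, mul_zero, sub_zero]
        refine Prod.ext ?_ (Prod.ext ?_ ?_)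
        · ext i
          rw [hL1, Glu.iHom_apply]
          exact coeff_toLaurent_neg _ _ (by omega)
        · ext i
          rw [hL2, Glu.iHom_apply]
          exact coeff_toLaurent_neg _ _ (by omega)
        · ext i
          rw [hL3, e1]
          exact coeff_toLaurent_neg _ _ (by omega)
      · apply LinearMap.mem_ker.2
        have e0 : tr (-(m : ℤ)) (toLaurentInv t.e * LaurentPolynomial.T (-(m : ℤ))) =
            toLaurentInv t.e * LaurentPolynomial.T (-(m : ℤ)) := by
          apply tr_eq_self
          intro a ha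
          rw [coeff_mul_T]
          exact coeff_inv_pos (by omega)
        have e1 : W (G.jHom t) = toLaurentInv t.f * LaurentPolynomial.T (-(n : ℤ)) := by
          rw [Glu.jHom_apply, hp, hr, hs]
          change (toLaurentInv t.e * G.c.q + toLaurentInv t.f * LaurentPolynomial.T (-(n : ℤ))) -
            G.c.q * LaurentPolynomial.T (m : ℤ) * tr (-(m : ℤ))
              (toLaurentInv t.e * LaurentPolynomial.T (-(m : ℤ)) + toLaurentInv t.f * 0) = _
          rw [mul_zero, add_zero, e0]
          have e2 : (LaurentPolynomial.T (m : ℤ) : LaurentPolynomial k) *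
              LaurentPolynomial.T (-(m : ℤ)) = 1 := by
            rw [← LaurentPolynomial.T_add, add_neg_cancel, LaurentPolynomial.T_zero]
          linear_combination (-(G.c.q * toLaurentInv t.e)) * e2
        refine Prod.ext ?_ (Prod.ext ?_ ?_)
        · ext i
          rw [hL1, Glu.jHom_apply, hτ]
          change (toLaurentInv t.y * LaurentPolynomial.T (-4)).coeff _ = 0
          rw [coeff_mul_T]
          exact coeff_inv_pos (by have := i.2; omega)
        · ext i
          rw [hL2, Glu.jHom_apply, hp, hr]
          change (toLaurentInv t.e * LaurentPolynomial.T (-(m : ℤ)) + toLaurentInv t.f * 0).coeff _ = 0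
          rw [mul_zero, add_zero, coeff_mul_T]
          exact coeff_inv_pos (by have := i.2; omega)
        · ext i
          rw [hL3, e1, coeff_mul_T]
          exact coeff_inv_pos (by have := i.2; omega)
  rw [← hker, (L.quotKerEquivOfSurjective hsurj).rank_eq]
  rw [rank_prod', rank_prod', rank_fin_fun, rank_fin_fun, rank_fin_fun]
  rw [← Nat.cast_add, ← Nat.cast_add]
  congr 1
  omega

end Genus4

theorem Glu.rank {k : Type} [Field k] (G : Glu k) (m n : ℕ) (hm : 1 ≤ m) (hn : 1 ≤ n)
    (hτ : G.c.τ = LaurentPolynomial.T (-4)) (hp : G.c.p = LaurentPolynomial.T (-(m : ℤ)))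
    (hr : G.c.r = 0) (hs : G.c.s = LaurentPolynomial.T (-(n : ℤ))) :
    (letI : Algebra k G.curve.C := (G.curve.a ≫ G.curve.i).hom.toAlgebra;
      Module.rank k (G.curve.C ⧸ Submodule.span k
        (Set.range G.curve.i.hom ∪ Set.range G.curve.j.hom))) = ((m + n + 1 : ℕ) : Cardinal) :=
  Genus4.rank G m n hm hn hτ hp hr hs

end Pool.Agent.Work.MP_2eb777_ag
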