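import Pool.Agent.Work.MP_2eb777_ag.Q1.Alg
import Pool.Agent.Work.MP_2eb777_ag.SmoothChart

set_option autoImplicit false

namespace Pool.Agent.Work.MP_2eb777_ag

open Polynomial AlgebraicGeometry

namespace Smooth4

variable {R : Type} [CommRing R] (d : Dat R[X])

/-- the relations -/
noncomputable def rel : Fin 3 → MvPolynomial (Fin 4) R :=
  ![MvPolynomial.X 0 * aeval (MvPolynomial.X 1) d.c - 1,
    MvPolynomial.X 2 ^ 2 - aeval (MvPolynomial.X 1) d.g,
    MvPolynomial.X 3 ^ 2 -
      (aeval (MvPolynomial.X 1) d.b₁ * MvPolynomial.X 2 + aeval (MvPolynomial.X 1) d.A₁)]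

theorem rel_zero : rel d 0 = MvPolynomial.X 0 * aeval (MvPolynomial.X 1) d.c - 1 := rfl

theorem rel_one : rel d 1 = MvPolynomial.X 2 ^ 2 - aeval (MvPolynomial.X 1) d.g := rfl

theorem rel_two : rel d 2 = MvPolynomial.X 3 ^ 2 -
    (aeval (MvPolynomial.X 1) d.b₁ * MvPolynomial.X 2 + aeval (MvPolynomial.X 1) d.A₁) := rfl

/-- the ring in naive form -/
abbrev Q : Type := MvPolynomial (Fin 4) R ⧸ Ideal.span (Set.range (rel d))

/-- the class of a variable -/
noncomputable def qv (i : Fin 4) : Q d := Ideal.Quotient.mk _ (MvPolynomial.X i)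

theorem mk_aeval (p : R[X]) :
    (Ideal.Quotient.mk (Ideal.span (Set.range (rel d))))
      (aeval (MvPolynomial.X 1 : MvPolynomial (Fin 4) R) p) = aeval (qv d 1) p := by
  have := Polynomial.aeval_algHom_apply (Ideal.Quotient.mkₐ R (Ideal.span (Set.range (rel d))))
    (MvPolynomial.X 1 : MvPolynomial (Fin 4) R) p
  exact this.symm

theorem mk_X (i : Fin 4) :
    (Ideal.Quotient.mk (Ideal.span (Set.range (rel d)))) (MvPolynomial.X i) = qv d i := rfl

theorem qrel (i : Fin 3) : (Ideal.Quotient.mk (Ideal.span (Set.range (rel d)))) (rel d i) = 0 :=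
  Ideal.Quotient.eq_zero_iff_mem.mpr (Ideal.subset_span ⟨i, rfl⟩)

theorem qrel0 : qv d 0 * aeval (qv d 1) d.c = 1 := by
  have h := qrel d 0
  rw [rel_zero, map_sub, map_mul, map_one, mk_aeval, mk_X] at h
  exact sub_eq_zero.1 h

theorem qrel1 : qv d 2 * qv d 2 = aeval (qv d 1) d.g := by
  have h := qrel d 1
  rw [rel_one, map_sub, map_pow, mk_aeval, mk_X] at h
  rw [← sq]
  exact sub_eq_zero.1 h

theorem qrel2 : qv d 3 * qv d 3 = aeval (qv d 1) d.A₁ + aeval (qv d 1) d.b₁ * qv d 2 := by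
  have h := qrel d 2
  rw [rel_two, map_sub, map_pow, map_add, map_mul, mk_aeval, mk_aeval, mk_X, mk_X] at h
  rw [← sq, add_comm]
  exact sub_eq_zero.1 h

/-- the coefficient map -/
noncomputable def qρ : R[X] →+* Q d := (aeval (qv d 1) : R[X] →ₐ[R] Q d)

theorem qρ_apply (p : R[X]) : qρ d p = aeval (qv d 1) p := rfl

/-- General computation: relations for the third generator. -/
theorem rels_of {T : Type} [CommRing T] (ρ : R[X] →+* T) (t y w : T) (h0 : t * ρ d.c = 1)
    (h1 : y * y = ρ d.g) (h2 : w * w = ρ d.A₁ + ρ d.b₁ * y) :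
    R4.Rels d ρ y w (t * (y * w - ρ d.a * w)) := by
  have h3 : ρ d.b₁ * ρ d.b = 2 * ρ d.a * ρ d.b₂ + ρ d.c * ρ d.b₃ := by
    have := congrArg ρ d.rel
    simpa only [map_mul, map_add, map_ofNat] using this
  have hg : ρ d.g = ρ d.a ^ 2 + ρ d.b * ρ d.c := by rw [Dat.g, map_add, map_pow, map_mul]
  have hA1 : ρ d.A₁ = ρ d.a * ρ d.b₁ + ρ d.c * ρ d.b₂ := by
    rw [Dat.A₁, map_add, map_mul, map_mul]
  have hA2 : ρ d.A₂ = ρ d.a * ρ d.b₂ + ρ d.c * ρ d.b₃ := by
    rw [Dat.A₂, map_add, map_mul, map_mul]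
  have hA3 : ρ d.A₃ = ρ d.b * ρ d.b₂ - ρ d.a * ρ d.b₃ := by
    rw [Dat.A₃, map_sub, map_mul, map_mul]
  rw [hg] at h1
  rw [hA1] at h2
  have key : (y - ρ d.a) * (w * w) = ρ d.c * (ρ d.A₂ + ρ d.b₂ * y) := by
    rw [hA2]
    linear_combination (y - ρ d.a) * h2 + ρ d.b₁ * h1 + ρ d.c * h3
  refine ⟨?_, ?_, ?_, ?_, ?_, ?_⟩
  · rw [hg, h1]
  · linear_combination (-(y * w - ρ d.a * w)) * h0
  · linear_combination (t * w) * h1 + (ρ d.b * w) * h0
  · rw [hA1, h2]
  · linear_combination t * key + (ρ d.A₂ + ρ d.b₂ * y) * h0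
  · rw [hA3]
    rw [hA2] at key
    linear_combination (t ^ 2 * (y - ρ d.a)) * key +
      (t * (y - ρ d.a) * (ρ d.a * ρ d.b₂ + ρ d.c * ρ d.b₃ + ρ d.b₂ * y) +
        (ρ d.b * ρ d.b₂ - ρ d.a * ρ d.b₃ + ρ d.b₃ * y)) * h0 + t * ρ d.b₂ * h1

theorem qrels : R4.Rels d (qρ d) (qv d 2) (qv d 3)
    (qv d 0 * (qv d 2 * qv d 3 - qρ d d.a * qv d 3)) :=
  rels_of d (qρ d) _ _ _ (qrel0 d) (qrel1 d) (qrel2 d)

section

set_option linter.unusedSectionVars false

variable (B : Type) [CommRing B] [Algebra (R4 d) B]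
  [IsLocalization.Away (algebraMap R[X] (R4 d) d.c) B]

/-- the inverse of `c` -/
noncomputable def tt : B := IsLocalization.Away.invSelf (algebraMap R[X] (R4 d) d.c)

/-- the coefficient map -/
noncomputable def ρB : R[X] →+* B := (algebraMap (R4 d) B).comp (algebraMap R[X] (R4 d))

theorem tt_mul : tt d B * ρB d B d.c = 1 := by
  rw [mul_comm]
  exact IsLocalization.Away.mul_invSelf _

/-- the values of the variables -/
noncomputable def vals : Fin 4 → B :=
  ![tt d B, ρB d B X, algebraMap (R4 d) B (R4.Y d), algebraMap (R4 d) B (R4.E d)]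

theorem relsB : R4.Rels d (ρB d B) (algebraMap (R4 d) B (R4.Y d))
    (algebraMap (R4 d) B (R4.E d)) (algebraMap (R4 d) B (R4.F d)) := by
  have h := R4.rels_self (d := d)
  refine ⟨?_, ?_, ?_, ?_, ?_, ?_⟩
  · rw [← map_mul, h.yy]; rfl
  · rw [← map_mul, h.ye, map_add, map_mul, map_mul]; rfl
  · rw [← map_mul, h.yf, map_sub, map_mul, map_mul]; rfl
  · rw [← map_mul, h.ee, map_add, map_mul]; rfl
  · rw [← map_mul, h.ef, map_add, map_mul]; rfl
  · rw [← map_mul, h.ff, map_add, map_mul]; rfl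

theorem F_eq : algebraMap (R4 d) B (R4.F d) = tt d B * (algebraMap (R4 d) B (R4.Y d) *
    algebraMap (R4 d) B (R4.E d) - ρB d B d.a * algebraMap (R4 d) B (R4.E d)) := by
  have h := (relsB d B).ye
  linear_combination (-(algebraMap (R4 d) B (R4.F d))) * tt_mul d B - tt d B * h

/-- backward map -/
noncomputable def bwd : B →+* Q d :=
  IsLocalization.Away.lift (S := B) (algebraMap R[X] (R4 d) d.c)
    (g := R4.lift (qρ d) _ _ _ (qrels d)) (by
      rw [R4.lift_algebraMap]
      exact IsUnit.of_mul_eq_one (qv d 0) (by rw [mul_comm]; exact qrel0 d))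

theorem bwd_alg (s : R4 d) : bwd d B (algebraMap (R4 d) B s) =
    R4.lift (qρ d) _ _ _ (qrels d) s := by
  rw [bwd, IsLocalization.Away.lift_eq]

theorem bwd_ρB (p : R[X]) : bwd d B (ρB d B p) = qρ d p := by
  change bwd d B (algebraMap (R4 d) B _) = _
  rw [bwd_alg, R4.lift_algebraMap]

theorem bwd_tt : bwd d B (tt d B) = qv d 0 := by
  have h := congrArg (bwd d B) (tt_mul d B)
  rw [map_mul, bwd_ρB, map_one] at h
  have h2 := qrel0 d
  rw [← qρ_apply] at h2
  linear_combination (-(bwd d B (tt d B))) * h2 + qv d 0 * h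

variable [Algebra R B]

theorem ρB_aeval (hRB : algebraMap R B = (algebraMap (R4 d) B).comp (R4.base d)) (p : R[X]) :
    ρB d B p = aeval (ρB d B X) p := by
  have h : ρB d B = ((aeval (ρB d B X) : R[X] →ₐ[R] B) : R[X] →+* B) := by
    apply Polynomial.ringHom_ext
    · intro r
      rw [RingHom.coe_coe, aeval_C, hRB]
      rfl
    · rw [RingHom.coe_coe, aeval_X]
  exact congrArg (fun g : R[X] →+* B => g p) h

variable (hRB : algebraMap R B = (algebraMap (R4 d) B).comp (R4.base d))

include hRB in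
theorem aeval_vals (p : R[X]) : MvPolynomial.aeval (vals d B)
    (aeval (MvPolynomial.X 1 : MvPolynomial (Fin 4) R) p) = ρB d B p := by
  rw [← Polynomial.aeval_algHom_apply, MvPolynomial.aeval_X, ρB_aeval d B hRB p]
  rfl

include hRB in
theorem aeval_rel (i : Fin 3) : MvPolynomial.aeval (vals d B) (rel d i) = 0 := by
  have h := relsB d B
  fin_cases i
  · change MvPolynomial.aeval (vals d B) (rel d 0) = 0
    rw [rel_zero, map_sub, map_mul, map_one, aeval_vals d B hRB, MvPolynomial.aeval_X]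
    exact sub_eq_zero.2 (tt_mul d B)
  · change MvPolynomial.aeval (vals d B) (rel d 1) = 0
    rw [rel_one, map_sub, map_pow, aeval_vals d B hRB, MvPolynomial.aeval_X, sub_eq_zero, sq]
    exact h.yy
  · change MvPolynomial.aeval (vals d B) (rel d 2) = 0
    rw [rel_two, map_sub, map_pow, map_add, map_mul, aeval_vals d B hRB, aeval_vals d B hRB,
      MvPolynomial.aeval_X, MvPolynomial.aeval_X, sub_eq_zero, sq, add_comm]
    exact h.ee

/-- forward map -/
noncomputable def fwd : Q d →ₐ[R] B :=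
  Ideal.Quotient.liftₐ _ (MvPolynomial.aeval (vals d B)) (by
    intro a ha
    have : Ideal.span (Set.range (rel d)) ≤
        RingHom.ker (MvPolynomial.aeval (vals d B) : MvPolynomial (Fin 4) R →ₐ[R] B) := by
      rw [Ideal.span_le]
      rintro _ ⟨u, rfl⟩
      rw [SetLike.mem_coe, RingHom.mem_ker]
      exact aeval_rel d B hRB u
    exact this ha)

theorem fwd_qv (i : Fin 4) : fwd d B hRB (qv d i) = vals d B i := by
  change (MvPolynomial.aeval (vals d B)) (MvPolynomial.X i) = _
  rw [MvPolynomial.aeval_X]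

theorem fwd_qρ (p : R[X]) : fwd d B hRB (qρ d p) = ρB d B p := by
  rw [qρ_apply, ← Polynomial.aeval_algHom_apply, fwd_qv, ρB_aeval d B hRB p]
  rfl

theorem fwd_bwd (x : B) : fwd d B hRB (bwd d B x) = x := by
  have h : ((fwd d B hRB : Q d →+* B)).comp (bwd d B) = RingHom.id B := by
    apply IsLocalization.ringHom_ext (Submonoid.powers (algebraMap R[X] (R4 d) d.c))
    apply R4.hom_ext
    · apply RingHom.ext
      intro p
      change fwd d B hRB (bwd d B (ρB d B p)) = ρB d B p
      rw [bwd_ρB, fwd_qρ]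
    · change fwd d B hRB (bwd d B (algebraMap (R4 d) B (R4.Y d))) = algebraMap (R4 d) B (R4.Y d)
      rw [bwd_alg, R4.lift_Y, fwd_qv]
      rfl
    · change fwd d B hRB (bwd d B (algebraMap (R4 d) B (R4.E d))) = algebraMap (R4 d) B (R4.E d)
      rw [bwd_alg, R4.lift_E, fwd_qv]
      rfl
    · change fwd d B hRB (bwd d B (algebraMap (R4 d) B (R4.F d))) = algebraMap (R4 d) B (R4.F d)
      rw [bwd_alg, R4.lift_F, map_mul, map_sub, map_mul, map_mul, fwd_qv, fwd_qv, fwd_qv, fwd_qρ,
        F_eq]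
      rfl
  exact congrArg (fun g : B →+* B => g x) h

theorem bwd_fwd (a : Q d) : bwd d B (fwd d B hRB a) = a := by
  have h : ((bwd d B).comp (fwd d B hRB : Q d →+* B)) = RingHom.id (Q d) := by
    apply Ideal.Quotient.ringHom_ext
    apply MvPolynomial.ringHom_ext
    · intro r
      simp only [RingHom.comp_apply, RingHom.coe_coe, RingHom.id_apply]
      have h1 : (Ideal.Quotient.mk (Ideal.span (Set.range (rel d)))) (MvPolynomial.C r) =
          algebraMap R (Q d) r := rfl
      rw [h1, AlgHom.commutes, hRB]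
      change bwd d B (ρB d B (C r)) = _
      rw [bwd_ρB, qρ_apply, aeval_C]
    · intro i
      simp only [RingHom.comp_apply, RingHom.coe_coe, RingHom.id_apply]
      have h1 : (Ideal.Quotient.mk (Ideal.span (Set.range (rel d)))) (MvPolynomial.X i) =
          qv d i := rfl
      rw [h1, fwd_qv]
      fin_cases i
      · exact bwd_tt d B
      · change bwd d B (ρB d B X) = qv d 1
        rw [bwd_ρB, qρ_apply, aeval_X]
      · change bwd d B (algebraMap (R4 d) B (R4.Y d)) = qv d 2
        rw [bwd_alg, R4.lift_Y]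
      · change bwd d B (algebraMap (R4 d) B (R4.E d)) = qv d 3
        rw [bwd_alg, R4.lift_E]
  exact congrArg (fun g : Q d →+* Q d => g a) h

/-- the isomorphism -/
noncomputable def eqv : Q d ≃ₐ[R] B :=
  { (fwd d B hRB : Q d →ₐ[R] B) with
    invFun := bwd d B
    left_inv := bwd_fwd d B hRB
    right_inv := fwd_bwd d B hRB }

theorem eqv_mk (p : MvPolynomial (Fin 4) R) :
    eqv d B hRB (Ideal.Quotient.mk _ p) = MvPolynomial.aeval (vals d B) p := rfl

/-- presubmersive presentation with respect to the variables `σ` -/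
noncomputable def pres (σ : Fin 3 → Fin 4) (hσ : Function.Injective σ) :
    Algebra.PreSubmersivePresentation R B (Fin 4) (Fin 3) :=
  (Algebra.PreSubmersivePresentation.naive (v := rel d) σ hσ).ofAlgEquiv (eqv d B hRB)

theorem pres_jacobian (σ : Fin 3 → Fin 4) (hσ : Function.Injective σ) :
    (pres d B hRB σ hσ).jacobian = MvPolynomial.aeval (vals d B)
      (Matrix.det (Matrix.of fun i j => MvPolynomial.pderiv (σ i) (rel d j))) := by
  rw [pres, Algebra.PreSubmersivePresentation.jacobian_ofAlgEquiv,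
    Algebra.PreSubmersivePresentation.jacobian_eq_jacobiMatrix_det]
  have : (Algebra.PreSubmersivePresentation.naive (v := rel d) σ hσ).jacobiMatrix =
      Matrix.of fun i j => MvPolynomial.pderiv (σ i) (rel d j) := by
    ext i j : 2
    rw [Algebra.PreSubmersivePresentation.jacobiMatrix_naive]
    rfl
  rw [this]
  rfl

theorem smooth_away (σ : Fin 3 → Fin 4) (hσ : Function.Injective σ) (g : B)
    (hu : IsUnit (algebraMap B (Localization.Away g) (pres d B hRB σ hσ).jacobian)) :
    Algebra.IsStandardSmoothOfRelativeDimension 1 R (Localization.Away g) := by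
  let PP := (Algebra.PreSubmersivePresentation.localizationAway (Localization.Away g) g).comp
    (pres d B hRB σ hσ)
  have hj : IsUnit PP.jacobian := by
    rw [Algebra.PreSubmersivePresentation.comp_jacobian_eq_jacobian_smul_jacobian,
      Algebra.PreSubmersivePresentation.localizationAway_jacobian, Algebra.smul_def]
    exact hu.mul (IsLocalization.Away.algebraMap_isUnit g)
  let SP : Algebra.SubmersivePresentation R (Localization.Away g) (Unit ⊕ Fin 4) (Unit ⊕ Fin 3) :=
    { PP with jacobian_isUnit := hj }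
  refine SP.isStandardSmoothOfRelativeDimension ?_
  simp [Algebra.Presentation.dimension]

end

theorem pd_one (p : R[X]) : MvPolynomial.pderiv (1 : Fin 4)
    (aeval (MvPolynomial.X 1 : MvPolynomial (Fin 4) R) p) =
      aeval (MvPolynomial.X 1) (derivative p) := by
  rw [Derivation.map_aeval, MvPolynomial.pderiv_X_self, smul_eq_mul, mul_one]

theorem pd_ne (i : Fin 4) (hi : i ≠ 1) (p : R[X]) : MvPolynomial.pderiv i
    (aeval (MvPolynomial.X 1 : MvPolynomial (Fin 4) R) p) = 0 := by
  rw [Derivation.map_aeval, MvPolynomial.pderiv_X_of_ne hi.symm, smul_zero]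

theorem pX (i j : Fin 4) : MvPolynomial.pderiv i (MvPolynomial.X j : MvPolynomial (Fin 4) R) =
    if i = j then 1 else 0 := by
  split_ifs with h
  · rw [h, MvPolynomial.pderiv_X_self]
  · rw [MvPolynomial.pderiv_X_of_ne (Ne.symm h)]

theorem pd_rel_zero (i : Fin 4) : MvPolynomial.pderiv i (rel d 0) =
    ![aeval (MvPolynomial.X 1) d.c, MvPolynomial.X 0 * aeval (MvPolynomial.X 1) (derivative d.c),
      0, 0] i := by
  rw [rel_zero, map_sub, Derivation.leibniz, MvPolynomial.pderiv_one, pX]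
  fin_cases i
  · simp [pd_ne (R := R) 0 (by decide)]
  · simp
  · simp [pd_ne (R := R) 2 (by decide)]
  · simp [pd_ne (R := R) 3 (by decide)]

theorem pd_rel_one (i : Fin 4) : MvPolynomial.pderiv i (rel d 1) =
    ![0, -aeval (MvPolynomial.X 1) (derivative d.g), 2 * MvPolynomial.X 2, 0] i := by
  rw [rel_one, map_sub, Derivation.leibniz_pow, pX]
  fin_cases i
  · simp [pd_ne (R := R) 0 (by decide)]
  · simp
  · simp [pd_ne (R := R) 2 (by decide)]
  · simp [pd_ne (R := R) 3 (by decide)]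

theorem pd_rel_two (i : Fin 4) : MvPolynomial.pderiv i (rel d 2) =
    ![0, -(aeval (MvPolynomial.X 1) (derivative d.b₁) * MvPolynomial.X 2 +
        aeval (MvPolynomial.X 1) (derivative d.A₁)),
      -aeval (MvPolynomial.X 1) d.b₁, 2 * MvPolynomial.X 3] i := by
  rw [rel_two, map_sub, map_add, Derivation.leibniz_pow, Derivation.leibniz, pX, pX]
  fin_cases i
  · simp [pd_ne (R := R) 0 (by decide)]
  · simp [mul_comm]
  · simp [pd_ne (R := R) 2 (by decide)]
  · simp [pd_ne (R := R) 3 (by decide)]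

/-- the element `J` -/
noncomputable def JJ : R4 d :=
  algebraMap R[X] (R4 d) (derivative d.g * d.b₁) + 2 * R4.Y d *
    (algebraMap R[X] (R4 d) (derivative d.b₁) * R4.Y d + algebraMap R[X] (R4 d) (derivative d.A₁))

section

set_option linter.unusedSectionVars false

variable (B : Type) [CommRing B] [Algebra (R4 d) B]
  [IsLocalization.Away (algebraMap R[X] (R4 d) d.c) B] [Algebra R B]
  (hRB : algebraMap R B = (algebraMap (R4 d) B).comp (R4.base d))

theorem jac_w : (pres d B hRB ![0, 1, 2] (by decide)).jacobian =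
    ρB d B d.c * algebraMap (R4 d) B (JJ d) := by
  rw [pres_jacobian, Matrix.det_fin_three]
  simp only [Matrix.of_apply, pd_rel_zero, pd_rel_one, pd_rel_two, Matrix.cons_val, map_sub,
    map_add, map_mul, map_neg, map_zero, aeval_vals d B hRB, MvPolynomial.aeval_X, JJ, map_ofNat]
  change _ = ρB d B d.c * (ρB d B (derivative d.g) * ρB d B d.b₁ +
    2 * vals d B 2 * (ρB d B (derivative d.b₁) * vals d B 2 + ρB d B (derivative d.A₁)))
  ring

theorem jac_u : (pres d B hRB ![0, 2, 3] (by decide)).jacobian =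
    4 * ρB d B d.c * algebraMap (R4 d) B (R4.Y d * R4.E d) := by
  rw [pres_jacobian, Matrix.det_fin_three]
  simp only [Matrix.of_apply, pd_rel_zero, pd_rel_one, pd_rel_two, Matrix.cons_val, map_sub,
    map_add, map_mul, map_neg, map_zero, aeval_vals d B hRB, MvPolynomial.aeval_X, map_ofNat]
  change _ = 4 * ρB d B d.c * (vals d B 2 * vals d B 3)
  ring

theorem jac_y : (pres d B hRB ![0, 1, 3] (by decide)).jacobian =
    -2 * ρB d B d.c * algebraMap (R4 d) B (algebraMap R[X] (R4 d) (derivative d.g) * R4.E d) := by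
  rw [pres_jacobian, Matrix.det_fin_three]
  simp only [Matrix.of_apply, pd_rel_zero, pd_rel_one, pd_rel_two, Matrix.cons_val, map_sub,
    map_add, map_mul, map_neg, map_zero, aeval_vals d B hRB, MvPolynomial.aeval_X, map_ofNat]
  change _ = -2 * ρB d B d.c * (ρB d B (derivative d.g) * vals d B 3)
  ring

end

theorem unit_aux {B : Type} [CommRing B] (u v : B) (hu : IsUnit u) :
    IsUnit (algebraMap B (Localization.Away v) (u * v)) := by
  rw [map_mul]
  exact (hu.map _).mul (IsLocalization.Away.algebraMap_isUnit v)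

/-- The hypothesis on the structure constants. -/
def Hyp (d : Dat R[X]) : Prop :=
  ∀ (K : Type) [Field K] (φ : R[X] →+* K), φ d.κ = 0 → φ (derivative d.κ) = 0 →
      φ d.b₁ = 0 ∧ φ d.b₂ = 0 ∧ φ d.b₃ = 0 ∧ φ d.g ≠ 0 ∧
      φ (derivative d.b₁ * derivative d.b₃ - derivative d.b₂ ^ 2) ≠ 0

theorem field_key {K : Type} [Field K] (φ : R4 d →+* K) (h2 : (2 : K) ≠ 0)
    (hg : Ideal.span {d.g, derivative d.g} = ⊤) (hκ : Hyp d)
    (hc : φ (algebraMap R[X] (R4 d) d.c) ≠ 0) (hJ : φ (JJ d) = 0)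
    (h3 : φ (R4.Y d * R4.E d) = 0)
    (h4 : φ (algebraMap R[X] (R4 d) (derivative d.g) * R4.E d) = 0) : False := by
  obtain ⟨ψ, hψ⟩ : ∃ ψ : R[X] →+* K, ψ = φ.comp (algebraMap R[X] (R4 d)) := ⟨_, rfl⟩
  have hψ' : ∀ p, φ (algebraMap R[X] (R4 d) p) = ψ p := fun p => by rw [hψ]; rfl
  rw [hψ'] at hc
  rw [map_mul] at h3
  rw [map_mul, hψ'] at h4
  simp only [JJ, map_add, map_mul, hψ', map_ofNat] at hJ
  obtain ⟨y, hy⟩ : ∃ y, y = φ (R4.Y d) := ⟨_, rfl⟩
  obtain ⟨w, hw⟩ : ∃ w, w = φ (R4.E d) := ⟨_, rfl⟩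
  have hyy : y * y = ψ d.g := by rw [hy, ← map_mul, R4.Y_mul_Y, hψ']
  have hww : w * w = ψ d.A₁ + ψ d.b₁ * y := by
    rw [hw, ← map_mul, R4.E_mul_E, map_add, map_mul, hψ', hψ', hy]
  rw [← hy] at h3 hJ
  rw [← hw] at h3 h4
  have hw0 : w = 0 := by
    by_contra hne
    have e1 : y = 0 := (mul_eq_zero.1 h3).resolve_right hne
    have e2 : ψ (derivative d.g) = 0 := (mul_eq_zero.1 h4).resolve_right hne
    rw [Ideal.eq_top_iff_one, Ideal.mem_span_pair] at hg
    obtain ⟨α, β, hαβ⟩ := hg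
    have h := congrArg ψ hαβ
    rw [map_add, map_mul, map_mul, map_one, e2, ← hyy, e1] at h
    simp at h
  rw [hw0, mul_zero] at hww
  -- polynomial identities
  have hgdef : d.g = d.a ^ 2 + d.b * d.c := rfl
  have hAdef : d.A₁ = d.a * d.b₁ + d.c * d.b₂ := rfl
  have hκdef : d.κ = d.b₁ * d.b₃ - d.b₂ ^ 2 := rfl
  have hrel := d.rel
  have I1 : d.A₁ ^ 2 - d.b₁ ^ 2 * d.g = -(d.c ^ 2 * d.κ) := by
    rw [hgdef, hAdef, hκdef]
    linear_combination (-(d.c * d.b₁)) * hrel
  have I2 := congrArg derivative I1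
  simp only [derivative_sub, derivative_mul, derivative_pow, derivative_neg] at I2
  have I3 := congrArg derivative hrel
  simp only [derivative_add, derivative_mul, derivative_ofNat] at I3
  have I4 := congrArg derivative hAdef
  simp only [derivative_add, derivative_mul] at I4
  have J1 := congrArg ψ I1
  simp only [map_sub, map_mul, map_pow, map_neg] at J1
  have J2 := congrArg ψ I2
  simp only [map_sub, map_add, map_mul, map_pow, map_neg, map_ofNat, Nat.cast_ofNat] at J2
  norm_num at J2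
  have J3 := congrArg ψ I3
  simp only [map_add, map_mul, map_ofNat, map_zero] at J3
  have J4 := congrArg ψ I4
  simp only [map_add, map_mul] at J4
  have J5 := congrArg ψ hgdef
  simp only [map_add, map_mul, map_pow] at J5
  have k1 : ψ d.κ = 0 := by
    have : ψ d.c ^ 2 * ψ d.κ = 0 := by
      linear_combination J1 + (ψ d.A₁ - ψ d.b₁ * y) * hww - ψ d.b₁ ^ 2 * hyy
    exact (mul_eq_zero.1 this).resolve_left (pow_ne_zero 2 hc)
  have k2 : ψ (derivative d.κ) = 0 := by
    have : ψ d.c ^ 2 * ψ (derivative d.κ) = 0 := by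
      linear_combination J2 + ψ d.b₁ * hJ + 2 * ψ (derivative d.A₁) * hww -
        2 * ψ d.b₁ * ψ (derivative d.b₁) * hyy - 2 * ψ d.c * ψ (derivative d.c) * k1
    exact (mul_eq_zero.1 this).resolve_left (pow_ne_zero 2 hc)
  obtain ⟨m1, m2, m3, m4, m5⟩ := hκ K ψ k1 k2
  have hy0 : y ≠ 0 := by
    rintro rfl
    rw [mul_zero] at hyy
    exact m4 hyy.symm
  have e1 : ψ (derivative d.b₁) * y + ψ (derivative d.A₁) = 0 := by
    rw [m1, mul_zero, zero_add] at hJ
    exact (mul_eq_zero.1 hJ).resolve_left (mul_ne_zero h2 hy0)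
  rw [m1, m2] at J4
  rw [m1, m2, m3] at J3
  have e2 : (ψ d.a + y) * ψ (derivative d.b₁) + ψ d.c * ψ (derivative d.b₂) = 0 := by
    linear_combination e1 - J4
  apply m5
  rw [map_sub, map_mul, map_pow]
  have e3 : ψ d.c ^ 2 * (ψ (derivative d.b₁) * ψ (derivative d.b₃) - ψ (derivative d.b₂) ^ 2) =
      0 := by
    linear_combination (-(ψ d.c * ψ (derivative d.b₁))) * J3 +
      (-(ψ d.c * ψ (derivative d.b₂)) + (y - ψ d.a) * ψ (derivative d.b₁)) * e2 -
      ψ (derivative d.b₁) ^ 2 * hyy - ψ (derivative d.b₁) ^ 2 * J5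
  exact (mul_eq_zero.1 e3).resolve_left (pow_ne_zero 2 hc)

section

variable (B : Type) [CommRing B] [Algebra (R4 d) B]
  [IsLocalization.Away (algebraMap R[X] (R4 d) d.c) B]

theorem locally_chart (h2 : IsUnit (2 : R)) (hg : Ideal.span {d.g, derivative d.g} = ⊤)
    (hκ : Hyp d) :
    RingHom.Locally (RingHom.IsStandardSmoothOfRelativeDimension 1)
      ((algebraMap (R4 d) B).comp (R4.base d)) := by
  let := ((algebraMap (R4 d) B).comp (R4.base d)).toAlgebra
  have hRB : algebraMap R B = (algebraMap (R4 d) B).comp (R4.base d) := rfl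
  have hcu : IsUnit (ρB d B d.c) := IsUnit.of_mul_eq_one (tt d B) (by
    rw [mul_comm]; exact tt_mul d B)
  have h2u : IsUnit (2 : B) := by
    have := h2.map (algebraMap R B)
    rwa [map_ofNat] at this
  refine ⟨{algebraMap (R4 d) B (JJ d), algebraMap (R4 d) B (R4.Y d * R4.E d),
    algebraMap (R4 d) B (algebraMap R[X] (R4 d) (derivative d.g) * R4.E d)}, ?_, ?_⟩
  · by_contra hne
    obtain ⟨m, hm, hle⟩ := Ideal.exists_le_maximal _ hne
    rw [Ideal.span_le] at hle
    let : Field (B ⧸ m) := Ideal.Quotient.field m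
    have hz : ∀ x ∈ ({algebraMap (R4 d) B (JJ d), algebraMap (R4 d) B (R4.Y d * R4.E d),
        algebraMap (R4 d) B (algebraMap R[X] (R4 d) (derivative d.g) * R4.E d)} : Set B),
        Ideal.Quotient.mk m x = 0 := fun x hx => Ideal.Quotient.eq_zero_iff_mem.2 (hle hx)
    refine field_key d (K := B ⧸ m) ((Ideal.Quotient.mk m).comp (algebraMap (R4 d) B)) ?_ hg hκ
      ?_ ?_ ?_ ?_
    · have := (h2u.map (Ideal.Quotient.mk m)).ne_zero
      rwa [map_ofNat] at this
    · exact (hcu.map (Ideal.Quotient.mk m)).ne_zero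
    · exact hz _ (by simp)
    · exact hz _ (by simp)
    · exact hz _ (by simp)
  · intro t ht
    rw [← hRB]
    have key : Algebra.IsStandardSmoothOfRelativeDimension 1 R (Localization.Away t) := by
      simp only [Set.mem_insert_iff, Set.mem_singleton_iff] at ht
      rcases ht with rfl | rfl | rfl
      · apply smooth_away d B hRB ![0, 1, 2] (by decide)
        rw [jac_w]
        exact unit_aux _ _ hcu
      · apply smooth_away d B hRB ![0, 2, 3] (by decide)
        rw [jac_u]
        refine unit_aux _ _ (IsUnit.mul ?_ hcu)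
        have : (4 : B) = 2 * 2 := by norm_num
        rw [this]
        exact h2u.mul h2u
      · apply smooth_away d B hRB ![0, 1, 3] (by decide)
        rw [jac_y]
        exact unit_aux _ _ (IsUnit.mul h2u.neg hcu)
    rw [RingHom.IsStandardSmoothOfRelativeDimension]
    have halg : ((algebraMap B (Localization.Away t)).comp (algebraMap R B)).toAlgebra =
        (inferInstance : Algebra R (Localization.Away t)) :=
      Algebra.algebra_ext _ _ (fun r => rfl)
    rw [halg]
    exact key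

end

/-- The first change of basis: exchange `e₁` and `e₂`. -/
noncomputable def sw (d : Dat R[X]) : Dat R[X] where
  b₁ := d.b₃
  b₂ := d.b₂
  b₃ := d.b₁
  a := -d.a
  b := d.c
  c := d.b
  rel := by linear_combination -d.rel

/-- The second change of basis: `e₁ + e₂` and `e₂`. -/
noncomputable def sh (d : Dat R[X]) : Dat R[X] where
  b₁ := d.b₁ + 2 * d.b₂ + d.b₃
  b₂ := d.b₂ + d.b₃
  b₃ := d.b₃
  a := d.a + d.b
  b := d.b
  c := d.c - 2 * d.a - d.b
  rel := by linear_combination d.rel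

theorem sw_g : (sw d).g = d.g := by simp only [sw, Dat.g]; ring
theorem sh_g : (sh d).g = d.g := by simp only [sh, Dat.g]; ring
theorem sw_κ : (sw d).κ = d.κ := by simp only [sw, Dat.κ]; ring
theorem sh_κ : (sh d).κ = d.κ := by simp only [sh, Dat.κ]; ring

theorem hyp_sw (h : Hyp d) : Hyp (sw d) := by
  intro K _ φ h1 h2
  rw [sw_κ] at h1 h2
  obtain ⟨m1, m2, m3, m4, m5⟩ := h K φ h1 h2
  refine ⟨m3, m2, m1, ?_, ?_⟩
  · rwa [sw_g]
  · simp only [sw]
    rwa [mul_comm (derivative d.b₃)]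

theorem hyp_sh (h : Hyp d) : Hyp (sh d) := by
  intro K _ φ h1 h2
  rw [sh_κ] at h1 h2
  obtain ⟨m1, m2, m3, m4, m5⟩ := h K φ h1 h2
  refine ⟨?_, ?_, m3, ?_, ?_⟩
  · simp only [sh, map_add, map_mul, m1, m2, m3]; simp
  · simp only [sh, map_add, m2, m3]; simp
  · rwa [sh_g]
  · have : derivative (sh d).b₁ * derivative (sh d).b₃ - derivative (sh d).b₂ ^ 2 =
        derivative d.b₁ * derivative d.b₃ - derivative d.b₂ ^ 2 := by
      simp only [sh, derivative_add, derivative_mul, derivative_ofNat]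
      ring
    rwa [this]

/-- The isomorphism for the exchange of `e₁` and `e₂`. -/
noncomputable def swE (d : Dat R[X]) : R4 d ≃+* R4 (sw d) where
  toFun s := ⟨s.z, s.y, s.f, s.e⟩
  invFun s := ⟨s.z, s.y, s.f, s.e⟩
  left_inv _ := rfl
  right_inv _ := rfl
  map_add' _ _ := rfl
  map_mul' s t := by
    refine R4.ext ?_ ?_ ?_ ?_
    · simp only [R4.mul_z]
      simp only [sw, Dat.g, Dat.A₁, Dat.A₂, Dat.A₃]
      linear_combination (-(s.e * t.f + s.f * t.e)) * d.rel
    · simp only [R4.mul_y]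
      simp only [sw]; ring
    · simp only [R4.mul_e, R4.mul_f]
      simp only [sw]; ring
    · simp only [R4.mul_e, R4.mul_f]
      simp only [sw]; ring

/-- The isomorphism for the shear. -/
noncomputable def shE (d : Dat R[X]) : R4 d ≃+* R4 (sh d) where
  toFun s := ⟨s.z, s.y, s.e, s.f - s.e⟩
  invFun s := ⟨s.z, s.y, s.e, s.f + s.e⟩
  left_inv s := R4.ext rfl rfl rfl (sub_add_cancel _ _)
  right_inv s := R4.ext rfl rfl rfl (add_sub_cancel_right _ _)
  map_add' s t := R4.ext rfl rfl rfl (by simp only [R4.add_f, R4.add_e]; ring)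
  map_mul' s t := by
    refine R4.ext ?_ ?_ ?_ ?_
    · simp only [R4.mul_z]
      simp only [sh, Dat.g, Dat.A₁, Dat.A₂, Dat.A₃]
      linear_combination (-(s.e * t.e)) * d.rel
    · simp only [R4.mul_y]
      simp only [sh]; ring
    · simp only [R4.mul_e]
      simp only [sh]; ring
    · simp only [R4.mul_e, R4.mul_f]
      simp only [sh]; ring

theorem transport_aux {d d' : Dat R[X]} (e : R4 d ≃+* R4 d') (r : R4 d)
    (hr' : e r = algebraMap R[X] (R4 d') d'.c)
    (he : ∀ p, e (algebraMap R[X] (R4 d) p) = algebraMap R[X] (R4 d') p)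
    (h2 : IsUnit (2 : R)) (hg : Ideal.span {d'.g, derivative d'.g} = ⊤) (hκ : Hyp d')
    (B : Type) [CommRing B] [Algebra (R4 d) B] [hB : IsLocalization.Away r B] :
    RingHom.Locally (RingHom.IsStandardSmoothOfRelativeDimension 1)
      ((algebraMap (R4 d) B).comp (R4.base d)) := by
  let := ((algebraMap (R4 d) B).comp e.symm.toRingHom).toAlgebra
  have h : IsLocalization ((Submonoid.powers r).map (e : R4 d →* R4 d')) B :=
    IsLocalization.isLocalization_of_base_ringEquiv (Submonoid.powers r) B e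
  have : IsLocalization.Away (algebraMap R[X] (R4 d') d'.c) B := by
    rw [Submonoid.map_powers] at h
    rw [← hr']
    exact h
  have h4 := locally_chart d' B h2 hg hκ
  have h5 : (algebraMap (R4 d') B).comp (R4.base d') = (algebraMap (R4 d) B).comp (R4.base d) := by
    apply RingHom.ext
    intro r
    change algebraMap (R4 d) B (e.symm (algebraMap R[X] (R4 d') (C r))) =
      algebraMap (R4 d) B (algebraMap R[X] (R4 d) (C r))
    rw [← he, RingEquiv.symm_apply_apply]
  rw [h5] at h4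
  exact h4

theorem transport {d d' : Dat R[X]} (e : R4 d ≃+* R4 d')
    (he : ∀ p, e (algebraMap R[X] (R4 d) p) = algebraMap R[X] (R4 d') p)
    (h2 : IsUnit (2 : R)) (hg : Ideal.span {d'.g, derivative d'.g} = ⊤)
    (hκ : Hyp d') (c₀ : R[X]) (hc₀ : d'.c = c₀) (r : R4 d) (hr : r = algebraMap R[X] (R4 d) c₀) :
    RingHom.Locally (RingHom.IsStandardSmoothOfRelativeDimension 1)
      ((algebraMap (R4 d) (Localization.Away r)).comp (R4.base d)) := by
  subst hc₀
  have hr' : e r = algebraMap R[X] (R4 d') d'.c := by rw [hr, he]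
  clear hr
  exact transport_aux e r hr' he h2 hg hκ _

end Smooth4

open Smooth4 in
theorem smooth_R4 {R : Type} [CommRing R] (d : Dat R[X]) (h2 : IsUnit (2 : R))
    (hg : Ideal.span {d.g, derivative d.g} = ⊤)
    (hκ : ∀ (K : Type) [Field K] (φ : R[X] →+* K), φ d.κ = 0 → φ (derivative d.κ) = 0 →
      φ d.b₁ = 0 ∧ φ d.b₂ = 0 ∧ φ d.b₃ = 0 ∧ φ d.g ≠ 0 ∧
      φ (derivative d.b₁ * derivative d.b₃ - derivative d.b₂ ^ 2) ≠ 0) :
    SmoothOfRelativeDimension 1 (Spec.map (CommRingCat.ofHom (R4.base d))) := by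
  rw [HasRingHomProperty.Spec_iff (P := @SmoothOfRelativeDimension 1)]
  change RingHom.Locally (RingHom.IsStandardSmoothOfRelativeDimension 1) (R4.base d)
  have hspan : Ideal.span {algebraMap R[X] (R4 d) d.c, algebraMap R[X] (R4 d) d.b,
      algebraMap R[X] (R4 d) (d.c - 2 * d.a - d.b)} = ⊤ := by
    by_contra hne
    obtain ⟨m, hm, hle⟩ := Ideal.exists_le_maximal _ hne
    rw [Ideal.span_le] at hle
    let : Field (R4 d ⧸ m) := Ideal.Quotient.field m
    obtain ⟨ψ, hψ⟩ : ∃ ψ : R[X] →+* R4 d ⧸ m,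
        ψ = (Ideal.Quotient.mk m).comp (algebraMap R[X] (R4 d)) := ⟨_, rfl⟩
    have hz : ∀ x : R[X], algebraMap R[X] (R4 d) x ∈ ({algebraMap R[X] (R4 d) d.c,
        algebraMap R[X] (R4 d) d.b, algebraMap R[X] (R4 d) (d.c - 2 * d.a - d.b)} : Set (R4 d)) →
        ψ x = 0 := fun x hx => by
      rw [hψ]
      exact Ideal.Quotient.eq_zero_iff_mem.2 (hle hx)
    have z1 : ψ d.c = 0 := hz _ (by simp)
    have z2 : ψ d.b = 0 := hz _ (by simp)
    have z3 : ψ (d.c - 2 * d.a - d.b) = 0 := hz _ (by simp)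
    have u2 : (2 : R4 d ⧸ m) ≠ 0 := by
      have := ((h2.map C).map ψ).ne_zero
      rwa [map_ofNat, map_ofNat] at this
    have z4 : ψ d.a = 0 := by
      rw [map_sub, map_sub, map_mul, map_ofNat, z1, z2] at z3
      have : 2 * ψ d.a = 0 := by linear_combination -z3
      exact (mul_eq_zero.1 this).resolve_left u2
    rw [Ideal.eq_top_iff_one, Ideal.mem_span_pair] at hg
    obtain ⟨α, β, hαβ⟩ := hg
    have h := congrArg ψ hαβ
    simp only [Dat.g, derivative_mul, derivative_pow, map_add, map_mul, map_pow,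
      z1, z2, z4, map_one] at h
    simp at h
  refine RingHom.locally_ofLocalizationSpanTarget
    RingHom.isStandardSmoothOfRelativeDimension_respectsIso _ _ hspan ?_
  rintro ⟨r, hr⟩
  simp only [Set.mem_insert_iff, Set.mem_singleton_iff] at hr
  rcases hr with hr | hr | hr
  · exact transport (RingEquiv.refl _) (fun _ => rfl) h2 hg hκ _ rfl r hr
  · exact transport (swE d) (fun _ => rfl) h2 (by rwa [sw_g]) (hyp_sw d hκ) _ rfl r hr
  · refine transport (shE d) (fun p => ?_) h2 (by rwa [sh_g]) (hyp_sh d hκ) _ rfl r hr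
    refine R4.ext rfl rfl rfl ?_
    exact sub_zero _

end Pool.Agent.Work.MP_2eb777_ag
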