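import Pool.Agent.Work.MP_2eb777_ag.Q1.Data1
import Pool.Agent.Work.MP_2eb777_ag.Q1.CondBase
import Pool.Agent.Work.MP_2eb777_ag.Q1.Family4
import Pool.Agent.Work.MP_2eb777_ag.Q1.Smooth
import Pool.Agent.Work.MP_2eb777_ag.Q1.Domain
import Pool.Agent.Work.MP_2eb777_ag.Q1.Genus4

set_option autoImplicit false

open CategoryTheory CategoryTheory.Limits AlgebraicGeometry Polynomial

namespace Pool.Agent.Work.MP_2eb777_ag

namespace Cond1

/-! ### Computations in a field -/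

section field

variable {K : Type} [Field K] {x q r i u v : K}

theorem two_ne (hi : 36 * i = 1) : (2 : K) ≠ 0 := by
  intro h
  have : (1 : K) = 0 := by linear_combination (18 * i) * h - hi
  exact one_ne_zero this

theorem three_ne (hi : 36 * i = 1) : (3 : K) ≠ 0 := by
  intro h
  have : (1 : K) = 0 := by linear_combination (12 * i) * h - hi
  exact one_ne_zero this

theorem i_ne (hi : 36 * i = 1) : i ≠ 0 := by
  rintro rfl
  simp at hi

/-- The case `x ^ 4 = 8 x`. -/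
theorem caseA (hi : 36 * i = 1) (hq : q ^ 2 = x ^ 4 - 4 * x ^ 3 - 8 * x - 4)
    (hr : r ^ 2 = 4 * (x ^ 4 - 8 * x) * (x ^ 3 + 1)) (h : x ^ 4 - 8 * x = 0) :
    r = 0 ∧ q ≠ 0 ∧ x ^ 3 + 1 ≠ 0 ∧ 9 - x ^ 3 ≠ 0 ∧ 2 - x ^ 3 ≠ 0 := by
  have h2 := two_ne hi
  have h3 := three_ne hi
  have hr0 : r = 0 := by
    have : r ^ 2 = 0 := by rw [hr, h]; ring
    exact pow_eq_zero_iff two_ne_zero |>.1 this
  have hx : x * (x ^ 3 - 8) = 0 := by linear_combination h
  rcases mul_eq_zero.1 hx with rfl | hx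
  · refine ⟨hr0, ?_, ?_, ?_, ?_⟩
    · rintro rfl
      have : (2 : K) * 2 = 0 := by linear_combination hq
      exact mul_ne_zero h2 h2 this
    · norm_num
    · have : (9 - 0 ^ 3 : K) = 3 * 3 := by ring
      rw [this]
      exact mul_ne_zero h3 h3
    · have : (2 - 0 ^ 3 : K) = 2 := by ring
      rwa [this]
  · refine ⟨hr0, ?_, ?_, ?_, ?_⟩
    · rintro rfl
      have : (2 : K) * 2 * (3 * 3) = 0 := by linear_combination hq + (x - 4) * hx
      exact mul_ne_zero (mul_ne_zero h2 h2) (mul_ne_zero h3 h3) this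
    · have : x ^ 3 + 1 = 3 * 3 := by linear_combination hx
      rw [this]
      exact mul_ne_zero h3 h3
    · have : 9 - x ^ 3 = 1 := by linear_combination -hx
      rw [this]
      exact one_ne_zero
    · have : 2 - x ^ 3 = -(2 * 3) := by linear_combination -hx
      rw [this]
      exact neg_ne_zero.2 (mul_ne_zero h2 h3)

/-- The case `x ^ 3 = -1`. -/
theorem caseB (hi : 36 * i = 1) (hq : q ^ 2 = x ^ 4 - 4 * x ^ 3 - 8 * x - 4)
    (hr : r ^ 2 = 4 * (x ^ 4 - 8 * x) * (x ^ 3 + 1)) (h : x ^ 3 + 1 = 0) :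
    r = 0 ∧ q ≠ 0 ∧ x ≠ 0 ∧ x ^ 4 - 8 * x ≠ 0 ∧ q ^ 2 = -9 * x ∧ 1 - x ≠ 0 := by
  have h2 := two_ne hi
  have h3 := three_ne hi
  have hr0 : r = 0 := by
    have : r ^ 2 = 0 := by rw [hr, h]; ring
    exact pow_eq_zero_iff two_ne_zero |>.1 this
  have hx : x ≠ 0 := by
    rintro rfl
    norm_num at h
  have hq2 : q ^ 2 = -9 * x := by linear_combination hq + (x - 4) * h
  refine ⟨hr0, ?_, hx, ?_, hq2, ?_⟩
  · rintro rfl
    have : (3 : K) * 3 * x = 0 := by linear_combination hq2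
    exact mul_ne_zero (mul_ne_zero h3 h3) hx this
  · have : x ^ 4 - 8 * x = -(3 * 3 * x) := by linear_combination x * h
    rw [this]
    exact neg_ne_zero.2 (mul_ne_zero (mul_ne_zero h3 h3) hx)
  · intro h1
    have hx1 : x = 1 := by linear_combination -h1
    rw [hx1] at h
    apply h2
    linear_combination h

/-- The first chart. -/
theorem smoothA (hi : 36 * i = 1) (hq : q ^ 2 = x ^ 4 - 4 * x ^ 3 - 8 * x - 4)
    (hr : r ^ 2 = 4 * (x ^ 4 - 8 * x) * (x ^ 3 + 1))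
    (h1 : 4 * (x ^ 3 + 1) * u ^ 2 - (x ^ 4 - 8 * x) = 0) (h2 : 8 * (x ^ 3 + 1) * u = 0) :
    r = 0 ∧ l₁ x q i u = 0 ∧ u = 0 ∧ 4 * i * (x ^ 3 + 1) * (9 - x ^ 3) * q ≠ 0 := by
  have k2 := two_ne hi
  have e1 : (x ^ 3 + 1) * u = 0 := by
    have : (2 * 2 * 2) * ((x ^ 3 + 1) * u) = 0 := by linear_combination h2
    exact (mul_eq_zero.1 this).resolve_left (mul_ne_zero (mul_ne_zero k2 k2) k2)
  have e2 : x ^ 4 - 8 * x = 0 := by linear_combination -h1 + (4 * u) * e1
  obtain ⟨m1, m2, m3, m4, -⟩ := caseA hi hq hr e2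
  have hu : u = 0 := (mul_eq_zero.1 e1).resolve_left m3
  refine ⟨m1, ?_, hu, ?_⟩
  · simp only [l₁]
    rw [e2, hu]
    ring
  · refine mul_ne_zero (mul_ne_zero (mul_ne_zero (mul_ne_zero ?_ (i_ne hi)) m3) m4) m2
    have : (4 : K) = 2 * 2 := by norm_num
    rw [this]
    exact mul_ne_zero k2 k2

/-- The second chart. -/
theorem smoothB (hi : 36 * i = 1) (hq : q ^ 2 = x ^ 4 - 4 * x ^ 3 - 8 * x - 4)
    (hr : r ^ 2 = 4 * (x ^ 4 - 8 * x) * (x ^ 3 + 1))
    (h1 : 4 * (x ^ 3 + 1) - (x ^ 4 - 8 * x) * v ^ 2 = 0) (h2 : -(2 * (x ^ 4 - 8 * x) * v) = 0) :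
    r = 0 ∧ l₁' x q i v = 0 ∧ v = 0 ∧ 12 * i * x * (x ^ 4 - 8 * x) ≠ 0 := by
  have k2 := two_ne hi
  have k3 := three_ne hi
  have e1 : (x ^ 4 - 8 * x) * v = 0 := by
    have : 2 * ((x ^ 4 - 8 * x) * v) = 0 := by linear_combination -h2
    exact (mul_eq_zero.1 this).resolve_left k2
  have e2 : x ^ 3 + 1 = 0 := by
    have : (2 * 2) * (x ^ 3 + 1) = 0 := by linear_combination h1 + v * e1
    exact (mul_eq_zero.1 this).resolve_left (mul_ne_zero k2 k2)
  obtain ⟨m1, m2, m3, m4, m5, m6⟩ := caseB hi hq hr e2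
  have hv : v = 0 := (mul_eq_zero.1 e1).resolve_left m4
  refine ⟨m1, ?_, hv, ?_⟩
  · simp only [l₁']
    rw [e2, hv]
    ring
  · refine mul_ne_zero (mul_ne_zero (mul_ne_zero ?_ (i_ne hi)) m3) m4
    have : (12 : K) = 2 * 2 * 3 := by norm_num
    rw [this]
    exact mul_ne_zero (mul_ne_zero k2 k2) k3

end field

/-! ### Smoothness -/

section smooth

variable {R : Type} [CommRing R] {x q r i : R}

theorem C_hi (hi : 36 * i = 1) : 36 * (C i : R[X]) = 1 := by
  simpa only [map_mul, map_one, map_ofNat] using congrArg (C : R →+* R[X]) hi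

theorem C_hq (hq : q ^ 2 = x ^ 4 - 4 * x ^ 3 - 8 * x - 4) :
    (C q : R[X]) ^ 2 = C x ^ 4 - 4 * C x ^ 3 - 8 * C x - 4 := by
  simpa only [map_mul, map_one, map_ofNat, map_pow, map_sub] using congrArg (C : R →+* R[X]) hq

theorem C_hr (hr : r ^ 2 = 4 * (x ^ 4 - 8 * x) * (x ^ 3 + 1)) :
    (C r : R[X]) ^ 2 = 4 * (C x ^ 4 - 8 * C x) * (C x ^ 3 + 1) := by
  simpa only [map_mul, map_one, map_ofNat, map_pow, map_sub, map_add] using
    congrArg (C : R →+* R[X]) hr

theorem dC (n : ℕ) (x : R) : derivative (C x ^ n : R[X]) = 0 := by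
  rw [← C_pow, derivative_C]

theorem unit2 (hi : 36 * i = 1) : IsUnit (2 : R) :=
  IsUnit.of_mul_eq_one (18 * i) (by linear_combination hi)

theorem unit12 (hi : 36 * i = 1) : IsUnit (12 : R) :=
  IsUnit.of_mul_eq_one (3 * i) (by linear_combination hi)

theorem smooth_d (hi : 36 * i = 1) (hq : q ^ 2 = x ^ 4 - 4 * x ^ 3 - 8 * x - 4)
    (hr : r ^ 2 = 4 * (x ^ 4 - 8 * x) * (x ^ 3 + 1)) :
    SmoothOfRelativeDimension 1 (Spec.map (CommRingCat.ofHom
      (R4.base (dat₁ (C x) (C q) (C r) (C i) (X : R[X]))))) := by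
  have hg := dat₁_g (u := (X : R[X])) (C_hi hi) (C_hq hq) (C_hr hr)
  have hκ := dat₁_κ (u := (X : R[X])) (C_hi hi) (C_hq hq) (C_hr hr)
  refine smooth_R4 _ (unit2 hi) (by rw [hg]; exact span_g (unit12 hi)) ?_
  intro K _ φ h1 h2
  rw [hκ] at h1 h2
  rw [hg]
  have h1' : 4 * (φ (C x) ^ 3 + 1) * φ X ^ 2 - (φ (C x) ^ 4 - 8 * φ (C x)) = 0 := by
    simpa only [map_mul, map_one, map_ofNat, map_pow, map_sub, map_add] using h1
  have h2' : 8 * (φ (C x) ^ 3 + 1) * φ X = 0 := by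
    simp only [derivative_mul, dC, derivative_ofNat,
      derivative_one, derivative_X_pow, derivative_C, map_sub, map_mul, map_add, map_ofNat,
      map_zero, map_one, map_pow, Nat.cast_ofNat] at h2
    linear_combination h2
  have hi' : 36 * φ (C i) = 1 := by
    simpa only [map_mul, map_one, map_ofNat] using congrArg φ (C_hi hi)
  have hq' : φ (C q) ^ 2 = φ (C x) ^ 4 - 4 * φ (C x) ^ 3 - 8 * φ (C x) - 4 := by
    simpa only [map_mul, map_one, map_ofNat, map_pow, map_sub] using congrArg φ (C_hq hq)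
  have hr' : φ (C r) ^ 2 = 4 * (φ (C x) ^ 4 - 8 * φ (C x)) * (φ (C x) ^ 3 + 1) := by
    simpa only [map_mul, map_one, map_ofNat, map_pow, map_sub, map_add] using congrArg φ (C_hr hr)
  obtain ⟨m1, m2, m3, m4⟩ := smoothA hi' hq' hr' h1' h2'
  refine ⟨m1, ?_, ?_, ?_, ?_⟩
  · change φ (l₁ (C x) (C q) (C i) X) = 0
    rw [← m2]
    simp only [l₁, map_mul, map_one, map_ofNat, map_pow, map_sub, map_add]
  · change φ (C r * _) = 0
    rw [map_mul, m1, zero_mul]
  · simp only [map_mul, map_one, map_pow, map_sub, map_add]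
    rw [m3]
    norm_num
  · change φ (derivative (C r) * _ - derivative (l₁ (C x) (C q) (C i) X) ^ 2) ≠ 0
    have e : derivative (l₁ (C x) (C q) (C i) (X : R[X])) =
        4 * C i * (C x ^ 3 + 1) * (9 - C x ^ 3) * C q := by
      simp only [l₁, derivative_add, derivative_mul, derivative_sub, derivative_X, derivative_C,
        dC, derivative_ofNat, derivative_one]
      ring
    rw [e, derivative_C, zero_mul, zero_sub, map_neg, map_pow]
    refine neg_ne_zero.2 (pow_ne_zero 2 ?_)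
    simpa only [map_mul, map_one, map_ofNat, map_pow, map_sub, map_add] using m4

theorem smooth_d' (hi : 36 * i = 1) (hq : q ^ 2 = x ^ 4 - 4 * x ^ 3 - 8 * x - 4)
    (hr : r ^ 2 = 4 * (x ^ 4 - 8 * x) * (x ^ 3 + 1)) :
    SmoothOfRelativeDimension 1 (Spec.map (CommRingCat.ofHom
      (R4.base (dat₁' (C x) (C q) (C r) (C i) (X : R[X]))))) := by
  have hg := dat₁'_g (v := (X : R[X])) (C_hi hi) (C_hq hq) (C_hr hr)
  have hκ := dat₁'_κ (v := (X : R[X])) (C_hi hi) (C_hq hq) (C_hr hr)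
  refine smooth_R4 _ (unit2 hi) (by rw [hg]; exact span_g' (unit12 hi)) ?_
  intro K _ φ h1 h2
  rw [hκ] at h1 h2
  rw [hg]
  have h1' : 4 * (φ (C x) ^ 3 + 1) - (φ (C x) ^ 4 - 8 * φ (C x)) * φ X ^ 2 = 0 := by
    simpa only [map_mul, map_one, map_ofNat, map_pow, map_sub, map_add] using h1
  have h2' : -(2 * (φ (C x) ^ 4 - 8 * φ (C x)) * φ X) = 0 := by
    simp only [derivative_mul, dC, derivative_ofNat,
      derivative_one, derivative_X_pow, derivative_C, map_sub, map_mul, map_add, map_ofNat,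
      map_zero, map_one, map_pow, Nat.cast_ofNat] at h2
    linear_combination h2
  have hi' : 36 * φ (C i) = 1 := by
    simpa only [map_mul, map_one, map_ofNat] using congrArg φ (C_hi hi)
  have hq' : φ (C q) ^ 2 = φ (C x) ^ 4 - 4 * φ (C x) ^ 3 - 8 * φ (C x) - 4 := by
    simpa only [map_mul, map_one, map_ofNat, map_pow, map_sub] using congrArg φ (C_hq hq)
  have hr' : φ (C r) ^ 2 = 4 * (φ (C x) ^ 4 - 8 * φ (C x)) * (φ (C x) ^ 3 + 1) := by
    simpa only [map_mul, map_one, map_ofNat, map_pow, map_sub, map_add] using congrArg φ (C_hr hr)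
  obtain ⟨m1, m2, m3, m4⟩ := smoothB hi' hq' hr' h1' h2'
  refine ⟨m1, ?_, ?_, ?_, ?_⟩
  · change φ (l₁' (C x) (C q) (C i) X) = 0
    rw [← m2]
    simp only [l₁', map_mul, map_one, map_ofNat, map_pow, map_sub, map_add]
  · change φ (C r * _) = 0
    rw [map_mul, m1, zero_mul]
  · simp only [map_mul, map_one, map_pow, map_sub, map_add]
    rw [m3]
    norm_num
  · change φ (derivative (C r) * _ - derivative (l₁' (C x) (C q) (C i) X) ^ 2) ≠ 0
    have e : derivative (l₁' (C x) (C q) (C i) (X : R[X])) =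
        12 * C i * C x * (C x ^ 4 - 8 * C x) := by
      simp only [l₁', derivative_add, derivative_mul, derivative_sub, derivative_X, derivative_C,
        dC, derivative_ofNat, derivative_one]
      ring
    rw [e, derivative_C, zero_mul, zero_sub, map_neg, map_pow]
    refine neg_ne_zero.2 (pow_ne_zero 2 ?_)
    simpa only [map_mul, map_one, map_ofNat, map_pow, map_sub, map_add] using m4

end smooth

/-! ### Domains -/

section domain

variable {k : Type} [Field k] {x q r i : k}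

theorem coeff_cubic_two (a b c d : k) :
    (C a * X ^ 3 + C b * X ^ 2 + C c * X + C d : k[X]).coeff 2 = b := by
  simp

theorem coeff_cubic_zero (a b c d : k) :
    (C a * X ^ 3 + C b * X ^ 2 + C c * X + C d : k[X]).coeff 0 = d := by
  simp

theorem c_ne (hi : 36 * i = 1) : (dat₁ (C x) (C q) (C r) (C i) (X : k[X])).c ≠ 0 := by
  have h2 := two_ne hi
  have h3 := three_ne hi
  intro h0
  change c₁ (C x) (C q) (X : k[X]) = 0 at h0
  have e : c₁ (C x) (C q) (X : k[X]) =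
      C (-q) * X ^ 3 + C (3 * x ^ 2) * X ^ 2 + C (q * x) * X + C (2 - x ^ 3) := by
    simp only [c₁, map_neg, map_mul, map_pow, map_sub, map_ofNat]
    ring
  rw [e] at h0
  have e2 : 3 * x ^ 2 = 0 := by
    rw [← coeff_cubic_two (-q) (3 * x ^ 2) (q * x) (2 - x ^ 3), h0, coeff_zero]
  have e0 : 2 - x ^ 3 = 0 := by
    rw [← coeff_cubic_zero (-q) (3 * x ^ 2) (q * x) (2 - x ^ 3), h0, coeff_zero]
  have hx : x = 0 := by
    rcases mul_eq_zero.1 e2 with h | h
    · exact absurd h h3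
    · exact pow_eq_zero_iff two_ne_zero |>.1 h
  rw [hx] at e0
  apply h2
  linear_combination e0

theorem g_eq (hi : 36 * i = 1) (hq : q ^ 2 = x ^ 4 - 4 * x ^ 3 - 8 * x - 4)
    (hr : r ^ 2 = 4 * (x ^ 4 - 8 * x) * (x ^ 3 + 1)) :
    (dat₁ (C x) (C q) (C r) (C i) (X : k[X])).g = (X ^ 2 - 1) * (X ^ 6 + 1) :=
  dat₁_g (C_hi hi) (C_hq hq) (C_hr hr)

theorem dom_generic (hi : 36 * i = 1) (hq : q ^ 2 = x ^ 4 - 4 * x ^ 3 - 8 * x - 4)
    (hr : r ^ 2 = 4 * (x ^ 4 - 8 * x) * (x ^ 3 + 1)) (h1 : x ^ 3 + 1 ≠ 0)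
    (h2 : x ^ 4 - 8 * x ≠ 0) : NonSquare (-(dat₁ (C x) (C q) (C r) (C i) (X : k[X])).κ) := by
  have k2 := two_ne hi
  have k4 : (4 : k) ≠ 0 := by
    have : (4 : k) = 2 * 2 := by norm_num
    rw [this]
    exact mul_ne_zero k2 k2
  rw [dat₁_κ (C_hi hi) (C_hq hq) (C_hr hr)]
  have hr0 : r ≠ 0 := by
    rintro rfl
    rw [zero_pow two_ne_zero] at hr
    exact mul_ne_zero (mul_ne_zero k4 h2) h1 hr.symm
  have hh : 4 * (x ^ 3 + 1) ≠ 0 := mul_ne_zero k4 h1
  apply nonSquare_of_simple_root _ (r / (4 * (x ^ 3 + 1)))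
  · simp only [eval_neg, eval_sub, eval_mul, eval_add, eval_pow, eval_C, eval_X, eval_ofNat,
      eval_one]
    field_simp
    linear_combination -hr
  · simp only [derivative_neg, derivative_sub, derivative_mul, dC, derivative_ofNat,
      derivative_add, derivative_one, derivative_X_pow, derivative_C, eval_neg, eval_sub,
      eval_mul, eval_add, eval_pow, eval_C, eval_X, eval_ofNat, eval_one, eval_zero,
      Nat.cast_ofNat]
    have : -(4 * (x ^ 3 + 1) * (2 * (r / (4 * (x ^ 3 + 1))))) ≠ 0 := by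
      have : 4 * (x ^ 3 + 1) * (2 * (r / (4 * (x ^ 3 + 1)))) = 2 * r := by field_simp
      rw [this]
      exact neg_ne_zero.2 (mul_ne_zero k2 hr0)
    intro h0
    apply this
    rw [← h0]
    ring_nf

theorem A_eq (hi : 36 * i = 1) (hq : q ^ 2 = x ^ 4 - 4 * x ^ 3 - 8 * x - 4)
    (hr : r ^ 2 = 4 * (x ^ 4 - 8 * x) * (x ^ 3 + 1)) :
    (dat₁ (C x) (C q) (C r) (C i) (X : k[X])).A₁ =
      C (4 * (x ^ 3 + 1)) * X ^ 4 + C (3 * x ^ 2 * q) * X ^ 3 +
        C (-(4 * (x ^ 3 + 1) * x) - (x ^ 4 - 8 * x)) * X ^ 2 + C (q * (2 - x ^ 3)) * X +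
          C ((x ^ 4 - 8 * x) * x) := by
  rw [dat₁_A₁ (C_hi hi) (C_hq hq) (C_hr hr)]
  simp only [map_neg, map_mul, map_pow, map_sub, map_ofNat, map_add, map_one]
  ring

theorem dq (a b c d e : k) : derivative (C a * X ^ 4 + C b * X ^ 3 + C c * X ^ 2 + C d * X + C e) =
    C (4 * a) * X ^ 3 + C (3 * b) * X ^ 2 + C (2 * c) * X + C d := by
  simp only [derivative_add, derivative_C_mul, derivative_X_pow, derivative_X, derivative_C,
    map_mul, map_ofNat, Nat.cast_ofNat]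
  ring

theorem dg : derivative (((X : k[X]) ^ 2 - 1) * (X ^ 6 + 1)) = 8 * X ^ 7 - 6 * X ^ 5 + 2 * X :=
  deriv_g k

/-- Simple roots of `A` and `A g`. -/
theorem nonSquare_pair (A g : k[X]) (a b : k) (h1 : A.eval a = 0) (h2 : (derivative A).eval a ≠ 0)
    (h3 : (A * g).eval b = 0) (h4 : (derivative A).eval b * g.eval b +
      A.eval b * (derivative g).eval b ≠ 0) : NonSquare A ∧ NonSquare (A * g) :=
  ⟨nonSquare_of_simple_root _ a h1 h2, nonSquare_of_simple_root _ b h3 (by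
    rw [derivative_mul, eval_add, eval_mul, eval_mul]; exact h4)⟩

theorem dom_r2 (hi : 36 * i = 1) (hq : q ^ 2 = x ^ 4 - 4 * x ^ 3 - 8 * x - 4)
    (hr : r ^ 2 = 4 * (x ^ 4 - 8 * x) * (x ^ 3 + 1)) (h : x ^ 4 - 8 * x = 0) :
    (dat₁ (C x) (C q) (C r) (C i) (X : k[X])).b₁ = 0 ∧
      NonSquare (dat₁ (C x) (C q) (C r) (C i) (X : k[X])).A₁ ∧
      NonSquare ((dat₁ (C x) (C q) (C r) (C i) (X : k[X])).A₁ *
        (dat₁ (C x) (C q) (C r) (C i) (X : k[X])).g) := by
  obtain ⟨m1, m2, m3, m4, m5⟩ := caseA hi hq hr h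
  refine ⟨?_, ?_⟩
  · change C r = 0
    rw [m1, C_0]
  · rw [g_eq hi hq hr, A_eq hi hq hr]
    apply nonSquare_pair _ _ 0 0
    · simp [h]
    · rw [dq]
      simp only [eval_add, eval_mul, eval_C, eval_pow, eval_X]
      have : q * (2 - x ^ 3) ≠ 0 := mul_ne_zero m2 m5
      intro h0
      apply this
      rw [← h0]
      ring
    · simp [h]
    · rw [dq, dg]
      simp only [eval_add, eval_mul, eval_C, eval_pow, eval_X, eval_sub, eval_one, eval_ofNat]
      have : q * (2 - x ^ 3) ≠ 0 := mul_ne_zero m2 m5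
      intro h0
      apply this
      linear_combination -h0

theorem dom_h (hi : 36 * i = 1) (hq : q ^ 2 = x ^ 4 - 4 * x ^ 3 - 8 * x - 4)
    (hr : r ^ 2 = 4 * (x ^ 4 - 8 * x) * (x ^ 3 + 1)) (h : x ^ 3 + 1 = 0) :
    (dat₁ (C x) (C q) (C r) (C i) (X : k[X])).b₁ = 0 ∧
      NonSquare (dat₁ (C x) (C q) (C r) (C i) (X : k[X])).A₁ ∧
      NonSquare ((dat₁ (C x) (C q) (C r) (C i) (X : k[X])).A₁ *
        (dat₁ (C x) (C q) (C r) (C i) (X : k[X])).g) := by
  have k2 := two_ne hi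
  have k3 := three_ne hi
  obtain ⟨m1, m2, m3, m4, m5, m6⟩ := caseB hi hq hr h
  have hxq : x * q ≠ 0 := mul_ne_zero m3 m2
  obtain ⟨t, ht⟩ : ∃ t : k, x * q * t = -3 := ⟨-3 / (x * q), by field_simp⟩
  have ht2 : t ^ 2 = 1 := by
    have e : (3 * 3) * (t ^ 2 - 1) = 0 := by
      linear_combination (x * q * t - 3) * ht - (x ^ 2 * t ^ 2) * m5 + (9 * t ^ 2) * h
    have := (mul_eq_zero.1 e).resolve_left (mul_ne_zero k3 k3)
    linear_combination this
  have ht0 : t ≠ 0 := by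
    rintro rfl
    norm_num at ht2
  refine ⟨?_, ?_⟩
  · change C r = 0
    rw [m1, C_0]
  · rw [g_eq hi hq hr, A_eq hi hq hr]
    have hqt : q * t = 3 * x ^ 2 := by linear_combination (-(x ^ 2)) * ht + (q * t) * h
    have hg0 : ((-t) ^ 2 - 1 : k) = 0 := by linear_combination ht2
    apply nonSquare_pair _ _ t (-t)
    · simp only [eval_add, eval_mul, eval_C, eval_pow, eval_X]
      linear_combination (4 * t ^ 4 + 4 * x * t ^ 2 - 2 * x ^ 2) * h +
        (3 * x ^ 2 * t ^ 2 + 2 - x ^ 3) * hqt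
    · rw [dq]
      simp only [eval_add, eval_mul, eval_C, eval_pow, eval_X]
      have : 3 * x * (1 - x) * (x * q) ≠ 0 :=
        mul_ne_zero (mul_ne_zero (mul_ne_zero k3 m3) m6) hxq
      intro h0
      apply this
      linear_combination h0 - (16 * t ^ 3 - 10 * x * t + 2 * q) * h - (3 * x ^ 2 * q) * ht2 -
        (6 * x * t) * ht
    · simp only [eval_mul, eval_pow, eval_X, eval_sub, eval_one]
      rw [hg0]
      ring
    · rw [dq, dg]
      simp only [eval_add, eval_mul, eval_C, eval_pow, eval_X, eval_sub, eval_one, eval_ofNat]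
      rw [hg0]
      have hA : 4 * (x ^ 3 + 1) * (-t) ^ 4 + 3 * x ^ 2 * q * (-t) ^ 3 +
          (-(4 * (x ^ 3 + 1) * x) - (x ^ 4 - 8 * x)) * (-t) ^ 2 + q * (2 - x ^ 3) * (-t) +
            (x ^ 4 - 8 * x) * x = 18 * x * (1 - x) := by
        linear_combination (4 * t ^ 4 - 14 * x * t ^ 2 + 4 * x ^ 2) * h + (18 * x) * ht2 -
          (3 * x ^ 2 * t ^ 2 + 2 - x ^ 3) * hqt
      rw [hA]
      have hG : (8 * (-t) ^ 7 - 6 * (-t) ^ 5 + 2 * (-t) : k) = -(4 * t) := by
        linear_combination (-(2 * t * (4 * t ^ 4 + t ^ 2 + 1))) * ht2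
      rw [hG]
      have : 2 * 2 * 2 * (3 * 3) * x * (1 - x) * t ≠ 0 := by
        refine mul_ne_zero (mul_ne_zero (mul_ne_zero (mul_ne_zero ?_ ?_) m3) m6) ht0
        · exact mul_ne_zero (mul_ne_zero k2 k2) k2
        · exact mul_ne_zero k3 k3
      intro h0
      apply this
      linear_combination -h0

end domain

/-! ### Conclusion -/

theorem map_d {R k : Type} [CommRing R] [Field k] (φ : R →+* k) (x q r i : R) :
    ((glu₁ x q r i).map φ).d = dat₁ (C (φ x)) (C (φ q)) (C (φ r)) (C (φ i)) X := by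
  change (dat₁ (C x) (C q) (C r) (C i) X).map (sc φ ((1 : kˣ) : k)) = _
  rw [map_dat₁]
  simp only [sc_C, sc_X, Units.val_one, map_one, one_mul]

end Cond1

open Cond1 in
theorem family₁ {R : Type} [CommRing R] [IsNoetherianRing R] [Algebra ℂ R] (x q r i : R)
    (hi : 36 * i = 1) (hq : q ^ 2 = x ^ 4 - 4 * x ^ 3 - 8 * x - 4)
    (hr : r ^ 2 = 4 * (x ^ 4 - 8 * x) * (x ^ 3 + 1)) :
    IsCurveFamily 6 (glu₁ x q r i).curve.toSpec := by
  have hdom : ∀ (k : Type) [Field k] (φ : R →+* k), IsDomain (R4 ((glu₁ x q r i).map φ).d) := by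
    intro k _ φ
    rw [map_d]
    have hi' : 36 * φ i = 1 := by
      simpa only [map_mul, map_one, map_ofNat] using congrArg φ hi
    have hq' : φ q ^ 2 = φ x ^ 4 - 4 * φ x ^ 3 - 8 * φ x - 4 := by
      simpa only [map_mul, map_one, map_ofNat, map_pow, map_sub] using congrArg φ hq
    have hr' : φ r ^ 2 = 4 * (φ x ^ 4 - 8 * φ x) * (φ x ^ 3 + 1) := by
      simpa only [map_mul, map_one, map_ofNat, map_pow, map_sub, map_add] using congrArg φ hr
    refine R4.isDomain_of (two_ne hi') _ ?_ (c_ne hi') ?_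
    · rw [g_eq hi' hq' hr']
      exact nonSquare_g (two_ne hi')
    · by_cases h1 : φ x ^ 3 + 1 = 0
      · exact Or.inr (dom_h hi' hq' hr' h1)
      · by_cases h2 : φ x ^ 4 - 8 * φ x = 0
        · exact Or.inr (dom_r2 hi' hq' hr' h2)
        · exact Or.inl (dom_generic hi' hq' hr' h1 h2)
  refine Glu.isCurveFamily _ 6 (smooth_d hi hq hr) (smooth_d' hi hq hr) hdom
    (fun k _ φ => Glu.isDomain_B _ (hdom k φ)) ?_
  intro k _ φ
  refine Glu.rank ((glu₁ x q r i).map φ) 2 3 (by norm_num) (by norm_num) ?_ ?_ ?_ ?_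
  · change scL φ 1 (toLaurentInv X ^ 4) = _
    rw [toLaurentInv_apply, toLaurent_X, LaurentPolynomial.invert_T, LaurentPolynomial.T_pow,
      scL_T]
    simp
  · change scL φ 1 (toLaurentInv X ^ 2) = _
    rw [toLaurentInv_apply, toLaurent_X, LaurentPolynomial.invert_T, LaurentPolynomial.T_pow,
      scL_T]
    simp
  · change scL φ 1 0 = _
    rw [map_zero]
  · change scL φ 1 (toLaurentInv X ^ 3) = _
    rw [toLaurentInv_apply, toLaurent_X, LaurentPolynomial.invert_T, LaurentPolynomial.T_pow,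
      scL_T]
    simp

end Pool.Agent.Work.MP_2eb777_ag
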