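import Pool.Agent.Work.MP_2eb777_ag.Q1.Data2
import Pool.Agent.Work.MP_2eb777_ag.Q1.CondBase
import Pool.Agent.Work.MP_2eb777_ag.Q1.Family4
import Pool.Agent.Work.MP_2eb777_ag.Q1.Smooth
import Pool.Agent.Work.MP_2eb777_ag.Q1.Domain
import Pool.Agent.Work.MP_2eb777_ag.Q1.Genus4

set_option autoImplicit false

open CategoryTheory CategoryTheory.Limits AlgebraicGeometry Polynomial

namespace Pool.Agent.Work.MP_2eb777_ag

namespace Cond2

/-! ### Computations in a field -/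

section field

variable {K : Type} [Field K] {x q s e j u v : K}

theorem two_ne (hj : 2 * j = 1) : (2 : K) ≠ 0 := by
  intro h
  rw [h, zero_mul] at hj
  exact zero_ne_one hj

theorem four_ne (hj : 2 * j = 1) : (4 : K) ≠ 0 := by
  have : (4 : K) = 2 * 2 := by norm_num
  rw [this]
  exact mul_ne_zero (two_ne hj) (two_ne hj)

theorem units (he : e * ((1 + x ^ 3) * (1 - 8 * x ^ 3)) = 1) :
    1 + x ^ 3 ≠ 0 ∧ 1 - 8 * x ^ 3 ≠ 0 := by
  constructor
  · intro h
    rw [h] at he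
    simp at he
  · intro h
    rw [h] at he
    simp at he

/-- The first chart. -/
theorem smoothA (he : e * ((1 + x ^ 3) * (1 - 8 * x ^ 3)) = 1) (hj : 2 * j = 1)
    (h1 : 4 * x * (1 + x ^ 3) * u ^ 2 - (1 - 8 * x ^ 3) = 0)
    (h2 : 8 * x * (1 + x ^ 3) * u = 0) : False := by
  have k2 := two_ne hj
  have e1 : 4 * x * (1 + x ^ 3) * u = 0 := by
    have : 2 * (4 * x * (1 + x ^ 3) * u) = 0 := by linear_combination h2
    exact (mul_eq_zero.1 this).resolve_left k2
  apply (units he).2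
  linear_combination -h1 + u * e1

/-- The second chart. -/
theorem smoothB (hs : s ^ 2 = 4 * x * ((1 + x ^ 3) * (1 - 8 * x ^ 3)))
    (he : e * ((1 + x ^ 3) * (1 - 8 * x ^ 3)) = 1) (hj : 2 * j = 1)
    (h1 : 4 * x * (1 + x ^ 3) - (1 - 8 * x ^ 3) * v ^ 2 = 0)
    (h2 : -(2 * (1 - 8 * x ^ 3) * v) = 0) : x = 0 ∧ s = 0 ∧ v = 0 := by
  have k2 := two_ne hj
  obtain ⟨m1, m2⟩ := units he
  have hv : v = 0 := by
    have : 2 * (1 - 8 * x ^ 3) * v = 0 := by linear_combination -h2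
    exact (mul_eq_zero.1 this).resolve_left (mul_ne_zero k2 m2)
  have hx : x = 0 := by
    have : (4 * (1 + x ^ 3)) * x = 0 := by
      rw [hv] at h1
      linear_combination h1
    exact (mul_eq_zero.1 this).resolve_left (mul_ne_zero (four_ne hj) m1)
  refine ⟨hx, ?_, hv⟩
  have : s ^ 2 = 0 := by rw [hs, hx]; ring
  exact pow_eq_zero_iff two_ne_zero |>.1 this

end field

/-! ### Smoothness -/

section smooth

variable {R : Type} [CommRing R] {x q s e j : R}

theorem C_hj (hj : 2 * j = 1) : 2 * (C j : R[X]) = 1 := by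
  simpa only [map_mul, map_one, map_ofNat] using congrArg (C : R →+* R[X]) hj

theorem C_hq (hq : q ^ 2 = 1 - 4 * x - 8 * x ^ 3 - 4 * x ^ 4) :
    (C q : R[X]) ^ 2 = 1 - 4 * C x - 8 * C x ^ 3 - 4 * C x ^ 4 := by
  simpa only [map_mul, map_one, map_ofNat, map_pow, map_sub] using congrArg (C : R →+* R[X]) hq

theorem C_hs (hs : s ^ 2 = 4 * x * ((1 + x ^ 3) * (1 - 8 * x ^ 3))) :
    (C s : R[X]) ^ 2 = 4 * C x * ((1 + C x ^ 3) * (1 - 8 * C x ^ 3)) := by
  simpa only [map_mul, map_one, map_ofNat, map_pow, map_sub, map_add] using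
    congrArg (C : R →+* R[X]) hs

theorem C_he (he : e * ((1 + x ^ 3) * (1 - 8 * x ^ 3)) = 1) :
    C e * ((1 + C x ^ 3) * (1 - 8 * C x ^ 3)) = (1 : R[X]) := by
  simpa only [map_mul, map_one, map_ofNat, map_pow, map_sub, map_add] using
    congrArg (C : R →+* R[X]) he

theorem dC (n : ℕ) (x : R) : derivative (C x ^ n : R[X]) = 0 := by
  rw [← C_pow, derivative_C]

theorem unit2 (hj : 2 * j = 1) : IsUnit (2 : R) := IsUnit.of_mul_eq_one j hj

theorem unit12 [Algebra ℂ R] : IsUnit (12 : R) := by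
  have h : IsUnit (algebraMap ℂ R 12) := (Ne.isUnit (by norm_num)).map _
  rwa [map_ofNat] at h

theorem smooth_d [Algebra ℂ R] (hq : q ^ 2 = 1 - 4 * x - 8 * x ^ 3 - 4 * x ^ 4)
    (hs : s ^ 2 = 4 * x * ((1 + x ^ 3) * (1 - 8 * x ^ 3)))
    (he : e * ((1 + x ^ 3) * (1 - 8 * x ^ 3)) = 1) (hj : 2 * j = 1) :
    SmoothOfRelativeDimension 1 (Spec.map (CommRingCat.ofHom
      (R4.base (dat₂ (C x) (C q) (C s) (C e) (C j) (X : R[X]) (C_hj hj))))) := by
  have hg := dat₂_g (u := (X : R[X])) (C_hq hq) (C_hs hs) (C_he he) (C_hj hj)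
  have hκ := dat₂_κ (q := C q) (u := (X : R[X])) (C_hs hs) (C_he he) (C_hj hj)
  refine smooth_R4 _ (unit2 hj) (by rw [hg]; exact span_g unit12) ?_
  intro K _ φ h1 h2
  exfalso
  rw [hκ] at h1 h2
  have h1' : 4 * φ (C x) * (1 + φ (C x) ^ 3) * φ X ^ 2 - (1 - 8 * φ (C x) ^ 3) = 0 := by
    simpa only [map_mul, map_one, map_ofNat, map_pow, map_sub, map_add] using h1
  have h2' : 8 * φ (C x) * (1 + φ (C x) ^ 3) * φ X = 0 := by
    simp only [derivative_mul, dC, derivative_ofNat,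
      derivative_one, derivative_X_pow, derivative_C, map_sub, map_mul, map_add, map_ofNat,
      map_zero, map_one, map_pow, Nat.cast_ofNat] at h2
    linear_combination h2
  have he' : φ (C e) * ((1 + φ (C x) ^ 3) * (1 - 8 * φ (C x) ^ 3)) = 1 := by
    simpa only [map_mul, map_one, map_ofNat, map_pow, map_sub, map_add] using congrArg φ (C_he he)
  have hj' : 2 * φ (C j) = 1 := by
    simpa only [map_mul, map_one, map_ofNat] using congrArg φ (C_hj hj)
  exact smoothA he' hj' h1' h2'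

theorem smooth_d' [Algebra ℂ R] (hq : q ^ 2 = 1 - 4 * x - 8 * x ^ 3 - 4 * x ^ 4)
    (hs : s ^ 2 = 4 * x * ((1 + x ^ 3) * (1 - 8 * x ^ 3)))
    (he : e * ((1 + x ^ 3) * (1 - 8 * x ^ 3)) = 1) (hj : 2 * j = 1) :
    SmoothOfRelativeDimension 1 (Spec.map (CommRingCat.ofHom
      (R4.base (dat₂' (C x) (C q) (C s) (C e) (C j) (X : R[X]) (C_hj hj))))) := by
  have hg := dat₂'_g (v := (X : R[X])) (C_hq hq) (C_hs hs) (C_he he) (C_hj hj)
  have hκ := dat₂'_κ (q := C q) (v := (X : R[X])) (C_hs hs) (C_he he) (C_hj hj)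
  refine smooth_R4 _ (unit2 hj) (by rw [hg]; exact span_g' unit12) ?_
  intro K _ φ h1 h2
  rw [hκ] at h1 h2
  rw [hg]
  have h1' : 4 * φ (C x) * (1 + φ (C x) ^ 3) - (1 - 8 * φ (C x) ^ 3) * φ X ^ 2 = 0 := by
    simpa only [map_mul, map_one, map_ofNat, map_pow, map_sub, map_add] using h1
  have h2' : -(2 * (1 - 8 * φ (C x) ^ 3) * φ X) = 0 := by
    simp only [derivative_mul, dC, derivative_ofNat,
      derivative_one, derivative_X_pow, derivative_C, map_sub, map_mul, map_add, map_ofNat,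
      map_zero, map_one, map_pow, Nat.cast_ofNat] at h2
    linear_combination h2
  have hs' : φ (C s) ^ 2 = 4 * φ (C x) * ((1 + φ (C x) ^ 3) * (1 - 8 * φ (C x) ^ 3)) := by
    simpa only [map_mul, map_one, map_ofNat, map_pow, map_sub, map_add] using congrArg φ (C_hs hs)
  have he' : φ (C e) * ((1 + φ (C x) ^ 3) * (1 - 8 * φ (C x) ^ 3)) = 1 := by
    simpa only [map_mul, map_one, map_ofNat, map_pow, map_sub, map_add] using congrArg φ (C_he he)
  have hj' : 2 * φ (C j) = 1 := by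
    simpa only [map_mul, map_one, map_ofNat] using congrArg φ (C_hj hj)
  obtain ⟨m1, m2, m3⟩ := smoothB hs' he' hj' h1' h2'
  refine ⟨?_, ?_, ?_, ?_, ?_⟩
  · change φ (C s * _) = 0
    rw [map_mul, m2, zero_mul]
  · change φ (-X * _) = 0
    rw [map_mul, map_neg, m3, neg_zero, zero_mul]
  · change φ (C e * C s * _) = 0
    rw [map_mul, map_mul, m2, mul_zero, zero_mul]
  · simp only [map_mul, map_one, map_pow, map_sub, map_add]
    rw [m3]
    norm_num
  · change φ (derivative (C s * (1 + C x ^ 3 + 2 * C x ^ 2 * X ^ 2)) * _ -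
      derivative (-X * (1 + 2 * C x ^ 3 + 4 * C x ^ 2 * X ^ 2)) ^ 2) ≠ 0
    have e1 : derivative (C s * (1 + C x ^ 3 + 2 * C x ^ 2 * (X : R[X]) ^ 2)) =
        C s * (4 * C x ^ 2 * X) := by
      simp only [derivative_add, derivative_mul, derivative_X_pow, derivative_C,
        dC, derivative_ofNat, derivative_one, map_ofNat, Nat.cast_ofNat]
      ring
    have e2 : derivative (-(X : R[X]) * (1 + 2 * C x ^ 3 + 4 * C x ^ 2 * X ^ 2)) =
        -(1 + 2 * C x ^ 3 + 12 * C x ^ 2 * X ^ 2) := by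
      simp only [derivative_add, derivative_mul, derivative_neg, derivative_X, derivative_X_pow,
        dC, derivative_ofNat, derivative_one, map_ofNat, Nat.cast_ofNat]
      ring
    rw [e1, e2]
    simp only [map_mul, map_one, map_pow, map_sub, map_add, map_neg, m1, m2, m3]
    norm_num

end smooth

/-! ### Domains -/

section domain

variable {k : Type} [Field k] {x q s e j : k}

theorem coeff_cubic_two (a b c d : k) :
    (C a * X ^ 3 + C b * X ^ 2 + C c * X + C d : k[X]).coeff 2 = b := by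
  simp

theorem coeff_cubic_zero (a b c d : k) :
    (C a * X ^ 3 + C b * X ^ 2 + C c * X + C d : k[X]).coeff 0 = d := by
  simp

theorem c_ne (h3 : (3 : k) ≠ 0) (hj : 2 * j = 1) :
    (dat₂ (C x) (C q) (C s) (C e) (C j) (X : k[X]) (C_hj hj)).c ≠ 0 := by
  intro h0
  change c₂ (C x) (C q) (X : k[X]) = 0 at h0
  have e : c₂ (C x) (C q) (X : k[X]) =
      C (-(q * x)) * X ^ 3 + C (3 * x) * X ^ 2 + C q * X + C (2 * x ^ 3 - 1) := by
    simp only [c₂, map_neg, map_mul, map_pow, map_sub, map_ofNat, map_one]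
    ring
  rw [e] at h0
  have e2 : 3 * x = 0 := by
    rw [← coeff_cubic_two (-(q * x)) (3 * x) q (2 * x ^ 3 - 1), h0, coeff_zero]
  have e0 : 2 * x ^ 3 - 1 = 0 := by
    rw [← coeff_cubic_zero (-(q * x)) (3 * x) q (2 * x ^ 3 - 1), h0, coeff_zero]
  have hx : x = 0 := (mul_eq_zero.1 e2).resolve_left h3
  rw [hx] at e0
  norm_num at e0

theorem g_eq (hq : q ^ 2 = 1 - 4 * x - 8 * x ^ 3 - 4 * x ^ 4)
    (hs : s ^ 2 = 4 * x * ((1 + x ^ 3) * (1 - 8 * x ^ 3)))
    (he : e * ((1 + x ^ 3) * (1 - 8 * x ^ 3)) = 1) (hj : 2 * j = 1) :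
    (dat₂ (C x) (C q) (C s) (C e) (C j) (X : k[X]) (C_hj hj)).g = (X ^ 2 - 1) * (X ^ 6 + 1) :=
  dat₂_g (C_hq hq) (C_hs hs) (C_he he) (C_hj hj)

theorem dom_generic (hs : s ^ 2 = 4 * x * ((1 + x ^ 3) * (1 - 8 * x ^ 3)))
    (he : e * ((1 + x ^ 3) * (1 - 8 * x ^ 3)) = 1) (hj : 2 * j = 1) (hx : x ≠ 0) :
    NonSquare (-(dat₂ (C x) (C q) (C s) (C e) (C j) (X : k[X]) (C_hj hj)).κ) := by
  have k2 := two_ne hj
  have k4 := four_ne hj
  obtain ⟨m1, m2⟩ := units he
  rw [dat₂_κ (C_hs hs) (C_he he) (C_hj hj)]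
  have hs0 : s ≠ 0 := by
    rintro rfl
    rw [zero_pow two_ne_zero] at hs
    exact mul_ne_zero (mul_ne_zero k4 hx) (mul_ne_zero m1 m2) hs.symm
  have hh : 4 * x * (1 + x ^ 3) ≠ 0 := mul_ne_zero (mul_ne_zero k4 hx) m1
  apply nonSquare_of_simple_root _ (s / (4 * x * (1 + x ^ 3)))
  · simp only [eval_neg, eval_sub, eval_mul, eval_add, eval_pow, eval_C, eval_X, eval_ofNat,
      eval_one]
    field_simp
    linear_combination -hs
  · simp only [derivative_neg, derivative_sub, derivative_mul, dC, derivative_ofNat,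
      derivative_add, derivative_one, derivative_X_pow, derivative_C, eval_neg, eval_sub,
      eval_mul, eval_add, eval_pow, eval_C, eval_X, eval_ofNat, eval_one, eval_zero,
      Nat.cast_ofNat]
    have : -(4 * x * (1 + x ^ 3) * (2 * (s / (4 * x * (1 + x ^ 3))))) ≠ 0 := by
      have : 4 * x * (1 + x ^ 3) * (2 * (s / (4 * x * (1 + x ^ 3)))) = 2 * s := by field_simp
      rw [this]
      exact neg_ne_zero.2 (mul_ne_zero k2 hs0)
    intro h0
    apply this
    rw [← h0]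
    ring_nf

theorem dom_zero (hq : q ^ 2 = 1 - 4 * x - 8 * x ^ 3 - 4 * x ^ 4)
    (hs : s ^ 2 = 4 * x * ((1 + x ^ 3) * (1 - 8 * x ^ 3)))
    (he : e * ((1 + x ^ 3) * (1 - 8 * x ^ 3)) = 1) (hj : 2 * j = 1) (hx : x = 0) :
    (dat₂ (C x) (C q) (C s) (C e) (C j) (X : k[X]) (C_hj hj)).b₁ = 0 ∧
      NonSquare (dat₂ (C x) (C q) (C s) (C e) (C j) (X : k[X]) (C_hj hj)).A₁ ∧
      NonSquare ((dat₂ (C x) (C q) (C s) (C e) (C j) (X : k[X]) (C_hj hj)).A₁ *
        (dat₂ (C x) (C q) (C s) (C e) (C j) (X : k[X]) (C_hj hj)).g) := by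
  have k2 := two_ne hj
  have k4 := four_ne hj
  have hA := dat₂_A₁ (q := C q) (u := (X : k[X])) (C_hs hs) (C_he he) (C_hj hj)
  have hA' : (dat₂ (C x) (C q) (C s) (C e) (C j) (X : k[X]) (C_hj hj)).A₁ = 1 - C q * X := by
    rw [hA, hx, C_0]
    ring
  have hq2 : q ^ 2 = 1 := by rw [hq, hx]; ring
  have hq0 : q ≠ 0 := by
    rintro rfl
    norm_num at hq2
  refine ⟨?_, ?_, ?_⟩
  · change C x * C s = 0
    rw [hx, C_0, zero_mul]
  · rw [hA']
    apply nonSquare_of_simple_root _ q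
    · simp only [eval_sub, eval_one, eval_mul, eval_C, eval_X]
      linear_combination -hq2
    · simp only [derivative_sub, derivative_one, derivative_C_mul, derivative_X, eval_sub,
        eval_zero, eval_mul, eval_C, eval_one]
      simpa using hq0
  · rw [hA', g_eq hq hs he hj]
    have hg0 : ((-q) ^ 2 - 1 : k) = 0 := by linear_combination hq2
    apply nonSquare_of_simple_root _ (-q)
    · simp only [eval_mul, eval_pow, eval_X, eval_sub, eval_one]
      rw [hg0]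
      ring
    · rw [derivative_mul, eval_add, eval_mul, eval_mul, deriv_g]
      simp only [eval_add, eval_mul, eval_C, eval_pow, eval_X, eval_sub, eval_one, eval_ofNat]
      rw [hg0]
      have hG : (8 * (-q) ^ 7 - 6 * (-q) ^ 5 + 2 * (-q) : k) = -(4 * q) := by
        linear_combination (-(2 * q * (4 * q ^ 4 + q ^ 2 + 1))) * hq2
      rw [hG]
      have : 2 * 4 * q ≠ 0 := mul_ne_zero (mul_ne_zero k2 k4) hq0
      intro h0
      apply this
      linear_combination -h0 - (4 * q) * hq2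

end domain

/-! ### Conclusion -/

theorem map_d {R k : Type} [CommRing R] [Field k] (φ : R →+* k) (x q s e j : R)
    (hs : s ^ 2 = 4 * x * ((1 + x ^ 3) * (1 - 8 * x ^ 3)))
    (he : e * ((1 + x ^ 3) * (1 - 8 * x ^ 3)) = 1) (hj : 2 * j = 1) (hj' : 2 * φ j = 1) :
    ((glu₂ x q s e j hs he hj).map φ).d =
      dat₂ (C (φ x)) (C (φ q)) (C (φ s)) (C (φ e)) (C (φ j)) X (C_hj hj') := by
  change (dat₂ (C x) (C q) (C s) (C e) (C j) X (C_hj hj)).map (sc φ ((1 : kˣ) : k)) = _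
  rw [map_dat₂ _ _ _ _ _ _ _ _ (by rw [sc_C]; exact C_hj hj')]
  simp only [sc_C, sc_X, Units.val_one, map_one, one_mul]

theorem isDomain {R k : Type} [CommRing R] [Algebra ℂ R] [Field k] (φ : R →+* k)
    (x q s e j : R) (hq : q ^ 2 = 1 - 4 * x - 8 * x ^ 3 - 4 * x ^ 4)
    (hs : s ^ 2 = 4 * x * ((1 + x ^ 3) * (1 - 8 * x ^ 3)))
    (he : e * ((1 + x ^ 3) * (1 - 8 * x ^ 3)) = 1) (hj : 2 * j = 1) :
    IsDomain (R4 ((glu₂ x q s e j hs he hj).map φ).d) := by
  have hj' : 2 * φ j = 1 := by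
    simpa only [map_mul, map_one, map_ofNat] using congrArg φ hj
  have hq' : φ q ^ 2 = 1 - 4 * φ x - 8 * φ x ^ 3 - 4 * φ x ^ 4 := by
    simpa only [map_mul, map_one, map_ofNat, map_pow, map_sub] using congrArg φ hq
  have hs' : φ s ^ 2 = 4 * φ x * ((1 + φ x ^ 3) * (1 - 8 * φ x ^ 3)) := by
    simpa only [map_mul, map_one, map_ofNat, map_pow, map_sub, map_add] using congrArg φ hs
  have he' : φ e * ((1 + φ x ^ 3) * (1 - 8 * φ x ^ 3)) = 1 := by
    simpa only [map_mul, map_one, map_ofNat, map_pow, map_sub, map_add] using congrArg φ he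
  have h3 : (3 : k) ≠ 0 := by
    have h : IsUnit (φ (algebraMap ℂ R 3)) := ((Ne.isUnit (by norm_num)).map _).map φ
    rw [map_ofNat, map_ofNat] at h
    exact h.ne_zero
  rw [map_d φ x q s e j hs he hj hj']
  refine R4.isDomain_of (two_ne hj') _ ?_ (c_ne h3 hj') ?_
  · rw [g_eq hq' hs' he' hj']
    exact nonSquare_g (two_ne hj')
  · by_cases hx : φ x = 0
    · exact Or.inr (dom_zero hq' hs' he' hj' hx)
    · exact Or.inl (dom_generic hs' he' hj' hx)

end Cond2

open Cond2 in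
theorem family₂ {R : Type} [CommRing R] [IsNoetherianRing R] [Algebra ℂ R] (x q s e j : R)
    (hq : q ^ 2 = 1 - 4 * x - 8 * x ^ 3 - 4 * x ^ 4)
    (hs : s ^ 2 = 4 * x * ((1 + x ^ 3) * (1 - 8 * x ^ 3)))
    (he : e * ((1 + x ^ 3) * (1 - 8 * x ^ 3)) = 1) (hj : 2 * j = 1) :
    IsCurveFamily 6 (glu₂ x q s e j hs he hj).curve.toSpec := by
  have hdom : ∀ (k : Type) [Field k] (φ : R →+* k),
      IsDomain (R4 ((glu₂ x q s e j hs he hj).map φ).d) :=
    fun k _ φ => isDomain φ x q s e j hq hs he hj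
  refine Glu.isCurveFamily _ 6 (smooth_d hq hs he hj) (smooth_d' hq hs he hj) hdom
    (fun k _ φ => Glu.isDomain_B _ (hdom k φ)) ?_
  intro k _ φ
  refine Glu.rank ((glu₂ x q s e j hs he hj).map φ) 1 4 (by norm_num) (by norm_num) ?_ ?_ ?_ ?_
  · change scL φ 1 (toLaurentInv X ^ 4) = _
    rw [toLaurentInv_apply, toLaurent_X, LaurentPolynomial.invert_T, LaurentPolynomial.T_pow,
      scL_T]
    simp
  · change scL φ 1 (toLaurentInv X) = _
    rw [toLaurentInv_apply, toLaurent_X, LaurentPolynomial.invert_T, scL_T]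
    simp
  · change scL φ 1 0 = _
    rw [map_zero]
  · change scL φ 1 (toLaurentInv X ^ 4) = _
    rw [toLaurentInv_apply, toLaurent_X, LaurentPolynomial.invert_T, LaurentPolynomial.T_pow,
      scL_T]
    simp

end Pool.Agent.Work.MP_2eb777_ag
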