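import Pool.Agent.Work.MP_2eb777_ag.Q1.GluHom

set_option autoImplicit false

open CategoryTheory CategoryTheory.Limits AlgebraicGeometry Polynomial

namespace Pool.Agent.Work.MP_2eb777_ag

/-- Transport of a change of basis along equalities. -/
def Chg.congr {S : Type} [CommRing S] {d₁ d₂ e₁ e₂ : Dat S} (h : d₁ = d₂) (h' : e₁ = e₂)
    (m : Chg d₁ e₁) : Chg d₂ e₂ where
  τ := m.τ
  τ' := m.τ'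
  hτ := m.hτ
  p := m.p
  q := m.q
  r := m.r
  s := m.s
  δ := m.δ
  hδ := m.hδ
  hb₁ := by subst h h'; exact m.hb₁
  hb₂ := by subst h h'; exact m.hb₂
  hb₃ := by subst h h'; exact m.hb₃
  ha₁ := by subst h h'; exact m.ha₁
  hc₁ := by subst h h'; exact m.hc₁
  ha₂ := by subst h h'; exact m.ha₂
  hc₂ := by subst h h'; exact m.hc₂

attribute [ext] Dat

/-- Structure constants of a special form. -/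
def Dat.mk₁ {S : Type} [CommRing S] (r l A Q D : S) : Dat S where
  b₁ := r
  b₂ := l
  b₃ := r * D
  a := r * A
  b := 2 * l * A + Q * D
  c := Q
  rel := by ring

theorem Dat.map_mk₁ {S S' : Type} [CommRing S] [CommRing S'] (φ : S →+* S') (r l A Q D : S) :
    (Dat.mk₁ r l A Q D).map φ = Dat.mk₁ (φ r) (φ l) (φ A) (φ Q) (φ D) := by
  ext <;> simp only [Dat.mk₁, Dat.map_b₁, Dat.map_b₂, Dat.map_b₃, Dat.map_a, Dat.map_b,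
    Dat.map_c, map_mul, map_add, map_ofNat]

section

variable {S S' : Type} [CommRing S] [CommRing S'] (x q r i u v : S)

/-- The coefficient of `y` in `e₁ e₂`, first chart. -/
def l₁ : S := 4 * i * (x ^ 3 + 1) * (9 - x ^ 3) * q * u + 12 * i * x * (x ^ 4 - 8 * x)

/-- The factor `A` of the structure constant `a`, first chart. -/
def f₁ : S := i * ((9 + 4 * x ^ 2 - x ^ 3) * u ^ 2 * (u ^ 2 - x) +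
  (3 * u ^ 2 - x) * (q * x * u - 3))

/-- The structure constant `c`, first chart. -/
def c₁ : S := 3 * x ^ 2 * u ^ 2 - x ^ 3 + 2 - q * u * (u ^ 2 - x)

/-- The factor `D` of the structure constant `b₃`, first chart. -/
def g₁ : S := (4 * i * x ^ 2 + 4 * i ^ 2 * (x ^ 3 + 1) * (9 - x ^ 3) * (9 + 4 * x ^ 2 - x ^ 3)) *
  u ^ 2 + 24 * i ^ 2 * x * (9 - x ^ 3) * q * u - (9 - x ^ 3) * i

/-- The coefficient of `y` in `e₁ e₂`, second chart. -/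
def l₁' : S := 4 * i * (x ^ 3 + 1) * (9 - x ^ 3) * q + 12 * i * x * (x ^ 4 - 8 * x) * v

/-- The factor `A` of the structure constant `a`, second chart. -/
def f₁' : S := i * ((9 + 4 * x ^ 2 - x ^ 3) * (1 - x * v ^ 2) +
  (3 - x * v ^ 2) * (q * x * v - 3 * v ^ 2))

/-- The structure constant `c`, second chart. -/
def c₁' : S := 3 * x ^ 2 * v + (2 - x ^ 3) * v ^ 3 - q * (1 - x * v ^ 2)

/-- The factor `D` of the structure constant `b₃`, second chart. -/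
def g₁' : S := (4 * i * x ^ 2 + 4 * i ^ 2 * (x ^ 3 + 1) * (9 - x ^ 3) * (9 + 4 * x ^ 2 - x ^ 3)) +
  24 * i ^ 2 * x * (9 - x ^ 3) * q * v - (9 - x ^ 3) * i * v ^ 2

/-- The structure constants of the first family, first chart. -/
def dat₁ : Dat S := Dat.mk₁ r (l₁ x q i u) (f₁ x q i u) (c₁ x q u) (g₁ x q i u)

/-- The structure constants of the first family, second chart. -/
def dat₁' : Dat S := Dat.mk₁ r (l₁' x q i v) (f₁' x q i v) (c₁' x q v) (g₁' x q i v)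

theorem map_dat₁ (φ : S →+* S') :
    (dat₁ x q r i u).map φ = dat₁ (φ x) (φ q) (φ r) (φ i) (φ u) := by
  rw [dat₁, Dat.map_mk₁, dat₁]
  simp only [l₁, f₁, c₁, g₁, map_mul, map_add, map_sub, map_pow, map_ofNat, map_one]

theorem map_dat₁' (φ : S →+* S') :
    (dat₁' x q r i v).map φ = dat₁' (φ x) (φ q) (φ r) (φ i) (φ v) := by
  rw [dat₁', Dat.map_mk₁, dat₁']
  simp only [l₁', f₁', c₁', g₁', map_mul, map_add, map_sub, map_pow, map_ofNat, map_one]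

variable {x q r i u v}

theorem l₁_chg (h : u * v = 1) : l₁' x q i v = v * l₁ x q i u := by
  simp only [l₁, l₁']
  linear_combination (4*x^6*q*i - 32*x^3*q*i - 36*q*i) * h

theorem f₁_chg (h : u * v = 1) : f₁' x q i v = v ^ 4 * f₁ x q i u := by
  simp only [f₁, f₁']
  linear_combination (- x^4*i*u*v^3 - x^4*i*v^2 + x^3*i*u^3*v^3 + x^3*i*u^2*v^2 + 4*x^3*i*u*v^3 + x^3*i*u*v +
    4*x^3*i*v^2 + x^3*i + x^2*q*i*v^3 - 4*x^2*i*u^3*v^3 - 4*x^2*i*u^2*v^2 - 4*x^2*i*u*v - 4*x^2*i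
    - 3*x*q*i*u^2*v^3 - 3*x*q*i*u*v^2 - 3*x*q*i*v + 9*x*i*u*v^3 + 9*x*i*v^2 - 9*i*u^3*v^3 -
    9*i*u^2*v^2 + 9*i*u*v^3 - 9*i*u*v + 9*i*v^2 - 9*i) * h

theorem c₁_chg (h : u * v = 1) : c₁' x q v = v ^ 3 * c₁ x q u := by
  simp only [c₁, c₁']
  linear_combination (- 3*x^2*u*v^2 - 3*x^2*v - x*q*v^2 + q*u^2*v^2 + q*u*v + q) * h

theorem g₁_chg (h : u * v = 1) : g₁' x q i v = v ^ 2 * g₁ x q i u := by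
  simp only [g₁, g₁']
  linear_combination (- 4*x^9*i^2*u*v - 4*x^9*i^2 + 16*x^8*i^2*u*v + 16*x^8*i^2 + 68*x^6*i^2*u*v + 68*x^6*i^2 -
    128*x^5*i^2*u*v - 128*x^5*i^2 + 24*x^4*q*i^2*v - 252*x^3*i^2*u*v - 252*x^3*i^2 -
    144*x^2*i^2*u*v - 144*x^2*i^2 - 4*x^2*i*u*v - 4*x^2*i - 216*x*q*i^2*v - 324*i^2*u*v - 324*i^2) * h

variable (x q r i) in
/-- The change of basis between the charts. -/
def chg₁ (h : u * v = 1) : Chg (dat₁' x q r i v) (dat₁ x q r i u) where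
  τ := v ^ 4
  τ' := u ^ 4
  hτ := by rw [← mul_pow, h, one_pow]
  p := v ^ 2
  q := 0
  r := 0
  s := v ^ 3
  δ := u ^ 5
  hδ := by
    have : u ^ 5 * v ^ 5 = 1 := by rw [← mul_pow, h, one_pow]
    linear_combination this
  hb₁ := by
    simp only [dat₁, dat₁', Dat.mk₁]
    ring
  hb₂ := by
    simp only [dat₁, dat₁', Dat.mk₁, l₁_chg h]
    ring
  hb₃ := by
    simp only [dat₁, dat₁', Dat.mk₁, g₁_chg h]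
    ring
  ha₁ := by
    simp only [dat₁, dat₁', Dat.mk₁, f₁_chg h]
    ring
  hc₁ := by
    simp only [dat₁, dat₁', Dat.mk₁, c₁_chg h]
    ring
  ha₂ := by
    simp only [dat₁, dat₁', Dat.mk₁, l₁_chg h, f₁_chg h, c₁_chg h, g₁_chg h]
    ring
  hc₂ := by
    simp only [dat₁, dat₁', Dat.mk₁, f₁_chg h]
    ring

theorem dat₁_g (hi : 36 * i = 1) (hq : q ^ 2 = x ^ 4 - 4 * x ^ 3 - 8 * x - 4)
    (hr : r ^ 2 = 4 * (x ^ 4 - 8 * x) * (x ^ 3 + 1)) :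
    (dat₁ x q r i u).g = (u ^ 2 - 1) * (u ^ 6 + 1) := by
  simp only [dat₁, Dat.mk₁, Dat.g, l₁, f₁, c₁, g₁]
  linear_combination (- 4*x^11*i^2*u^4 - 8*x^11*i^2*u^2 + 8*x^10*i^2*u^6 + 64*x^10*i^2*u^4 + 8*x^9*q*i^2*u^3 -
    4*x^9*i^2*u^8 - 104*x^9*i^2*u^6 - 32*x^8*q*i^2*u^5 + 16*x^8*i^2*u^8 + 68*x^8*i^2*u^4 +
    80*x^8*i^2*u^2 + 24*x^7*q*i^2*u^7 - 136*x^7*i^2*u^6 - 560*x^7*i^2*u^4 - 88*x^6*q*i^2*u^3 +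
    68*x^6*i^2*u^8 + 832*x^6*i^2*u^6 + 304*x^5*q*i^2*u^5 - 128*x^5*i^2*u^8 - 252*x^5*i^2*u^4 -
    200*x^5*i^2*u^2 + x^5*i*u^2 - 216*x^4*q*i^2*u^7 + x^4*r^2*i^2*u^2 + 504*x^4*i^2*u^6 +
    96*x^4*i^2*u^4 + 2*x^4*i*u^4 + 144*x^3*q*i^2*u^3 - 6*x^3*r^2*i^2*u^4 - 252*x^3*i^2*u^8 +
    792*x^3*i^2*u^6 - 7*x^3*i*u^6 - 144*x^2*q*i^2*u^5 + 9*x^2*r^2*i^2*u^6 - 144*x^2*i^2*u^8 -
    324*x^2*i^2*u^4 + 936*x^2*i^2*u^2 + 4*x^2*i*u^8 - 9*x^2*i*u^2 + 648*x*i^2*u^6 - 1296*x*i^2*u^4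
    + 18*x*i*u^4 - 324*i^2*u^8 + 648*i^2*u^6 - 9*i*u^6) * hq +
    (x^8*i^2*u^4 + x^8*i^2*u^2 - 2*x^7*i^2*u^6 - 14*x^7*i^2*u^4 - 4*x^7*i^2*u^2 - 2*x^6*q*i^2*u^3 +
    x^6*i^2*u^8 + 25*x^6*i^2*u^6 + 40*x^6*i^2*u^4 + 8*x^5*q*i^2*u^5 + 8*x^5*q*i^2*u^3 -
    8*x^5*i^2*u^8 - 68*x^5*i^2*u^6 - 18*x^5*i^2*u^4 - 2*x^5*i^2*u^2 - 6*x^4*q*i^2*u^7 -
    32*x^4*q*i^2*u^5 + 16*x^4*i^2*u^8 + 36*x^4*i^2*u^6 + 96*x^4*i^2*u^4 - 28*x^4*i^2*u^2 +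
    24*x^3*q*i^2*u^7 + 18*x^3*q*i^2*u^3 - 6*x^3*q*i^2*u - 18*x^3*i^2*u^8 - 198*x^3*i^2*u^6 +
    120*x^3*i^2*u^4 - 72*x^2*q*i^2*u^5 + 36*x^2*q*i^2*u^3 + 72*x^2*i^2*u^8 - 108*x^2*i^2*u^6 +
    81*x^2*i^2*u^4 - 54*x^2*i^2*u^2 + 9*x^2*i^2 + 54*x*q*i^2*u^7 - 54*x*q*i^2*u^5 - 162*x*i^2*u^6
    + 216*x*i^2*u^4 - 54*x*i^2*u^2 + 81*i^2*u^8 - 162*i^2*u^6 + 81*i^2*u^4) * hr +
    (- x^9*i*u^2 - x^9*i - 2*x^8*i*u^4 + 6*x^8*i*u^2 + 2*x^7*q*i*u + 7*x^7*i*u^6 + 23*x^7*i*u^4 -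
    4*x^6*i*u^8 - 64*x^6*i*u^6 + 17*x^6*i*u^2 + 13*x^6*i - 26*x^5*q*i*u^5 + 16*x^5*i*u^8 -
    2*x^5*i*u^4 - 82*x^5*i*u^2 + 24*x^4*q*i*u^7 - 22*x^4*q*i*u - 47*x^4*i*u^6 + 113*x^4*i*u^4 +
    60*x^3*q*i*u^3 + 32*x^3*i*u^8 - 64*x^3*i*u^6 - 72*x^3*i*u^2 - 40*x^3*i - 38*x^2*q*i*u^5 +
    16*x^2*i*u^8 + 144*x^2*i*u^4 + 56*x^2*i*u^2 + 36*x*q*i*u - 72*x*i*u^6 + 72*x*i*u^4 -
    36*q*i*u^3 + 36*i*u^8 - 72*i*u^6 + 36*i*u^2 + u^8 - u^6 + u^2 - 1) * hi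

theorem dat₁_κ (hi : 36 * i = 1) (hq : q ^ 2 = x ^ 4 - 4 * x ^ 3 - 8 * x - 4)
    (hr : r ^ 2 = 4 * (x ^ 4 - 8 * x) * (x ^ 3 + 1)) :
    (dat₁ x q r i u).κ = 4 * (x ^ 3 + 1) * u ^ 2 - (x ^ 4 - 8 * x) := by
  simp only [dat₁, Dat.mk₁, Dat.κ, l₁, f₁, c₁, g₁]
  linear_combination (- 16*x^12*i^2*u^2 + 256*x^9*i^2*u^2 - 736*x^6*i^2*u^2 - 2304*x^3*i^2*u^2 - 1296*i^2*u^2) * hq +
    (4*x^9*i^2*u^2 - 16*x^8*i^2*u^2 - 68*x^6*i^2*u^2 + 128*x^5*i^2*u^2 - 24*x^4*q*i^2*u +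
    252*x^3*i^2*u^2 + x^3*i + 144*x^2*i^2*u^2 + 4*x^2*i*u^2 + 216*x*q*i^2*u + 324*i^2*u^2 - 9*i) * hr +
    (- 4*x^10*i - 16*x^9*i*u^2 + 64*x^7*i + 112*x^6*i*u^2 - 256*x^4*i - x^4 + 272*x^3*i*u^2 +
    4*x^3*u^2 + 8*x + 144*i*u^2 + 4*u^2) * hi

theorem dat₁_A₁ (hi : 36 * i = 1) (hq : q ^ 2 = x ^ 4 - 4 * x ^ 3 - 8 * x - 4)
    (hr : r ^ 2 = 4 * (x ^ 4 - 8 * x) * (x ^ 3 + 1)) :
    (dat₁ x q r i u).A₁ = (4 * (x ^ 3 + 1) * u ^ 2 - (x ^ 4 - 8 * x)) * (u ^ 2 - x) +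
      q * u * (3 * x ^ 2 * u ^ 2 - x ^ 3 + 2) := by
  simp only [dat₁, Dat.mk₁, Dat.A₁, l₁, f₁, c₁, g₁]
  linear_combination (- 4*x^7*i*u^2 + 4*x^6*i*u^4 + 32*x^4*i*u^2 - 32*x^3*i*u^4 + 36*x*i*u^2 - 36*i*u^4) * hq +
    (x^4*i*u^2 - x^3*i*u^4 - 4*x^3*i*u^2 - x^2*q*i*u + 4*x^2*i*u^4 + 3*x*q*i*u^3 - 9*x*i*u^2 +
    3*x*i + 9*i*u^4 - 9*i*u^2) * hr +
    (x^5 - 5*x^4*u^2 - x^3*q*u + 4*x^3*u^4 + 3*x^2*q*u^3 - 8*x^2 + 4*x*u^2 + 2*q*u + 4*u^4) * hi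

theorem dat₁'_g (hi : 36 * i = 1) (hq : q ^ 2 = x ^ 4 - 4 * x ^ 3 - 8 * x - 4)
    (hr : r ^ 2 = 4 * (x ^ 4 - 8 * x) * (x ^ 3 + 1)) :
    (dat₁' x q r i v).g = (1 - v ^ 2) * (1 + v ^ 6) := by
  simp only [dat₁', Dat.mk₁, Dat.g, l₁', f₁', c₁', g₁']
  linear_combination (- 8*x^11*i^2*v^6 - 4*x^11*i^2*v^4 + 64*x^10*i^2*v^4 + 8*x^10*i^2*v^2 + 8*x^9*q*i^2*v^5 -
    104*x^9*i^2*v^2 - 4*x^9*i^2 - 32*x^8*q*i^2*v^3 + 80*x^8*i^2*v^6 + 68*x^8*i^2*v^4 + 16*x^8*i^2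
    + 24*x^7*q*i^2*v - 560*x^7*i^2*v^4 - 136*x^7*i^2*v^2 - 88*x^6*q*i^2*v^5 + 832*x^6*i^2*v^2 +
    68*x^6*i^2 + 304*x^5*q*i^2*v^3 - 200*x^5*i^2*v^6 - 252*x^5*i^2*v^4 - 128*x^5*i^2 + x^5*i*v^6 -
    216*x^4*q*i^2*v + x^4*r^2*i^2*v^6 + 96*x^4*i^2*v^4 + 504*x^4*i^2*v^2 + 2*x^4*i*v^4 +
    144*x^3*q*i^2*v^5 - 6*x^3*r^2*i^2*v^4 + 792*x^3*i^2*v^2 - 252*x^3*i^2 - 7*x^3*i*v^2 -
    144*x^2*q*i^2*v^3 + 9*x^2*r^2*i^2*v^2 + 936*x^2*i^2*v^6 - 324*x^2*i^2*v^4 - 144*x^2*i^2 -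
    9*x^2*i*v^6 + 4*x^2*i - 1296*x*i^2*v^4 + 648*x*i^2*v^2 + 18*x*i*v^4 + 648*i^2*v^2 - 324*i^2 -
    9*i*v^2) * hq +
    (x^8*i^2*v^6 + x^8*i^2*v^4 - 4*x^7*i^2*v^6 - 14*x^7*i^2*v^4 - 2*x^7*i^2*v^2 - 2*x^6*q*i^2*v^5 +
    40*x^6*i^2*v^4 + 25*x^6*i^2*v^2 + x^6*i^2 + 8*x^5*q*i^2*v^5 + 8*x^5*q*i^2*v^3 - 2*x^5*i^2*v^6
    - 18*x^5*i^2*v^4 - 68*x^5*i^2*v^2 - 8*x^5*i^2 - 32*x^4*q*i^2*v^3 - 6*x^4*q*i^2*v -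
    28*x^4*i^2*v^6 + 96*x^4*i^2*v^4 + 36*x^4*i^2*v^2 + 16*x^4*i^2 - 6*x^3*q*i^2*v^7 +
    18*x^3*q*i^2*v^5 + 24*x^3*q*i^2*v + 120*x^3*i^2*v^4 - 198*x^3*i^2*v^2 - 18*x^3*i^2 +
    36*x^2*q*i^2*v^5 - 72*x^2*q*i^2*v^3 + 9*x^2*i^2*v^8 - 54*x^2*i^2*v^6 + 81*x^2*i^2*v^4 -
    108*x^2*i^2*v^2 + 72*x^2*i^2 - 54*x*q*i^2*v^3 + 54*x*q*i^2*v - 54*x*i^2*v^6 + 216*x*i^2*v^4 -
    162*x*i^2*v^2 + 81*i^2*v^4 - 162*i^2*v^2 + 81*i^2) * hr +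
    (- x^9*i*v^8 - x^9*i*v^6 + 6*x^8*i*v^6 - 2*x^8*i*v^4 + 2*x^7*q*i*v^7 + 23*x^7*i*v^4 +
    7*x^7*i*v^2 + 13*x^6*i*v^8 + 17*x^6*i*v^6 - 64*x^6*i*v^2 - 4*x^6*i - 26*x^5*q*i*v^3 -
    82*x^5*i*v^6 - 2*x^5*i*v^4 + 16*x^5*i - 22*x^4*q*i*v^7 + 24*x^4*q*i*v + 113*x^4*i*v^4 -
    47*x^4*i*v^2 + 60*x^3*q*i*v^5 - 40*x^3*i*v^8 - 72*x^3*i*v^6 - 64*x^3*i*v^2 + 32*x^3*i -
    38*x^2*q*i*v^3 + 56*x^2*i*v^6 + 144*x^2*i*v^4 + 16*x^2*i + 36*x*q*i*v^7 + 72*x*i*v^4 -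
    72*x*i*v^2 - 36*q*i*v^5 + 36*i*v^6 - 72*i*v^2 + 36*i - v^8 + v^6 - v^2 + 1) * hi

theorem dat₁'_κ (hi : 36 * i = 1) (hq : q ^ 2 = x ^ 4 - 4 * x ^ 3 - 8 * x - 4)
    (hr : r ^ 2 = 4 * (x ^ 4 - 8 * x) * (x ^ 3 + 1)) :
    (dat₁' x q r i v).κ = 4 * (x ^ 3 + 1) - (x ^ 4 - 8 * x) * v ^ 2 := by
  simp only [dat₁', Dat.mk₁, Dat.κ, l₁', f₁', c₁', g₁']
  linear_combination (- 16*x^12*i^2 + 256*x^9*i^2 - 736*x^6*i^2 - 2304*x^3*i^2 - 1296*i^2) * hq +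
    (4*x^9*i^2 - 16*x^8*i^2 - 68*x^6*i^2 + 128*x^5*i^2 - 24*x^4*q*i^2*v + 252*x^3*i^2 + x^3*i*v^2 +
    144*x^2*i^2 + 4*x^2*i + 216*x*q*i^2*v + 324*i^2 - 9*i*v^2) * hr +
    (- 4*x^10*i*v^2 - 16*x^9*i + 64*x^7*i*v^2 + 112*x^6*i - 256*x^4*i*v^2 - x^4*v^2 + 272*x^3*i +
    4*x^3 + 8*x*v^2 + 144*i + 4) * hi

end

theorem toLaurent_X_mul {R : Type} [CommRing R] :
    (toLaurent (X : R[X])) * toLaurentInv (X : R[X]) = 1 := by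
  rw [toLaurentInv_apply, toLaurent_X, LaurentPolynomial.invert_T, ← LaurentPolynomial.T_add,
    add_neg_cancel, LaurentPolynomial.T_zero]

theorem toLaurentInv_C {R : Type} [CommRing R] (t : R) :
    toLaurentInv (C t : R[X]) = toLaurent (C t) := by
  rw [toLaurentInv_apply, toLaurent_C, LaurentPolynomial.invert_C]

/-- The first family. -/
noncomputable def glu₁ {R : Type} [CommRing R] (x q r i : R) : Glu R where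
  d := dat₁ (C x) (C q) (C r) (C i) X
  d' := dat₁' (C x) (C q) (C r) (C i) X
  c := Chg.congr (by rw [map_dat₁', toLaurentInv_C, toLaurentInv_C, toLaurentInv_C,
      toLaurentInv_C]) (map_dat₁ _ _ _ _ _ _).symm
    (chg₁ (toLaurent (C x)) (toLaurent (C q)) (toLaurent (C r)) (toLaurent (C i))
      (toLaurent_X_mul (R := R)))

end Pool.Agent.Work.MP_2eb777_ag
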