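import Pool.Agent.Work.MP_2eb777_ag.Q1.Data1

set_option autoImplicit false

open CategoryTheory CategoryTheory.Limits AlgebraicGeometry Polynomial

namespace Pool.Agent.Work.MP_2eb777_ag

section

variable {S S' : Type} [CommRing S] [CommRing S'] (x q s e j u v : S)

/-- The factor `E` of the structure constant `a`, first chart. -/
def e₂ : S := q * u * (u ^ 4 + x) - (1 - 2 * x ^ 3) * u ^ 4 - 3 * x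

/-- The factor `G` of the structure constant `b₃`, first chart. -/
def g₂ : S := u ^ 4 + x ^ 2 * u ^ 2 + 2 * x

/-- The factor `H` of the structure constant `b`, first chart. -/
def h₂ : S := q * u ^ 7 + (1 + 4 * x ^ 3) * u ^ 6 - x ^ 2 * q * u ^ 5 + 3 * x ^ 2 * u ^ 4 +
  x * q * u ^ 3 + (2 * x ^ 4 - x) * u ^ 2 + q * u + 1 + 4 * x ^ 3

/-- The structure constant `c`, first chart. -/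
def c₂ : S := 3 * x * u ^ 2 - 1 + 2 * x ^ 3 - q * u * (x * u ^ 2 - 1)

/-- The structure constants of the second family, first chart. -/
def dat₂ (hj : 2 * j = 1) : Dat S where
  b₁ := x * s
  b₂ := 2 * x * u ^ 2 - 1
  b₃ := e * s * g₂ x u
  a := j * e * s * e₂ x q u
  b := e * h₂ x q u
  c := c₂ x q u
  rel := by
    simp only [e₂, g₂, h₂, c₂]
    linear_combination (- 4*x^4*s*e*u^6 + 2*x^3*s*e*u^4 - 2*x^2*q*s*e*u^3 + 6*x^2*s*e*u^2 - 2*x*q*s*e*u^7 +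
    x*q*s*e*u + 2*x*s*e*u^6 - 3*x*s*e + q*s*e*u^5 - s*e*u^4) * hj

/-- The factor `E` of the structure constant `a`, second chart. -/
def e₂' : S := -(2 + 2 * x ^ 3) + x ^ 2 * q * v - 3 * x ^ 2 * v ^ 2 -
  (2 * x + 2 * x ^ 4) * v ^ 4 - q * v ^ 5 - (1 + 4 * x ^ 3) * v ^ 6

/-- The factor `G` of the structure constant `b₃`, second chart. -/
def g₂' : S := 1 + x ^ 2 * v ^ 2 + 2 * x * v ^ 4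

/-- The factor `H` of the structure constant `b`, second chart. -/
def h₂' : S := q + (1 + 4 * x ^ 3) * v - x ^ 2 * q * v ^ 2 + 3 * x ^ 2 * v ^ 3 +
  x * q * v ^ 4 + (2 * x ^ 4 - x) * v ^ 5 + q * v ^ 6 + (1 + 4 * x ^ 3) * v ^ 7

/-- The structure constant `c`, second chart. -/
def c₂' : S := (1 + x ^ 3) * q - (1 + x ^ 3) * v + x ^ 2 * q * v ^ 2 -
  (5 * x ^ 2 + 2 * x ^ 5) * v ^ 3 - x * q * v ^ 4 - (x + 4 * x ^ 4) * v ^ 5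

/-- The structure constants of the second family, second chart. -/
def dat₂' (hj : 2 * j = 1) : Dat S where
  b₁ := s * (1 + x ^ 3 + 2 * x ^ 2 * v ^ 2)
  b₂ := -v * (1 + 2 * x ^ 3 + 4 * x ^ 2 * v ^ 2)
  b₃ := e * s * g₂' x v
  a := j * e * s * e₂' x q v
  b := e * h₂' x q v
  c := c₂' x q v
  rel := by
    simp only [e₂', g₂', h₂', c₂']
    linear_combination (- 4*x^7*s*e*v^5 - 16*x^6*s*e*v^7 - 4*x^6*s*e*v + 2*x^5*q*s*e*v^2 - 16*x^5*s*e*v^9 -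
    14*x^5*s*e*v^3 + 4*x^4*q*s*e*v^4 - 18*x^4*s*e*v^5 - 2*x^3*q*s*e*v^6 - 14*x^3*s*e*v^7 -
    6*x^3*s*e*v - 4*x^2*q*s*e*v^8 + x^2*q*s*e*v^2 - 4*x^2*s*e*v^9 - 11*x^2*s*e*v^3 - 2*x*s*e*v^5
    - q*s*e*v^6 - s*e*v^7 - 2*s*e*v) * hj

theorem map_dat₂ (φ : S →+* S') (hj : 2 * j = 1) (hj' : 2 * φ j = 1) :
    (dat₂ x q s e j u hj).map φ = dat₂ (φ x) (φ q) (φ s) (φ e) (φ j) (φ u) hj' := by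
  ext <;> simp only [dat₂, Dat.map_b₁, Dat.map_b₂, Dat.map_b₃, Dat.map_a, Dat.map_b,
    Dat.map_c, e₂, g₂, h₂, c₂, map_mul, map_add, map_sub, map_pow, map_ofNat, map_one]

theorem map_dat₂' (φ : S →+* S') (hj : 2 * j = 1) (hj' : 2 * φ j = 1) :
    (dat₂' x q s e j v hj).map φ = dat₂' (φ x) (φ q) (φ s) (φ e) (φ j) (φ v) hj' := by
  ext <;> simp only [dat₂', Dat.map_b₁, Dat.map_b₂, Dat.map_b₃, Dat.map_a, Dat.map_b,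
    Dat.map_c, e₂', g₂', h₂', c₂', map_mul, map_add, map_sub, map_neg, map_pow, map_ofNat,
    map_one]

variable {x q s e j u v}

/-- The change of basis between the charts. -/
def chg₂ (hs : s ^ 2 = 4 * x * ((1 + x ^ 3) * (1 - 8 * x ^ 3)))
    (he : e * ((1 + x ^ 3) * (1 - 8 * x ^ 3)) = 1) (hj : 2 * j = 1) (h : u * v = 1) :
    Chg (dat₂' x q s e j v hj) (dat₂ x q s e j u hj) where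
  τ := v ^ 4
  τ' := u ^ 4
  hτ := by rw [← mul_pow, h, one_pow]
  p := v
  q := -(j * s) * v ^ 3
  r := 0
  s := v ^ 4
  δ := u ^ 5
  hδ := by
    have : u ^ 5 * v ^ 5 = 1 := by rw [← mul_pow, h, one_pow]
    linear_combination this
  hb₁ := by
    simp only [dat₂, dat₂', e₂, g₂, h₂, c₂, e₂', g₂', h₂', c₂']
    linear_combination (- x^2*s^3*e*j^2*u*v^5 - x^2*s^3*e*j^2*v^4 + 4*x*s*j*u*v^3 + 4*x*s*j*v^2 - s^3*e*j^2*u^3*v^5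
    - s^3*e*j^2*u^2*v^4 - s^3*e*j^2*u*v^3 - s^3*e*j^2*v^2) * h +
    (- x^2*s*e*j^2*v^4 - 2*x*s*e*j^2*v^6 - s*e*j^2*v^2) * hs +
    (- x^3*s*v^4 - 2*x^2*s*v^6 - x*s*v^2) * he +
    (16*x^9*s*e*j*v^4 + 8*x^9*s*e*v^4 + 32*x^8*s*e*j*v^6 + 16*x^8*s*e*v^6 + 16*x^7*s*e*j*v^2 +
    8*x^7*s*e*v^2 + 14*x^6*s*e*j*v^4 + 7*x^6*s*e*v^4 + 28*x^5*s*e*j*v^6 + 14*x^5*s*e*v^6 +
    14*x^4*s*e*j*v^2 + 7*x^4*s*e*v^2 - 2*x^3*s*e*j*v^4 - x^3*s*e*v^4 - 4*x^2*s*e*j*v^6 -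
    2*x^2*s*e*v^6 - 2*x*s*e*j*v^2 - x*s*e*v^2 + 2*x*s*v^2 - s*v^4) * hj
  hb₂ := by
    simp only [dat₂, dat₂', e₂, g₂, h₂, c₂, e₂', g₂', h₂', c₂']
    linear_combination (x^2*s^2*e*j*u*v^6 + x^2*s^2*e*j*v^5 - 2*x*u*v^4 - 2*x*v^3 + s^2*e*j*u^3*v^6 +
    s^2*e*j*u^2*v^5 + s^2*e*j*u*v^4 + s^2*e*j*v^3) * h +
    (x^2*e*j*v^5 + 2*x*e*j*v^7 + e*j*v^3) * hs +
    (2*x^3*v^5 + 4*x^2*v^7 + 2*x*v^3) * he +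
    (- 16*x^9*e*v^5 - 32*x^8*e*v^7 - 16*x^7*e*v^3 - 14*x^6*e*v^5 - 28*x^5*e*v^7 - 14*x^4*e*v^3 +
    2*x^3*e*v^5 + 4*x^2*e*v^7 + 2*x*e*v^3) * hj
  hb₃ := by
    simp only [dat₂, dat₂', e₂, g₂, h₂, c₂, e₂', g₂', h₂', c₂']
    linear_combination (- x^2*s*e*u*v^7 - x^2*s*e*v^6 - s*e*u^3*v^7 - s*e*u^2*v^6 - s*e*u*v^5 - s*e*v^4) * h
  ha₁ := by
    simp only [dat₂, dat₂', e₂, g₂, h₂, c₂, e₂', g₂', h₂', c₂']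
    linear_combination (- 2*x^4*s*e*j*u*v^6 - 2*x^4*s*e*j*v^5 - 4*x^3*s*e*j*u^5*v^6 - 4*x^3*s*e*j*u^4*v^5 -
    2*x^3*s*e*j*u^3*v^4 - 2*x^3*s*e*j*u^2*v^3 - 2*x^3*s*e*j*u*v^2 - 2*x^3*s*e*j*v +
    x^2*q*s*e*j*u^4*v^6 + x^2*q*s*e*j*u^3*v^5 + x^2*q*s*e*j*u^2*v^4 + x^2*q*s*e*j*u*v^3 +
    x^2*q*s*e*j*v^2 - 3*x^2*s*e*j*u^3*v^6 - 3*x^2*s*e*j*u^2*v^5 - 3*x^2*s*e*j*u*v^4 -
    3*x^2*s*e*j*v^3 - x*q*s*e*j*u^2*v^6 - x*q*s*e*j*u*v^5 + x*s*e*j*u*v^6 + x*s*e*j*v^5 -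
    q*s*e*j*u^6*v^6 - q*s*e*j*u^5*v^5 - q*s*e*j*v^6 - s*e*j*u^5*v^6 - s*e*j*u^4*v^5 -
    2*s*e*j*u^3*v^4 - 2*s*e*j*u^2*v^3 - 2*s*e*j*u*v^2 - 2*s*e*j*v) * h
  hc₁ := by
    simp only [dat₂, dat₂', e₂, g₂, h₂, c₂, e₂', g₂', h₂', c₂']
    linear_combination (2*x^3*s^2*e*j^2*u^3*v^6 + 2*x^3*s^2*e*j^2*u^2*v^5 + 2*x^3*s^2*e*j^2*u*v^4 +
    2*x^3*s^2*e*j^2*v^3 + x*q*s^2*e*j^2*v^6 - x*q*u^2*v^4 - x*q*u*v^3 - x*q*v^2 + 3*x*u*v^4 +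
    3*x*v^3 + q*s^2*e*j^2*u^4*v^6 + q*s^2*e*j^2*u^3*v^5 + q*s^2*e*j^2*u^2*v^4 +
    q*s^2*e*j^2*u*v^3 + q*s^2*e*j^2*v^2 + q*v^4 - s^2*e*j^2*u^3*v^6 - s^2*e*j^2*u^2*v^5 -
    s^2*e*j^2*u*v^4 - s^2*e*j^2*v^3) * h +
    (- 2*x^4*e*j^2*v^7 - 4*x^3*e*j^2*v^9 + x^2*q*e*j^2*v^4 - 3*x^2*e*j^2*v^5 + x*q*e*j^2*v^6 -
    5*x*e*j^2*v^7 - q*e*j^2*v^8 + q*e*j^2*v^2 - e*j^2*v^9 - 3*e*j^2*v^3) * hs +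
    (- 2*x^5*v^7 - 4*x^4*v^9 + x^3*q*v^4 - 3*x^3*v^5 + x^2*q*v^6 - 5*x^2*v^7 - x*q*v^8 + x*q*v^2
    - x*v^9 - 3*x*v^3) * he +
    (32*x^11*e*j*v^7 + 16*x^11*e*v^7 + 64*x^10*e*j*v^9 + 32*x^10*e*v^9 - 16*x^9*q*e*j*v^4 -
    8*x^9*q*e*v^4 + 48*x^9*e*j*v^5 + 24*x^9*e*v^5 - 16*x^8*q*e*j*v^6 - 8*x^8*q*e*v^6 +
    108*x^8*e*j*v^7 + 54*x^8*e*v^7 + 16*x^7*q*e*j*v^8 - 16*x^7*q*e*j*v^2 + 8*x^7*q*e*v^8 -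
    8*x^7*q*e*v^2 + 72*x^7*e*j*v^9 + 48*x^7*e*j*v^3 + 36*x^7*e*v^9 + 24*x^7*e*v^3 -
    14*x^6*q*e*j*v^4 - 7*x^6*q*e*v^4 + 42*x^6*e*j*v^5 + 21*x^6*e*v^5 - 14*x^5*q*e*j*v^6 -
    7*x^5*q*e*v^6 + 66*x^5*e*j*v^7 + 33*x^5*e*v^7 + 14*x^4*q*e*j*v^8 - 14*x^4*q*e*j*v^2 +
    7*x^4*q*e*v^8 - 7*x^4*q*e*v^2 + 6*x^4*e*j*v^9 + 42*x^4*e*j*v^3 + 3*x^4*e*v^9 + 21*x^4*e*v^3
    + 2*x^3*q*e*j*v^4 + x^3*q*e*v^4 - 6*x^3*e*j*v^5 - 3*x^3*e*v^5 + 2*x^2*q*e*j*v^6 +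
    x^2*q*e*v^6 - 10*x^2*e*j*v^7 - 5*x^2*e*v^7 - 2*x*q*e*j*v^8 + 2*x*q*e*j*v^2 - x*q*e*v^8 +
    x*q*e*v^2 - 2*x*e*j*v^9 - 6*x*e*j*v^3 - x*e*v^9 - 3*x*e*v^3) * hj
  ha₂ := by
    simp only [dat₂, dat₂', e₂, g₂, h₂, c₂, e₂', g₂', h₂', c₂']
    linear_combination (2*x^4*e*u*v^7 + 2*x^4*e*v^6 + 4*x^3*e*u^5*v^7 + 4*x^3*e*u^4*v^6 + 4*x^3*e*u^3*v^5 +
    4*x^3*e*u^2*v^4 + 4*x^3*e*u*v^3 + 4*x^3*e*v^2 - x^2*q*e*u^4*v^7 - x^2*q*e*u^3*v^6 -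
    x^2*q*e*u^2*v^5 - x^2*q*e*u*v^4 - x^2*q*e*v^3 + 3*x^2*e*u^3*v^7 + 3*x^2*e*u^2*v^6 +
    3*x^2*e*u*v^5 + 3*x^2*e*v^4 + x*q*e*u^2*v^7 + x*q*e*u*v^6 + x*q*e*v^5 - x*e*u*v^7 - x*e*v^6
    + q*e*u^6*v^7 + q*e*u^5*v^6 + q*e*u^4*v^5 + q*e*u^3*v^4 + q*e*u^2*v^3 + q*e*u*v^2 + q*e*v^7
    + q*e*v + e*u^5*v^7 + e*u^4*v^6 + e*u^3*v^5 + e*u^2*v^4 + e*u*v^3 + e*v^2) * h
  hc₂ := by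
    simp only [dat₂, dat₂', e₂, g₂, h₂, c₂, e₂', g₂', h₂', c₂']
    linear_combination (- 2*x^3*s*e*j*u^3*v^7 - 2*x^3*s*e*j*u^2*v^6 - 2*x^3*s*e*j*u*v^5 - 2*x^3*s*e*j*v^4 -
    x*q*s*e*j*v^7 - q*s*e*j*u^4*v^7 - q*s*e*j*u^3*v^6 - q*s*e*j*u^2*v^5 - q*s*e*j*u*v^4 -
    q*s*e*j*v^3 + s*e*j*u^3*v^7 + s*e*j*u^2*v^6 + s*e*j*u*v^5 + s*e*j*v^4) * h

theorem dat₂_g (hq : q ^ 2 = 1 - 4 * x - 8 * x ^ 3 - 4 * x ^ 4)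
    (hs : s ^ 2 = 4 * x * ((1 + x ^ 3) * (1 - 8 * x ^ 3)))
    (he : e * ((1 + x ^ 3) * (1 - 8 * x ^ 3)) = 1) (hj : 2 * j = 1) :
    (dat₂ x q s e j u hj).g = (u ^ 2 - 1) * (u ^ 6 + 1) := by
  simp only [dat₂, Dat.g, e₂, g₂, h₂, c₂]
  linear_combination (x^3*e*u^8 + x^2*s^2*e^2*j^2*u^2 - 2*x^2*e*u^6 + 2*x*s^2*e^2*j^2*u^6 - x*e*u^10 +
    s^2*e^2*j^2*u^10 + e*u^8 + e*u^2) * hq +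
    (4*x^6*e^2*j^2*u^8 - 4*x^6*e^2*j^2*u^2 - 8*x^5*e^2*j^2*u^6 - 8*x^5*e^2*j^2*u^2 +
    4*x^4*q*e^2*j^2*u^5 - 4*x^4*e^2*j^2*u^10 - 16*x^4*e^2*j^2*u^6 - 12*x^4*e^2*j^2*u^4 +
    4*x^3*q*e^2*j^2*u^9 - 8*x^3*e^2*j^2*u^10 - 4*x^3*e^2*j^2*u^8 - 4*x^3*e^2*j^2*u^2 -
    6*x^2*q*e^2*j^2*u - 8*x^2*e^2*j^2*u^6 + x^2*e^2*j^2*u^2 + 9*x^2*e^2*j^2 - 8*x*q*e^2*j^2*u^5
    - 4*x*e^2*j^2*u^10 + 2*x*e^2*j^2*u^6 + 6*x*e^2*j^2*u^4 - 2*q*e^2*j^2*u^9 + e^2*j^2*u^10 +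
    e^2*j^2*u^8) * hs +
    (4*x^7*e*u^8 - 4*x^7*e*u^2 - 8*x^6*e*u^6 - 8*x^6*e*u^2 + 4*x^5*q*e*u^5 - 4*x^5*e*u^10 -
    16*x^5*e*u^6 - 12*x^5*e*u^4 + 4*x^4*q*e*u^9 - 8*x^4*e*u^10 - 4*x^4*e*u^8 - 4*x^4*e*u^2 -
    6*x^3*q*e*u - 8*x^3*e*u^6 + x^3*e*u^2 + 9*x^3*e - 8*x^2*q*e*u^5 - 4*x^2*e*u^10 + 2*x^2*e*u^6
    + 6*x^2*e*u^4 - 2*x*q*e*u^9 + x*e*u^10 + x*e*u^8 + u^8 - u^6 + u^2 - 1) * he +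
    (- 64*x^13*e^2*j*u^8 + 64*x^13*e^2*j*u^2 - 32*x^13*e^2*u^8 + 32*x^13*e^2*u^2 +
    128*x^12*e^2*j*u^6 + 128*x^12*e^2*j*u^2 + 64*x^12*e^2*u^6 + 64*x^12*e^2*u^2 -
    64*x^11*q*e^2*j*u^5 - 32*x^11*q*e^2*u^5 + 64*x^11*e^2*j*u^10 + 256*x^11*e^2*j*u^6 +
    192*x^11*e^2*j*u^4 + 32*x^11*e^2*u^10 + 128*x^11*e^2*u^6 + 96*x^11*e^2*u^4 -
    64*x^10*q*e^2*j*u^9 - 32*x^10*q*e^2*u^9 + 128*x^10*e^2*j*u^10 + 8*x^10*e^2*j*u^8 +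
    120*x^10*e^2*j*u^2 + 64*x^10*e^2*u^10 + 4*x^10*e^2*u^8 + 60*x^10*e^2*u^2 + 96*x^9*q*e^2*j*u
    + 48*x^9*q*e^2*u + 240*x^9*e^2*j*u^6 + 96*x^9*e^2*j*u^2 - 144*x^9*e^2*j + 120*x^9*e^2*u^6 +
    48*x^9*e^2*u^2 - 72*x^9*e^2 + 72*x^8*q*e^2*j*u^5 + 36*x^8*q*e^2*u^5 + 120*x^8*e^2*j*u^10 +
    192*x^8*e^2*j*u^6 + 72*x^8*e^2*j*u^4 + 60*x^8*e^2*u^10 + 96*x^8*e^2*u^6 + 36*x^8*e^2*u^4 -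
    24*x^7*q*e^2*j*u^9 - 12*x^7*q*e^2*u^9 + 96*x^7*e^2*j*u^10 + 48*x^7*e^2*j*u^8 +
    48*x^7*e^2*j*u^2 + 48*x^7*e^2*u^10 + 24*x^7*e^2*u^8 + 24*x^7*e^2*u^2 + 84*x^6*q*e^2*j*u +
    42*x^6*q*e^2*u + 96*x^6*e^2*j*u^6 - 30*x^6*e^2*j*u^2 - 126*x^6*e^2*j + 48*x^6*e^2*u^6 -
    15*x^6*e^2*u^2 - 63*x^6*e^2 + 120*x^5*q*e^2*j*u^5 + 60*x^5*q*e^2*u^5 + 48*x^5*e^2*j*u^10 -
    60*x^5*e^2*j*u^6 - 108*x^5*e^2*j*u^4 + 24*x^5*e^2*u^10 - 30*x^5*e^2*u^6 - 54*x^5*e^2*u^4 +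
    36*x^4*q*e^2*j*u^9 + 18*x^4*q*e^2*u^9 - 30*x^4*e^2*j*u^10 - 22*x^4*e^2*j*u^8 -
    8*x^4*e^2*j*u^2 - 15*x^4*e^2*u^10 - 11*x^4*e^2*u^8 - 4*x^4*e^2*u^2 - 12*x^3*q*e^2*j*u -
    6*x^3*q*e^2*u - 16*x^3*e^2*j*u^6 + 2*x^3*e^2*j*u^2 + 18*x^3*e^2*j - 8*x^3*e^2*u^6 +
    x^3*e^2*u^2 + 9*x^3*e^2 - 16*x^2*q*e^2*j*u^5 - 8*x^2*q*e^2*u^5 - 8*x^2*e^2*j*u^10 +
    4*x^2*e^2*j*u^6 + 12*x^2*e^2*j*u^4 - 4*x^2*e^2*u^10 + 2*x^2*e^2*u^6 + 6*x^2*e^2*u^4 -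
    4*x*q*e^2*j*u^9 - 2*x*q*e^2*u^9 + 2*x*e^2*j*u^10 + 2*x*e^2*j*u^8 + x*e^2*u^10 + x*e^2*u^8) * hj

theorem dat₂_κ (hs : s ^ 2 = 4 * x * ((1 + x ^ 3) * (1 - 8 * x ^ 3)))
    (he : e * ((1 + x ^ 3) * (1 - 8 * x ^ 3)) = 1) (hj : 2 * j = 1) :
    (dat₂ x q s e j u hj).κ = 4 * x * (1 + x ^ 3) * u ^ 2 - (1 - 8 * x ^ 3) := by
  simp only [dat₂, Dat.κ, e₂, g₂, h₂, c₂]
  linear_combination (x^3*e*u^2 + 2*x^2*e + x*e*u^4) * hs +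
    (4*x^4*u^2 + 8*x^3 + 4*x^2*u^4) * he

theorem dat₂_A₁ (hs : s ^ 2 = 4 * x * ((1 + x ^ 3) * (1 - 8 * x ^ 3)))
    (he : e * ((1 + x ^ 3) * (1 - 8 * x ^ 3)) = 1) (hj : 2 * j = 1) :
    (dat₂ x q s e j u hj).A₁ =
      (4 * x * (1 + x ^ 3) * u ^ 2 - (1 - 8 * x ^ 3)) * (x * u ^ 2 - 1) +
      q * u * (3 * x * u ^ 2 - 1 + 2 * x ^ 3) := by
  simp only [dat₂, Dat.A₁, e₂, g₂, h₂, c₂]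
  linear_combination (2*x^4*e*j*u^4 + x^2*q*e*j*u - 3*x^2*e*j + x*q*e*j*u^5 - x*e*j*u^4) * hs +
    (4*x^5*u^4 + 2*x^3*q*u - 6*x^3 + 2*x^2*q*u^5 - 2*x^2*u^4) * he +
    (- 32*x^11*e*u^4 - 16*x^9*q*e*u + 48*x^9*e - 16*x^8*q*e*u^5 - 12*x^8*e*u^4 - 14*x^6*q*e*u +
    42*x^6*e - 14*x^5*q*e*u^5 + 18*x^5*e*u^4 + 2*x^3*q*e*u - 6*x^3*e + 2*x^2*q*e*u^5 -
    2*x^2*e*u^4) * hj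

theorem dat₂'_g (hq : q ^ 2 = 1 - 4 * x - 8 * x ^ 3 - 4 * x ^ 4)
    (hs : s ^ 2 = 4 * x * ((1 + x ^ 3) * (1 - 8 * x ^ 3)))
    (he : e * ((1 + x ^ 3) * (1 - 8 * x ^ 3)) = 1) (hj : 2 * j = 1) :
    (dat₂' x q s e j v hj).g = (1 - v ^ 2) * (1 + v ^ 6) := by
  simp only [dat₂', Dat.g, e₂', g₂', h₂', c₂']
  linear_combination (- x^5*e*v^2 + x^4*s^2*e^2*j^2*v^2 + 3*x^3*e*v^6 + x^3*e - 2*x^2*s^2*e^2*j^2*v^6 - x*e*v^10 +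
    s^2*e^2*j^2*v^10 + e*v^6 + e) * hq +
    (4*x^8*e^2*j^2*v^8 - 4*x^8*e^2*j^2*v^2 + 16*x^7*e^2*j^2*v^10 + 8*x^7*e^2*j^2*v^4 -
    8*x^7*e^2*j^2*v^2 - 4*x^6*q*e^2*j^2*v^5 + 16*x^6*e^2*j^2*v^12 + 36*x^6*e^2*j^2*v^6 +
    4*x^6*e^2*j^2 - 8*x^5*q*e^2*j^2*v^7 - 4*x^5*q*e^2*j^2*v + 32*x^5*e^2*j^2*v^8 +
    16*x^5*e^2*j^2*v^6 + 8*x^5*e^2*j^2*v^2 + 4*x^4*q*e^2*j^2*v^9 - 6*x^4*q*e^2*j^2*v^3 +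
    16*x^4*e^2*j^2*v^10 + 25*x^4*e^2*j^2*v^4 + x^4*e^2*j^2*v^2 + 8*x^3*q*e^2*j^2*v^11 +
    8*x^3*e^2*j^2*v^12 - 8*x^3*e^2*j^2*v^10 + 40*x^3*e^2*j^2*v^6 + 8*x^3*e^2*j^2 +
    4*x^2*q*e^2*j^2*v^7 - 4*x^2*q*e^2*j^2*v + 10*x^2*e^2*j^2*v^8 - 2*x^2*e^2*j^2*v^6 +
    12*x^2*e^2*j^2*v^2 + 4*x*q*e^2*j^2*v^9 + 8*x*e^2*j^2*v^4 + 2*q*e^2*j^2*v^11 +
    4*q*e^2*j^2*v^5 + e^2*j^2*v^12 + e^2*j^2*v^10 + 4*e^2*j^2*v^6 + 4*e^2*j^2) * hs +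
    (4*x^9*e*v^8 - 4*x^9*e*v^2 + 16*x^8*e*v^10 + 8*x^8*e*v^4 - 8*x^8*e*v^2 - 4*x^7*q*e*v^5 +
    16*x^7*e*v^12 + 36*x^7*e*v^6 + 4*x^7*e - 8*x^6*q*e*v^7 - 4*x^6*q*e*v + 32*x^6*e*v^8 +
    16*x^6*e*v^6 + 8*x^6*e*v^2 + 4*x^5*q*e*v^9 - 6*x^5*q*e*v^3 + 16*x^5*e*v^10 + 25*x^5*e*v^4 +
    x^5*e*v^2 + 8*x^4*q*e*v^11 + 8*x^4*e*v^12 - 8*x^4*e*v^10 + 40*x^4*e*v^6 + 8*x^4*e +
    4*x^3*q*e*v^7 - 4*x^3*q*e*v + 10*x^3*e*v^8 - 2*x^3*e*v^6 + 12*x^3*e*v^2 + 4*x^2*q*e*v^9 +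
    8*x^2*e*v^4 + 2*x*q*e*v^11 + 4*x*q*e*v^5 + x*e*v^12 + x*e*v^10 + 4*x*e*v^6 + 4*x*e - v^8 +
    v^6 - v^2 + 1) * he +
    (- 64*x^15*e^2*j*v^8 + 64*x^15*e^2*j*v^2 - 32*x^15*e^2*v^8 + 32*x^15*e^2*v^2 -
    256*x^14*e^2*j*v^10 - 128*x^14*e^2*j*v^4 + 128*x^14*e^2*j*v^2 - 128*x^14*e^2*v^10 -
    64*x^14*e^2*v^4 + 64*x^14*e^2*v^2 + 64*x^13*q*e^2*j*v^5 + 32*x^13*q*e^2*v^5 -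
    256*x^13*e^2*j*v^12 - 576*x^13*e^2*j*v^6 - 64*x^13*e^2*j - 128*x^13*e^2*v^12 -
    288*x^13*e^2*v^6 - 32*x^13*e^2 + 128*x^12*q*e^2*j*v^7 + 64*x^12*q*e^2*j*v +
    64*x^12*q*e^2*v^7 + 32*x^12*q*e^2*v - 568*x^12*e^2*j*v^8 - 256*x^12*e^2*j*v^6 -
    72*x^12*e^2*j*v^2 - 284*x^12*e^2*v^8 - 128*x^12*e^2*v^6 - 36*x^12*e^2*v^2 -
    64*x^11*q*e^2*j*v^9 + 96*x^11*q*e^2*j*v^3 - 32*x^11*q*e^2*v^9 + 48*x^11*q*e^2*v^3 -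
    480*x^11*e^2*j*v^10 - 512*x^11*e^2*j*v^4 + 96*x^11*e^2*j*v^2 - 240*x^11*e^2*v^10 -
    256*x^11*e^2*v^4 + 48*x^11*e^2*v^2 - 128*x^10*q*e^2*j*v^11 + 56*x^10*q*e^2*j*v^5 -
    64*x^10*q*e^2*v^11 + 28*x^10*q*e^2*v^5 - 352*x^10*e^2*j*v^12 + 128*x^10*e^2*j*v^10 -
    1144*x^10*e^2*j*v^6 - 184*x^10*e^2*j - 176*x^10*e^2*v^12 + 64*x^10*e^2*v^10 -
    572*x^10*e^2*v^6 - 92*x^10*e^2 + 48*x^9*q*e^2*j*v^7 + 120*x^9*q*e^2*j*v + 24*x^9*q*e^2*v^7 +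
    60*x^9*q*e^2*v - 600*x^9*e^2*j*v^8 - 192*x^9*e^2*j*v^6 - 312*x^9*e^2*j*v^2 - 300*x^9*e^2*v^8
    - 96*x^9*e^2*v^6 - 156*x^9*e^2*v^2 - 120*x^8*q*e^2*j*v^9 + 84*x^8*q*e^2*j*v^3 -
    60*x^8*q*e^2*v^9 + 42*x^8*q*e^2*v^3 - 192*x^8*e^2*j*v^10 - 462*x^8*e^2*j*v^4 -
    30*x^8*e^2*j*v^2 - 96*x^8*e^2*v^10 - 231*x^8*e^2*v^4 - 15*x^8*e^2*v^2 - 144*x^7*q*e^2*j*v^11
    - 72*x^7*q*e^2*j*v^5 - 72*x^7*q*e^2*v^11 - 36*x^7*q*e^2*v^5 - 96*x^7*e^2*j*v^12 +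
    96*x^7*e^2*j*v^10 - 552*x^7*e^2*j*v^6 - 168*x^7*e^2*j - 48*x^7*e^2*v^12 + 48*x^7*e^2*v^10 -
    276*x^7*e^2*v^6 - 84*x^7*e^2 - 72*x^6*q*e^2*j*v^7 + 48*x^6*q*e^2*j*v - 36*x^6*q*e^2*v^7 +
    24*x^6*q*e^2*v - 76*x^6*e^2*j*v^8 + 60*x^6*e^2*j*v^6 - 152*x^6*e^2*j*v^2 - 38*x^6*e^2*v^8 +
    30*x^6*e^2*v^6 - 76*x^6*e^2*v^2 - 48*x^5*q*e^2*j*v^9 - 12*x^5*q*e^2*j*v^3 - 24*x^5*q*e^2*v^9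
    - 6*x^5*q*e^2*v^3 + 32*x^5*e^2*j*v^10 - 62*x^5*e^2*j*v^4 + 2*x^5*e^2*j*v^2 + 16*x^5*e^2*v^10
    - 31*x^5*e^2*v^4 + x^5*e^2*v^2 - 12*x^4*q*e^2*j*v^11 - 56*x^4*q*e^2*j*v^5 - 6*x^4*q*e^2*v^11
    - 28*x^4*q*e^2*v^5 + 2*x^4*e^2*j*v^12 - 30*x^4*e^2*j*v^10 + 24*x^4*e^2*j*v^6 - 40*x^4*e^2*j
    + x^4*e^2*v^12 - 15*x^4*e^2*v^10 + 12*x^4*e^2*v^6 - 20*x^4*e^2 + 8*x^3*q*e^2*j*v^7 -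
    8*x^3*q*e^2*j*v + 4*x^3*q*e^2*v^7 - 4*x^3*q*e^2*v + 20*x^3*e^2*j*v^8 - 4*x^3*e^2*j*v^6 +
    24*x^3*e^2*j*v^2 + 10*x^3*e^2*v^8 - 2*x^3*e^2*v^6 + 12*x^3*e^2*v^2 + 8*x^2*q*e^2*j*v^9 +
    4*x^2*q*e^2*v^9 + 16*x^2*e^2*j*v^4 + 8*x^2*e^2*v^4 + 4*x*q*e^2*j*v^11 + 8*x*q*e^2*j*v^5 +
    2*x*q*e^2*v^11 + 4*x*q*e^2*v^5 + 2*x*e^2*j*v^12 + 2*x*e^2*j*v^10 + 8*x*e^2*j*v^6 + 8*x*e^2*j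
    + x*e^2*v^12 + x*e^2*v^10 + 4*x*e^2*v^6 + 4*x*e^2) * hj

theorem dat₂'_κ (hs : s ^ 2 = 4 * x * ((1 + x ^ 3) * (1 - 8 * x ^ 3)))
    (he : e * ((1 + x ^ 3) * (1 - 8 * x ^ 3)) = 1) (hj : 2 * j = 1) :
    (dat₂' x q s e j v hj).κ = 4 * x * (1 + x ^ 3) - (1 - 8 * x ^ 3) * v ^ 2 := by
  simp only [dat₂', Dat.κ, e₂', g₂', h₂', c₂']
  linear_combination (x^5*e*v^2 + 4*x^4*e*v^4 + 4*x^3*e*v^6 + x^3*e + 3*x^2*e*v^2 + 2*x*e*v^4 + e) * hs +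
    (4*x^6*v^2 + 16*x^5*v^4 + 16*x^4*v^6 + 4*x^4 + 12*x^3*v^2 + 8*x^2*v^4 + 4*x) * he

end

/-- The second family. -/
noncomputable def glu₂ {R : Type} [CommRing R] (x q s e j : R)
    (hs : s ^ 2 = 4 * x * ((1 + x ^ 3) * (1 - 8 * x ^ 3)))
    (he : e * ((1 + x ^ 3) * (1 - 8 * x ^ 3)) = 1) (hj : 2 * j = 1) : Glu R where
  d := dat₂ (C x) (C q) (C s) (C e) (C j) X
    (by simpa only [map_mul, map_one, map_ofNat] using congrArg C hj)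
  d' := dat₂' (C x) (C q) (C s) (C e) (C j) X
    (by simpa only [map_mul, map_one, map_ofNat] using congrArg C hj)
  c :=
    have hj' : 2 * (toLaurent (C j) : LaurentPolynomial R) = 1 := by
      simpa only [RingHom.comp_apply, map_mul, map_one, map_ofNat] using
        congrArg ((toLaurent : R[X] →+* _).comp C) hj
    Chg.congr
      (by
        rw [map_dat₂' _ _ _ _ _ _ _ _ (by rw [toLaurentInv_C]; exact hj')]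
        congr 1 <;> rw [toLaurentInv_C])
      (map_dat₂ _ _ _ _ _ _ _ _ hj').symm
      (chg₂ (x := toLaurent (C x)) (q := toLaurent (C q)) (s := toLaurent (C s))
        (e := toLaurent (C e)) (j := toLaurent (C j)) (u := toLaurent X) (v := toLaurentInv X)
        (by simpa only [RingHom.comp_apply, map_pow, map_mul, map_sub, map_add, map_one,
          map_ofNat] using congrArg ((toLaurent : R[X] →+* _).comp C) hs)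
        (by simpa only [RingHom.comp_apply, map_pow, map_mul, map_sub, map_add, map_one,
          map_ofNat] using congrArg ((toLaurent : R[X] →+* _).comp C) he)
        hj' toLaurent_X_mul)

end Pool.Agent.Work.MP_2eb777_ag
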