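import Pool.Agent.Work.MP_2eb777_ag.Q1.Glu

set_option autoImplicit false

open CategoryTheory CategoryTheory.Limits AlgebraicGeometry Polynomial

namespace Pool.Agent.Work.MP_2eb777_ag

variable {R R' : Type} [CommRing R] [CommRing R']

theorem sc_isPushout (φ : R →+* R') (l : R'ˣ) :
    IsPushout (CommRingCat.ofHom (C : R →+* R[X])) (CommRingCat.ofHom φ)
      (CommRingCat.ofHom (sc φ (l : R'))) (CommRingCat.ofHom (C : R' →+* R'[X])) := by
  have hcomm : (sc φ (l : R')).comp C = (C : R' →+* R'[X]).comp φ := by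
    apply RingHom.ext
    intro r
    simp
  have key : ∀ s : PushoutCocone (CommRingCat.ofHom (C : R →+* R[X]))
      (CommRingCat.ofHom φ), ∃ δ : CommRingCat.of R'[X] ⟶ s.pt,
      CommRingCat.ofHom (sc φ (l : R')) ≫ δ = s.inl ∧
      CommRingCat.ofHom (C : R' →+* R'[X]) ≫ δ = s.inr := by
    intro s
    let p : R[X] →+* s.pt := s.inl.hom
    let q : R' →+* s.pt := s.inr.hom
    have hpq : p.comp C = q.comp φ := congrArg CommRingCat.Hom.hom s.condition
    have hpq' : ∀ r, p (C r) = q (φ r) := fun r =>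
      congrArg (fun g : R →+* s.pt => g r) hpq
    have hl : q (l : R') * q ((l⁻¹ : R'ˣ) : R') = 1 := by rw [← map_mul]; simp
    let δ : R'[X] →+* s.pt := eval₂RingHom q (q ((l⁻¹ : R'ˣ) : R') * p X)
    refine ⟨CommRingCat.ofHom δ, ?_, ?_⟩
    · apply CommRingCat.hom_ext
      apply Polynomial.ringHom_ext
      · intro r
        change δ (sc φ (l : R') (C r)) = p (C r)
        rw [sc_C, hpq']
        simp [δ]
      · change δ (sc φ (l : R') X) = p X
        rw [sc_X, map_mul]
        simp only [δ, coe_eval₂RingHom, eval₂_C, eval₂_X]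
        rw [← mul_assoc, hl, one_mul]
    · apply CommRingCat.hom_ext
      apply RingHom.ext
      intro r
      change δ (C r) = q r
      simp [δ]
  choose δ hd₁ hd₂ using key
  refine ⟨⟨by rw [← CommRingCat.ofHom_comp, ← CommRingCat.ofHom_comp, hcomm]⟩,
    ⟨PushoutCocone.IsColimit.mk _ δ hd₁ hd₂ ?_⟩⟩
  intro s e he₁ he₂
  apply CommRingCat.hom_ext
  have h1 : e.hom (sc φ (l : R') X) = s.inl.hom X :=
    congrArg (fun g : CommRingCat.of R[X] ⟶ s.pt => g.hom X) he₁
  have h2 : (δ s).hom (sc φ (l : R') X) = s.inl.hom X :=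
    congrArg (fun g : CommRingCat.of R[X] ⟶ s.pt => g.hom X) (hd₁ s)
  have h3 : ∀ r, e.hom (C r) = s.inr.hom r := fun r =>
    congrArg (fun g : CommRingCat.of R' ⟶ s.pt => g.hom r) he₂
  have h4 : ∀ r, (δ s).hom (C r) = s.inr.hom r := fun r =>
    congrArg (fun g : CommRingCat.of R' ⟶ s.pt => g.hom r) (hd₂ s)
  apply Polynomial.ringHom_ext
  · intro r
    rw [h3, h4]
  · have hX : (X : R'[X]) = C ((l⁻¹ : R'ˣ) : R') * sc φ (l : R') X := by
      rw [sc_X, ← mul_assoc, ← map_mul]; simp
    rw [hX, map_mul, map_mul, h1, h2, h3, h4]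

/-- The homomorphism of coordinate rings over `φ` with `X ↦ l X`. -/
noncomputable def R4.scHom (φ : R →+* R') (l : R') {d : Dat R[X]} {d' : Dat R'[X]}
    (m : Chg (d.map (sc φ l)) d') : R4 d →+* R4 d' :=
  m.hom.comp (R4.can _ d)

section

variable (φ : R →+* R') (l : R') {d : Dat R[X]} {d' : Dat R'[X]} (m : Chg (d.map (sc φ l)) d')

@[simp] theorem R4.scHom_algebraMap (p : R[X]) : R4.scHom φ l m (algebraMap R[X] _ p) =
    algebraMap _ _ (sc φ l p) := by simp [R4.scHom]

@[simp] theorem R4.scHom_Y : R4.scHom φ l m (R4.Y _) = algebraMap _ _ m.τ * R4.Y _ := by simp [R4.scHom]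

@[simp] theorem R4.scHom_E : R4.scHom φ l m (R4.E _) = algebraMap _ _ m.p * R4.E _ +
    algebraMap _ _ m.q * R4.F _ := by simp [R4.scHom]

@[simp] theorem R4.scHom_F : R4.scHom φ l m (R4.F _) = algebraMap _ _ m.r * R4.E _ +
    algebraMap _ _ m.s * R4.F _ := by simp [R4.scHom]

end

theorem R4.scHom_isPushout (φ : R →+* R') (l : R'ˣ) {d : Dat R[X]} {d' : Dat R'[X]}
    (m : Chg (d.map (sc φ (l : R'))) d') :
    IsPushout (CommRingCat.ofHom (R4.base d)) (CommRingCat.ofHom φ)
      (CommRingCat.ofHom (R4.scHom φ (l : R') m)) (CommRingCat.ofHom (R4.base d')) := by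
  have h1 := (sc_isPushout φ l).flip.paste_vert
    (R4.can_isPushout (sc φ (l : R')) d).flip
  let e : CommRingCat.of (R4 (d.map (sc φ (l : R')))) ≅
      CommRingCat.of (R4 d') := m.equiv.toCommRingCatIso
  refine h1.flip.of_iso (Iso.refl _) (Iso.refl _) (Iso.refl _) e ?_ ?_ ?_ ?_
  · simp only [Iso.refl_hom, Category.comp_id, Category.id_comp]
    rfl
  · simp only [Iso.refl_hom, Category.comp_id, Category.id_comp]
  · simp only [Iso.refl_hom, Category.id_comp]
    rfl
  · simp only [Iso.refl_hom, Category.id_comp]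
    apply CommRingCat.hom_ext
    apply RingHom.ext
    intro r
    exact m.hom_algebraMap _

namespace Glu

/-- A morphism of gluing data over `φ : R → R'` with `u ↦ l u`, `v ↦ l⁻¹ v`. -/
structure Hom (φ : R →+* R') (l : R'ˣ) (G : Glu R) (G' : Glu R') where
  m : Chg (G.d.map (sc φ (l : R'))) G'.d
  m' : Chg (G.d'.map (sc φ ((l⁻¹ : R'ˣ) : R'))) G'.d'
  hτ : scL φ l G.c.τ * toLaurent m.τ = toLaurentInv m'.τ * G'.c.τ
  hp : scL φ l G.c.p * toLaurent m.p + scL φ l G.c.q * toLaurent m.r =
    toLaurentInv m'.p * G'.c.p + toLaurentInv m'.q * G'.c.r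
  hq : scL φ l G.c.p * toLaurent m.q + scL φ l G.c.q * toLaurent m.s =
    toLaurentInv m'.p * G'.c.q + toLaurentInv m'.q * G'.c.s
  hr : scL φ l G.c.r * toLaurent m.p + scL φ l G.c.s * toLaurent m.r =
    toLaurentInv m'.r * G'.c.p + toLaurentInv m'.s * G'.c.r
  hs : scL φ l G.c.r * toLaurent m.q + scL φ l G.c.s * toLaurent m.s =
    toLaurentInv m'.r * G'.c.q + toLaurentInv m'.s * G'.c.s

namespace Hom

variable {φ : R →+* R'} {l : R'ˣ} {G : Glu R} {G' : Glu R'} (H : Hom φ l G G')

/-- The change of basis on the overlap. -/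
noncomputable def mL : Chg ((G.d.map toLaurent).map (scL φ l)) (G'.d.map toLaurent) where
  τ := toLaurent H.m.τ
  τ' := toLaurent H.m.τ'
  hτ := by rw [← map_mul, H.m.hτ, map_one]
  p := toLaurent H.m.p
  q := toLaurent H.m.q
  r := toLaurent H.m.r
  s := toLaurent H.m.s
  δ := toLaurent H.m.δ
  hδ := by
    have := congrArg (toLaurent : R'[X] →+* _) H.m.hδ
    simpa only [map_mul, map_sub, map_one] using this
  hb₁ := by
    have := congrArg (toLaurent : R'[X] →+* _) H.m.hb₁
    simpa only [Dat.map, map_mul, map_add, map_pow, map_ofNat, ← scL_toLaurent] using this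
  hb₂ := by
    have := congrArg (toLaurent : R'[X] →+* _) H.m.hb₂
    simpa only [Dat.map, map_mul, map_add, map_pow, map_ofNat, ← scL_toLaurent] using this
  hb₃ := by
    have := congrArg (toLaurent : R'[X] →+* _) H.m.hb₃
    simpa only [Dat.map, map_mul, map_add, map_pow, map_ofNat, ← scL_toLaurent] using this
  ha₁ := by
    have := congrArg (toLaurent : R'[X] →+* _) H.m.ha₁
    simpa only [Dat.map, map_mul, map_add, map_sub, ← scL_toLaurent] using this
  hc₁ := by
    have := congrArg (toLaurent : R'[X] →+* _) H.m.hc₁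
    simpa only [Dat.map, map_mul, map_add, map_sub, ← scL_toLaurent] using this
  ha₂ := by
    have := congrArg (toLaurent : R'[X] →+* _) H.m.ha₂
    simpa only [Dat.map, map_mul, map_add, map_sub, ← scL_toLaurent] using this
  hc₂ := by
    have := congrArg (toLaurent : R'[X] →+* _) H.m.hc₂
    simpa only [Dat.map, map_mul, map_add, map_sub, ← scL_toLaurent] using this

/-- The homomorphism on the overlap. -/
noncomputable def cHom : R4 (G.d.map toLaurent) →+* R4 (G'.d.map toLaurent) :=
  H.mL.hom.comp (R4.can (scL φ l) _)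

theorem cHom_iHom : H.cHom.comp G.iHom = G'.iHom.comp (R4.scHom φ (l : R') H.m) := by
  apply R4.hom_ext
  · apply RingHom.ext
    intro p
    simp only [RingHom.comp_apply, iHom_algebraMap, cHom, R4.can_algebraMap, Chg.hom_algebraMap,
      R4.scHom_algebraMap, scL_toLaurent]
  · simp only [RingHom.comp_apply, iHom_Y, cHom, R4.can_Y, Chg.hom_Y, R4.scHom_Y, map_mul,
      iHom_algebraMap, mL]
  · simp only [RingHom.comp_apply, iHom_E, cHom, R4.can_E, Chg.hom_E, R4.scHom_E, map_mul, map_add,
      iHom_algebraMap, iHom_F, mL]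
  · simp only [RingHom.comp_apply, iHom_F, cHom, R4.can_F, Chg.hom_F, R4.scHom_F, map_mul, map_add,
      iHom_algebraMap, iHom_E, mL]

theorem cHom_jHom :
    H.cHom.comp G.jHom = G'.jHom.comp (R4.scHom φ ((l⁻¹ : R'ˣ) : R') H.m') := by
  apply R4.hom_ext
  · apply RingHom.ext
    intro p
    simp only [RingHom.comp_apply, jHom_algebraMap, cHom, R4.can_algebraMap, Chg.hom_algebraMap,
      R4.scHom_algebraMap, scL_toLaurentInv]
  · simp only [RingHom.comp_apply, jHom_Y, cHom, R4.can_Y, Chg.hom_Y, R4.scHom_Y, map_mul,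
      jHom_algebraMap, R4.can_algebraMap, Chg.hom_algebraMap, mL]
    rw [← mul_assoc, ← map_mul, ← mul_assoc, ← map_mul, H.hτ]
  · have h1 := congrArg (algebraMap _ (R4 (G'.d.map toLaurent))) H.hp
    have h2 := congrArg (algebraMap _ (R4 (G'.d.map toLaurent))) H.hq
    simp only [map_add, map_mul] at h1 h2
    simp only [RingHom.comp_apply, jHom_E, jHom_F, cHom, R4.can_E, R4.can_F, Chg.hom_E,
      Chg.hom_F, R4.scHom_E, map_mul, map_add, jHom_algebraMap, R4.can_algebraMap,
      Chg.hom_algebraMap, mL]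
    linear_combination (R4.E (G'.d.map toLaurent)) * h1 + (R4.F (G'.d.map toLaurent)) * h2
  · have h1 := congrArg (algebraMap _ (R4 (G'.d.map toLaurent))) H.hr
    have h2 := congrArg (algebraMap _ (R4 (G'.d.map toLaurent))) H.hs
    simp only [map_add, map_mul] at h1 h2
    simp only [RingHom.comp_apply, jHom_E, jHom_F, cHom, R4.can_E, R4.can_F, Chg.hom_E,
      Chg.hom_F, R4.scHom_F, map_mul, map_add, jHom_algebraMap, R4.can_algebraMap,
      Chg.hom_algebraMap, mL]
    linear_combination (R4.E (G'.d.map toLaurent)) * h1 + (R4.F (G'.d.map toLaurent)) * h2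

/-- The morphism of curves. -/
noncomputable def map : G'.curve.X ⟶ G.curve.X :=
  G.curve.map G'.curve (CommRingCat.ofHom (R4.scHom φ (l : R') H.m))
    (CommRingCat.ofHom (R4.scHom φ ((l⁻¹ : R'ˣ) : R') H.m')) (CommRingCat.ofHom H.cHom)
    (congrArg CommRingCat.ofHom H.cHom_iHom) (congrArg CommRingCat.ofHom H.cHom_jHom)

theorem isPullback : IsPullback H.map G'.curve.toSpec G.curve.toSpec
    (Spec.map (CommRingCat.ofHom φ)) := by
  refine TwoCharts.isPullback_map _ _ _ _ _ _ _ _ (R4.scHom_isPushout φ l H.m)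
    (R4.scHom_isPushout φ l⁻¹ H.m') ?_ ?_
  · refine ⟨algebraMap R'[X] (R4 G'.d) (C (l : R')), ?_⟩
    change R4.scHom φ (l : R') H.m (algebraMap R[X] _ X) = _
    rw [R4.scHom_algebraMap, sc_X, map_mul, mul_comm]
    rfl
  · refine ⟨algebraMap R'[X] (R4 G'.d') (C ((l⁻¹ : R'ˣ) : R')), ?_⟩
    change R4.scHom φ _ H.m' (algebraMap R[X] _ X) = _
    rw [R4.scHom_algebraMap, sc_X, map_mul, mul_comm]
    rfl

end Hom

/-- The identity change of basis. -/
def _root_.Pool.Agent.Work.MP_2eb777_ag.Chg.refl {S : Type} [CommRing S] (d : Dat S) :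
    Chg d d where
  τ := 1
  τ' := 1
  hτ := one_mul 1
  p := 1
  q := 0
  r := 0
  s := 1
  δ := 1
  hδ := by ring
  hb₁ := by ring
  hb₂ := by ring
  hb₃ := by ring
  ha₁ := by ring
  hc₁ := by ring
  ha₂ := by ring
  hc₂ := by ring

/-- Extension of scalars. -/
noncomputable def map (φ : R →+* R') (G : Glu R) : Glu R' where
  d := G.d.map (sc φ ((1 : R'ˣ) : R'))
  d' := G.d'.map (sc φ (((1 : R'ˣ)⁻¹ : R'ˣ) : R'))
  c :=
    { τ := scL φ 1 G.c.τ
      τ' := scL φ 1 G.c.τ'
      hτ := by rw [← map_mul, G.c.hτ, map_one]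
      p := scL φ 1 G.c.p
      q := scL φ 1 G.c.q
      r := scL φ 1 G.c.r
      s := scL φ 1 G.c.s
      δ := scL φ 1 G.c.δ
      hδ := by
        have := congrArg (scL φ 1) G.c.hδ
        simpa only [map_mul, map_sub, map_one] using this
      hb₁ := by
        have := congrArg (scL φ 1) G.c.hb₁
        simpa only [Dat.map, map_mul, map_add, map_pow, map_ofNat, scL_toLaurent,
          scL_toLaurentInv] using this
      hb₂ := by
        have := congrArg (scL φ 1) G.c.hb₂
        simpa only [Dat.map, map_mul, map_add, map_pow, map_ofNat, scL_toLaurent,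
          scL_toLaurentInv] using this
      hb₃ := by
        have := congrArg (scL φ 1) G.c.hb₃
        simpa only [Dat.map, map_mul, map_add, map_pow, map_ofNat, scL_toLaurent,
          scL_toLaurentInv] using this
      ha₁ := by
        have := congrArg (scL φ 1) G.c.ha₁
        simpa only [Dat.map, map_mul, map_add, map_sub, scL_toLaurent,
          scL_toLaurentInv] using this
      hc₁ := by
        have := congrArg (scL φ 1) G.c.hc₁
        simpa only [Dat.map, map_mul, map_add, map_sub, scL_toLaurent,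
          scL_toLaurentInv] using this
      ha₂ := by
        have := congrArg (scL φ 1) G.c.ha₂
        simpa only [Dat.map, map_mul, map_add, map_sub, scL_toLaurent,
          scL_toLaurentInv] using this
      hc₂ := by
        have := congrArg (scL φ 1) G.c.hc₂
        simpa only [Dat.map, map_mul, map_add, map_sub, scL_toLaurent,
          scL_toLaurentInv] using this }

/-- The canonical morphism from the extension of scalars. -/
noncomputable def toMap (φ : R →+* R') (G : Glu R) : Hom φ 1 G (G.map φ) where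
  m := Chg.refl _
  m' := Chg.refl _
  hτ := by simp [Chg.refl, map]
  hp := by simp [Chg.refl, map]
  hq := by simp [Chg.refl, map]
  hr := by simp [Chg.refl, map]
  hs := by simp [Chg.refl, map]

end Glu

end Pool.Agent.Work.MP_2eb777_ag
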