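import Mathlib

set_option autoImplicit false

open CategoryTheory CategoryTheory.Limits AlgebraicGeometry Polynomial

namespace Pool.Agent.Work.MP_2eb777_ag

/-- Gluing of morphisms along an open cover by two pieces. -/
theorem glue_two {Z U V W M : Scheme.{0}} (a : U ⟶ Z) (b : V ⟶ Z) [IsOpenImmersion a]
    [IsOpenImmersion b] (hab : ∀ z : Z, (∃ u, a u = z) ∨ ∃ v, b v = z) (p : W ⟶ U) (q : W ⟶ V)
    (hpb : IsPullback p q a b) (f : U ⟶ M) (g : V ⟶ M) (hfg : p ≫ f = q ≫ g) :
    ∃ h : Z ⟶ M, a ≫ h = f ∧ b ≫ h = g := by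
  let 𝒰 : Scheme.OpenCover.{0} Z :=
    Scheme.Cover.mkOfCovers Bool (fun t => cond t U V)
      (fun t => match t with | true => a | false => b)
      (fun z => by
        rcases hab z with ⟨u, hu⟩ | ⟨v, hv⟩
        · exact ⟨true, u, hu⟩
        · exact ⟨false, v, hv⟩)
      (fun t => by cases t <;> infer_instance)
  let φ : ∀ t : 𝒰.I₀, 𝒰.X t ⟶ M := fun t => match t with | true => f | false => g
  have hsymm : ∀ {A B : Scheme.{0}} (c : A ⟶ Z) (d : B ⟶ Z) (γ : A ⟶ M) (δ : B ⟶ M),
      pullback.fst c d ≫ γ = pullback.snd c d ≫ δ → pullback.fst d c ≫ δ = pullback.snd d c ≫ γ := by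
    intro A B c d γ δ h
    rw [← cancel_epi (pullbackSymmetry c d).hom]
    rw [← Category.assoc, pullbackSymmetry_hom_comp_fst, ← Category.assoc,
      pullbackSymmetry_hom_comp_snd, h]
  have hmono : ∀ {A : Scheme.{0}} (c : A ⟶ Z) [IsOpenImmersion c] (γ : A ⟶ M),
      pullback.fst c c ≫ γ = pullback.snd c c ≫ γ := by
    intro A c _ γ
    have h : pullback.fst c c = pullback.snd c c := (cancel_mono c).1 pullback.condition
    rw [h]
  have h12 : pullback.fst a b ≫ f = pullback.snd a b ≫ g := by
    rw [← cancel_epi hpb.isoPullback.hom, ← Category.assoc, ← Category.assoc,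
      hpb.isoPullback_hom_fst, hpb.isoPullback_hom_snd, hfg]
  have hφ : ∀ x y, pullback.fst (𝒰.f x) (𝒰.f y) ≫ φ x = pullback.snd (𝒰.f x) (𝒰.f y) ≫ φ y := by
    rintro (_ | _) (_ | _)
    · exact hmono b g
    · exact hsymm a b f g h12
    · exact h12
    · exact hmono a f
  exact ⟨𝒰.glueMorphisms φ hφ, 𝒰.ι_glueMorphisms φ hφ true, 𝒰.ι_glueMorphisms φ hφ false⟩

/-- Gluing of morphisms on an affine scheme covered by two basic open subsets. -/
theorem glue_spec {A B C D : Type} [CommRing A] [CommRing B] [CommRing C] [CommRing D]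
    (i : A →+* B) (j : A →+* C) (k : B →+* D) (l : C →+* D) (s t : A)
    (hi : @IsLocalization.Away _ _ s B _ i.toAlgebra)
    (hj : @IsLocalization.Away _ _ t C _ j.toAlgebra)
    (hl : @IsLocalization.Away _ _ (j s) D _ l.toAlgebra) (hkl : k.comp i = l.comp j)
    (hst : Ideal.span {s, t} = ⊤) {M : Scheme.{0}} (f : Spec (.of B) ⟶ M)
    (g : Spec (.of C) ⟶ M)
    (hfg : Spec.map (CommRingCat.ofHom k) ≫ f = Spec.map (CommRingCat.ofHom l) ≫ g) :
    ∃ h : Spec (.of A) ⟶ M, Spec.map (CommRingCat.ofHom i) ≫ h = f ∧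
      Spec.map (CommRingCat.ofHom j) ≫ h = g := by
  have h1 : IsOpenImmersion (Spec.map (CommRingCat.ofHom i)) := by
    let := i.toAlgebra
    exact IsOpenImmersion.of_isLocalization s
  have h2 : IsOpenImmersion (Spec.map (CommRingCat.ofHom j)) := by
    let := j.toAlgebra
    exact IsOpenImmersion.of_isLocalization t
  have r1 : Set.range (Spec.map (CommRingCat.ofHom i)) =
      (PrimeSpectrum.basicOpen s : Set (PrimeSpectrum A)) := by
    let := i.toAlgebra
    exact PrimeSpectrum.localization_away_comap_range B s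
  have r2 : Set.range (Spec.map (CommRingCat.ofHom j)) =
      (PrimeSpectrum.basicOpen t : Set (PrimeSpectrum A)) := by
    let := j.toAlgebra
    exact PrimeSpectrum.localization_away_comap_range C t
  have hpb : IsPullback (Spec.map (CommRingCat.ofHom k)) (Spec.map (CommRingCat.ofHom l))
      (Spec.map (CommRingCat.ofHom i)) (Spec.map (CommRingCat.ofHom j)) := by
    refine isPullback_SpecMap_of_isPushout _ _ _ _ (IsPushout.flip ?_)
    let := i.toAlgebra
    let := l.toAlgebra
    have h3 : IsLocalization ((Submonoid.powers s).map j) D := by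
      rw [Submonoid.map_powers]
      exact hl
    exact CommRingCat.isPushout_of_isLocalization j k hkl (Submonoid.powers s)
  refine glue_two _ _ ?_ _ _ hpb f g hfg
  intro z
  by_cases hz : s ∈ z.asIdeal
  · right
    have h3 : z ∈ Set.range (Spec.map (CommRingCat.ofHom j)) := by
      rw [r2]
      intro h4
      apply z.isPrime.ne_top
      rw [eq_top_iff, ← hst, Ideal.span_le]
      rintro x (rfl | rfl)
      · exact hz
      · exact h4
    exact h3
  · left
    have h3 : z ∈ Set.range (Spec.map (CommRingCat.ofHom i)) := by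
      rw [r1]
      exact hz
    exact h3

end Pool.Agent.Work.MP_2eb777_ag
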