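import Pool.Agent.Work.MP_2eb777_ag.Q1.Alg
import Pool.Agent.Work.MP_2eb777_ag.BaseChange

set_option autoImplicit false

open CategoryTheory CategoryTheory.Limits AlgebraicGeometry Polynomial

namespace Pool.Agent.Work.MP_2eb777_ag

namespace R4

variable {S S' T : Type} [CommRing S] [CommRing S'] [CommRing T]

/-- The canonical homomorphism to the algebra with extended scalars. -/
def can (φ : S →+* S') (d : Dat S) : R4 d →+* R4 (d.map φ) :=
  lift ((algebraMap S' (R4 (d.map φ))).comp φ) (Y _) (E _) (F _)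
    { yy := by rw [Y_mul_Y]; simp
      ye := by rw [Y_mul_E]; simp
      yf := by rw [Y_mul_F]; simp
      ee := by rw [E_mul_E]; simp
      ef := by rw [E_mul_F]; simp
      ff := by rw [F_mul_F]; simp }

section

variable (φ : S →+* S') (d : Dat S)

@[simp] theorem can_algebraMap (s : S) :
    can φ d (algebraMap S (R4 d) s) = algebraMap S' _ (φ s) := by
  simp [can]

@[simp] theorem can_Y : can φ d (Y d) = Y _ := by simp [can]
@[simp] theorem can_E : can φ d (E d) = E _ := by simp [can]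
@[simp] theorem can_F : can φ d (F d) = F _ := by simp [can]

theorem can_apply (s : R4 d) : can φ d s = ⟨φ s.z, φ s.y, φ s.e, φ s.f⟩ := by
  conv_lhs => rw [eq_sum s]
  simp only [map_add, map_mul, can_algebraMap, can_Y, can_E, can_F]
  exact (eq_sum (⟨φ s.z, φ s.y, φ s.e, φ s.f⟩ : R4 (d.map φ))).symm

theorem can_isLocalization (s : S) (hs : @IsLocalization.Away _ _ s S' _ φ.toAlgebra) :
    @IsLocalization.Away _ _ (algebraMap S (R4 d) s) (R4 (d.map φ)) _ (can φ d).toAlgebra := by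
  let := φ.toAlgebra
  let := (can φ d).toAlgebra
  have hφ : ∀ z, algebraMap S S' z = φ z := fun z => rfl
  have hq : ∀ z, algebraMap (R4 d) (R4 (d.map φ)) z = can φ d z := fun z => rfl
  have hmul : ∀ (t : S) (z : R4 d), algebraMap S (R4 d) t * z = t • z := fun t z =>
    (Algebra.smul_def t z).symm
  have hmul' : ∀ (t : S') (z : R4 (d.map φ)), z * algebraMap S' (R4 (d.map φ)) t = t • z :=
    fun t z => by rw [mul_comm, Algebra.smul_def]
  refine ⟨?_, ?_, ?_⟩
  · rintro ⟨_, n, rfl⟩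
    simp only [hq, map_pow, can_algebraMap]
    exact ((IsLocalization.Away.algebraMap_isUnit (S := S') s).map
      (algebraMap S' (R4 (d.map φ)))).pow n
  · intro z
    obtain ⟨n₁, p₁, h₁⟩ := IsLocalization.Away.surj s z.z
    obtain ⟨n₂, p₂, h₂⟩ := IsLocalization.Away.surj s z.y
    obtain ⟨n₃, p₃, h₃⟩ := IsLocalization.Away.surj s z.e
    obtain ⟨n₄, p₄, h₄⟩ := IsLocalization.Away.surj s z.f
    simp only [hφ] at h₁ h₂ h₃ h₄
    refine ⟨(⟨p₁ * s ^ (n₂ + n₃ + n₄), p₂ * s ^ (n₁ + n₃ + n₄), p₃ * s ^ (n₁ + n₂ + n₄),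
      p₄ * s ^ (n₁ + n₂ + n₃)⟩,
      ⟨algebraMap S (R4 d) s ^ (n₁ + n₂ + n₃ + n₄), n₁ + n₂ + n₃ + n₄, rfl⟩), ?_⟩
    simp only [hq]
    rw [← map_pow, can_algebraMap, hmul', can_apply]
    ext
    · simp only [smul_z, map_mul, map_pow, ← h₁]; ring
    · simp only [smul_y, map_mul, map_pow, ← h₂]; ring
    · simp only [smul_e, map_mul, map_pow, ← h₃]; ring
    · simp only [smul_f, map_mul, map_pow, ← h₄]; ring
  · intro z z' hz
    rw [hq, hq, can_apply, can_apply] at hz
    have g₁ : φ z.z = φ z'.z := congrArg R4.z hz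
    have g₂ : φ z.y = φ z'.y := congrArg R4.y hz
    have g₃ : φ z.e = φ z'.e := congrArg R4.e hz
    have g₄ : φ z.f = φ z'.f := congrArg R4.f hz
    obtain ⟨⟨_, n₁, rfl⟩, h₁⟩ := IsLocalization.exists_of_eq (M := Submonoid.powers s) (S := S') g₁
    obtain ⟨⟨_, n₂, rfl⟩, h₂⟩ := IsLocalization.exists_of_eq (M := Submonoid.powers s) (S := S') g₂
    obtain ⟨⟨_, n₃, rfl⟩, h₃⟩ := IsLocalization.exists_of_eq (M := Submonoid.powers s) (S := S') g₃
    obtain ⟨⟨_, n₄, rfl⟩, h₄⟩ := IsLocalization.exists_of_eq (M := Submonoid.powers s) (S := S') g₄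
    refine ⟨⟨algebraMap S (R4 d) s ^ (n₁ + n₂ + n₃ + n₄), n₁ + n₂ + n₃ + n₄, rfl⟩, ?_⟩
    simp only at h₁ h₂ h₃ h₄ ⊢
    rw [← map_pow, hmul, hmul]
    ext
    · simp only [smul_z, pow_add]; linear_combination (s ^ n₂ * s ^ n₃ * s ^ n₄) * h₁
    · simp only [smul_y, pow_add]; linear_combination (s ^ n₁ * s ^ n₃ * s ^ n₄) * h₂
    · simp only [smul_e, pow_add]; linear_combination (s ^ n₁ * s ^ n₂ * s ^ n₄) * h₃
    · simp only [smul_f, pow_add]; linear_combination (s ^ n₁ * s ^ n₂ * s ^ n₃) * h₄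

theorem can_isPushout : IsPushout (CommRingCat.ofHom (algebraMap S (R4 d)))
    (CommRingCat.ofHom φ) (CommRingCat.ofHom (can φ d))
    (CommRingCat.ofHom (algebraMap S' (R4 (d.map φ)))) := by
  have hcomm : (can φ d).comp (algebraMap S (R4 d)) =
      (algebraMap S' (R4 (d.map φ))).comp φ := by
    apply RingHom.ext
    intro r
    simp
  have key : ∀ s : PushoutCocone (CommRingCat.ofHom (algebraMap S (R4 d)))
      (CommRingCat.ofHom φ), ∃ δ : CommRingCat.of (R4 (d.map φ)) ⟶ s.pt,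
      CommRingCat.ofHom (can φ d) ≫ δ = s.inl ∧
      CommRingCat.ofHom (algebraMap S' (R4 (d.map φ))) ≫ δ = s.inr := by
    intro s
    let p : R4 d →+* s.pt := s.inl.hom
    let q : S' →+* s.pt := s.inr.hom
    have hpq : p.comp (algebraMap S (R4 d)) = q.comp φ := congrArg CommRingCat.Hom.hom s.condition
    have hpq' : ∀ r, p (algebraMap S (R4 d) r) = q (φ r) := fun r =>
      congrArg (fun g : S →+* s.pt => g r) hpq
    let δ : R4 (d.map φ) →+* s.pt := lift q (p (Y d)) (p (E d)) (p (F d))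
      { yy := by rw [← map_mul, Y_mul_Y, hpq']; simp
        ye := by rw [← map_mul, Y_mul_E, map_add, map_mul, map_mul, hpq', hpq']; simp
        yf := by rw [← map_mul, Y_mul_F, map_sub, map_mul, map_mul, hpq', hpq']; simp
        ee := by rw [← map_mul, E_mul_E, map_add, map_mul, hpq', hpq']; simp
        ef := by rw [← map_mul, E_mul_F, map_add, map_mul, hpq', hpq']; simp
        ff := by rw [← map_mul, F_mul_F, map_add, map_mul, hpq', hpq']; simp }
    refine ⟨CommRingCat.ofHom δ, ?_, ?_⟩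
    · apply CommRingCat.hom_ext
      apply hom_ext
      · apply RingHom.ext
        intro r
        change δ (can φ d (algebraMap S (R4 d) r)) = p (algebraMap S (R4 d) r)
        rw [can_algebraMap, hpq']
        simp [δ]
      · change δ (can φ d (Y d)) = p (Y d)
        rw [can_Y]; simp [δ]
      · change δ (can φ d (E d)) = p (E d)
        rw [can_E]; simp [δ]
      · change δ (can φ d (F d)) = p (F d)
        rw [can_F]; simp [δ]
    · apply CommRingCat.hom_ext
      apply RingHom.ext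
      intro r
      change δ (algebraMap S' _ r) = q r
      simp [δ]
  choose δ hd₁ hd₂ using key
  refine ⟨⟨by rw [← CommRingCat.ofHom_comp, ← CommRingCat.ofHom_comp, hcomm]⟩,
    ⟨PushoutCocone.IsColimit.mk _ δ hd₁ hd₂ ?_⟩⟩
  intro s e he₁ he₂
  apply CommRingCat.hom_ext
  have h1 : ∀ z, e.hom (can φ d z) = s.inl.hom z := fun z =>
    congrArg (fun g : CommRingCat.of (R4 d) ⟶ s.pt => g.hom z) he₁
  have h2 : ∀ z, (δ s).hom (can φ d z) = s.inl.hom z := fun z =>
    congrArg (fun g : CommRingCat.of (R4 d) ⟶ s.pt => g.hom z) (hd₁ s)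
  apply hom_ext
  · exact congrArg CommRingCat.Hom.hom (he₂.trans (hd₂ s).symm)
  · rw [← can_Y, h1, h2]
  · rw [← can_E, h1, h2]
  · rw [← can_F, h1, h2]

end

end R4

/-- An invertible change of basis `y ↦ τ y`, `e₁ ↦ p e₁ + q e₂`, `e₂ ↦ r e₁ + s e₂`. -/
structure Chg {S : Type} [CommRing S] (d d' : Dat S) where
  τ : S
  τ' : S
  hτ : τ' * τ = 1
  p : S
  q : S
  r : S
  s : S
  δ : S
  hδ : δ * (p * s - q * r) = 1
  hb₁ : d.b₁ * τ = p ^ 2 * d'.b₁ + 2 * p * q * d'.b₂ + q ^ 2 * d'.b₃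
  hb₂ : d.b₂ * τ = p * r * d'.b₁ + (p * s + q * r) * d'.b₂ + q * s * d'.b₃
  hb₃ : d.b₃ * τ = r ^ 2 * d'.b₁ + 2 * r * s * d'.b₂ + s ^ 2 * d'.b₃
  ha₁ : τ * (p * d'.a + q * d'.b) = d.a * p + d.c * r
  hc₁ : τ * (p * d'.c - q * d'.a) = d.a * q + d.c * s
  ha₂ : τ * (r * d'.a + s * d'.b) = d.b * p - d.a * r
  hc₂ : τ * (r * d'.c - s * d'.a) = d.b * q - d.a * s

namespace Chg

variable {S S' : Type} [CommRing S] [CommRing S'] {d d' : Dat S} (m : Chg d d')

open R4

theorem gg : d.g = m.τ ^ 2 * d'.g := by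
  have h1 := m.ha₁
  have h2 := m.hc₁
  have h3 := m.ha₂
  have h4 := m.hc₂
  unfold Dat.g
  linear_combination m.δ * (m.τ * (m.r * d'.c - m.s * d'.a)) * h1 +
    m.δ * (d.a * m.p + d.c * m.r) * h4 - m.δ * (m.τ * (m.r * d'.a + m.s * d'.b)) * h2 -
    m.δ * (d.a * m.q + d.c * m.s) * h3 -
    (d.a ^ 2 + d.b * d.c - m.τ ^ 2 * (d'.a ^ 2 + d'.b * d'.c)) * m.hδ

theorem A₁_eq : d.A₁ = m.p ^ 2 * d'.A₁ + 2 * m.p * m.q * d'.A₂ + m.q ^ 2 * d'.A₃ := by
  have h1 := m.hτ
  unfold Dat.A₁ Dat.A₂ Dat.A₃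
  linear_combination m.τ' * d.a * m.hb₁ + m.τ' * d.c * m.hb₂ -
    m.τ' * (m.p * d'.b₁ + m.q * d'.b₂) * m.ha₁ - m.τ' * (m.p * d'.b₂ + m.q * d'.b₃) * m.hc₁ +
    m.τ' * m.τ * m.p * m.q * d'.rel - (d.a * d.b₁ + d.c * d.b₂ - m.p ^ 2 *
      (d'.a * d'.b₁ + d'.c * d'.b₂) - 2 * m.p * m.q * (d'.a * d'.b₂ + d'.c * d'.b₃) -
      m.q ^ 2 * (d'.b * d'.b₂ - d'.a * d'.b₃)) * h1

theorem A₂_eq : d.A₂ = m.p * m.r * d'.A₁ + (m.p * m.s + m.q * m.r) * d'.A₂ +
    m.q * m.s * d'.A₃ := by
  have h1 := m.hτ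
  unfold Dat.A₁ Dat.A₂ Dat.A₃
  linear_combination m.τ' * d.a * m.hb₂ + m.τ' * d.c * m.hb₃ -
    m.τ' * (m.r * d'.b₁ + m.s * d'.b₂) * m.ha₁ - m.τ' * (m.r * d'.b₂ + m.s * d'.b₃) * m.hc₁ +
    m.τ' * m.τ * m.q * m.r * d'.rel - (d.a * d.b₂ + d.c * d.b₃ - m.p * m.r *
      (d'.a * d'.b₁ + d'.c * d'.b₂) - (m.p * m.s + m.q * m.r) * (d'.a * d'.b₂ + d'.c * d'.b₃) -
      m.q * m.s * (d'.b * d'.b₂ - d'.a * d'.b₃)) * h1

theorem A₃_eq : d.A₃ = m.r ^ 2 * d'.A₁ + 2 * m.r * m.s * d'.A₂ + m.s ^ 2 * d'.A₃ := by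
  have h1 := m.hτ
  unfold Dat.A₁ Dat.A₂ Dat.A₃
  linear_combination m.τ' * d.b * m.hb₂ - m.τ' * d.a * m.hb₃ -
    m.τ' * (m.r * d'.b₁ + m.s * d'.b₂) * m.ha₂ - m.τ' * (m.r * d'.b₂ + m.s * d'.b₃) * m.hc₂ +
    m.τ' * m.τ * m.r * m.s * d'.rel - (d.b * d.b₂ - d.a * d.b₃ - m.r ^ 2 *
      (d'.a * d'.b₁ + d'.c * d'.b₂) - 2 * m.r * m.s * (d'.a * d'.b₂ + d'.c * d'.b₃) -
      m.s ^ 2 * (d'.b * d'.b₂ - d'.a * d'.b₃)) * h1

/-- The homomorphism. -/
def hom : R4 d →+* R4 d' :=
  lift (algebraMap S (R4 d')) (algebraMap S (R4 d') m.τ * Y d')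
    (algebraMap S (R4 d') m.p * E d' + algebraMap S (R4 d') m.q * F d')
    (algebraMap S (R4 d') m.r * E d' + algebraMap S (R4 d') m.s * F d')
    { yy := by
        have := congrArg (algebraMap S (R4 d')) m.gg
        simp only [map_mul, map_pow] at this
        rw [this]
        linear_combination (algebraMap S (R4 d') m.τ) ^ 2 * Y_mul_Y (d := d')
      ye := by
        have h1 := congrArg (algebraMap S (R4 d')) m.ha₁
        have h2 := congrArg (algebraMap S (R4 d')) m.hc₁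
        simp only [map_mul, map_add, map_sub] at h1 h2
        linear_combination algebraMap S (R4 d') m.τ * algebraMap S (R4 d') m.p * Y_mul_E (d := d') +
          algebraMap S (R4 d') m.τ * algebraMap S (R4 d') m.q * Y_mul_F (d := d') + E d' * h1 +
          F d' * h2
      yf := by
        have h1 := congrArg (algebraMap S (R4 d')) m.ha₂
        have h2 := congrArg (algebraMap S (R4 d')) m.hc₂
        simp only [map_mul, map_add, map_sub] at h1 h2
        linear_combination algebraMap S (R4 d') m.τ * algebraMap S (R4 d') m.r * Y_mul_E (d := d') +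
          algebraMap S (R4 d') m.τ * algebraMap S (R4 d') m.s * Y_mul_F (d := d') + E d' * h1 +
          F d' * h2
      ee := by
        have h1 := congrArg (algebraMap S (R4 d')) m.hb₁
        have h2 := congrArg (algebraMap S (R4 d')) m.A₁_eq
        simp only [map_mul, map_add, map_pow, map_ofNat] at h1 h2
        linear_combination algebraMap S (R4 d') m.p ^ 2 * E_mul_E (d := d') +
          2 * algebraMap S (R4 d') m.p * algebraMap S (R4 d') m.q * E_mul_F (d := d') +
          algebraMap S (R4 d') m.q ^ 2 * F_mul_F (d := d') - Y d' * h1 - h2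
      ef := by
        have h1 := congrArg (algebraMap S (R4 d')) m.hb₂
        have h2 := congrArg (algebraMap S (R4 d')) m.A₂_eq
        simp only [map_mul, map_add] at h1 h2
        linear_combination algebraMap S (R4 d') m.p * algebraMap S (R4 d') m.r *
          E_mul_E (d := d') +
          (algebraMap S (R4 d') m.p * algebraMap S (R4 d') m.s + algebraMap S (R4 d') m.q *
            algebraMap S (R4 d') m.r) * E_mul_F (d := d') +
          algebraMap S (R4 d') m.q * algebraMap S (R4 d') m.s * F_mul_F (d := d') - Y d' * h1 - h2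
      ff := by
        have h1 := congrArg (algebraMap S (R4 d')) m.hb₃
        have h2 := congrArg (algebraMap S (R4 d')) m.A₃_eq
        simp only [map_mul, map_add, map_pow, map_ofNat] at h1 h2
        linear_combination algebraMap S (R4 d') m.r ^ 2 * E_mul_E (d := d') +
          2 * algebraMap S (R4 d') m.r * algebraMap S (R4 d') m.s * E_mul_F (d := d') +
          algebraMap S (R4 d') m.s ^ 2 * F_mul_F (d := d') - Y d' * h1 - h2 }

@[simp] theorem hom_algebraMap (s : S) : m.hom (algebraMap S (R4 d) s) = algebraMap S (R4 d') s := by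
  simp [hom]

@[simp] theorem hom_Y : m.hom (Y d) = algebraMap S (R4 d') m.τ * Y d' := by simp [hom]
@[simp] theorem hom_E : m.hom (E d) = algebraMap S (R4 d') m.p * E d' +
    algebraMap S (R4 d') m.q * F d' := by simp [hom]
@[simp] theorem hom_F : m.hom (F d) = algebraMap S (R4 d') m.r * E d' +
    algebraMap S (R4 d') m.s * F d' := by simp [hom]

theorem hom_apply (z : R4 d) : m.hom z =
    ⟨z.z, z.y * m.τ, z.e * m.p + z.f * m.r, z.e * m.q + z.f * m.s⟩ := by
  conv_lhs => rw [eq_sum z]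
  simp only [map_add, map_mul, hom_algebraMap, hom_Y, hom_E, hom_F]
  ext <;> simp [R4.algebraMap_eq, Y, E, F]

theorem hom_bijective : Function.Bijective m.hom := by
  constructor
  · intro z z' h
    rw [hom_apply, hom_apply] at h
    have h1 := congrArg R4.z h
    have h2 := congrArg R4.y h
    have h3 := congrArg R4.e h
    have h4 := congrArg R4.f h
    simp only at h1 h2 h3 h4
    ext
    · exact h1
    · linear_combination m.τ' * h2 - (z.y - z'.y) * m.hτ
    · linear_combination m.δ * m.s * h3 - m.δ * m.r * h4 - (z.e - z'.e) * m.hδ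
    · linear_combination m.δ * m.p * h4 - m.δ * m.q * h3 - (z.f - z'.f) * m.hδ
  · intro z
    refine ⟨⟨z.z, z.y * m.τ', m.δ * (m.s * z.e - m.r * z.f), m.δ * (m.p * z.f - m.q * z.e)⟩, ?_⟩
    rw [hom_apply]
    ext
    · rfl
    · simp only; linear_combination z.y * m.hτ
    · simp only; linear_combination z.e * m.hδ
    · simp only; linear_combination z.f * m.hδ

/-- The ring isomorphism. -/
noncomputable def equiv : R4 d ≃+* R4 d' := RingEquiv.ofBijective m.hom m.hom_bijective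

end Chg

end Pool.Agent.Work.MP_2eb777_ag
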