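import Pool.Agent.Work.MP_2eb777_ag.Univ

set_option autoImplicit false

open CategoryTheory CategoryTheory.Limits AlgebraicGeometry Polynomial
open scoped TensorProduct

namespace Pool.Agent.Work.MP_2eb777_ag

/-- The extension of `S` by square roots of `α` and `β`. -/
abbrev K2 {S : Type} [CommRing S] (α β : S) : Type := Kum 2 (algebraMap S (Kum 2 α) β)

namespace K2

section

variable {S : Type} [CommRing S] [Algebra ℂ S] (α β : S)

/-- The structure homomorphism. -/
noncomputable def of : S →+* K2 α β :=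
  (algebraMap (Kum 2 α) (K2 α β)).comp (algebraMap S (Kum 2 α))

/-- The square root of `α`. -/
noncomputable def a : K2 α β := algebraMap (Kum 2 α) (K2 α β) (Kum.y 2 α)

/-- The square root of `β`. -/
noncomputable def b : K2 α β := Kum.y 2 (algebraMap S (Kum 2 α) β)

theorem a_sq : a α β ^ 2 = of α β α := by
  rw [a, ← map_pow, Kum.y_pow]
  rfl

theorem b_sq : b α β ^ 2 = of α β β := by
  rw [b, Kum.y_pow]
  rfl

theorem of_algebraMap (z : ℂ) : of α β (algebraMap ℂ S z) = algebraMap ℂ (K2 α β) z := rfl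

theorem of_comp : (of α β).comp (algebraMap ℂ S) = algebraMap ℂ (K2 α β) := rfl

variable {α β}

theorem hom_ext {T : Type} [CommRing T] {φ ψ : K2 α β →+* T}
    (h : φ.comp (of α β) = ψ.comp (of α β)) (ha : φ (a α β) = ψ (a α β))
    (hb : φ (b α β) = ψ (b α β)) : φ = ψ := by
  apply Kum.hom_ext _ _ _ hb
  apply Kum.hom_ext _ _ _ ha
  exact h

theorem exists_hom {T : Type} [CommRing T] (ρ : S →+* T) (a' b' : T) (ha : a' ^ 2 = ρ α)
    (hb : b' ^ 2 = ρ β) : ∃ φ : K2 α β →+* T, φ.comp (of α β) = ρ ∧ φ (a α β) = a' ∧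
      φ (b α β) = b' := by
  let φ₁ : Kum 2 α →+* T := Kum.lift 2 α ρ a' ha
  have h1 : φ₁ (algebraMap S (Kum 2 α) β) = ρ β := Kum.lift_algebraMap _ _ _ _ _ _
  let φ : K2 α β →+* T := Kum.lift 2 _ φ₁ b' (by rw [h1, hb])
  refine ⟨φ, ?_, ?_, ?_⟩
  · apply RingHom.ext
    intro s
    simp only [RingHom.comp_apply, of, φ, Kum.lift_algebraMap, φ₁]
  · simp only [a, φ, Kum.lift_algebraMap, φ₁, Kum.lift_y]
  · simp only [b, φ, Kum.lift_y]

theorem kum_nontrivial {S : Type} [CommRing S] [Algebra ℂ S] [Nontrivial S] (m : ℕ) (hm : m ≠ 0) (c : S) :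
    Nontrivial (Kum m c) := by
  have h3 := Kum.pb_dim m c hm
  have : Nonempty (Fin (Kum.pb m c hm).dim) := ⟨⟨0, by omega⟩⟩
  exact (Kum.pb m c hm).basis.repr.toEquiv.nontrivial

instance [Nontrivial S] : Nontrivial (K2 α β) := by
  have h1 := kum_nontrivial 2 two_ne_zero α
  exact kum_nontrivial 2 two_ne_zero _

theorem epi [Nontrivial S] : Epi (Spec.map (CommRingCat.ofHom (of α β))) := by
  have h1 := kum_nontrivial 2 two_ne_zero α
  have h2 := kum_epi 2 two_ne_zero α
  have h3 := kum_epi 2 two_ne_zero (algebraMap S (Kum 2 α) β)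
  have h4 : Spec.map (CommRingCat.ofHom (of α β)) =
      Spec.map (CommRingCat.ofHom (algebraMap (Kum 2 α) (K2 α β))) ≫
        Spec.map (CommRingCat.ofHom (algebraMap S (Kum 2 α))) := by
    rw [← Spec.map_comp, ← CommRingCat.ofHom_comp]
    rfl
  rw [h4]
  exact epi_comp _ _

theorem descend [Nontrivial S] (hα : α ∈ nonZeroDivisors S) (hβ : β ∈ nonZeroDivisors S)
    {M : Scheme.{0}} (str : M ⟶ SpecC) [IsSeparated str] (f : Spec (.of (K2 α β)) ⟶ M)
    (hstr : f ≫ str = Spec.map (CommRingCat.ofHom (algebraMap ℂ (K2 α β))))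
    (hinv : ∀ (z w : ℂ), z * z = 1 → w * w = 1 → ∀ φ : K2 α β →+* K2 α β,
      φ.comp (of α β) = of α β → φ (a α β) = algebraMap ℂ (K2 α β) z * a α β →
      φ (b α β) = algebraMap ℂ (K2 α β) w * b α β → Spec.map (CommRingCat.ofHom φ) ≫ f = f) :
    ∃ h : Spec (.of S) ⟶ M, Spec.map (CommRingCat.ofHom (of α β)) ≫ h = f ∧
      h ≫ str = Spec.map (CommRingCat.ofHom (algebraMap ℂ S)) := by
  have hnt := kum_nontrivial 2 two_ne_zero α
  have hβ' : algebraMap S (Kum 2 α) β ∈ nonZeroDivisors (Kum 2 α) :=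
    kum_free 2 two_ne_zero α β hβ
  -- first step
  obtain ⟨f₁, hf₁⟩ : ∃ h : Spec (.of (Kum 2 α)) ⟶ M,
      Spec.map (CommRingCat.ofHom (algebraMap (Kum 2 α) (K2 α β))) ≫ h = f := by
    apply kummer_descend 2 two_ne_zero (algebraMap S (Kum 2 α) β) hβ' str f
      (Spec.map (CommRingCat.ofHom (algebraMap ℂ (Kum 2 α))))
    · rw [hstr, ← Spec.map_comp, ← CommRingCat.ofHom_comp]
      rfl
    · intro w hw
      apply hinv 1 w (one_mul 1) (by rw [← sq, hw])
      · apply RingHom.ext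
        intro s
        exact (Kum.tw 2 (algebraMap S (Kum 2 α) β) w hw).commutes (algebraMap S (Kum 2 α) s)
      · rw [map_one, one_mul]
        exact (Kum.tw 2 (algebraMap S (Kum 2 α) β) w hw).commutes _
      · exact Kum.tw_y _ _ _ _
  have hepi : ∀ {N : Scheme.{0}} (p q : Spec (.of (Kum 2 α)) ⟶ N),
      Spec.map (CommRingCat.ofHom (algebraMap (Kum 2 α) (K2 α β))) ≫ p =
      Spec.map (CommRingCat.ofHom (algebraMap (Kum 2 α) (K2 α β))) ≫ q → p = q := by
    intro N p q hpq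
    have := kum_epi 2 two_ne_zero (algebraMap S (Kum 2 α) β)
    exact (cancel_epi _).1 hpq
  have hepi₀ : ∀ {N : Scheme.{0}} (p q : Spec (.of S) ⟶ N),
      Spec.map (CommRingCat.ofHom (algebraMap S (Kum 2 α))) ≫ p =
      Spec.map (CommRingCat.ofHom (algebraMap S (Kum 2 α))) ≫ q → p = q := by
    intro N p q hpq
    have := kum_epi 2 two_ne_zero α
    exact (cancel_epi _).1 hpq
  have hstr₁ : f₁ ≫ str = Spec.map (CommRingCat.ofHom (algebraMap ℂ (Kum 2 α))) := by
    apply hepi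
    rw [← Category.assoc, hf₁, hstr, ← Spec.map_comp, ← CommRingCat.ofHom_comp]
    rfl
  -- second step
  obtain ⟨h, hh⟩ : ∃ h : Spec (.of S) ⟶ M,
      Spec.map (CommRingCat.ofHom (algebraMap S (Kum 2 α))) ≫ h = f₁ := by
    apply kummer_descend 2 two_ne_zero α hα str f₁
      (Spec.map (CommRingCat.ofHom (algebraMap ℂ S)))
    · rw [hstr₁, ← Spec.map_comp, ← CommRingCat.ofHom_comp]
      rfl
    · intro z hz
      apply hepi
      obtain ⟨φ, hφ₁, hφ₂, hφ₃⟩ := exists_hom (α := α) (β := β) (of α β)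
        (algebraMap ℂ (K2 α β) z * a α β) (b α β)
        (by rw [mul_pow, ← map_pow, hz, map_one, one_mul, a_sq]) (b_sq α β)
      have hφf := hinv z 1 (by rw [← sq, hz]) (one_mul 1) φ hφ₁ hφ₂ (by rw [map_one, one_mul, hφ₃])
      have hcomm : φ.comp (algebraMap (Kum 2 α) (K2 α β)) = (algebraMap (Kum 2 α) (K2 α β)).comp
          (Kum.tw 2 α z hz).toRingHom := by
        apply Kum.hom_ext
        · apply RingHom.ext
          intro s
          have h1 := congrArg (fun χ : S →+* K2 α β => χ s) hφ₁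
          refine Eq.trans h1 ?_
          have h2 := (Kum.tw 2 α z hz).commutes s
          exact (congrArg (algebraMap (Kum 2 α) (K2 α β)) h2).symm
        · change φ (a α β) = algebraMap (Kum 2 α) (K2 α β) (Kum.tw 2 α z hz (Kum.y 2 α))
          rw [Kum.tw_y, map_mul, hφ₂]
          rfl
      rw [← Category.assoc, ← Spec.map_comp, ← CommRingCat.ofHom_comp, ← hcomm,
        CommRingCat.ofHom_comp, Spec.map_comp, Category.assoc, hf₁, hφf]
  refine ⟨h, ?_, ?_⟩
  · rw [of, CommRingCat.ofHom_comp, Spec.map_comp, Category.assoc, hh, hf₁]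
  · apply hepi₀
    rw [← Category.assoc, hh, hstr₁, ← Spec.map_comp, ← CommRingCat.ofHom_comp]
    rfl

end

end K2

end Pool.Agent.Work.MP_2eb777_ag
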