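import Pool.Agent.Work.MP_2eb777_ag.Q1.Overlap

set_option autoImplicit false

open CategoryTheory CategoryTheory.Limits AlgebraicGeometry Polynomial

namespace Pool.Agent.Work.MP_2eb777_ag

/-- A diagonal change of basis with coefficients of square one. -/
def Chg.diag {S : Type} [CommRing S] {d d' : Dat S} (τ p s : S) (hτ : τ * τ = 1) (hp : p * p = 1)
    (hs : s * s = 1) (h1 : d.b₁ * τ = d'.b₁) (h2 : d.b₂ * τ = p * s * d'.b₂)
    (h3 : d.b₃ * τ = d'.b₃) (h4 : τ * d'.a = d.a) (h5 : τ * p * d'.c = s * d.c)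
    (h6 : τ * s * d'.b = p * d.b) : Chg d d' where
  τ := τ
  τ' := τ
  hτ := hτ
  p := p
  q := 0
  r := 0
  s := s
  δ := p * s
  hδ := by linear_combination (s * s) * hp + hs
  hb₁ := by linear_combination h1 - d'.b₁ * hp
  hb₂ := by linear_combination h2
  hb₃ := by linear_combination h3 - d'.b₃ * hs
  ha₁ := by linear_combination p * h4
  hc₁ := by linear_combination h5
  ha₂ := by linear_combination h6
  hc₂ := by linear_combination (-s) * h4

/-- A unit of square one. -/
def sgn {R : Type} [CommRing R] (L : R) (hL : L * L = 1) : Rˣ := ⟨L, L, hL, hL⟩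

section

variable {R R' : Type} [CommRing R] [CommRing R'] (φ : R →+* R')

theorem scL_sgn (L : R') (hL : L * L = 1) : scL φ (sgn L hL) (toLaurentInv (X : R[X])) =
    toLaurent (C L) * toLaurentInv X := by
  rw [scL_toLaurentInv, sc_X, map_mul, toLaurentInv_C]
  rfl

theorem scL_C' (l : R'ˣ) (a : R) : scL φ l (toLaurent (C a)) = toLaurent (C (φ a)) := by
  rw [scL_toLaurent, sc_C]

variable {S : Type} [CommRing S] {x q r i u L ε : S}

section

variable (hL : L * L = 1) (hε : ε * ε = 1)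

include hL in
theorem l₁_sgn : l₁ x (L * q) i (L * u) = l₁ x q i u := by
  simp only [l₁]
  linear_combination (4 * i * (x ^ 3 + 1) * (9 - x ^ 3) * q * u) * hL

include hL in
theorem f₁_sgn : f₁ x (L * q) i (L * u) = f₁ x q i u := by
  have h2 : (L * u) ^ 2 = u ^ 2 := by linear_combination u ^ 2 * hL
  simp only [f₁, h2]
  linear_combination (i * (3 * u ^ 2 - x) * q * x * u) * hL

include hL in
theorem c₁_sgn : c₁ x (L * q) (L * u) = c₁ x q u := by
  have h2 : (L * u) ^ 2 = u ^ 2 := by linear_combination u ^ 2 * hL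
  simp only [c₁, h2]
  linear_combination (-(q * u * (u ^ 2 - x))) * hL

include hL in
theorem g₁_sgn : g₁ x (L * q) i (L * u) = g₁ x q i u := by
  have h2 : (L * u) ^ 2 = u ^ 2 := by linear_combination u ^ 2 * hL
  simp only [g₁, h2]
  linear_combination (24 * i ^ 2 * x * (9 - x ^ 3) * q * u) * hL

theorem l₁'_sgn : l₁' x (L * q) i (L * u) = L * l₁' x q i u := by
  simp only [l₁']
  ring

include hL in
theorem f₁'_sgn : f₁' x (L * q) i (L * u) = f₁' x q i u := by
  have h2 : (L * u) ^ 2 = u ^ 2 := by linear_combination u ^ 2 * hL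
  simp only [f₁', h2]
  linear_combination (i * (3 - x * u ^ 2) * q * x * u) * hL

include hL in
theorem c₁'_sgn : c₁' x (L * q) (L * u) = L * c₁' x q u := by
  have h2 : (L * u) ^ 2 = u ^ 2 := by linear_combination u ^ 2 * hL
  simp only [c₁', h2]
  linear_combination ((2 - x ^ 3) * L * u ^ 3) * hL

include hL in
theorem g₁'_sgn : g₁' x (L * q) i (L * u) = g₁' x q i u := by
  have h2 : (L * u) ^ 2 = u ^ 2 := by linear_combination u ^ 2 * hL
  simp only [g₁', h2]
  linear_combination (24 * i ^ 2 * x * (9 - x ^ 3) * q * u) * hL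

/-- The change of signs, first chart. -/
def chgSgn₁ : Chg (dat₁ x (L * q) (ε * r) i (L * u)) (dat₁ x q r i u) :=
  Chg.diag ε 1 ε hε (one_mul 1) hε
    (by simp only [dat₁, Dat.mk₁]; linear_combination r * hε)
    (by simp only [dat₁, Dat.mk₁, l₁_sgn hL]; ring)
    (by simp only [dat₁, Dat.mk₁, g₁_sgn hL]; linear_combination (r * g₁ x q i u) * hε)
    (by simp only [dat₁, Dat.mk₁, f₁_sgn hL]; ring)
    (by simp only [dat₁, Dat.mk₁, c₁_sgn hL]; ring)
    (by
      simp only [dat₁, Dat.mk₁, l₁_sgn hL, f₁_sgn hL, c₁_sgn hL, g₁_sgn hL]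
      linear_combination (2 * l₁ x q i u * f₁ x q i u + c₁ x q u * g₁ x q i u) * hε)

/-- The change of signs, second chart. -/
def chgSgn₁' : Chg (dat₁' x (L * q) (ε * r) i (L * u)) (dat₁' x q r i u) :=
  Chg.diag ε 1 (ε * L) hε (one_mul 1) (by linear_combination (L * L) * hε + hL)
    (by simp only [dat₁', Dat.mk₁]; linear_combination r * hε)
    (by simp only [dat₁', Dat.mk₁, l₁'_sgn]; ring)
    (by simp only [dat₁', Dat.mk₁, g₁'_sgn hL]; linear_combination (r * g₁' x q i u) * hε)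
    (by simp only [dat₁', Dat.mk₁, f₁'_sgn hL]; ring)
    (by simp only [dat₁', Dat.mk₁, c₁'_sgn hL]; linear_combination (-(ε * c₁' x q u)) * hL)
    (by
      simp only [dat₁', Dat.mk₁, l₁'_sgn, f₁'_sgn hL, c₁'_sgn hL, g₁'_sgn hL]
      linear_combination (L * (2 * l₁' x q i u * f₁' x q i u + c₁' x q u * g₁' x q i u)) * hε)

end

/-- Base change of the first family, with changes of signs. -/
noncomputable def hom₁ {x q r i : R} {x' q' r' i' L ε : R'} (hL : L * L = 1) (hε : ε * ε = 1)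
    (hx : φ x = x') (hq : φ q = L * q') (hr : φ r = ε * r') (hi : φ i = i') :
    Glu.Hom φ (sgn L hL) (glu₁ x q r i) (glu₁ x' q' r' i') where
  m := Chg.congr (by
      change _ = (dat₁ (C x) (C q) (C r) (C i) X).map _
      rw [map_dat₁, sc_C, sc_C, sc_C, sc_C, sc_X, hx, hq, hr, hi, map_mul, map_mul]
      rfl) rfl (chgSgn₁ (x := C x') (q := C q') (r := C r') (i := C i') (u := X) (L := C L)
        (ε := C ε) (by rw [← map_mul, hL, map_one]) (by rw [← map_mul, hε, map_one]))
  m' := Chg.congr (by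
      change _ = (dat₁' (C x) (C q) (C r) (C i) X).map _
      rw [map_dat₁', sc_C, sc_C, sc_C, sc_C, sc_X, hx, hq, hr, hi, map_mul, map_mul]
      rfl) rfl (chgSgn₁' (x := C x') (q := C q') (r := C r') (i := C i') (u := X) (L := C L)
        (ε := C ε) (by rw [← map_mul, hL, map_one]) (by rw [← map_mul, hε, map_one]))
  hτ := by
    change scL φ _ (toLaurentInv X ^ 4) * toLaurent (C ε) = toLaurentInv (C ε) * toLaurentInv X ^ 4
    rw [map_pow, scL_sgn, toLaurentInv_C, mul_pow, ← map_pow, ← map_pow]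
    have h : L ^ 4 = 1 := by linear_combination (L ^ 2 + 1) * hL
    rw [h, map_one, map_one]
    ring
  hp := by
    change scL φ _ (toLaurentInv X ^ 2) * toLaurent 1 + scL φ _ 0 * toLaurent 0 =
      toLaurentInv 1 * toLaurentInv X ^ 2 + toLaurentInv 0 * 0
    rw [map_pow, scL_sgn, mul_pow, ← map_pow, ← map_pow]
    have h : L ^ 2 = 1 := by linear_combination hL
    rw [h]
    simp
  hq := by
    change scL φ _ (toLaurentInv X ^ 2) * toLaurent 0 + scL φ _ 0 * toLaurent (C ε) =
      toLaurentInv 1 * 0 + toLaurentInv 0 * toLaurentInv X ^ 3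
    simp
  hr := by
    change scL φ _ 0 * toLaurent 1 + scL φ _ (toLaurentInv X ^ 3) * toLaurent 0 =
      toLaurentInv 0 * toLaurentInv X ^ 2 + toLaurentInv (C ε * C L) * 0
    simp
  hs := by
    change scL φ _ 0 * toLaurent 0 + scL φ _ (toLaurentInv X ^ 3) * toLaurent (C ε) =
      toLaurentInv 0 * 0 + toLaurentInv (C ε * C L) * toLaurentInv X ^ 3
    rw [map_pow, scL_sgn, mul_pow, ← map_pow, ← map_pow, map_mul, toLaurentInv_C, toLaurentInv_C]
    have h : L ^ 3 = L := by linear_combination L * hL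
    rw [h, map_zero, map_zero, map_zero]
    ring

section

variable {s e j : S} (hj : 2 * j = 1) (hL : L * L = 1) (hε : ε * ε = 1)

include hL in
theorem e₂_sgn : e₂ x (L * q) (L * u) = e₂ x q u := by
  simp only [e₂]
  linear_combination (q * u * (L ^ 4 * u ^ 4 + L ^ 2 * u ^ 4 + u ^ 4 + x) -
    (1 - 2 * x ^ 3) * u ^ 4 * (L ^ 2 + 1)) * hL

include hL in
theorem g₂_sgn : g₂ x (L * u) = g₂ x u := by
  simp only [g₂]
  linear_combination (u ^ 4 * (L ^ 2 + 1) + x ^ 2 * u ^ 2) * hL

include hL in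
theorem h₂_sgn : h₂ x (L * q) (L * u) = h₂ x q u := by
  have h2 : (L * u) ^ 2 = u ^ 2 := by linear_combination u ^ 2 * hL
  have h1 : L * q * (L * u) = q * u := by linear_combination (q * u) * hL
  have e1 : h₂ x (L * q) (L * u) = (L * q * (L * u)) * ((L * u) ^ 2) ^ 3 +
    (1 + 4 * x ^ 3) * ((L * u) ^ 2) ^ 3 - x ^ 2 * (L * q * (L * u)) * ((L * u) ^ 2) ^ 2 +
    3 * x ^ 2 * ((L * u) ^ 2) ^ 2 + x * (L * q * (L * u)) * (L * u) ^ 2 +
    (2 * x ^ 4 - x) * (L * u) ^ 2 + (L * q * (L * u)) + 1 + 4 * x ^ 3 := by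
    simp only [h₂]
    ring
  rw [e1, h2, h1]
  simp only [h₂]
  ring

include hL in
theorem c₂_sgn : c₂ x (L * q) (L * u) = c₂ x q u := by
  have h2 : (L * u) ^ 2 = u ^ 2 := by linear_combination u ^ 2 * hL
  simp only [c₂, h2]
  linear_combination (-(q * u * (x * u ^ 2 - 1))) * hL

include hL in
theorem e₂'_sgn : e₂' x (L * q) (L * u) = e₂' x q u := by
  have h2 : (L * u) ^ 2 = u ^ 2 := by linear_combination u ^ 2 * hL
  have h1 : L * q * (L * u) = q * u := by linear_combination (q * u) * hL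
  have e1 : e₂' x (L * q) (L * u) = -(2 + 2 * x ^ 3) + x ^ 2 * (L * q * (L * u)) -
    3 * x ^ 2 * (L * u) ^ 2 - (2 * x + 2 * x ^ 4) * ((L * u) ^ 2) ^ 2 -
    (L * q * (L * u)) * ((L * u) ^ 2) ^ 2 - (1 + 4 * x ^ 3) * ((L * u) ^ 2) ^ 3 := by
    simp only [e₂']
    ring
  rw [e1, h2, h1]
  simp only [e₂']
  ring

include hL in
theorem g₂'_sgn : g₂' x (L * u) = g₂' x u := by
  simp only [g₂']
  linear_combination (2 * x * u ^ 4 * (L ^ 2 + 1) + x ^ 2 * u ^ 2) * hL

include hL in
theorem h₂'_sgn : h₂' x (L * q) (L * u) = L * h₂' x q u := by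
  have h2 : (L * u) ^ 2 = u ^ 2 := by linear_combination u ^ 2 * hL
  have e1 : h₂' x (L * q) (L * u) = L * q + (1 + 4 * x ^ 3) * (L * u) -
    x ^ 2 * (L * q) * (L * u) ^ 2 + 3 * x ^ 2 * (L * u) * (L * u) ^ 2 +
    x * (L * q) * ((L * u) ^ 2) ^ 2 + (2 * x ^ 4 - x) * (L * u) * ((L * u) ^ 2) ^ 2 +
    L * q * ((L * u) ^ 2) ^ 3 + (1 + 4 * x ^ 3) * (L * u) * ((L * u) ^ 2) ^ 3 := by
    simp only [h₂']
    ring
  rw [e1, h2]
  simp only [h₂']
  ring

include hL in
theorem c₂'_sgn : c₂' x (L * q) (L * u) = L * c₂' x q u := by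
  have h2 : (L * u) ^ 2 = u ^ 2 := by linear_combination u ^ 2 * hL
  have e1 : c₂' x (L * q) (L * u) = (1 + x ^ 3) * (L * q) - (1 + x ^ 3) * (L * u) +
    x ^ 2 * (L * q) * (L * u) ^ 2 - (5 * x ^ 2 + 2 * x ^ 5) * (L * u) * (L * u) ^ 2 -
    x * (L * q) * ((L * u) ^ 2) ^ 2 - (x + 4 * x ^ 4) * (L * u) * ((L * u) ^ 2) ^ 2 := by
    simp only [c₂']
    ring
  rw [e1, h2]
  simp only [c₂']
  ring

/-- The change of signs, first chart. -/
def chgSgn₂ : Chg (dat₂ x (L * q) (ε * s) e j (L * u) hj) (dat₂ x q s e j u hj) :=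
  Chg.diag ε 1 ε hε (one_mul 1) hε
    (by simp only [dat₂]; linear_combination (x * s) * hε)
    (by simp only [dat₂]; linear_combination (2 * x * u ^ 2 * ε) * hL)
    (by simp only [dat₂, g₂_sgn hL]; linear_combination (e * s * g₂ x u) * hε)
    (by simp only [dat₂, e₂_sgn hL]; ring)
    (by simp only [dat₂, c₂_sgn hL]; ring)
    (by simp only [dat₂, h₂_sgn hL]; linear_combination (e * h₂ x q u) * hε)

/-- The change of signs, second chart. -/
def chgSgn₂' : Chg (dat₂' x (L * q) (ε * s) e j (L * u) hj) (dat₂' x q s e j u hj) :=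
  Chg.diag ε L ε hε hL hε
    (by
      simp only [dat₂']
      linear_combination (s * (1 + x ^ 3 + 2 * x ^ 2 * u ^ 2)) * hε +
        (2 * ε * ε * s * x ^ 2 * u ^ 2) * hL)
    (by simp only [dat₂']; linear_combination (-(4 * L * u * x ^ 2 * u ^ 2 * ε)) * hL)
    (by simp only [dat₂', g₂'_sgn hL]; linear_combination (e * s * g₂' x u) * hε)
    (by simp only [dat₂', e₂'_sgn hL]; ring)
    (by simp only [dat₂', c₂'_sgn hL]; ring)
    (by
      simp only [dat₂', h₂'_sgn hL]
      linear_combination (e * h₂' x q u) * hε - (e * h₂' x q u) * hL)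

end

theorem C_two_mul {j : R} (hj : 2 * j = 1) : 2 * (C j : R[X]) = 1 := by
  simpa only [map_mul, map_ofNat, map_one] using congrArg (C : R →+* R[X]) hj

/-- Base change of the second family, with changes of signs. -/
noncomputable def hom₂ {x q s e j : R} {x' q' s' e' j' L ε : R'} (hL : L * L = 1)
    (hε : ε * ε = 1) (hs : s ^ 2 = 4 * x * ((1 + x ^ 3) * (1 - 8 * x ^ 3)))
    (he : e * ((1 + x ^ 3) * (1 - 8 * x ^ 3)) = 1) (hj : 2 * j = 1)
    (hs' : s' ^ 2 = 4 * x' * ((1 + x' ^ 3) * (1 - 8 * x' ^ 3)))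
    (he' : e' * ((1 + x' ^ 3) * (1 - 8 * x' ^ 3)) = 1) (hj' : 2 * j' = 1)
    (ex : φ x = x') (eq : φ q = L * q') (es : φ s = ε * s') (ee : φ e = e') (ej : φ j = j') :
    Glu.Hom φ (sgn L hL) (glu₂ x q s e j hs he hj) (glu₂ x' q' s' e' j' hs' he' hj') where
  m := Chg.congr (by
      change _ = (dat₂ (C x) (C q) (C s) (C e) (C j) X (C_two_mul hj)).map _
      rw [map_dat₂ _ _ _ _ _ _ _ _ (by
        rw [sc_C, ej]
        exact C_two_mul hj')]
      congr 1
      · rw [sc_C, ex]
      · rw [sc_C, eq, map_mul]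
      · rw [sc_C, es, map_mul]
      · rw [sc_C, ee]
      · rw [sc_C, ej]
      · rw [sc_X]
        rfl) rfl (chgSgn₂ (x := C x') (q := C q') (s := C s') (e := C e') (j := C j') (u := X)
        (L := C L) (ε := C ε)
        (C_two_mul hj')
        (by rw [← map_mul, hL, map_one]) (by rw [← map_mul, hε, map_one]))
  m' := Chg.congr (by
      change _ = (dat₂' (C x) (C q) (C s) (C e) (C j) X (C_two_mul hj)).map _
      rw [map_dat₂' _ _ _ _ _ _ _ _ (by
        rw [sc_C, ej]
        exact C_two_mul hj')]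
      congr 1
      · rw [sc_C, ex]
      · rw [sc_C, eq, map_mul]
      · rw [sc_C, es, map_mul]
      · rw [sc_C, ee]
      · rw [sc_C, ej]
      · rw [sc_X]
        rfl) rfl (chgSgn₂' (x := C x') (q := C q') (s := C s') (e := C e') (j := C j') (u := X)
        (L := C L) (ε := C ε)
        (C_two_mul hj')
        (by rw [← map_mul, hL, map_one]) (by rw [← map_mul, hε, map_one]))
  hτ := by
    change scL φ _ (toLaurentInv X ^ 4) * toLaurent (C ε) = toLaurentInv (C ε) * toLaurentInv X ^ 4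
    rw [map_pow, scL_sgn, toLaurentInv_C, mul_pow, ← map_pow, ← map_pow]
    have h : L ^ 4 = 1 := by linear_combination (L ^ 2 + 1) * hL
    rw [h, map_one, map_one]
    ring
  hp := by
    change scL φ _ (toLaurentInv X) * toLaurent 1 +
      scL φ _ (-(toLaurent (C j) * toLaurent (C s)) * toLaurentInv X ^ 3) * toLaurent 0 =
      toLaurentInv (C L) * toLaurentInv X + toLaurentInv 0 * 0
    rw [scL_sgn, map_one, map_zero, map_zero, toLaurentInv_C]
    ring
  hq := by
    change scL φ _ (toLaurentInv X) * toLaurent 0 +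
      scL φ _ (-(toLaurent (C j) * toLaurent (C s)) * toLaurentInv X ^ 3) * toLaurent (C ε) =
      toLaurentInv (C L) * (-(toLaurent (C j') * toLaurent (C s')) * toLaurentInv X ^ 3) +
        toLaurentInv 0 * toLaurentInv X ^ 4
    rw [map_mul, map_neg, map_mul, map_pow, scL_sgn, scL_C', scL_C', ej, es, map_zero, map_zero,
      toLaurentInv_C, map_mul, map_mul]
    have h1 := congrArg (fun t => (toLaurent (C t) : LaurentPolynomial R')) hL
    have h2 := congrArg (fun t => (toLaurent (C t) : LaurentPolynomial R')) hε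
    simp only [map_mul, map_one] at h1 h2
    linear_combination (-(toLaurent (C j') * toLaurent (C s') * toLaurent (C L) ^ 3 *
      toLaurentInv X ^ 3)) * h2 - (toLaurent (C j') * toLaurent (C s') * toLaurent (C L) *
      toLaurentInv X ^ 3) * h1
  hr := by
    change scL φ _ 0 * toLaurent 1 + scL φ _ (toLaurentInv X ^ 4) * toLaurent 0 =
      toLaurentInv 0 * toLaurentInv X + toLaurentInv (C ε) * 0
    simp
  hs := by
    change scL φ _ 0 * toLaurent 0 + scL φ _ (toLaurentInv X ^ 4) * toLaurent (C ε) =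
      toLaurentInv 0 * (-(toLaurent (C j') * toLaurent (C s')) * toLaurentInv X ^ 3) +
        toLaurentInv (C ε) * toLaurentInv X ^ 4
    rw [map_pow, scL_sgn, toLaurentInv_C, mul_pow, ← map_pow, ← map_pow]
    have h : L ^ 4 = 1 := by linear_combination (L ^ 2 + 1) * hL
    rw [h, map_one, map_one, map_zero, map_zero, map_zero]
    ring

end

end Pool.Agent.Work.MP_2eb777_ag
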