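import Pool.Agent.Work.MP_2eb777_ag.Q1.KTwo
import Pool.Agent.Work.MP_2eb777_ag.Q1.Twist
import Pool.Agent.Work.MP_2eb777_ag.Q1.Cond1

set_option autoImplicit false

open CategoryTheory CategoryTheory.Limits AlgebraicGeometry Polynomial

namespace Pool.Agent.Work.MP_2eb777_ag

/-- The polynomial `q ^ 2`. -/
noncomputable def polQ : ℂ[X] := X ^ 4 - 4 * X ^ 3 - 8 * X - 4

/-- The polynomial `r ^ 2`. -/
noncomputable def polR : ℂ[X] := 4 * (X ^ 4 - 8 * X) * (X ^ 3 + 1)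

theorem polQ_ne_zero : polQ ≠ 0 := by
  intro h
  have := congrArg (eval 0) h
  simp [polQ] at this

theorem polR_ne_zero : polR ≠ 0 := by
  intro h
  have := congrArg (eval 1) h
  simp only [polR, eval_mul, eval_sub, eval_add, eval_pow, eval_X, eval_ofNat, eval_one,
    eval_zero] at this
  norm_num at this

theorem map_polQ {R : Type} [CommRing R] (ρ : ℂ[X] →+* R) :
    ρ polQ = ρ X ^ 4 - 4 * ρ X ^ 3 - 8 * ρ X - 4 := by
  rw [polQ]
  simp only [map_sub, map_mul, map_pow, map_ofNat]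

theorem map_polR {R : Type} [CommRing R] (ρ : ℂ[X] →+* R) :
    ρ polR = 4 * (ρ X ^ 4 - 8 * ρ X) * (ρ X ^ 3 + 1) := by
  rw [polR]
  simp only [map_sub, map_add, map_mul, map_pow, map_ofNat, map_one]

theorem thirtysix_mul {R : Type} [CommRing R] [Algebra ℂ R] :
    36 * algebraMap ℂ R (1 / 36) = 1 := by
  have h := map_ofNat (algebraMap ℂ R) 36
  rw [← h, ← map_mul]
  norm_num

theorem eq_of_thirtysix {R : Type} [CommRing R] [Algebra ℂ R] {i : R} (hi : 36 * i = 1) :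
    algebraMap ℂ R (1 / 36) = i := by
  have h := thirtysix_mul (R := R)
  linear_combination i * h - algebraMap ℂ R (1 / 36) * hi

/-- The base ring of the first family. -/
abbrev BOne : Type := K2 polQ polR

/-- The first family induces a morphism from the affine line to the moduli space. -/
theorem exists_line₁ {M : Scheme.{0}} (str : M ⟶ SpecC) [IsSeparated str]
    (rule : ModuliRule 6 str) : ∃ f : AffLine ⟶ M, f ≫ str = AffLine.str ∧
      ∀ (R : Type) [CommRing R] [Algebra ℂ R] (ρ : ℂ[X] →+* R)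
        (_ : ρ.comp C = algebraMap ℂ R) (x q r i : R) (_ : ρ X = x) (_ : 36 * i = 1)
        (_ : q ^ 2 = x ^ 4 - 4 * x ^ 3 - 8 * x - 4)
        (_ : r ^ 2 = 4 * (x ^ 4 - 8 * x) * (x ^ 3 + 1))
        (h : IsCurveFamily 6 (glu₁ x q r i).curve.toSpec),
        Spec.map (CommRingCat.ofHom ρ) ≫ f =
          rule.map _ (Spec.map (CommRingCat.ofHom (algebraMap ℂ R))) h := by
  set x₁ : BOne := K2.of polQ polR X with hx₁
  set q₁ : BOne := K2.a polQ polR with hq₁
  set r₁ : BOne := K2.b polQ polR with hr₁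
  set i₁ : BOne := algebraMap ℂ BOne (1 / 36) with hi₁
  have hi : 36 * i₁ = 1 := thirtysix_mul
  have hq : q₁ ^ 2 = x₁ ^ 4 - 4 * x₁ ^ 3 - 8 * x₁ - 4 := by
    rw [hq₁, K2.a_sq]
    exact map_polQ _
  have hr : r₁ ^ 2 = 4 * (x₁ ^ 4 - 8 * x₁) * (x₁ ^ 3 + 1) := by
    rw [hr₁, K2.b_sq]
    exact map_polR _
  have hD : IsCurveFamily 6 (glu₁ x₁ q₁ r₁ i₁).curve.toSpec := family₁ x₁ q₁ r₁ i₁ hi hq hr
  set σ : Spec (.of BOne) ⟶ SpecC := Spec.map (CommRingCat.ofHom (algebraMap ℂ BOne)) with hσ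
  set μ := rule.map _ σ hD with hμ
  obtain ⟨f, hf, hfs⟩ := K2.descend (α := polQ) (β := polR)
    (mem_nonZeroDivisors_of_ne_zero polQ_ne_zero) (mem_nonZeroDivisors_of_ne_zero polR_ne_zero)
    str μ (rule.map_str _ _ _) (by
      intro z w hz hw φ hφ ha hb
      have hφc : ∀ t, φ (algebraMap ℂ BOne t) = algebraMap ℂ BOne t := fun t =>
        congrArg (fun χ : ℂ[X] →+* BOne => χ (algebraMap ℂ ℂ[X] t)) hφ
      have hφx : φ x₁ = x₁ := congrArg (fun χ : ℂ[X] →+* BOne => χ X) hφ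
      have hpb := (hom₁ (φ := φ) (x := x₁) (q := q₁) (r := r₁) (i := i₁) (x' := x₁) (q' := q₁)
        (r' := r₁) (i' := i₁) (L := algebraMap ℂ BOne z) (ε := algebraMap ℂ BOne w)
        (by rw [← map_mul, hz, map_one]) (by rw [← map_mul, hw, map_one]) hφx ha hb
        (hφc _)).isPullback
      have h1 := rule.map_pullback _ σ hD _ hD _ _ hpb
      have h2 : Spec.map (CommRingCat.ofHom φ) ≫ σ = σ := by
        rw [hσ, ← Spec.map_comp, ← CommRingCat.ofHom_comp]
        congr 2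
        apply RingHom.ext
        exact hφc
      rw [h2] at h1
      exact h1.symm)
  refine ⟨f, hfs, ?_⟩
  intro R _ _ ρ hρ x q r i hx hi' hq' hr' hfam
  obtain ⟨ψ, hψ, hψa, hψb⟩ := K2.exists_hom (α := polQ) (β := polR) ρ q r
    (by rw [map_polQ, hx, hq']) (by rw [map_polR, hx, hr'])
  have hψc : ∀ t, ψ (algebraMap ℂ BOne t) = algebraMap ℂ R t := fun t =>
    (congrArg (fun χ : ℂ[X] →+* R => χ (C t)) hψ).trans
      (congrArg (fun χ : ℂ →+* R => χ t) hρ)
  have hψx : ψ x₁ = x := (congrArg (fun χ : ℂ[X] →+* R => χ X) hψ).trans hx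
  have hpb := (hom₁ (φ := ψ) (x := x₁) (q := q₁) (r := r₁) (i := i₁) (x' := x) (q' := q)
    (r' := r) (i' := i) (L := 1) (ε := 1) (one_mul 1) (one_mul 1) hψx
    (by rw [one_mul]; exact hψa) (by rw [one_mul]; exact hψb)
    (by rw [hi₁, hψc, eq_of_thirtysix hi'])).isPullback
  have h1 := rule.map_pullback _ σ hD _ hfam _ _ hpb
  have h2 : Spec.map (CommRingCat.ofHom ψ) ≫ σ =
      Spec.map (CommRingCat.ofHom (algebraMap ℂ R)) := by
    rw [hσ, ← Spec.map_comp, ← CommRingCat.ofHom_comp]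
    congr 2
    apply RingHom.ext
    exact hψc
  rw [h2] at h1
  rw [h1, ← hμ, ← hf, ← Category.assoc, ← Spec.map_comp, ← CommRingCat.ofHom_comp, hψ]

end Pool.Agent.Work.MP_2eb777_ag
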