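import Pool.Agent.Work.MP_2eb777_ag.Q1.LineOne
import Pool.Agent.Work.MP_2eb777_ag.Q1.Cond2

set_option autoImplicit false

open CategoryTheory CategoryTheory.Limits AlgebraicGeometry Polynomial

namespace Pool.Agent.Work.MP_2eb777_ag

/-- The polynomial to be inverted. -/
noncomputable def polD : ℂ[X] := (1 + X ^ 3) * (1 - 8 * X ^ 3)

theorem polD_ne_zero : polD ≠ 0 := by
  intro h
  have := congrArg (eval 0) h
  simp [polD] at this

theorem map_polD {R : Type} [CommRing R] (ρ : ℂ[X] →+* R) :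
    ρ polD = (1 + ρ X ^ 3) * (1 - 8 * ρ X ^ 3) := by
  rw [polD]
  simp only [map_sub, map_add, map_mul, map_pow, map_ofNat, map_one]

/-- The coordinate ring of the base of the second family. -/
abbrev STwo : Type := Localization.Away polD

/-- The structure homomorphism. -/
noncomputable abbrev toSTwo : ℂ[X] →+* STwo := algebraMap ℂ[X] STwo

instance : IsDomain STwo :=
  IsLocalization.isDomain_localization (powers_le_nonZeroDivisors_of_noZeroDivisors polD_ne_zero)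

theorem toSTwo_injective : Function.Injective toSTwo :=
  IsLocalization.injective STwo (powers_le_nonZeroDivisors_of_noZeroDivisors polD_ne_zero)

theorem toSTwo_comp : toSTwo.comp C = algebraMap ℂ STwo := rfl

/-- The coordinate. -/
noncomputable def xTwo : STwo := toSTwo X

/-- The polynomial `q ^ 2`. -/
noncomputable def alTwo : STwo := 1 - 4 * xTwo - 8 * xTwo ^ 3 - 4 * xTwo ^ 4

/-- The polynomial `s ^ 2`. -/
noncomputable def beTwo : STwo := 4 * xTwo * ((1 + xTwo ^ 3) * (1 - 8 * xTwo ^ 3))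

theorem map_alTwo {R : Type} [CommRing R] (ρ : STwo →+* R) :
    ρ alTwo = 1 - 4 * ρ xTwo - 8 * ρ xTwo ^ 3 - 4 * ρ xTwo ^ 4 := by
  rw [alTwo]
  simp only [map_sub, map_mul, map_pow, map_ofNat, map_one]

theorem map_beTwo {R : Type} [CommRing R] (ρ : STwo →+* R) :
    ρ beTwo = 4 * ρ xTwo * ((1 + ρ xTwo ^ 3) * (1 - 8 * ρ xTwo ^ 3)) := by
  rw [beTwo]
  simp only [map_sub, map_add, map_mul, map_pow, map_ofNat, map_one]

theorem xTwo_ne_zero : xTwo ≠ 0 := by
  intro h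
  exact X_ne_zero (toSTwo_injective (h.trans (map_zero _).symm))

theorem polD_xTwo : toSTwo polD = (1 + xTwo ^ 3) * (1 - 8 * xTwo ^ 3) := map_polD _

theorem isUnit_dTwo : IsUnit ((1 + xTwo ^ 3) * (1 - 8 * xTwo ^ 3)) := by
  rw [← polD_xTwo]
  exact IsLocalization.Away.algebraMap_isUnit polD

/-- The inverse of the discriminant. -/
noncomputable def eTwo : STwo := ((isUnit_dTwo.unit⁻¹ : STwoˣ) : STwo)

theorem eTwo_mul : eTwo * ((1 + xTwo ^ 3) * (1 - 8 * xTwo ^ 3)) = 1 := by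
  rw [eTwo]
  exact isUnit_dTwo.val_inv_mul

theorem alTwo_ne_zero : alTwo ≠ 0 := by
  intro h
  have h1 : toSTwo (1 - 4 * X - 8 * X ^ 3 - 4 * X ^ 4) = alTwo := by
    simp only [map_sub, map_mul, map_pow, map_ofNat, map_one]
    rfl
  have h2 : (1 - 4 * X - 8 * X ^ 3 - 4 * X ^ 4 : ℂ[X]) = 0 :=
    toSTwo_injective ((h1.trans h).trans (map_zero _).symm)
  have := congrArg (eval 0) h2
  simp at this

theorem beTwo_ne_zero : beTwo ≠ 0 := by
  rw [beTwo]
  have h4 : (4 : STwo) ≠ 0 := by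
    have h := (isUnit_iff_ne_zero.2 (by norm_num : (4 : ℂ) ≠ 0)).map (algebraMap ℂ STwo)
    rw [map_ofNat] at h
    exact h.ne_zero
  exact mul_ne_zero (mul_ne_zero h4 xTwo_ne_zero) isUnit_dTwo.ne_zero

/-- The base ring of the second family. -/
abbrev BTwo : Type := K2 alTwo beTwo

theorem two_mul_half {R : Type} [CommRing R] [Algebra ℂ R] :
    2 * algebraMap ℂ R (1 / 2) = 1 := by
  have h := map_ofNat (algebraMap ℂ R) 2
  rw [← h, ← map_mul]
  norm_num

theorem eq_of_two_mul {R : Type} [CommRing R] [Algebra ℂ R] {j : R} (hj : 2 * j = 1) :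
    algebraMap ℂ R (1 / 2) = j := by
  have h := two_mul_half (R := R)
  linear_combination j * h - algebraMap ℂ R (1 / 2) * hj

/-- The second family induces a morphism to the moduli space. -/
theorem exists_line₂ {M : Scheme.{0}} (str : M ⟶ SpecC) [IsSeparated str]
    (rule : ModuliRule 6 str) : ∃ f : Spec (.of STwo) ⟶ M,
      f ≫ str = Spec.map (CommRingCat.ofHom (algebraMap ℂ STwo)) ∧
      ∀ (R : Type) [CommRing R] [Algebra ℂ R] (ρ : STwo →+* R)
        (_ : ρ.comp (algebraMap ℂ STwo) = algebraMap ℂ R) (x q s e j : R) (_ : ρ xTwo = x)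
        (_ : q ^ 2 = 1 - 4 * x - 8 * x ^ 3 - 4 * x ^ 4)
        (hs : s ^ 2 = 4 * x * ((1 + x ^ 3) * (1 - 8 * x ^ 3)))
        (he : e * ((1 + x ^ 3) * (1 - 8 * x ^ 3)) = 1) (hj : 2 * j = 1)
        (h : IsCurveFamily 6 (glu₂ x q s e j hs he hj).curve.toSpec),
        Spec.map (CommRingCat.ofHom ρ) ≫ f =
          rule.map _ (Spec.map (CommRingCat.ofHom (algebraMap ℂ R))) h := by
  set x₂ : BTwo := K2.of alTwo beTwo xTwo with hx₂
  set q₂ : BTwo := K2.a alTwo beTwo with hq₂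
  set s₂ : BTwo := K2.b alTwo beTwo with hs₂
  set t₂ : BTwo := K2.of alTwo beTwo eTwo with ht₂
  set j₂ : BTwo := algebraMap ℂ BTwo (1 / 2) with hj₂
  have hj : 2 * j₂ = 1 := two_mul_half
  have hq : q₂ ^ 2 = 1 - 4 * x₂ - 8 * x₂ ^ 3 - 4 * x₂ ^ 4 := by
    rw [hq₂, K2.a_sq]
    exact map_alTwo _
  have hs : s₂ ^ 2 = 4 * x₂ * ((1 + x₂ ^ 3) * (1 - 8 * x₂ ^ 3)) := by
    rw [hs₂, K2.b_sq]
    exact map_beTwo _
  have he : t₂ * ((1 + x₂ ^ 3) * (1 - 8 * x₂ ^ 3)) = 1 := by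
    have h := congrArg (K2.of alTwo beTwo) eTwo_mul
    rw [map_mul, map_one] at h
    refine Eq.trans (congrArg (fun t => t₂ * t) ?_) h
    have h2 : ∀ {R : Type} [CommRing R] (ρ : STwo →+* R),
        (1 + ρ xTwo ^ 3) * (1 - 8 * ρ xTwo ^ 3) = ρ ((1 + xTwo ^ 3) * (1 - 8 * xTwo ^ 3)) := by
      intro R _ ρ
      simp only [map_sub, map_add, map_mul, map_pow, map_ofNat, map_one]
    exact h2 (K2.of alTwo beTwo)
  have hD : IsCurveFamily 6 (glu₂ x₂ q₂ s₂ t₂ j₂ hs he hj).curve.toSpec :=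
    family₂ x₂ q₂ s₂ t₂ j₂ hq hs he hj
  set σ : Spec (.of BTwo) ⟶ SpecC := Spec.map (CommRingCat.ofHom (algebraMap ℂ BTwo)) with hσ
  set μ := rule.map _ σ hD with hμ
  obtain ⟨f, hf, hfs⟩ := K2.descend (α := alTwo) (β := beTwo)
    (mem_nonZeroDivisors_of_ne_zero alTwo_ne_zero) (mem_nonZeroDivisors_of_ne_zero beTwo_ne_zero)
    str μ (rule.map_str _ _ _) (by
      intro z w hz hw φ hφ ha hb
      have hφc : ∀ t, φ (algebraMap ℂ BTwo t) = algebraMap ℂ BTwo t := fun t =>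
        congrArg (fun χ : STwo →+* BTwo => χ (algebraMap ℂ STwo t)) hφ
      have hφx : φ x₂ = x₂ := congrArg (fun χ : STwo →+* BTwo => χ xTwo) hφ
      have hφe : φ t₂ = t₂ := congrArg (fun χ : STwo →+* BTwo => χ eTwo) hφ
      have hpb := (hom₂ (φ := φ) (x := x₂) (q := q₂) (s := s₂) (e := t₂) (j := j₂) (x' := x₂)
        (q' := q₂) (s' := s₂) (e' := t₂) (j' := j₂) (L := algebraMap ℂ BTwo z)
        (ε := algebraMap ℂ BTwo w) (by rw [← map_mul, hz, map_one])
        (by rw [← map_mul, hw, map_one]) hs he hj hs he hj hφx ha hb hφe (hφc _)).isPullback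
      have h1 := rule.map_pullback _ σ hD _ hD _ _ hpb
      have h2 : Spec.map (CommRingCat.ofHom φ) ≫ σ = σ := by
        rw [hσ, ← Spec.map_comp, ← CommRingCat.ofHom_comp]
        congr 2
        apply RingHom.ext
        exact hφc
      rw [h2] at h1
      exact h1.symm)
  refine ⟨f, hfs, ?_⟩
  intro R _ _ ρ hρ x q s e j hx hq' hs' he' hj' hfam
  obtain ⟨ψ, hψ, hψa, hψb⟩ := K2.exists_hom (α := alTwo) (β := beTwo) ρ q s
    (by rw [map_alTwo, hx, hq']) (by rw [map_beTwo, hx, hs'])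
  have hψc : ∀ t, ψ (algebraMap ℂ BTwo t) = algebraMap ℂ R t := fun t =>
    (congrArg (fun χ : STwo →+* R => χ (algebraMap ℂ STwo t)) hψ).trans
      (congrArg (fun χ : ℂ →+* R => χ t) hρ)
  have hψx : ψ x₂ = x := (congrArg (fun χ : STwo →+* R => χ xTwo) hψ).trans hx
  have hψe : ψ t₂ = e := by
    have h1 := congrArg ψ he
    simp only [map_mul, map_add, map_sub, map_pow, map_one, map_ofNat, hψx] at h1
    linear_combination e * h1 - ψ t₂ * he'
  have hpb := (hom₂ (φ := ψ) (x := x₂) (q := q₂) (s := s₂) (e := t₂) (j := j₂) (x' := x)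
    (q' := q) (s' := s) (e' := e) (j' := j) (L := 1) (ε := 1) (one_mul 1) (one_mul 1) hs he hj
    hs' he' hj' hψx (by rw [one_mul]; exact hψa) (by rw [one_mul]; exact hψb) hψe
    (by rw [hj₂, hψc, eq_of_two_mul hj'])).isPullback
  have h1 := rule.map_pullback _ σ hD _ hfam _ _ hpb
  have h2 : Spec.map (CommRingCat.ofHom ψ) ≫ σ =
      Spec.map (CommRingCat.ofHom (algebraMap ℂ R)) := by
    rw [hσ, ← Spec.map_comp, ← CommRingCat.ofHom_comp]
    congr 2
    apply RingHom.ext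
    exact hψc
  rw [h2] at h1
  rw [h1, ← hμ, ← hf, ← Category.assoc, ← Spec.map_comp, ← CommRingCat.ofHom_comp, hψ]

end Pool.Agent.Work.MP_2eb777_ag
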