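import Pool.Agent.Work.MP_2eb777_ag.NonIso

/-! The function fields of a hyperelliptic curve of genus 6 and of a `V₄`-cover of the line
branched as in the `M₆` example are not isomorphic. -/

set_option autoImplicit false

namespace Pool.Agent.Work.MP_2eb777_ag

open Polynomial

namespace NonIso6

open Polynomial.Bivariate

/-! ### Four squares in a pencil -/

theorem wr_left (a b : ℂ) (p r : ℂ[X]) :
    wronskian (C a * p + C b * r) r = C a * wronskian p r := by
  simp only [wronskian, derivative_add, derivative_C_mul]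
  ring

theorem wr_right (a b : ℂ) (p r : ℂ[X]) :
    wronskian p (C a * p + C b * r) = C b * wronskian p r := by
  simp only [wronskian, derivative_add, derivative_C_mul]
  ring

theorem wr_both (a b a' b' : ℂ) (p r : ℂ[X]) :
    wronskian (C a * p + C b * r) (C a' * p + C b' * r) =
      C (a * b' - b * a') * wronskian p r := by
  simp only [wronskian, derivative_add, derivative_C_mul, C_sub, C_mul]
  ring

theorem sq_dvd_wr {A m n : ℂ[X]} (h : A ^ 2 ∣ m) : A ∣ wronskian m n := by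
  obtain ⟨c, rfl⟩ := h
  refine ⟨A * c * derivative n - (2 * derivative A * c + A * derivative c) * n, ?_⟩
  simp only [wronskian, derivative_mul, derivative_pow]
  simp only [Nat.cast_ofNat, map_ofNat, Nat.add_one_sub_one, pow_one]
  ring

theorem coprime_pencil {p r : ℂ[X]} (hpr : IsCoprime p r) (a b a' b' : ℂ)
    (hΔ : a * b' - b * a' ≠ 0) : IsCoprime (C a * p + C b * r) (C a' * p + C b' * r) := by
  obtain ⟨u, v, huv⟩ := hpr
  have hd : C (a * b' - b * a')⁻¹ * C (a * b' - b * a') = (1 : ℂ[X]) := by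
    rw [← C_mul, inv_mul_cancel₀ hΔ, C_1]
  refine ⟨C (a * b' - b * a')⁻¹ * (u * C b' - v * C a'),
    C (a * b' - b * a')⁻¹ * (v * C a - u * C b), ?_⟩
  rw [C_sub, C_mul, C_mul] at hd
  linear_combination (u * p + v * r) * hd + huv

/-- Four pairwise independent members of a coprime pencil cannot all be squares. -/
theorem four {p r : ℂ[X]} (hpr : IsCoprime p r) (hw : wronskian p r ≠ 0) (α β : Fin 4 → ℂ)
    (hΔ : ∀ i j, i ≠ j → α i * β j - β i * α j ≠ 0) (A : Fin 4 → ℂ[X])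
    (hA : ∀ i, Associated (A i ^ 2) (C (α i) * p + C (β i) * r)) : False := by
  have hdeg : ∀ i, (C (α i) * p + C (β i) * r).natDegree = 2 * (A i).natDegree := by
    intro i
    rw [← natDegree_eq_of_degree_eq (degree_eq_degree_of_associated (hA i)), natDegree_pow]
  have hpair : ∀ i j, i ≠ j →
      (wronskian p r).natDegree + 1 ≤ 2 * (A i).natDegree + 2 * (A j).natDegree := by
    intro i j hij
    have h0 : wronskian (C (α i) * p + C (β i) * r) (C (α j) * p + C (β j) * r) ≠ 0 := by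
      rw [wr_both]
      exact mul_ne_zero (C_ne_zero.2 (hΔ i j hij)) hw
    have h := natDegree_wronskian_lt_add h0
    rw [wr_both, natDegree_C_mul (hΔ i j hij), hdeg, hdeg] at h
    omega
  have hco : ∀ i j, i ≠ j → IsCoprime (A i) (A j) := by
    intro i j hij
    have h := coprime_pencil hpr _ _ _ _ (hΔ i j hij)
    have h2 : IsCoprime (A i ^ 2) (A j ^ 2) :=
      (h.of_isCoprime_of_dvd_left (hA i).dvd).of_isCoprime_of_dvd_right (hA j).dvd
    exact (IsCoprime.pow_iff (by norm_num) (by norm_num)).1 h2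
  have hdvd : ∀ i, A i ∣ wronskian p r := by
    intro i
    by_cases hα : α i = 0
    · have hβ : β i ≠ 0 := by
        intro hβ
        obtain ⟨j, hj⟩ : ∃ j : Fin 4, i ≠ j := by
          fin_cases i
          · exact ⟨1, by decide⟩
          · exact ⟨0, by decide⟩
          · exact ⟨0, by decide⟩
          · exact ⟨0, by decide⟩
        apply hΔ i j hj
        rw [hα, hβ]
        ring
      have h := sq_dvd_wr (n := p) (hA i).dvd
      rw [← wronskian_neg_eq, wr_right] at h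
      rw [dvd_neg] at h
      exact (IsUnit.dvd_mul_left (isUnit_C.2 hβ.isUnit)).1 h
    · have h := sq_dvd_wr (n := r) (hA i).dvd
      rw [wr_left] at h
      exact (IsUnit.dvd_mul_left (isUnit_C.2 (Ne.isUnit hα))).1 h
  have hprod : A 0 * A 1 * (A 2 * A 3) ∣ wronskian p r := by
    apply IsCoprime.mul_dvd
    · exact ((hco 0 2 (by decide)).mul_left (hco 1 2 (by decide))).mul_right
        ((hco 0 3 (by decide)).mul_left (hco 1 3 (by decide)))
    · exact (hco 0 1 (by decide)).mul_dvd (hdvd 0) (hdvd 1)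
    · exact (hco 2 3 (by decide)).mul_dvd (hdvd 2) (hdvd 3)
  have hle := natDegree_le_of_dvd hprod hw
  have hne : ∀ i, A i ≠ 0 := fun i h0 => hw (zero_dvd_iff.1 (h0 ▸ hdvd i))
  rw [natDegree_mul (mul_ne_zero (hne 0) (hne 1)) (mul_ne_zero (hne 2) (hne 3)),
    natDegree_mul (hne 0) (hne 1), natDegree_mul (hne 2) (hne 3)] at hle
  have h1 := hpair 0 1 (by decide)
  have h2 := hpair 2 3 (by decide)
  omega

theorem sq_of_prod (m : Fin 4 → ℂ[X]) (S v : ℂ[X])
    (hco : ∀ i j, i ≠ j → IsCoprime (m i) (m j)) (hS : ∀ i, IsCoprime (m i) S)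
    (h : m 0 * m 1 * m 2 * m 3 * S = v ^ 2) :
    ∃ A : Fin 4 → ℂ[X], ∀ i, Associated (A i ^ 2) (m i) := by
  have h0 : ∀ i, ∃ d : ℂ[X], Associated (d ^ 2) (m i) := by
    intro i
    fin_cases i
    · refine exists_associated_pow_of_mul_eq_pow' (b := m 1 * m 2 * m 3 * S) (c := v) ?_ ?_
      · exact (((hco 0 1 (by decide)).mul_right (hco 0 2 (by decide))).mul_right
          (hco 0 3 (by decide))).mul_right (hS 0)
      · rw [← h]; change m 0 * _ = _; ring
    · refine exists_associated_pow_of_mul_eq_pow' (b := m 0 * m 2 * m 3 * S) (c := v) ?_ ?_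
      · exact (((hco 1 0 (by decide)).mul_right (hco 1 2 (by decide))).mul_right
          (hco 1 3 (by decide))).mul_right (hS 1)
      · rw [← h]; change m 1 * _ = _; ring
    · refine exists_associated_pow_of_mul_eq_pow' (b := m 0 * m 1 * m 3 * S) (c := v) ?_ ?_
      · exact (((hco 2 0 (by decide)).mul_right (hco 2 1 (by decide))).mul_right
          (hco 2 3 (by decide))).mul_right (hS 2)
      · rw [← h]; change m 2 * _ = _; ring
    · refine exists_associated_pow_of_mul_eq_pow' (b := m 0 * m 1 * m 2 * S) (c := v) ?_ ?_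
      · exact (((hco 3 0 (by decide)).mul_right (hco 3 1 (by decide))).mul_right
          (hco 3 2 (by decide))).mul_right (hS 3)
      · rw [← h]; change m 3 * _ = _; ring
  choose A hA using h0
  exact ⟨A, hA⟩

theorem no_sq {p r : ℂ[X]} (hpr : IsCoprime p r) (hw : wronskian p r ≠ 0) (α β : Fin 4 → ℂ)
    (hΔ : ∀ i j, i ≠ j → α i * β j - β i * α j ≠ 0) (S v : ℂ[X])
    (hS : ∀ i, IsCoprime (C (α i) * p + C (β i) * r) S)
    (h : (C (α 0) * p + C (β 0) * r) * (C (α 1) * p + C (β 1) * r) *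
      (C (α 2) * p + C (β 2) * r) * (C (α 3) * p + C (β 3) * r) * S = v ^ 2) : False := by
  obtain ⟨A, hA⟩ := sq_of_prod (fun i => C (α i) * p + C (β i) * r) S v
    (fun i j hij => coprime_pencil hpr _ _ _ _ (hΔ i j hij)) hS h
  exact four hpr hw α β hΔ A hA

theorem coprime_of_eq {m S q y : ℂ[X]} (h : IsCoprime m y) (hS : S = y + m * q) :
    IsCoprime m S := by
  rw [hS]
  exact h.add_mul_left_right q

theorem case1 {p r v : ℂ[X]} (hpr : IsCoprime p r) (hw : wronskian p r ≠ 0)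
    (h : 9 * r * (p ^ 2 + r ^ 2) * (p - r) = v ^ 2) : False := by
  have hI : (C Complex.I : ℂ[X]) * C Complex.I = -1 := by
    rw [← C_mul, Complex.I_mul_I, C_neg, C_1]
  refine no_sq hpr hw ![0, 1, 1, 1] ![1, -1, -Complex.I, Complex.I] ?_ 9 v ?_ ?_
  · intro i j hij
    fin_cases i <;> fin_cases j <;> simp [Complex.ext_iff] at hij ⊢
    all_goals norm_num
  · intro i
    have h9 : IsUnit (9 : ℂ[X]) := by
      have : (9 : ℂ[X]) = C 9 := (map_ofNat C 9).symm
      rw [this]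
      exact isUnit_C.2 (Ne.isUnit (by norm_num))
    exact (isCoprime_one_right).of_isCoprime_of_dvd_right (h9.dvd)
  · simp only [Matrix.cons_val, map_zero, map_one, map_neg]
    rw [← h]
    linear_combination (-(9 * r * (p - r) * r ^ 2)) * hI

theorem case2 {p r v : ℂ[X]} (hpr : IsCoprime p r) (hw : wronskian p r ≠ 0)
    (h : (p ^ 2 - r ^ 2) * (p ^ 6 + r ^ 6) = v ^ 2) : False := by
  have hI : (C Complex.I : ℂ[X]) * C Complex.I = -1 := by
    rw [← C_mul, Complex.I_mul_I, C_neg, C_1]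
  refine no_sq hpr hw ![1, 1, 1, 1] ![1, -1, -Complex.I, Complex.I] ?_
    (p ^ 4 - p ^ 2 * r ^ 2 + r ^ 4) v ?_ ?_
  · intro i j hij
    fin_cases i <;> fin_cases j <;> simp [Complex.ext_iff] at hij ⊢
    all_goals norm_num
  · have hc : ∀ b : ℂ, b ^ 4 - b ^ 2 + 1 ≠ 0 →
        IsCoprime (C 1 * p + C b * r) (p ^ 4 - p ^ 2 * r ^ 2 + r ^ 4) := by
      intro b hb
      have h1 : IsCoprime (C 1 * p + C b * r) r := by
        have := coprime_pencil hpr 1 b 0 1 (by norm_num)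
        simpa using this
      have h2 : IsCoprime (C 1 * p + C b * r) (C (b ^ 4 - b ^ 2 + 1) * r ^ 4) :=
        (isCoprime_mul_unit_left_right (isUnit_C.2 (Ne.isUnit hb)) _ _).2 h1.pow_right
      refine coprime_of_eq (q := p ^ 3 - C b * p ^ 2 * r + (C b ^ 2 - 1) * p * r ^ 2 -
        C b * (C b ^ 2 - 1) * r ^ 3) h2 ?_
      simp only [map_add, map_sub, map_pow, map_one]
      ring
    intro i
    fin_cases i
    · exact hc 1 (by norm_num)
    · exact hc (-1) (by norm_num)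
    · refine hc (-Complex.I) ?_
      have : (-Complex.I) ^ 4 - (-Complex.I) ^ 2 + 1 = 3 := by
        have := Complex.I_mul_I
        linear_combination (Complex.I ^ 2 - 2) * this
      rw [this]; norm_num
    · refine hc (Complex.I) ?_
      have : (Complex.I) ^ 4 - (Complex.I) ^ 2 + 1 = 3 := by
        have := Complex.I_mul_I
        linear_combination (Complex.I ^ 2 - 2) * this
      rw [this]; norm_num
  · simp only [Matrix.cons_val, map_one, map_neg]
    rw [← h]
    linear_combination (-(r ^ 2 * (p ^ 2 - r ^ 2) * (p ^ 4 - p ^ 2 * r ^ 2 + r ^ 4))) * hI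

theorem case3 {p r v : ℂ[X]} (hpr : IsCoprime p r) (hw : wronskian p r ≠ 0)
    (h : r * (p + r) * (p ^ 4 - p ^ 2 * r ^ 2 + r ^ 4) = v ^ 2) : False := by
  obtain ⟨ζ, hζ⟩ : ∃ ζ : ℂ, ζ ^ 4 - ζ ^ 2 + 1 = 0 := by
    have hdeg : (X ^ 4 - X ^ 2 + 1 : ℂ[X]).degree ≠ 0 := by
      have : (X ^ 4 - X ^ 2 + 1 : ℂ[X]).degree = 4 := by compute_degree!
      rw [this]; norm_num
    obtain ⟨ζ, hζ⟩ := IsAlgClosed.exists_root _ hdeg
    refine ⟨ζ, ?_⟩
    simpa [IsRoot] using hζ
  have hζC : (C ζ : ℂ[X]) ^ 4 - C ζ ^ 2 + 1 = 0 := by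
    have := congrArg (C : ℂ →+* ℂ[X]) hζ
    simpa using this
  have z0 : ζ ≠ 0 := by
    rintro rfl
    norm_num at hζ
  have z1 : ζ ≠ 1 := by
    rintro rfl
    norm_num at hζ
  have z2 : ζ ≠ -1 := by
    rintro rfl
    norm_num at hζ
  have z3 : 2 * ζ ^ 2 - 1 ≠ 0 := by
    intro h3
    have : (3 : ℂ) = 0 := by linear_combination 4 * hζ - (2 * ζ ^ 2 - 1) * h3
    norm_num at this
  refine no_sq hpr hw ![0, 1, 1, 1] ![1, 1, -ζ, ζ] ?_
    (p ^ 2 - (1 - C ζ ^ 2) * r ^ 2) v ?_ ?_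
  · intro i j hij
    fin_cases i <;> fin_cases j <;> simp at hij ⊢
    all_goals first
      | exact fun h => z1 (by linear_combination h)
      | exact fun h => z1 (by linear_combination -h)
      | exact fun h => z2 (by linear_combination h)
      | exact fun h => z2 (by linear_combination -h)
      | exact z0
      | exact fun h => z0 (by linear_combination h)
      | exact fun h => z0 (by linear_combination h / 2)
      | exact fun h => z0 (by linear_combination -h / 2)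
  · have hc : ∀ b : ℂ, b ^ 2 - 1 + ζ ^ 2 ≠ 0 →
        IsCoprime (C 1 * p + C b * r) (p ^ 2 - (1 - C ζ ^ 2) * r ^ 2) := by
      intro b hb
      have h1 : IsCoprime (C 1 * p + C b * r) r := by
        have := coprime_pencil hpr 1 b 0 1 (by norm_num)
        simpa using this
      have h2 : IsCoprime (C 1 * p + C b * r) (C (b ^ 2 - 1 + ζ ^ 2) * r ^ 2) :=
        (isCoprime_mul_unit_left_right (isUnit_C.2 (Ne.isUnit hb)) _ _).2 h1.pow_right
      refine coprime_of_eq (q := p - C b * r) h2 ?_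
      simp only [map_add, map_sub, map_pow, map_one]
      ring
    intro i
    fin_cases i
    · have h1 : IsCoprime r (p ^ 2) := hpr.symm.pow_right
      have h2 : IsCoprime r (p ^ 2 - (1 - C ζ ^ 2) * r ^ 2) :=
        coprime_of_eq (q := -(1 - C ζ ^ 2) * r) h1 (by ring)
      simpa using h2
    · refine hc 1 ?_
      simpa using z0
    · refine hc (-ζ) ?_
      intro h0
      exact z3 (by linear_combination h0)
    · refine hc ζ ?_
      intro h0
      exact z3 (by linear_combination h0)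
  · simp only [Matrix.cons_val, map_one, map_neg, map_zero]
    rw [← h]
    linear_combination (-(r ^ 5 * (p + r))) * hζC

/-! ### A relation of degree at most `n` -/

variable {L : Type} [Field L] [Algebra ℂ L]

theorem exists_rel {n : ℕ} (a t : L) (v : Fin n → L)
    (hgen : ∀ s : L, ∃ (p : Fin n → ℂ[X]) (r : ℂ[X]), aeval a r ≠ 0 ∧
      s * aeval a r = ∑ i, aeval a (p i) * v i) :
    ∃ F : ℂ[X][Y], F ≠ 0 ∧ F.natDegree ≤ n ∧ aevalAeval a t F = 0 := by
  classical
  choose p r hr h using fun j : Fin (n + 1) => hgen (t ^ (j : ℕ))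
  have hr0 : ∀ j, r j ≠ 0 := by
    intro j h0
    apply hr j
    rw [h0, map_zero]
  let M : Matrix (Fin (n + 1)) (Fin (n + 1)) ℂ[X] :=
    Matrix.of fun i j => if hi : (i : ℕ) < n then p j ⟨i, hi⟩ else 0
  have hdet : M.det = 0 := by
    apply Matrix.det_eq_zero_of_row_eq_zero (Fin.last n)
    intro j
    simp [M]
  obtain ⟨c, hc, hMc⟩ := Matrix.exists_mulVec_eq_zero_iff.2 hdet
  have hrow : ∀ i : Fin n, ∑ j, p j i * c j = 0 := by
    intro i
    have h1 := congrFun hMc i.castSucc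
    simpa [Matrix.mulVec, dotProduct, M] using h1
  let F : ℂ[X][Y] := ∑ j : Fin (n + 1), C (c j * r j) * Y ^ (j : ℕ)
  have hcoeff : ∀ k : Fin (n + 1), F.coeff (k : ℕ) = c k * r k := by
    intro k
    simp only [F, finsetSum_coeff, coeff_C_mul_X_pow]
    rw [Finset.sum_eq_single k]
    · simp
    · intro j _ hjk
      rw [if_neg]
      intro h1
      exact hjk (Fin.ext h1.symm)
    · simp
  refine ⟨F, ?_, ?_, ?_⟩
  · intro hF
    apply hc
    funext k
    have h1 := hcoeff k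
    rw [hF, coeff_zero] at h1
    exact (mul_eq_zero.1 h1.symm).resolve_right (hr0 k)
  · refine natDegree_sum_le_of_forall_le _ _ ?_
    intro j _
    refine (natDegree_C_mul_X_pow_le _ _).trans ?_
    omega
  · simp only [F, map_sum, map_mul, map_pow, aevalAeval_C, aevalAeval_Y]
    have h1 : ∀ j : Fin (n + 1), aeval a (c j) * aeval a (r j) * t ^ (j : ℕ) =
        ∑ i, aeval a (p j i * c j) * v i := by
      intro j
      have h2 := h j
      calc aeval a (c j) * aeval a (r j) * t ^ (j : ℕ)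
          = aeval a (c j) * (t ^ (j : ℕ) * aeval a (r j)) := by ring
        _ = _ := by
          rw [h2, Finset.mul_sum]
          refine Finset.sum_congr rfl fun i _ => ?_
          rw [map_mul]; ring
    rw [Finset.sum_congr rfl fun j _ => h1 j, Finset.sum_comm]
    refine Finset.sum_eq_zero fun i _ => ?_
    rw [← Finset.sum_mul, ← map_sum, hrow i, map_zero, zero_mul]

theorem key6 {x y x' : L} (hx : Transcendental ℂ x) (f : ℂ[X]) (hf : Squarefree f)
    (hfd : 9 ≤ f.natDegree) (hy : y ^ 2 = aeval x f) (p₁ q₁ r₁ : ℂ[X]) (hr₁ : r₁ ≠ 0)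
    (h : x' * aeval x r₁ = aeval x p₁ + aeval x q₁ * y) (A B D : ℂ[X])
    (hA : A.natDegree ≤ 4) (hB : B.natDegree ≤ 4) (hD : D.natDegree ≤ 4)
    (hne : ¬ (A = 0 ∧ B = 0 ∧ D = 0))
    (hP : aeval x A * x' ^ 2 + aeval x B * x' + aeval x D = 0) : q₁ = 0 := by
  by_contra hq
  have e1 : aeval x A * (aeval x p₁ + aeval x q₁ * y) ^ 2
      + aeval x B * aeval x r₁ * (aeval x p₁ + aeval x q₁ * y) + aeval x D * aeval x r₁ ^ 2
      = 0 := by
    rw [← h]
    linear_combination (aeval x r₁) ^ 2 * hP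
  have e2 : aeval x (A * (p₁ ^ 2 + q₁ ^ 2 * f) + B * r₁ * p₁ + D * r₁ ^ 2)
      + aeval x (2 * A * p₁ * q₁ + B * r₁ * q₁) * y = 0 := by
    simp only [map_add, map_mul, map_pow, map_ofNat]
    rw [← hy]
    linear_combination e1
  obtain ⟨e3, e4⟩ := lin_indep hx f hf (by omega) hy _ _ e2
  have e5 : 2 * A * p₁ + B * r₁ = 0 := by
    have : q₁ * (2 * A * p₁ + B * r₁) = 0 := by linear_combination e4
    exact (mul_eq_zero.1 this).resolve_left hq
  have e6 : (B ^ 2 - 4 * A * D) * r₁ ^ 2 = (2 * A * q₁) ^ 2 * f := by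
    linear_combination (-4 * A) * e3 + (2 * A * p₁ + B * r₁) * e5
  have e7 := dvd_of_sq _ _ _ f hf hr₁ e6
  have e8 : B ^ 2 - 4 * A * D = 0 := by
    by_contra hD'
    have h1 := natDegree_le_of_dvd e7 hD'
    have h2 : (B ^ 2 - 4 * A * D).natDegree ≤ 8 := by
      refine (natDegree_sub_le _ _).trans (max_le ?_ ?_)
      · exact natDegree_pow_le.trans (by omega)
      · have h4 : ((4 : ℂ[X])).natDegree = 0 := by
          have : (4 : ℂ[X]) = Polynomial.C 4 := rfl
          rw [this, natDegree_C]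
        refine natDegree_mul_le.trans ?_
        have := natDegree_mul_le (p := (4 : ℂ[X])) (q := A)
        omega
    omega
  rw [e8, zero_mul] at e6
  have hf0 : f ≠ 0 := by
    rintro rfl
    simp at hfd
  have e9 : A = 0 := by
    have : (2 * A * q₁) ^ 2 = 0 := (mul_eq_zero.1 e6.symm).resolve_right hf0
    have := pow_eq_zero_iff (two_ne_zero) |>.1 this
    rcases mul_eq_zero.1 this with h1 | h1
    · exact (mul_eq_zero.1 h1).resolve_left two_ne_zero
    · exact absurd h1 hq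
  subst e9
  have e10 : B = 0 := by
    have : B * r₁ = 0 := by simpa using e5
    exact (mul_eq_zero.1 this).resolve_right hr₁
  subst e10
  have e11 : D = 0 := by
    have : D * r₁ ^ 2 = 0 := by simpa using e3
    exact (mul_eq_zero.1 this).resolve_right (pow_ne_zero 2 hr₁)
  exact hne ⟨rfl, rfl, e11⟩

theorem q_zero6 {x y x' : L} (hx : Transcendental ℂ x) (f : ℂ[X]) (hf : Squarefree f)
    (hfd : 9 ≤ f.natDegree) (hy : y ^ 2 = aeval x f) (p₁ q₁ r₁ : ℂ[X]) (hr₁ : r₁ ≠ 0)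
    (h : x' * aeval x r₁ = aeval x p₁ + aeval x q₁ * y)
    {P : ℂ[X][Y]} (hP : Irreducible P) (hPv : aevalAeval x x' P = 0) (hd : P.natDegree ≤ 2)
    (hd' : (swap P).natDegree ≤ 4) : q₁ = 0 := by
  have hq := eq_quadratic_of_degree_le_two (natDegree_le_iff_degree_le.1 hd)
  refine key6 hx f hf hfd hy p₁ q₁ r₁ hr₁ h (P.coeff 2) (P.coeff 1) (P.coeff 0)
    (coeff_natDegree_le hd' 2) (coeff_natDegree_le hd' 1) (coeff_natDegree_le hd' 0) ?_ ?_
  · rintro ⟨h1, h2, h3⟩
    rw [h1, h2, h3] at hq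
    exact hP.ne_zero (by rw [hq]; simp)
  · rw [hq] at hPv
    simpa only [map_add, map_mul, map_pow, aevalAeval_C, aevalAeval_Y] using hPv

/-- The element `U` is a rational function of `x`. -/
theorem rational {x z U : L} (hx : Transcendental ℂ x) (hU : Transcendental ℂ U) (f : ℂ[X])
    (hf : Squarefree f) (hfd : 9 ≤ f.natDegree) (hz : z ^ 2 = aeval x f)
    (gen1 : ∀ t : L, ∃ p q r : ℂ[X], aeval x r ≠ 0 ∧ t * aeval x r = aeval x p + aeval x q * z)
    (F : ℂ[X][Y]) (hF0 : F ≠ 0) (hFd : F.natDegree ≤ 4) (hF : aevalAeval U x F = 0) :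
    ∃ p r : ℂ[X], aeval x r ≠ 0 ∧ U * aeval x r = aeval x p := by
  obtain ⟨p₁, q₁, r₁, hr₁, h₁⟩ := gen1 U
  have hr₁' : r₁ ≠ 0 := by
    rintro rfl
    exact hr₁ (map_zero _)
  obtain ⟨P, hPI, hPp⟩ : ∃ P : ℂ[X][Y], aevalAeval x U P = 0 ∧ Prime P := by
    have hprime : (RingHom.ker (aevalAeval (R := ℂ) x U)).IsPrime := RingHom.ker_isPrime _
    have hne : (RingHom.ker (aevalAeval (R := ℂ) x U)) ≠ ⊥ := by
      intro h0
      have hF2 : swap F ∈ (RingHom.ker (aevalAeval (R := ℂ) x U)) := by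
        rw [RingHom.mem_ker, aevalAeval_swap, hF]
      rw [h0, Ideal.mem_bot] at hF2
      exact hF0 ((map_eq_zero_iff _ (swap (R := ℂ)).injective).1 hF2)
    obtain ⟨P, hP1, hP2⟩ := hprime.exists_mem_prime_of_ne_bot hne
    exact ⟨P, by rwa [RingHom.mem_ker] at hP1, hP2⟩
  have hPi : Irreducible P := hPp.irreducible
  have hPi' : Irreducible (swap P) := (MulEquiv.irreducible_iff (swap (R := ℂ))).2 hPi
  have hPI' : aevalAeval U x (swap P) = 0 := by
    rw [aevalAeval_swap, hPI]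
  have hd := bound2 hx _ hz p₁ q₁ r₁ hr₁' h₁ hPi hPI
  have hd' := (natDegree_le_of_irreducible hU hPi' hPI' hF0 hF).trans hFd
  have hq₁ : q₁ = 0 := q_zero6 hx _ hf hfd hz p₁ q₁ r₁ hr₁' h₁ hPi hPI hd hd'
  subst hq₁
  rw [map_zero, zero_mul, add_zero] at h₁
  exact ⟨p₁, r₁, hr₁, h₁⟩

/-- An element whose square is a rational function of `x` is a rational function or `z` times a
rational function. -/
theorem half {x z V : L} (hx : Transcendental ℂ x) (f : ℂ[X])
    (hf : Squarefree f) (hfd : 0 < f.natDegree) (hz : z ^ 2 = aeval x f)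
    (gen1 : ∀ t : L, ∃ p q r : ℂ[X], aeval x r ≠ 0 ∧ t * aeval x r = aeval x p + aeval x q * z)
    (s N : ℂ[X]) (hs : s ≠ 0) (hV : V ^ 2 * aeval x s = aeval x N) :
    ∃ p r : ℂ[X], aeval x r ≠ 0 ∧ (V * aeval x r = aeval x p ∨ V * aeval x r = aeval x p * z) := by
  obtain ⟨p, q, r, hr, h⟩ := gen1 V
  have e1 : aeval x ((p ^ 2 + q ^ 2 * f) * s - r ^ 2 * N) + aeval x (2 * p * q * s) * z = 0 := by
    simp only [map_add, map_sub, map_mul, map_pow, map_ofNat]
    rw [← hz, ← hV]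
    linear_combination (-(V * aeval x r + (aeval x p + aeval x q * z)) * aeval x s) * h
  obtain ⟨-, e2⟩ := lin_indep hx f hf hfd hz _ _ e1
  have e3 : p * q = 0 := by
    have : (2 * s) * (p * q) = 0 := by linear_combination e2
    exact (mul_eq_zero.1 this).resolve_left (mul_ne_zero two_ne_zero hs)
  rcases mul_eq_zero.1 e3 with rfl | rfl
  · exact ⟨q, r, hr, Or.inr (by rw [h, map_zero, zero_add])⟩
  · exact ⟨p, r, hr, Or.inl (by rw [h, map_zero, zero_mul, add_zero])⟩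

/-! ### The polynomial of degree 14 -/

/-- the polynomial of degree 14 -/
noncomputable def f14 : ℂ[X] := -(2 - X ^ 2) * ((1 - X ^ 2) ^ 6 + 1)

theorem f14_natDegree : f14.natDegree = 14 := by
  unfold f14
  compute_degree!

theorem C_inv_two : (C (2⁻¹ : ℂ) : ℂ[X]) * 2 = 1 := by
  have : (2 : ℂ[X]) = C 2 := (map_ofNat C 2).symm
  rw [this, ← C_mul, inv_mul_cancel₀ two_ne_zero, C_1]

theorem f14_squarefree : Squarefree f14 := by
  have h2 := C_inv_two
  have s1 : (-(2 - X ^ 2) : ℂ[X]).Separable := by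
    refine ⟨-C 2⁻¹, C 2⁻¹ * C 2⁻¹ * X, ?_⟩
    simp only [derivative_neg, derivative_sub, derivative_X_pow, derivative_ofNat, C_ofNat,
      Nat.cast_ofNat]
    linear_combination (1 + C 2⁻¹ * X ^ 2) * h2
  have s2 : ((1 - X ^ 2) ^ 6 + 1 : ℂ[X]).Separable := by
    have h1 : IsCoprime ((1 - X ^ 2) ^ 6 + 1 : ℂ[X]) (1 - X ^ 2) :=
      ⟨1, -(1 - X ^ 2) ^ 5, by ring⟩
    have h3 : IsCoprime ((1 - X ^ 2) ^ 6 + 1 : ℂ[X]) X := by
      refine ⟨C 2⁻¹, C 2⁻¹ * (6 * X - 15 * X ^ 3 + 20 * X ^ 5 - 15 * X ^ 7 + 6 * X ^ 9 - X ^ 11),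
        ?_⟩
      linear_combination h2
    have h4 : derivative ((1 - X ^ 2) ^ 6 + 1 : ℂ[X]) = C (-12) * (X * (1 - X ^ 2) ^ 5) := by
      simp only [derivative_add, derivative_sub, derivative_pow, derivative_X, derivative_one,
        Nat.cast_ofNat, C_ofNat, map_neg]
      ring
    unfold Separable
    rw [h4]
    exact (isCoprime_mul_unit_left_right (isUnit_C.2 (Ne.isUnit (by norm_num))) _ _).2
      (h3.mul_right h1.pow_right)
  refine (s1.mul s2 ?_).squarefree
  refine ⟨C 2⁻¹ * ((1 - X ^ 2) ^ 5 - (1 - X ^ 2) ^ 4 + (1 - X ^ 2) ^ 3 - (1 - X ^ 2) ^ 2 +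
    (1 - X ^ 2) - 1), C 2⁻¹, ?_⟩
  linear_combination h2

/-! ### Conclusion -/

theorem exists_sqrt {S T N : ℂ[X]} (hT : T ≠ 0) (h : S ^ 2 = T ^ 2 * N) : ∃ v, N = v ^ 2 := by
  have hd : T ∣ S := by
    have : T ^ 2 ∣ S ^ 2 := ⟨N, h⟩
    exact (IsIntegrallyClosed.pow_dvd_pow_iff two_ne_zero).1 this
  obtain ⟨v, rfl⟩ := hd
  refine ⟨v, mul_left_cancel₀ (pow_ne_zero 2 hT) ?_⟩
  linear_combination -h

theorem stepA {L : Type} [Field L] [Algebra ℂ L] {x V : L} (hx : Transcendental ℂ x)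
    {p r τ ρ : ℂ[X]} (hV : V ^ 2 * aeval x (r ^ 3) = aeval x (9 * (p ^ 2 + r ^ 2) * (p - r)))
    (hτ : V * aeval x ρ = aeval x τ) :
    (τ * r ^ 2) ^ 2 = ρ ^ 2 * (9 * r * (p ^ 2 + r ^ 2) * (p - r)) := by
  apply eq_of_aeval hx
  simp only [map_mul, map_pow, map_add, map_sub, map_ofNat] at hV ⊢
  rw [← hτ]
  linear_combination (aeval x ρ ^ 2 * aeval x r) * hV

theorem stepB {L : Type} [Field L] [Algebra ℂ L] {x V : L} (hx : Transcendental ℂ x)
    {p r τ ρ : ℂ[X]}
    (hV : V ^ 2 * aeval x (r ^ 8) = aeval x ((p ^ 2 - r ^ 2) * (p ^ 6 + r ^ 6)))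
    (hτ : V * aeval x ρ = aeval x τ) :
    (τ * r ^ 4) ^ 2 = ρ ^ 2 * ((p ^ 2 - r ^ 2) * (p ^ 6 + r ^ 6)) := by
  apply eq_of_aeval hx
  simp only [map_mul, map_pow, map_add, map_sub] at hV ⊢
  rw [← hτ]
  linear_combination (aeval x ρ ^ 2) * hV

theorem stepC {L : Type} [Field L] [Algebra ℂ L] {x z V V' : L} (hx : Transcendental ℂ x)
    {p r τ ρ τ' ρ' f : ℂ[X]} (hz : z ^ 2 = aeval x f)
    (hV : V ^ 2 * aeval x (r ^ 3) = aeval x (9 * (p ^ 2 + r ^ 2) * (p - r)))
    (hV' : V' ^ 2 * aeval x (r ^ 8) = aeval x ((p ^ 2 - r ^ 2) * (p ^ 6 + r ^ 6)))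
    (hτ : V * aeval x ρ = aeval x τ * z) (hτ' : V' * aeval x ρ' = aeval x τ' * z) :
    (τ * τ' * f * r ^ 6) ^ 2 = (3 * ρ * ρ' * (p ^ 2 + r ^ 2) * (p - r)) ^ 2 *
      (r * (p + r) * (p ^ 4 - p ^ 2 * r ^ 2 + r ^ 4)) := by
  apply eq_of_aeval hx
  simp only [map_mul, map_pow, map_add, map_sub, map_ofNat] at hV hV' ⊢
  rw [← hz]
  have e2 : (aeval x τ * aeval x τ' * z ^ 2 * aeval x r ^ 6) ^ 2 =
      ((aeval x τ * z) * (aeval x τ' * z) * aeval x r ^ 6) ^ 2 := by ring
  rw [e2, ← hτ, ← hτ']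
  have e3 : (V * aeval x ρ * (V' * aeval x ρ') * aeval x r ^ 6) ^ 2 =
      (aeval x ρ ^ 2 * aeval x ρ' ^ 2 * aeval x r) * ((V ^ 2 * aeval x r ^ 3) *
        (V' ^ 2 * aeval x r ^ 8)) := by ring
  rw [e3, hV, hV']
  ring

end NonIso6

open NonIso6 in
theorem noniso6 {L : Type} [Field L] [Algebra ℂ L] (x z U W Y : L) (hx : Transcendental ℂ x)
    (hz : z ^ 2 = -(2 - x ^ 2) * ((1 - x ^ 2) ^ 6 + 1))
    (gen1 : ∀ t : L, ∃ p q r : ℂ[X], aeval x r ≠ 0 ∧ t * aeval x r = aeval x p + aeval x q * z)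
    (hU : Transcendental ℂ U) (hW : W ^ 2 = 9 * (U ^ 2 + 1) * (U - 1))
    (hY : Y ^ 2 = (U ^ 2 - 1) * (U ^ 6 + 1))
    (gen2 : ∀ t : L, ∃ p₀ p₁ p₂ p₃ r : ℂ[X], aeval U r ≠ 0 ∧
      t * aeval U r = aeval U p₀ + aeval U p₁ * W + aeval U p₂ * Y + aeval U p₃ * (W * Y)) :
    False := by
  have hfd := f14_natDegree
  have hf := f14_squarefree
  have hz1 : z ^ 2 = aeval x f14 := by
    rw [hz, f14]
    simp only [map_mul, map_neg, map_sub, map_add, map_pow, map_one, map_ofNat, aeval_X]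
  obtain ⟨F, hF0, hFd, hF⟩ := exists_rel (n := 4) U x ![1, W, Y, W * Y] (by
    intro s
    obtain ⟨p₀, p₁, p₂, p₃, r, hr, h⟩ := gen2 s
    refine ⟨![p₀, p₁, p₂, p₃], r, hr, ?_⟩
    rw [h, Fin.sum_univ_four]
    simp only [Matrix.cons_val]
    ring)
  obtain ⟨p₀, r₀, hr₀, h₀⟩ := rational hx hU f14 hf (by omega) hz1 gen1 F hF0 hFd hF
  obtain ⟨p, r, hpr, hr, hUr⟩ : ∃ p r : ℂ[X], IsCoprime p r ∧ aeval x r ≠ 0 ∧
      U * aeval x r = aeval x p := by
    have hr₀' : r₀ ≠ 0 := by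
      rintro rfl
      exact hr₀ (map_zero _)
    obtain ⟨d, p, r, hd, rfl, rfl, hco⟩ := exists_coprime_red p₀ r₀ hr₀'
    refine ⟨p, r, hco, ?_, ?_⟩
    · intro h
      apply hr₀
      rw [map_mul, h, mul_zero]
    · have hd' := aeval_ne_zero hx hd
      rw [map_mul, map_mul] at h₀
      apply mul_left_cancel₀ hd'
      linear_combination h₀
  have hr' : r ≠ 0 := by
    rintro rfl
    exact hr (map_zero _)
  have hw : wronskian p r ≠ 0 := by
    intro h0
    obtain ⟨h1, h2⟩ := hpr.wronskian_eq_zero_iff.1 h0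
    obtain ⟨a, rfl⟩ := natDegree_eq_zero.1 (derivative_eq_zero.1 h1)
    obtain ⟨b, rfl⟩ := natDegree_eq_zero.1 (derivative_eq_zero.1 h2)
    have h3 : aeval U (C b * X - C a : ℂ[X]) = 0 := by
      rw [map_sub, map_mul, aeval_X, aeval_C, aeval_C]
      rw [aeval_C, aeval_C] at hUr
      linear_combination hUr
    have h4 := eq_zero_of_aeval hU h3
    have h5 := congrArg (fun G : ℂ[X] => G.coeff 1) h4
    simp [coeff_C] at h5
    exact hr' (by rw [h5, C_0])
  -- W and Y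
  have hWr : W ^ 2 * aeval x (r ^ 3) = aeval x (9 * (p ^ 2 + r ^ 2) * (p - r)) := by
    simp only [map_mul, map_add, map_sub, map_pow, map_ofNat]
    rw [← hUr, hW]
    ring
  have hYr : Y ^ 2 * aeval x (r ^ 8) = aeval x ((p ^ 2 - r ^ 2) * (p ^ 6 + r ^ 6)) := by
    simp only [map_mul, map_add, map_sub, map_pow]
    rw [← hUr, hY]
    ring
  obtain ⟨τ, ρ, hρ, hτ⟩ := half hx f14 hf (by omega) hz1 gen1 _ _ (pow_ne_zero 3 hr') hWr
  obtain ⟨τ', ρ', hρ', hτ'⟩ := half hx f14 hf (by omega) hz1 gen1 _ _ (pow_ne_zero 8 hr') hYr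
  have hρ0 : ρ ≠ 0 := by
    rintro rfl
    exact hρ (map_zero _)
  have hρ0' : ρ' ≠ 0 := by
    rintro rfl
    exact hρ' (map_zero _)
  rcases hτ with hτ | hτ
  · -- W is rational
    obtain ⟨v, hv⟩ := exists_sqrt hρ0 (stepA hx hWr hτ)
    exact case1 hpr hw hv
  rcases hτ' with hτ' | hτ'
  · -- Y is rational
    obtain ⟨v, hv⟩ := exists_sqrt hρ0' (stepB hx hYr hτ')
    exact case2 hpr hw hv
  -- W Y is rational
  have hT : (3 * ρ * ρ' * (p ^ 2 + r ^ 2) * (p - r) : ℂ[X]) ≠ 0 := by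
    have n1 : aeval x (p ^ 2 + r ^ 2 : ℂ[X]) ≠ 0 := by
      have h1 : aeval U (X ^ 2 + 1 : ℂ[X]) ≠ 0 := by
        apply aeval_ne_zero hU
        intro h0
        have := congrArg (fun G : ℂ[X] => G.coeff 2) h0
        simp [coeff_one] at this
      have h2 : aeval x (p ^ 2 + r ^ 2 : ℂ[X]) = aeval U (X ^ 2 + 1 : ℂ[X]) * aeval x r ^ 2 := by
        simp only [map_add, map_pow, aeval_X, map_one, ← hUr]
        ring
      rw [h2]
      exact mul_ne_zero h1 (pow_ne_zero 2 hr)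
    have n2 : aeval x (p - r : ℂ[X]) ≠ 0 := by
      have h1 : aeval U (X - 1 : ℂ[X]) ≠ 0 := by
        apply aeval_ne_zero hU
        intro h0
        have := congrArg (fun G : ℂ[X] => G.coeff 1) h0
        simp [coeff_one] at this
      have h2 : aeval x (p - r : ℂ[X]) = aeval U (X - 1 : ℂ[X]) * aeval x r := by
        simp only [map_sub, aeval_X, map_one, ← hUr]
        ring
      rw [h2]
      exact mul_ne_zero h1 hr
    intro h0
    have h1 := congrArg (aeval x) h0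
    rw [map_mul, map_mul, map_mul, map_mul, map_zero] at h1
    have h3 : aeval x (3 : ℂ[X]) ≠ 0 := by
      have h4 : aeval x (3 : ℂ[X]) = algebraMap ℂ L 3 := by rw [map_ofNat, map_ofNat]
      rw [h4]
      exact (_root_.map_ne_zero _).2 (by norm_num)
    exact (mul_ne_zero (mul_ne_zero (mul_ne_zero (mul_ne_zero h3 hρ) hρ') n1) n2) h1
  obtain ⟨v, hv⟩ := exists_sqrt hT (stepC hx hz1 hWr hYr hτ hτ')
  exact case3 hpr hw hv

end Pool.Agent.Work.MP_2eb777_ag
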