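import Pool.Agent.Work.MP_2eb777_ag.Q1.PMap
import Pool.Agent.Work.MP_2eb777_ag.Q1.NonIso6
import Pool.Agent.Work.MP_2eb777_ag.IsoField

set_option autoImplicit false

open CategoryTheory CategoryTheory.Limits AlgebraicGeometry Polynomial

namespace Pool.Agent.Work.MP_2eb777_ag

theorem algebraMap_R4_injective (d : Dat ℂ[X]) : Function.Injective (algebraMap ℂ[X] (R4 d)) :=
  fun _ _ h => congrArg R4.z h

theorem R4.gen_of (d : Dat ℂ[X]) [IsDomain (R4 d)] {K : Type} [Field K] [Algebra ℂ K]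
    (φ : R4 d →+* K) (hφ : ∀ c : ℂ, φ (R4.base d c) = algebraMap ℂ K c)
    (hinj : Function.Injective φ) (hsurj : ∀ z : K, ∃ n m : R4 d, m ≠ 0 ∧ z * φ m = φ n) :
    Transcendental ℂ (φ (algebraMap ℂ[X] (R4 d) X)) ∧
    (∀ p : ℂ[X], aeval (φ (algebraMap ℂ[X] (R4 d) X)) p = φ (algebraMap ℂ[X] (R4 d) p)) ∧
    ∀ z : K, ∃ (r : ℂ[X]) (m : R4 d), r ≠ 0 ∧ z * φ (algebraMap ℂ[X] (R4 d) r) = φ m := by
  have key : ∀ p : ℂ[X], aeval (φ (algebraMap ℂ[X] (R4 d) X)) p = φ (algebraMap ℂ[X] (R4 d) p) := by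
    intro p
    have h1 : (aeval (φ (algebraMap ℂ[X] (R4 d) X)) : ℂ[X] →ₐ[ℂ] K).toRingHom =
        φ.comp (algebraMap ℂ[X] (R4 d)) := by
      apply Polynomial.ringHom_ext
      · intro c
        change aeval _ (C c) = φ (R4.base d c)
        rw [aeval_C, hφ]
      · change aeval _ X = _
        rw [aeval_X]
        rfl
    exact congrArg (fun χ : ℂ[X] →+* K => χ p) h1
  refine ⟨?_, key, ?_⟩
  · rintro ⟨p, hp, h0⟩
    rw [key, ← map_zero φ] at h0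
    exact hp (algebraMap_R4_injective d ((hinj h0).trans (map_zero _).symm))
  · intro z
    obtain ⟨n, m, hm, hz⟩ := hsurj z
    have hint : IsIntegral ℂ[X] m := Algebra.IsIntegral.isIntegral m
    obtain ⟨r, hr, t, ht⟩ := hint.isAlgebraic.exists_nonzero_dvd
      (mem_nonZeroDivisors_of_ne_zero hm)
    refine ⟨r, n * t, hr, ?_⟩
    rw [ht, map_mul, map_mul, ← hz]
    ring

theorem gluA_hg : gluA.d.g = (X ^ 2 - 1) * (X ^ 6 + 1) := Cond1.g_eq ptA_i ptA_q ptA_r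

theorem gluA_hc : gluA.d.c ≠ 0 := Cond1.c_ne ptA_i

theorem isDomain_A : IsDomain (R4 gluA.d) := by
  refine R4.isDomain_of two_ne_zero _ ?_ gluA_hc
    (Or.inr (Cond1.dom_h ptA_i ptA_q ptA_r (by norm_num)))
  rw [gluA_hg]
  exact nonSquare_g two_ne_zero

theorem isDomain_A' : IsDomain (R4 gluA.d') := Glu.isDomain_B gluA isDomain_A

theorem isDomain_B : IsDomain (R4 gluB.d) := by
  refine R4.isDomain_of two_ne_zero _ ?_ (Cond2.c_ne (by norm_num) ptB_j)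
    (Or.inr (Cond2.dom_zero ptB_q ptB_s ptB_e ptB_j rfl))
  have h : gluB.d.g = (X ^ 2 - 1) * (X ^ 6 + 1) := Cond2.g_eq ptB_q ptB_s ptB_e ptB_j
  rw [h]
  exact nonSquare_g two_ne_zero

theorem isDomain_B' : IsDomain (R4 gluB.d') := Glu.isDomain_B gluB isDomain_B

theorem gluA_b₁ : gluA.d.b₁ = 0 := by
  change C (0 : ℂ) = 0
  exact map_zero _

theorem gluA_a : gluA.d.a = 0 := by
  change C (0 : ℂ) * _ = 0
  rw [map_zero, zero_mul]

theorem gluA_A₁ : gluA.d.A₁ = 9 * (X ^ 2 + 1) * (X - 1) := by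
  have h := dat₁_A₁ (u := (X : ℂ[X])) (Cond1.C_hi ptA_i) (Cond1.C_hq ptA_q) (Cond1.C_hr ptA_r)
  refine Eq.trans h ?_
  have h1 : (C (-1) : ℂ[X]) = -1 := by rw [map_neg, map_one]
  have h3 : (C 3 : ℂ[X]) = 3 := map_ofNat C 3
  rw [h1, h3]
  ring

theorem gluB_b₁ : gluB.d.b₁ = 0 := by
  change C (0 : ℂ) * _ = 0
  rw [map_zero, zero_mul]

theorem gluB_b₂ : gluB.d.b₂ = -1 := by
  change 2 * C (0 : ℂ) * X ^ 2 - 1 = -1
  rw [map_zero]
  ring

theorem gluB_b₃ : gluB.d.b₃ = 0 := by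
  change C (1 : ℂ) * C (0 : ℂ) * _ = 0
  rw [map_zero, mul_zero, zero_mul]

theorem gluB_a : gluB.d.a = 0 := by
  change C (1 / 2 : ℂ) * C (1 : ℂ) * C (0 : ℂ) * _ = 0
  rw [map_zero, mul_zero, zero_mul]

theorem gluB_b : gluB.d.b = (X + 1) * (X ^ 6 + 1) := by
  change C (1 : ℂ) * h₂ (C 0) (C 1) X = _
  simp only [h₂, map_zero, map_one]
  ring

theorem gluB_c : gluB.d.c = X - 1 := by
  change c₂ (C (0 : ℂ)) (C 1) X = _
  simp only [c₂, map_zero, map_one]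
  ring

theorem genB {K : Type} [Field K] [Algebra ℂ K] (κ : R4 gluB.d →+* K)
    (hinj : Function.Injective κ)
    (htr : Transcendental ℂ (κ (algebraMap ℂ[X] (R4 gluB.d) X)))
    (key : ∀ p : ℂ[X], aeval (κ (algebraMap ℂ[X] (R4 gluB.d) X)) p =
      κ (algebraMap ℂ[X] (R4 gluB.d) p))
    (hs : ∀ z : K, ∃ (r : ℂ[X]) (m : R4 gluB.d), r ≠ 0 ∧
      z * κ (algebraMap ℂ[X] (R4 gluB.d) r) = κ m) :
    Transcendental ℂ (κ (R4.E gluB.d)) ∧
    κ (R4.F gluB.d) ^ 2 = -(2 - κ (R4.E gluB.d) ^ 2) * ((1 - κ (R4.E gluB.d) ^ 2) ^ 6 + 1) ∧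
    ∀ t : K, ∃ p q r : ℂ[X], aeval (κ (R4.E gluB.d)) r ≠ 0 ∧
      t * aeval (κ (R4.E gluB.d)) r =
        aeval (κ (R4.E gluB.d)) p + aeval (κ (R4.E gluB.d)) q * κ (R4.F gluB.d) := by
  set U := κ (algebraMap ℂ[X] (R4 gluB.d) X) with hU
  set x := κ (R4.E gluB.d) with hx
  set z := κ (R4.F gluB.d) with hz
  have hA₁ : gluB.d.A₁ = 1 - X := by
    rw [Dat.A₁, gluB_a, gluB_b₁, gluB_b₂, gluB_c]
    ring
  have hA₂ : gluB.d.A₂ = 0 := by
    rw [Dat.A₂, gluB_a, gluB_b₃]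
    ring
  have hA₃ : gluB.d.A₃ = -((X + 1) * (X ^ 6 + 1)) := by
    rw [Dat.A₃, gluB_a, gluB_b, gluB_b₂]
    ring
  have hEE : x * x = 1 - U := by
    have h := congrArg κ (R4.E_mul_E (d := gluB.d))
    rw [map_mul, hA₁, gluB_b₁, map_zero, zero_mul, add_zero, ← key] at h
    rw [h]
    simp
  have hFF : z * z = -((U + 1) * (U ^ 6 + 1)) := by
    have h := congrArg κ (R4.F_mul_F (d := gluB.d))
    rw [map_mul, hA₃, gluB_b₃, map_zero, zero_mul, add_zero, ← key] at h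
    rw [h]
    simp
  have hEF : κ (R4.Y gluB.d) = -(x * z) := by
    have h := congrArg κ (R4.E_mul_F (d := gluB.d))
    rw [map_mul, hA₂, gluB_b₂, map_add, map_zero, map_zero, zero_add, map_mul, ← key, map_neg,
      map_one] at h
    rw [← hx, ← hz] at h
    rw [h]
    ring
  have hUx : U = 1 - x ^ 2 := by rw [sq, hEE]; ring
  have hcomp : ∀ p : ℂ[X], κ (algebraMap ℂ[X] (R4 gluB.d) p) = aeval x (p.comp (1 - X ^ 2)) := by
    intro p
    rw [← key, hUx, aeval_comp]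
    simp
  refine ⟨?_, ?_, ?_⟩
  · intro hal
    apply htr
    rw [hUx]
    exact (isAlgebraic_one).sub (hal.pow 2)
  · rw [sq, hFF, hUx]
    ring
  · intro t
    obtain ⟨r, m, hr, hm⟩ := hs t
    refine ⟨m.z.comp (1 - X ^ 2) + m.e.comp (1 - X ^ 2) * X,
      m.f.comp (1 - X ^ 2) - m.y.comp (1 - X ^ 2) * X, r.comp (1 - X ^ 2), ?_, ?_⟩
    · rw [← hcomp]
      intro h0
      exact hr (algebraMap_R4_injective _ ((hinj (h0.trans (map_zero _).symm)).trans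
        (map_zero _).symm))
    · have hm' : κ m = κ (algebraMap ℂ[X] (R4 gluB.d) m.z) +
          κ (algebraMap ℂ[X] (R4 gluB.d) m.y) * κ (R4.Y gluB.d) +
          κ (algebraMap ℂ[X] (R4 gluB.d) m.e) * κ (R4.E gluB.d) +
          κ (algebraMap ℂ[X] (R4 gluB.d) m.f) * κ (R4.F gluB.d) := by
        conv_lhs => rw [R4.eq_sum m]
        simp only [map_add, map_mul]
      rw [← hcomp, hm, hm', hEF]
      simp only [map_add, map_sub, map_mul, ← hcomp, aeval_X, ← hx, ← hz]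
      ring

theorem genA {K : Type} [Field K] [Algebra ℂ K] (κ : R4 gluA.d →+* K)
    (hinj : Function.Injective κ)
    (key : ∀ p : ℂ[X], aeval (κ (algebraMap ℂ[X] (R4 gluA.d) X)) p =
      κ (algebraMap ℂ[X] (R4 gluA.d) p))
    (hs : ∀ z : K, ∃ (r : ℂ[X]) (m : R4 gluA.d), r ≠ 0 ∧
      z * κ (algebraMap ℂ[X] (R4 gluA.d) r) = κ m) :
    κ (R4.E gluA.d) ^ 2 = 9 * (κ (algebraMap ℂ[X] (R4 gluA.d) X) ^ 2 + 1) *
      (κ (algebraMap ℂ[X] (R4 gluA.d) X) - 1) ∧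
    κ (R4.Y gluA.d) ^ 2 = (κ (algebraMap ℂ[X] (R4 gluA.d) X) ^ 2 - 1) *
      (κ (algebraMap ℂ[X] (R4 gluA.d) X) ^ 6 + 1) ∧
    ∀ t : K, ∃ p₀ p₁ p₂ p₃ r : ℂ[X], aeval (κ (algebraMap ℂ[X] (R4 gluA.d) X)) r ≠ 0 ∧
      t * aeval (κ (algebraMap ℂ[X] (R4 gluA.d) X)) r =
        aeval (κ (algebraMap ℂ[X] (R4 gluA.d) X)) p₀ +
        aeval (κ (algebraMap ℂ[X] (R4 gluA.d) X)) p₁ * κ (R4.E gluA.d) +
        aeval (κ (algebraMap ℂ[X] (R4 gluA.d) X)) p₂ * κ (R4.Y gluA.d) +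
        aeval (κ (algebraMap ℂ[X] (R4 gluA.d) X)) p₃ * (κ (R4.E gluA.d) * κ (R4.Y gluA.d)) := by
  set U := κ (algebraMap ℂ[X] (R4 gluA.d) X) with hU
  set W := κ (R4.E gluA.d) with hW
  set Y := κ (R4.Y gluA.d) with hY
  refine ⟨?_, ?_, ?_⟩
  · have h := congrArg κ (R4.E_mul_E (d := gluA.d))
    rw [map_mul, gluA_A₁, gluA_b₁, map_zero, zero_mul, add_zero, ← key] at h
    rw [sq, h]
    simp only [map_mul, map_add, map_sub, map_pow, map_one, map_ofNat, aeval_X]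
  · have h := congrArg κ (R4.Y_mul_Y (d := gluA.d))
    rw [map_mul, gluA_hg, ← key] at h
    rw [sq, h]
    simp
  · intro t
    obtain ⟨r, m, hr, hm⟩ := hs t
    have hYE : κ (algebraMap ℂ[X] (R4 gluA.d) gluA.d.c) * κ (R4.F gluA.d) = Y * W := by
      have h := congrArg κ (R4.Y_mul_E (d := gluA.d))
      rw [gluA_a, map_zero, zero_mul, zero_add, map_mul, map_mul] at h
      exact h.symm
    refine ⟨gluA.d.c * m.z, gluA.d.c * m.e, gluA.d.c * m.y, m.f, gluA.d.c * r, ?_, ?_⟩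
    · rw [key]
      intro h0
      exact mul_ne_zero gluA_hc hr (algebraMap_R4_injective _
        ((hinj (h0.trans (map_zero _).symm)).trans (map_zero _).symm))
    · have hm' : κ m = κ (algebraMap ℂ[X] (R4 gluA.d) m.z) +
          κ (algebraMap ℂ[X] (R4 gluA.d) m.y) * Y +
          κ (algebraMap ℂ[X] (R4 gluA.d) m.e) * W +
          κ (algebraMap ℂ[X] (R4 gluA.d) m.f) * κ (R4.F gluA.d) := by
        conv_lhs => rw [R4.eq_sum m]
        simp only [map_add, map_mul, hW, hY]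
      simp only [key, map_mul]
      rw [hm'] at hm
      linear_combination κ (algebraMap ℂ[X] (R4 gluA.d) gluA.d.c) * hm +
        κ (algebraMap ℂ[X] (R4 gluA.d) m.f) * hYE

/-- The curves over the points `-1` and infinity are not isomorphic. -/
theorem gluA_gluB_not_iso (e : gluB.curve.X ≅ gluA.curve.X)
    (he : e.hom ≫ gluA.curve.toSpec = gluB.curve.toSpec) : False := by
  have d1 := isDomain_A
  have d2 := isDomain_A'
  have d3 := isDomain_B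
  have d4 := isDomain_B'
  have hu : ∀ d : Dat ℂ[X], algebraMap ℂ[X] (R4 d) X ≠ 0 := by
    intro d h
    exact X_ne_zero (algebraMap_R4_injective d (h.trans (map_zero _).symm))
  obtain ⟨θ, hθ, hθa, hθs⟩ := @TwoCharts.iso_field _ gluB.curve gluA.curve d3 d4 d1 d2
    (hu _) (hu _) e he
  let K : Type := FractionRing (R4 gluB.d)
  let κ : R4 gluB.d →+* K := algebraMap _ _
  let θ' : R4 gluA.d →+* K := θ
  have hκ : Function.Injective κ := IsFractionRing.injective _ _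
  let alg : Algebra ℂ K := (κ.comp (R4.base gluB.d)).toAlgebra
  have halg : ∀ c : ℂ, κ (R4.base gluB.d c) = @algebraMap ℂ K _ _ alg c := fun c => rfl
  have halg' : ∀ c : ℂ, θ' (R4.base gluA.d c) = @algebraMap ℂ K _ _ alg c := fun c =>
    congrArg (fun χ : ℂ →+* K => χ c) hθa
  obtain ⟨tB, aB, gB⟩ := @R4.gen_of gluB.d d3 K _ alg κ halg hκ (fun z => frac_surj z)
  obtain ⟨tA, aA, gA⟩ := @R4.gen_of gluA.d d1 K _ alg θ' halg' hθ hθs
  obtain ⟨b1, b2, b3⟩ := @genB K _ alg κ hκ tB aB gB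
  obtain ⟨a1, a2, a3⟩ := @genA K _ alg θ' hθ aA gA
  exact @noniso6 K _ alg _ _ _ _ _ b1 b2 b3 tA a1 a2 a3

/-- The moduli space of curves of genus six contains a projective line. -/
theorem main6 (𝓜 : CoarseModuliSpace 6) :
    ∃ f : ProjLine ⟶ 𝓜.M, f ≫ 𝓜.str = ProjLine.str ∧
      ProjLine.pt (-1) ≫ f ≠ ProjLine.infty ≫ f := by
  have := 𝓜.separated
  obtain ⟨F, hF, hA, hB⟩ := exists_projLine 𝓜.str 𝓜.rule
  refine ⟨F, hF, ?_⟩
  intro heq
  rw [hA, hB] at heq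
  obtain ⟨e, he⟩ := 𝓜.points_injective _ _ famB famA heq.symm
  exact gluA_gluB_not_iso e he

end Pool.Agent.Work.MP_2eb777_ag
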