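import Pool.Agent.Work.MP_2eb777_ag.Q1.ChgOps
import Pool.Agent.Work.MP_2eb777_ag.Q1.Data2

set_option autoImplicit false

open CategoryTheory CategoryTheory.Limits AlgebraicGeometry Polynomial

namespace Pool.Agent.Work.MP_2eb777_ag

section

variable {S : Type} [CommRing S] {x q s e j i w y u : S}

theorem dat₂_eq_mk₁ (hj : 2 * j = 1) (hy : y * x = 1) :
    dat₂ x q s e j u hj = Dat.mk₁ (x * s) (2 * x * u ^ 2 - 1) (j * e * y * e₂ x q u)
      (c₂ x q u) (e * y * g₂ x u) := by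
  ext
  · rfl
  · rfl
  · simp only [dat₂, Dat.mk₁]
    linear_combination (-(e * s * g₂ x u)) * hy
  · simp only [dat₂, Dat.mk₁]
    linear_combination (-(j * e * s * e₂ x q u)) * hy
  · simp only [dat₂, Dat.mk₁]
    have h1 : x * h₂ x q u = (2 * x * u ^ 2 - 1) * e₂ x q u + c₂ x q u * g₂ x u := by
      simp only [h₂, e₂, c₂, g₂]
      ring
    linear_combination (-(e * h₂ x q u)) * hy + (e * y) * h1 -
      ((2 * x * u ^ 2 - 1) * e * y * e₂ x q u) * hj
  · rfl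

variable (hw : w ^ 2 = x) (hy : y * x = 1) (hi : 36 * i = 1)
  (hq : q ^ 2 = 1 - 4 * x - 8 * x ^ 3 - 4 * x ^ 4)
  (hs : s ^ 2 = 4 * x * ((1 + x ^ 3) * (1 - 8 * x ^ 3)))
  (he : e * ((1 + x ^ 3) * (1 - 8 * x ^ 3)) = 1) (hj : 2 * j = 1)

include hy hq in
theorem overlap_q : (y ^ 2 * q) ^ 2 = y ^ 4 - 4 * y ^ 3 - 8 * y - 4 := by
  linear_combination y ^ 4 * hq - (4 * y ^ 3 + 8 * y * (x ^ 2 * y ^ 2 + x * y + 1) +
    4 * (x * y + 1) * (x ^ 2 * y ^ 2 + 1)) * hy

include hy hs in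
theorem overlap_s : (y ^ 4 * s) ^ 2 = 4 * (y ^ 4 - 8 * y) * (y ^ 3 + 1) := by
  have h3 : y ^ 3 * x ^ 3 = 1 := by rw [← mul_pow, hy, one_pow]
  linear_combination y ^ 8 * hs + (4 * y ^ 7 * ((1 + x ^ 3) * (1 - 8 * x ^ 3))) * hy +
    (4 * y * (y ^ 3 * (1 - 8 * x ^ 3)) - 32 * y * (y ^ 3 + 1)) * h3

/-- The change of basis on the first charts. -/
def chgOverlap : Chg (dat₂ x q s e j u hj) (dat₁ y (y ^ 2 * q) (y ^ 4 * s) i u) :=
  Chg.congr (dat₂_eq_mk₁ hj hy).symm rfl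
    (Chg.mk₁ (x * s) (2 * x * u ^ 2 - 1) (j * e * y * e₂ x q u) (c₂ x q u) (e * y * g₂ x u)
      (y ^ 4 * s) (l₁ y (y ^ 2 * q) i u) (f₁ y (y ^ 2 * q) i u) (c₁ y (y ^ 2 * q) u)
      (g₁ y (y ^ 2 * q) i u) (w ^ 5) (w ^ 9) (j ^ 2 * y ^ 2 * e * s) (w ^ 5 * y ^ 5)
      (w ^ 9 * y ^ 9)
      (by
        linear_combination (j ^ 2 * y ^ 2 * e * x) * hs + 4 * j ^ 2 * y ^ 2 * x ^ 2 * he +
          4 * j ^ 2 * (y * x + 1) * hy + (2 * j + 1) * hj)
      (by
        have h5 : y ^ 5 * x ^ 5 = 1 := by rw [← mul_pow, hy, one_pow]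
        linear_combination y ^ 5 * (w ^ 8 + w ^ 6 * x + w ^ 4 * x ^ 2 + w ^ 2 * x ^ 3 + x ^ 4) * hw +
          h5)
      (by
        have h9 : y ^ 9 * x ^ 9 = 1 := by rw [← mul_pow, hy, one_pow]
        linear_combination y ^ 9 * (w ^ 16 + w ^ 14 * x + w ^ 12 * x ^ 2 + w ^ 10 * x ^ 3 +
          w ^ 8 * x ^ 4 + w ^ 6 * x ^ 5 + w ^ 4 * x ^ 6 + w ^ 2 * x ^ 7 + x ^ 8) * hw + h9)
      (by
        have h4 : y ^ 4 * x ^ 4 = 1 := by rw [← mul_pow, hy, one_pow]
        linear_combination (-(y ^ 4 * s * (w ^ 8 + w ^ 6 * x + w ^ 4 * x ^ 2 + w ^ 2 * x ^ 3 +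
          x ^ 4))) * hw - (x * s) * h4)
      (by
        have h1 := dat₂_A₁ (q := q) (u := u) hs he hj
        have h2 := dat₁_A₁ (u := u) hi (overlap_q hy hq) (overlap_s hy hs)
        rw [dat₂_eq_mk₁ hj hy] at h1
        simp only [Dat.mk₁, Dat.A₁] at h1
        simp only [dat₁, Dat.mk₁, Dat.A₁] at h2
        have h5 : (w ^ 5) ^ 2 = x ^ 5 := by rw [← hw]; ring
        rw [h5]
        linear_combination h1 - x ^ 5 * h2 + (x^4*y^4*q*u - x^4*y^4 - 3*x^4*y^3*q*u^3 +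
          5*x^4*y^3*u^2 - 4*x^4*y^2*u^4 - 2*x^4*y*q*u + 8*x^4*y - 4*x^4*u^2 + x^3*y^3*q*u -
          x^3*y^3 - 3*x^3*y^2*q*u^3 + 5*x^3*y^2*u^2 - 4*x^3*y*u^4 - 2*x^3*q*u + 8*x^3 +
          x^2*y^2*q*u - x^2*y^2 - 3*x^2*y*q*u^3 + 5*x^2*y*u^2 - 4*x^2*u^4 + x*y*q*u - x*y -
          3*x*q*u^3 + 5*x*u^2 + q*u - 1) * hy)
      (by
        have h1 := dat₂_κ (q := q) (u := u) hs he hj
        have h2 := dat₁_κ (u := u) hi (overlap_q hy hq) (overlap_s hy hs)
        rw [dat₂_eq_mk₁ hj hy] at h1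
        simp only [Dat.mk₁, Dat.κ] at h1
        simp only [dat₁, Dat.mk₁, Dat.κ] at h2
        have h5 : (w ^ 5) ^ 2 = x ^ 5 := by rw [← hw]; ring
        have h9 : (w ^ 9) ^ 2 = x ^ 9 := by rw [← hw]; ring
        rw [h5, h9]
        linear_combination x ^ 5 * h1 - x ^ 9 * h2 + (x^8*y^3 - 4*x^8*y^2*u^2 - 8*x^8 + x^7*y^2 -
          4*x^7*y*u^2 + x^6*y - 4*x^6*u^2 + x^5) * hy)
      (by
        have h15 : (w ^ 5) ^ 3 = w ^ 9 * x ^ 3 := by rw [← hw]; ring
        rw [h15]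
        simp only [c₁, c₂]
        linear_combination (w ^ 9 * (- x^2*y^2*q*u + x^2*y^2 + x^2*y*q*u^3 - 3*x^2*y*u^2 -
          x*y*q*u + x*y + x*q*u^3 - 3*x*u^2 - q*u + 1)) * hy))

include hy hs he hj in
theorem overlap_inv : j ^ 2 * y ^ 2 * e * s * s = y := by
  linear_combination (j ^ 2 * y ^ 2 * e) * hs + 4 * j ^ 2 * y ^ 2 * x * he +
    4 * j ^ 2 * y * hy + y * (2 * j + 1) * hj

include hw hy hs he hj in
theorem overlap_s_coef : j ^ 2 * y ^ 2 * e * s * w ^ 9 * (y ^ 4 * s) = w * y := by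
  have h1 := overlap_inv hy hs he hj
  have h9 : w ^ 9 = w * x ^ 4 := by rw [← hw]; ring
  have h4 : y ^ 4 * x ^ 4 = 1 := by rw [← mul_pow, hy, one_pow]
  rw [h9]
  linear_combination (w * x ^ 4 * y ^ 4) * h1 + (w * y) * h4

variable {v L L' : S} (huv : u * v = 1) (hL : L' = v * L)

include hw hy hs he hj huv hL in
theorem overlap_hp : v * w ^ 5 + -(j * s) * v ^ 3 * (j ^ 2 * y ^ 2 * e * s *
    ((2 * x * u ^ 2 - 1) * w ^ 5 - w ^ 9 * L)) = j * w ^ 5 * y * (v + x ^ 2 * L') * v ^ 2 := by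
  have h1 := overlap_inv hy hs he hj
  have h9 : w ^ 9 = w ^ 5 * x ^ 2 := by rw [← hw]; ring
  rw [h9, hL]
  linear_combination (-(j * v ^ 3 * ((2 * x * u ^ 2 - 1) * w ^ 5 - w ^ 5 * x ^ 2 * L))) * h1 -
    (2 * j * v ^ 3 * u ^ 2 * w ^ 5) * hy - (v ^ 3 * u ^ 2 * w ^ 5) * hj -
    (v * w ^ 5) * (u * v + 1) * huv

include hw huv hL in
theorem overlap_hr (ρ : S) : v ^ 4 * (ρ * ((2 * x * u ^ 2 - 1) * w ^ 5 - w ^ 9 * L)) =
    w ^ 5 * ρ * (2 * x - v ^ 2 - x ^ 2 * v * L') * v ^ 2 := by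
  have h9 : w ^ 9 = w ^ 5 * x ^ 2 := by rw [← hw]; ring
  rw [h9, hL]
  linear_combination (2 * x * w ^ 5 * ρ * v ^ 2) * (u * v + 1) * huv

include hw hy hs he hj in
theorem overlap_det : y ^ 2 * (j * w ^ 5 * y * (v + x ^ 2 * L') * (v * w * y) -
    (-(j * s * (w * y))) * (w ^ 5 * (j ^ 2 * y ^ 2 * e * s) *
      (2 * x - v ^ 2 - x ^ 2 * v * L'))) = 1 := by
  have h1 := overlap_inv hy hs he hj
  have h6 : w ^ 6 = x ^ 3 := by rw [← hw]; ring
  linear_combination (y ^ 3 * j * w ^ 6 * (2 * x - v ^ 2 - x ^ 2 * v * L')) * h1 +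
    (2 * x * y ^ 4 * j) * h6 + (x ^ 4 * y ^ 4) * hj +
    (x ^ 3 * y ^ 3 + x ^ 2 * y ^ 2 + x * y + 1) * hy

end

theorem scL_id {R : Type} [CommRing R] (z : LaurentPolynomial R) :
    scL (RingHom.id R) 1 z = z := by
  induction z using LaurentPolynomial.induction_on' with
  | add p q hp hq => rw [map_add, hp, hq]
  | C_mul_T n a => simp

theorem sc_id {R : Type} [CommRing R] (z : R[X]) :
    sc (RingHom.id R) ((1 : Rˣ) : R) z = z := by
  have h : sc (RingHom.id R) ((1 : Rˣ) : R) = RingHom.id _ := by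
    apply Polynomial.ringHom_ext
    · intro r
      simp
    · simp
  rw [h, RingHom.id_apply]

theorem Dat.map_sc_id {R : Type} [CommRing R] (d : Dat R[X]) :
    d.map (sc (RingHom.id R) ((1 : Rˣ) : R)) = d := by
  ext <;> simp only [Dat.map, sc_id]

theorem map_l₁ {S S' : Type} [CommRing S] [CommRing S'] (φ : S →+* S') (x q i u : S) :
    φ (l₁ x q i u) = l₁ (φ x) (φ q) (φ i) (φ u) := by
  simp only [l₁, map_mul, map_add, map_sub, map_pow, map_ofNat, map_one]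

theorem map_l₁' {S S' : Type} [CommRing S] [CommRing S'] (φ : S →+* S') (x q i v : S) :
    φ (l₁' x q i v) = l₁' (φ x) (φ q) (φ i) (φ v) := by
  simp only [l₁', map_mul, map_add, map_sub, map_pow, map_ofNat, map_one]

/-- The two families are isomorphic over the overlap. -/
noncomputable def overlapHom {R : Type} [CommRing R] {x q s e j i w y : R} (hw : w ^ 2 = x)
    (hy : y * x = 1) (hi : 36 * i = 1) (hq : q ^ 2 = 1 - 4 * x - 8 * x ^ 3 - 4 * x ^ 4)
    (hs : s ^ 2 = 4 * x * ((1 + x ^ 3) * (1 - 8 * x ^ 3)))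
    (he : e * ((1 + x ^ 3) * (1 - 8 * x ^ 3)) = 1) (hj : 2 * j = 1) :
    Glu.Hom (RingHom.id R) 1 (glu₂ x q s e j hs he hj) (glu₁ y (y ^ 2 * q) (y ^ 4 * s) i) :=
  have hw' : (C w : R[X]) ^ 2 = C x := by rw [← map_pow, hw]
  have hy' : (C y : R[X]) * C x = 1 := by rw [← map_mul, hy, map_one]
  have hi' : 36 * (C i : R[X]) = 1 := by
    simpa only [map_mul, map_one, map_ofNat] using congrArg (C : R →+* R[X]) hi
  have hq' : (C q : R[X]) ^ 2 = 1 - 4 * C x - 8 * C x ^ 3 - 4 * C x ^ 4 := by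
    simpa only [map_pow, map_mul, map_sub, map_one, map_ofNat] using congrArg (C : R →+* R[X]) hq
  have hs' : (C s : R[X]) ^ 2 = 4 * C x * ((1 + C x ^ 3) * (1 - 8 * C x ^ 3)) := by
    simpa only [map_pow, map_mul, map_sub, map_add, map_one, map_ofNat] using
      congrArg (C : R →+* R[X]) hs
  have he' : (C e : R[X]) * ((1 + C x ^ 3) * (1 - 8 * C x ^ 3)) = 1 := by
    simpa only [map_pow, map_mul, map_sub, map_add, map_one, map_ofNat] using
      congrArg (C : R →+* R[X]) he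
  have hj' : 2 * (C j : R[X]) = 1 := by
    simpa only [map_mul, map_one, map_ofNat] using congrArg (C : R →+* R[X]) hj
  Glu.Hom.ofCompat
    (Chg.congr (Dat.map_sc_id _).symm
      (by
        change _ = dat₁ (C y) (C (y ^ 2 * q)) (C (y ^ 4 * s)) (C i) X
        rw [map_mul, map_mul, map_pow, map_pow])
      (chgOverlap (u := (X : R[X])) hw' hy' hi' hq' hs' he' hj'))
    1 1 (C j * C w ^ 5 * C y * (X + C x ^ 2 * l₁' (C y) (C y ^ 2 * C q) (C i) X))
    (-(C j * C s * (C w * C y)))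
    (C w ^ 5 * (C j ^ 2 * C y ^ 2 * C e * C s) *
      (2 * C x - X ^ 2 - C x ^ 2 * X * l₁' (C y) (C y ^ 2 * C q) (C i) X))
    (X * C w * C y) (C y ^ 2) (one_mul 1)
    (overlap_det hw' hy' hs' he' hj')
    (by
      rw [scL_id]
      change toLaurentInv X ^ 4 * toLaurent 1 = toLaurentInv 1 * toLaurentInv X ^ 4
      rw [map_one, map_one, mul_one, one_mul])
    (by
      rw [scL_id, scL_id]
      change toLaurentInv X * toLaurent (C w ^ 5) + -(toLaurent (C j) * toLaurent (C s)) *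
        toLaurentInv X ^ 3 * toLaurent (C j ^ 2 * C y ^ 2 * C e * C s *
          ((2 * C x * X ^ 2 - 1) * C w ^ 5 - C w ^ 9 * l₁ (C y) (C y ^ 2 * C q) (C i) X)) =
        toLaurentInv (C j * C w ^ 5 * C y *
          (X + C x ^ 2 * l₁' (C y) (C y ^ 2 * C q) (C i) X)) * toLaurentInv X ^ 2 + _ * 0
      have hw'' := congrArg (toLaurent : R[X] →+* _) hw'
      have hy'' := congrArg (toLaurent : R[X] →+* _) hy'
      have hs'' := congrArg (toLaurent : R[X] →+* _) hs'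
      have he'' := congrArg (toLaurent : R[X] →+* _) he'
      have hj'' := congrArg (toLaurent : R[X] →+* _) hj'
      simp only [map_pow, map_mul, map_sub, map_add, map_one, map_ofNat] at hw'' hy'' hs'' he'' hj''
      have h := overlap_hp hw'' hy'' hs'' he'' hj'' (toLaurent_X_mul (R := R))
        (l₁_chg (x := toLaurent (C y)) (q := toLaurent (C y) ^ 2 * toLaurent (C q))
          (i := toLaurent (C i)) (toLaurent_X_mul (R := R)))
      simp only [map_mul, map_add, map_sub, map_pow, map_ofNat, map_one, map_l₁, map_l₁',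
        toLaurentInv_C]
      rw [mul_zero, add_zero]
      exact h)
    (by
      rw [scL_id, scL_id]
      change toLaurentInv X * toLaurent 0 + -(toLaurent (C j) * toLaurent (C s)) *
        toLaurentInv X ^ 3 * toLaurent (C j ^ 2 * C y ^ 2 * C e * C s * C w ^ 9 *
          (C y ^ 4 * C s)) = _ * 0 + toLaurentInv (-(C j * C s * (C w * C y))) *
            toLaurentInv X ^ 3
      rw [overlap_s_coef hw' hy' hs' he' hj']
      simp only [map_mul, map_neg, map_zero, toLaurentInv_C]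
      ring)
    (by
      rw [scL_id, scL_id]
      change 0 * _ + toLaurentInv X ^ 4 * toLaurent (C j ^ 2 * C y ^ 2 * C e * C s *
          ((2 * C x * X ^ 2 - 1) * C w ^ 5 - C w ^ 9 * l₁ (C y) (C y ^ 2 * C q) (C i) X)) =
        toLaurentInv (C w ^ 5 * (C j ^ 2 * C y ^ 2 * C e * C s) *
          (2 * C x - X ^ 2 - C x ^ 2 * X * l₁' (C y) (C y ^ 2 * C q) (C i) X)) *
          toLaurentInv X ^ 2 + _ * 0
      have hw'' := congrArg (toLaurent : R[X] →+* _) hw'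
      simp only [map_pow] at hw''
      have h := overlap_hr hw'' (toLaurent_X_mul (R := R))
        (l₁_chg (x := toLaurent (C y)) (q := toLaurent (C y) ^ 2 * toLaurent (C q))
          (i := toLaurent (C i)) (toLaurent_X_mul (R := R)))
        (toLaurent (C j) ^ 2 * toLaurent (C y) ^ 2 * toLaurent (C e) * toLaurent (C s))
      simp only [map_mul, map_add, map_sub, map_pow, map_ofNat, map_one, map_l₁, map_l₁',
        toLaurentInv_C]
      rw [mul_zero, add_zero, zero_mul, zero_add]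
      exact h)
    (by
      rw [scL_id, scL_id]
      change 0 * _ + toLaurentInv X ^ 4 * toLaurent (C j ^ 2 * C y ^ 2 * C e * C s * C w ^ 9 *
          (C y ^ 4 * C s)) = _ * 0 + toLaurentInv (X * C w * C y) * toLaurentInv X ^ 3
      rw [overlap_s_coef hw' hy' hs' he' hj']
      simp only [map_mul, toLaurentInv_C]
      ring)

end Pool.Agent.Work.MP_2eb777_ag
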