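import Pool.Agent.Work.MP_2eb777_ag.Defs
import Pool.Agent.Work.MP_2eb777_ag.Curve

set_option autoImplicit false

open CategoryTheory CategoryTheory.Limits AlgebraicGeometry Polynomial

namespace Pool.Agent.Work.MP_2eb777_ag

/-- The homomorphism `ℂ[t] → ℂ[T, T⁻¹]`, `t ↦ T`. -/
noncomputable abbrev chartZero : ℂ[X] →+* LaurentPolynomial ℂ := Polynomial.toLaurent

/-- The homomorphism `ℂ[t] → ℂ[T, T⁻¹]`, `t ↦ T⁻¹`. -/
noncomputable abbrev chartInfty : ℂ[X] →+* LaurentPolynomial ℂ :=
  (LaurentPolynomial.invert (R := ℂ)).toRingEquiv.toRingHom.comp Polynomial.toLaurent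

instance isOpenImmersion_chartZero :
    IsOpenImmersion (Spec.map (CommRingCat.ofHom chartZero)) := by
  let := chartZero.toAlgebra
  have h : IsLocalization.Away (X : ℂ[X]) (LaurentPolynomial ℂ) := isLocalization_toLaurent
  exact IsOpenImmersion.of_isLocalization (X : ℂ[X])

instance isOpenImmersion_chartInfty :
    IsOpenImmersion (Spec.map (CommRingCat.ofHom chartInfty)) := by
  let := chartInfty.toAlgebra
  have h : IsLocalization.Away (X : ℂ[X]) (LaurentPolynomial ℂ) := isLocalization_toLaurentInv
  exact IsOpenImmersion.of_isLocalization (X : ℂ[X])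

/-- The projective line over the complex numbers: two affine lines glued along their open
subschemes `t ≠ 0` by `t ↦ 1 / t`. -/
noncomputable def ProjLine : Scheme.{0} :=
  pushout (Spec.map (CommRingCat.ofHom chartZero)) (Spec.map (CommRingCat.ofHom chartInfty))

/-- The first affine line in the projective line. -/
noncomputable def ProjLine.inl : AffLine ⟶ ProjLine := pushout.inl _ _

/-- The second affine line in the projective line. -/
noncomputable def ProjLine.inr : AffLine ⟶ ProjLine := pushout.inr _ _

/-- The structure morphism of the projective line. -/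
noncomputable def ProjLine.str : ProjLine ⟶ SpecC :=
  pushout.desc AffLine.str AffLine.str (by
    rw [← Spec.map_comp, ← Spec.map_comp, ← CommRingCat.ofHom_comp, ← CommRingCat.ofHom_comp]
    congr 2
    apply RingHom.ext
    intro c
    change toLaurent (C c) = LaurentPolynomial.invert (toLaurent (C c))
    rw [toLaurent_C, LaurentPolynomial.invert_C])

/-- The point of the projective line with coordinate `c` in the first affine line. -/
noncomputable def ProjLine.pt (c : ℂ) : SpecC ⟶ ProjLine := AffLine.pt c ≫ ProjLine.inl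

/-- The point at infinity. -/
noncomputable def ProjLine.infty : SpecC ⟶ ProjLine := AffLine.pt 0 ≫ ProjLine.inr

namespace ProjLine

/-- Morphisms out of the projective line. -/
noncomputable def desc {N : Scheme.{0}} (f g : AffLine ⟶ N)
    (h : Spec.map (CommRingCat.ofHom chartZero) ≫ f =
      Spec.map (CommRingCat.ofHom chartInfty) ≫ g) : ProjLine ⟶ N :=
  pushout.desc f g h

theorem inl_desc {N : Scheme.{0}} (f g : AffLine ⟶ N)
    (h : Spec.map (CommRingCat.ofHom chartZero) ≫ f =
      Spec.map (CommRingCat.ofHom chartInfty) ≫ g) : inl ≫ desc f g h = f :=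
  pushout.inl_desc f g h

theorem inr_desc {N : Scheme.{0}} (f g : AffLine ⟶ N)
    (h : Spec.map (CommRingCat.ofHom chartZero) ≫ f =
      Spec.map (CommRingCat.ofHom chartInfty) ≫ g) : inr ≫ desc f g h = g :=
  pushout.inr_desc f g h

theorem inl_str : inl ≫ str = AffLine.str := pushout.inl_desc _ _ _

theorem inr_str : inr ≫ str = AffLine.str := pushout.inr_desc _ _ _

theorem hom_ext {N : Scheme.{0}} {f g : ProjLine ⟶ N} (h : inl ≫ f = inl ≫ g)
    (h' : inr ≫ f = inr ≫ g) : f = g := pushout.hom_ext h h'

end ProjLine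

/-- Morphisms from the affine line to `Spec ℂ` are determined on the punctured line. -/
theorem AffLine.ext_punctured (f g : AffLine ⟶ SpecC)
    (h : Spec.map (CommRingCat.ofHom chartInfty) ≫ f =
      Spec.map (CommRingCat.ofHom chartInfty) ≫ g) : f = g := by
  obtain ⟨φ, rfl⟩ : ∃ φ, Spec.map φ = f := ⟨Spec.preimage f, Spec.map_preimage f⟩
  obtain ⟨ψ, rfl⟩ : ∃ ψ, Spec.map ψ = g := ⟨Spec.preimage g, Spec.map_preimage g⟩
  rw [← Spec.map_comp, ← Spec.map_comp] at h
  have h1 := Spec.map_injective h
  congr 1
  apply CommRingCat.hom_ext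
  apply RingHom.ext
  intro c
  have h2 : chartInfty (φ.hom c) = chartInfty (ψ.hom c) :=
    congrArg (fun χ : CommRingCat.of ℂ ⟶ CommRingCat.of (LaurentPolynomial ℂ) => χ.hom c) h1
  exact toLaurent_injective ((LaurentPolynomial.invert (R := ℂ)).injective h2)

end Pool.Agent.Work.MP_2eb777_ag
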