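import Pool.Agent.Work.MP_2eb777_ag.Q1.LineTwo
import Pool.Agent.Work.MP_2eb777_ag.Q1.GlueTwo
import Pool.Agent.Work.MP_2eb777_ag.Q1.PDefs

set_option autoImplicit false

open CategoryTheory CategoryTheory.Limits AlgebraicGeometry Polynomial

namespace Pool.Agent.Work.MP_2eb777_ag

/-- The two families have the same class over the overlap. -/
theorem rule_overlap {R : Type} [CommRing R] [Algebra ℂ R] {M : Scheme.{0}} {str : M ⟶ SpecC}
    (rule : ModuliRule 6 str) {x q s e j i w y : R} (hw : w ^ 2 = x)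
    (hy : y * x = 1) (hi : 36 * i = 1) (hq : q ^ 2 = 1 - 4 * x - 8 * x ^ 3 - 4 * x ^ 4)
    (hs : s ^ 2 = 4 * x * ((1 + x ^ 3) * (1 - 8 * x ^ 3)))
    (he : e * ((1 + x ^ 3) * (1 - 8 * x ^ 3)) = 1) (hj : 2 * j = 1)
    (h1 : IsCurveFamily 6 (glu₁ y (y ^ 2 * q) (y ^ 4 * s) i).curve.toSpec)
    (h2 : IsCurveFamily 6 (glu₂ x q s e j hs he hj).curve.toSpec) :
    rule.map _ (Spec.map (CommRingCat.ofHom (algebraMap ℂ R))) h1 =
      rule.map _ (Spec.map (CommRingCat.ofHom (algebraMap ℂ R))) h2 := by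
  have hpb := (overlapHom hw hy hi hq hs he hj).isPullback
  have h3 := rule.map_pullback _ (Spec.map (CommRingCat.ofHom (algebraMap ℂ R))) h2 _ h1 _ _ hpb
  have h4 : Spec.map (CommRingCat.ofHom (RingHom.id R)) = 𝟙 _ := Spec.map_id _
  rw [h4, Category.id_comp, Category.id_comp] at h3
  exact h3

/-- The defining property of the first morphism. -/
def PropOne {M : Scheme.{0}} {str : M ⟶ SpecC} (rule : ModuliRule 6 str) (f₁ : AffLine ⟶ M) :
    Prop :=
  ∀ (R : Type) [CommRing R] [Algebra ℂ R] (ρ : ℂ[X] →+* R)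
    (_ : ρ.comp C = algebraMap ℂ R) (x q r i : R) (_ : ρ X = x) (_ : 36 * i = 1)
    (_ : q ^ 2 = x ^ 4 - 4 * x ^ 3 - 8 * x - 4)
    (_ : r ^ 2 = 4 * (x ^ 4 - 8 * x) * (x ^ 3 + 1))
    (h : IsCurveFamily 6 (glu₁ x q r i).curve.toSpec),
    Spec.map (CommRingCat.ofHom ρ) ≫ f₁ =
      rule.map _ (Spec.map (CommRingCat.ofHom (algebraMap ℂ R))) h

/-- The defining property of the second morphism. -/
def PropTwo {M : Scheme.{0}} {str : M ⟶ SpecC} (rule : ModuliRule 6 str)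
    (f₂ : Spec (.of STwo) ⟶ M) : Prop :=
  ∀ (R : Type) [CommRing R] [Algebra ℂ R] (ρ : STwo →+* R)
    (_ : ρ.comp (algebraMap ℂ STwo) = algebraMap ℂ R) (x q s e j : R) (_ : ρ xTwo = x)
    (_ : q ^ 2 = 1 - 4 * x - 8 * x ^ 3 - 4 * x ^ 4)
    (hs : s ^ 2 = 4 * x * ((1 + x ^ 3) * (1 - 8 * x ^ 3)))
    (he : e * ((1 + x ^ 3) * (1 - 8 * x ^ 3)) = 1) (hj : 2 * j = 1)
    (h : IsCurveFamily 6 (glu₂ x q s e j hs he hj).curve.toSpec),
    Spec.map (CommRingCat.ofHom ρ) ≫ f₂ =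
      rule.map _ (Spec.map (CommRingCat.ofHom (algebraMap ℂ R))) h

theorem map_dTwo {R : Type} [CommRing R] (ρ : STwo →+* R) :
    ρ eTwo * ((1 + ρ xTwo ^ 3) * (1 - 8 * ρ xTwo ^ 3)) = 1 := by
  have h := congrArg ρ eTwo_mul
  simpa only [map_sub, map_add, map_mul, map_pow, map_ofNat, map_one] using h

/-- The two morphisms agree after a base change to a ring with the required square roots. -/
theorem overlap_T {M : Scheme.{0}} {str : M ⟶ SpecC} (rule : ModuliRule 6 str)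
    {f₁ : AffLine ⟶ M} {f₂ : Spec (.of STwo) ⟶ M} (h₁ : PropOne rule f₁) (h₂ : PropTwo rule f₂)
    {T : Type} [CommRing T] [Algebra ℂ T] [IsNoetherianRing T] (ρ₁ : ℂ[X] →+* T)
    (ρ₂ : STwo →+* T) (k1 : ρ₁.comp C = algebraMap ℂ T)
    (k2 : ρ₂.comp (algebraMap ℂ STwo) = algebraMap ℂ T) (x y w q s : T) (hx : ρ₂ xTwo = x)
    (hyy : ρ₁ X = y) (hy : y * x = 1) (hw : w ^ 2 = x)
    (hq : q ^ 2 = 1 - 4 * x - 8 * x ^ 3 - 4 * x ^ 4)
    (hs : s ^ 2 = 4 * x * ((1 + x ^ 3) * (1 - 8 * x ^ 3))) :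
    Spec.map (CommRingCat.ofHom ρ₁) ≫ f₁ = Spec.map (CommRingCat.ofHom ρ₂) ≫ f₂ := by
  have he : ρ₂ eTwo * ((1 + x ^ 3) * (1 - 8 * x ^ 3)) = 1 := by
    rw [← hx]
    exact map_dTwo ρ₂
  have hj : 2 * algebraMap ℂ T (1 / 2) = 1 := two_mul_half
  have hi : 36 * algebraMap ℂ T (1 / 36) = 1 := thirtysix_mul
  have fam1 := family₁ y (y ^ 2 * q) (y ^ 4 * s) (algebraMap ℂ T (1 / 36)) hi
    (overlap_q hy hq) (overlap_s hy hs)
  have fam2 := family₂ x q s (ρ₂ eTwo) (algebraMap ℂ T (1 / 2)) hq hs he hj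
  rw [h₁ T ρ₁ k1 y (y ^ 2 * q) (y ^ 4 * s) _ hyy hi (overlap_q hy hq) (overlap_s hy hs) fam1,
    h₂ T ρ₂ k2 x q s _ _ hx hq hs he hj fam2]
  exact rule_overlap rule hw hy hi hq hs he hj fam1 fam2

/-- The two morphisms agree on the overlap. -/
theorem overlap_O {M : Scheme.{0}} {str : M ⟶ SpecC} (rule : ModuliRule 6 str)
    {f₁ : AffLine ⟶ M} {f₂ : Spec (.of STwo) ⟶ M} (h₁ : PropOne rule f₁) (h₂ : PropTwo rule f₂)
    {O : Type} [CommRing O] [Algebra ℂ O] [Nontrivial O] [IsNoetherianRing O]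
    (ρ₁ : ℂ[X] →+* O) (ρ₂ : STwo →+* O) (k1 : ρ₁.comp C = algebraMap ℂ O)
    (k2 : ρ₂.comp (algebraMap ℂ STwo) = algebraMap ℂ O) (hy : ρ₁ X * ρ₂ xTwo = 1) :
    Spec.map (CommRingCat.ofHom ρ₁) ≫ f₁ = Spec.map (CommRingCat.ofHom ρ₂) ≫ f₂ := by
  let x : O := ρ₂ xTwo
  let T₀ : Type := Kum 2 x
  let ι₀ : O →+* T₀ := algebraMap O T₀
  have hT₀ : Nontrivial T₀ := K2.kum_nontrivial 2 two_ne_zero _
  let α : T₀ := 1 - 4 * ι₀ x - 8 * ι₀ x ^ 3 - 4 * ι₀ x ^ 4
  let β : T₀ := 4 * ι₀ x * ((1 + ι₀ x ^ 3) * (1 - 8 * ι₀ x ^ 3))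
  let ι₁ : T₀ →+* K2 α β := K2.of α β
  have E0 : Epi (Spec.map (CommRingCat.ofHom ι₀)) := kum_epi 2 two_ne_zero x
  have E1 : Epi (Spec.map (CommRingCat.ofHom ι₁)) := K2.epi
  rw [← cancel_epi (Spec.map (CommRingCat.ofHom ι₀)),
    ← cancel_epi (Spec.map (CommRingCat.ofHom ι₁))]
  have e : ∀ {A : Type} [CommRing A] (ρ : A →+* O) (f : Spec (.of A) ⟶ M),
      Spec.map (CommRingCat.ofHom ι₁) ≫ Spec.map (CommRingCat.ofHom ι₀) ≫
        Spec.map (CommRingCat.ofHom ρ) ≫ f =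
      Spec.map (CommRingCat.ofHom (ι₁.comp (ι₀.comp ρ))) ≫ f := by
    intro A _ ρ f
    rw [CommRingCat.ofHom_comp, CommRingCat.ofHom_comp, Spec.map_comp, Spec.map_comp,
      Category.assoc, Category.assoc]
  rw [e, e]
  refine overlap_T rule h₁ h₂ (T := K2 α β) (ι₁.comp (ι₀.comp ρ₁)) (ι₁.comp (ι₀.comp ρ₂)) ?_ ?_
    (ι₁ (ι₀ x)) (ι₁ (ι₀ (ρ₁ X))) (ι₁ (Kum.y 2 x)) (K2.a α β) (K2.b α β) rfl rfl ?_ ?_ ?_ ?_
  · rw [RingHom.comp_assoc, RingHom.comp_assoc, k1]
    rfl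
  · rw [RingHom.comp_assoc, RingHom.comp_assoc, k2]
    rfl
  · rw [← map_mul, ← map_mul, hy, map_one, map_one]
  · rw [← map_pow, Kum.y_pow]
  · rw [K2.a_sq]
    change ι₁ α = _
    simp only [α, map_sub, map_mul, map_pow, map_ofNat, map_one]
  · rw [K2.b_sq]
    change ι₁ β = _
    simp only [β, map_sub, map_add, map_mul, map_pow, map_ofNat, map_one]

theorem isLoc_toAlgebra {A B : Type} [CommRing A] [CommRing B] [inst : Algebra A B] (s : A)
    [h : IsLocalization.Away s B] :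
    @IsLocalization.Away _ _ s B _ (algebraMap A B).toAlgebra := by
  have e : (algebraMap A B).toAlgebra = inst := Algebra.algebra_ext _ _ (fun _ => rfl)
  rw [e]
  exact h

/-- The coordinate ring of the overlap. -/
abbrev OV : Type := Localization.Away xTwo

/-- The structure homomorphism. -/
noncomputable def toOV : STwo →+* OV := algebraMap STwo OV

instance isDomain_OV : IsDomain OV :=
  IsLocalization.isDomain_localization (powers_le_nonZeroDivisors_of_noZeroDivisors xTwo_ne_zero)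

/-- The coordinate as a unit. -/
noncomputable def xiU : OVˣ := (IsLocalization.Away.algebraMap_isUnit (S := OV) xTwo).unit

theorem xiU_val : (xiU : OV) = toOV xTwo := rfl

/-- The homomorphism from the coordinate ring of the punctured line, `T ↦ 1 / ξ`. -/
noncomputable def lauOV : LaurentPolynomial ℂ →+* OV :=
  LaurentPolynomial.eval₂ (algebraMap ℂ OV) xiU⁻¹

theorem lauOV_T (n : ℤ) : lauOV (LaurentPolynomial.T n) = ((xiU⁻¹ ^ n : OVˣ) : OV) :=
  LaurentPolynomial.eval₂_T _ _ _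

theorem lauOV_C (c : ℂ) : lauOV (LaurentPolynomial.C c) = algebraMap ℂ OV c :=
  LaurentPolynomial.eval₂_C _ _ _

theorem toOV_comp : toOV.comp (algebraMap ℂ STwo) = algebraMap ℂ OV := rfl

theorem lauOV_comp : lauOV.comp chartInfty = toOV.comp toSTwo := by
  apply Polynomial.ringHom_ext
  · intro c
    change lauOV (LaurentPolynomial.invert (toLaurent (C c))) = _
    rw [toLaurent_C, LaurentPolynomial.invert_C, lauOV_C]
    rfl
  · change lauOV (LaurentPolynomial.invert (toLaurent X)) = _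
    rw [toLaurent_X, LaurentPolynomial.invert_T, lauOV_T]
    simp only [inv_zpow', neg_neg, zpow_one]
    rfl

theorem span_X_polD : Ideal.span {(X : ℂ[X]), polD} = ⊤ := by
  rw [Ideal.eq_top_iff_one, Ideal.mem_span_pair]
  refine ⟨7 * X ^ 2 + 8 * X ^ 5, 1, ?_⟩
  rw [polD]
  ring

/-- The morphism on the second chart of the projective line. -/
theorem exists_line_infty {M : Scheme.{0}} {str : M ⟶ SpecC} (rule : ModuliRule 6 str)
    {f₁ : AffLine ⟶ M} {f₂ : Spec (.of STwo) ⟶ M} (h₁ : PropOne rule f₁) (h₂ : PropTwo rule f₂) :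
    ∃ f : AffLine ⟶ M, Spec.map (CommRingCat.ofHom chartInfty) ≫ f =
        Spec.map (CommRingCat.ofHom chartZero) ≫ f₁ ∧
      Spec.map (CommRingCat.ofHom toSTwo) ≫ f = f₂ := by
  refine glue_spec chartInfty toSTwo lauOV toOV X polD isLocalization_toLaurentInv ?_ ?_
    lauOV_comp span_X_polD _ f₂ ?_
  · exact isLoc_toAlgebra polD
  · exact isLoc_toAlgebra xTwo
  · have h := overlap_O rule h₁ h₂ (O := OV) (lauOV.comp chartZero) toOV (by
      apply RingHom.ext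
      intro c
      change lauOV (toLaurent (C c)) = _
      rw [toLaurent_C, lauOV_C]) toOV_comp (by
      change lauOV (toLaurent X) * _ = 1
      rw [toLaurent_X, lauOV_T, zpow_one, ← xiU_val, Units.inv_mul])
    rw [← h, CommRingCat.ofHom_comp, Spec.map_comp, Category.assoc]

/-- The point at infinity of the base of the second family. -/
theorem exists_evTwo : ∃ ε : STwo →+* ℂ, ε.comp toSTwo = evalRingHom 0 ∧ ε xTwo = 0 ∧
    ε.comp (algebraMap ℂ STwo) = algebraMap ℂ ℂ := by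
  have hu : IsUnit (evalRingHom (0 : ℂ) polD) := by
    rw [isUnit_iff_ne_zero]
    simp [polD]
  refine ⟨IsLocalization.Away.lift polD hu, ?_, ?_, ?_⟩
  · apply RingHom.ext
    intro p
    exact IsLocalization.Away.lift_eq polD hu p
  · rw [xTwo]
    refine (IsLocalization.Away.lift_eq polD hu X).trans ?_
    simp
  · apply RingHom.ext
    intro c
    refine (IsLocalization.Away.lift_eq polD hu (C c)).trans ?_
    simp

end Pool.Agent.Work.MP_2eb777_ag
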