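import Pool.Agent.Work.MP_2eb777_ag.Q1.PLine

set_option autoImplicit false

open CategoryTheory CategoryTheory.Limits AlgebraicGeometry Polynomial

namespace Pool.Agent.Work.MP_2eb777_ag

theorem ptA_q : (3 : ℂ) ^ 2 = (-1) ^ 4 - 4 * (-1) ^ 3 - 8 * (-1) - 4 := by norm_num

theorem ptA_r : (0 : ℂ) ^ 2 = 4 * ((-1) ^ 4 - 8 * (-1)) * ((-1) ^ 3 + 1) := by norm_num

theorem ptA_i : 36 * (1 / 36 : ℂ) = 1 := by norm_num

theorem ptB_q : (1 : ℂ) ^ 2 = 1 - 4 * 0 - 8 * 0 ^ 3 - 4 * 0 ^ 4 := by norm_num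

theorem ptB_s : (0 : ℂ) ^ 2 = 4 * 0 * ((1 + 0 ^ 3) * (1 - 8 * 0 ^ 3)) := by norm_num

theorem ptB_e : (1 : ℂ) * ((1 + 0 ^ 3) * (1 - 8 * 0 ^ 3)) = 1 := by norm_num

theorem ptB_j : 2 * (1 / 2 : ℂ) = 1 := by norm_num

/-- The curve over the point `-1`. -/
noncomputable def gluA : Glu ℂ := glu₁ (-1) 3 0 (1 / 36)

/-- The curve over the point at infinity. -/
noncomputable def gluB : Glu ℂ := glu₂ 0 1 0 1 (1 / 2) ptB_s ptB_e ptB_j

theorem famA : IsCurveFamily 6 gluA.curve.toSpec := family₁ _ _ _ _ ptA_i ptA_q ptA_r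

theorem famB : IsCurveFamily 6 gluB.curve.toSpec := family₂ _ _ _ _ _ ptB_q ptB_s ptB_e ptB_j

theorem map_sigma {M : Scheme.{0}} {str : M ⟶ SpecC} (rule : ModuliRule 6 str)
    {X S : Scheme.{0}} {π : X ⟶ S} {σ τ : S ⟶ SpecC} (h : IsCurveFamily 6 π) (e : σ = τ) :
    rule.map π σ h = rule.map π τ h := by
  subst e
  rfl

/-- The morphism from the projective line to the moduli space. -/
theorem exists_projLine {M : Scheme.{0}} (str : M ⟶ SpecC) [IsSeparated str]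
    (rule : ModuliRule 6 str) : ∃ F : ProjLine ⟶ M, F ≫ str = ProjLine.str ∧
      ProjLine.pt (-1) ≫ F = rule.map _ (𝟙 _) famA ∧
      ProjLine.infty ≫ F = rule.map _ (𝟙 _) famB := by
  obtain ⟨f₁, s₁, h₁⟩ := exists_line₁ str rule
  obtain ⟨f₂, s₂, h₂⟩ := exists_line₂ str rule
  obtain ⟨f, hf, hf₂⟩ := exists_line_infty rule (f₁ := f₁) (f₂ := f₂) h₁ h₂
  have hid : Spec.map (CommRingCat.ofHom (algebraMap ℂ ℂ)) = 𝟙 _ := Spec.map_id _
  have hstr : f ≫ str = AffLine.str := by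
    apply AffLine.ext_punctured
    rw [← Category.assoc, hf, Category.assoc, s₁]
    have h3 := ProjLine.inl_str
    have h4 := ProjLine.inr_str
    rw [← Spec.map_comp, ← Spec.map_comp, ← CommRingCat.ofHom_comp, ← CommRingCat.ofHom_comp]
    congr 2
    apply RingHom.ext
    intro c
    change toLaurent (C c) = LaurentPolynomial.invert (toLaurent (C c))
    rw [toLaurent_C, LaurentPolynomial.invert_C]
  refine ⟨ProjLine.desc f₁ f hf.symm, ?_, ?_, ?_⟩
  · apply ProjLine.hom_ext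
    · rw [← Category.assoc, ProjLine.inl_desc, ProjLine.inl_str, s₁]
    · rw [← Category.assoc, ProjLine.inr_desc, ProjLine.inr_str, hstr]
  · rw [ProjLine.pt, Category.assoc, ProjLine.inl_desc]
    rw [map_sigma rule famA hid.symm]
    exact h₁ ℂ (evalRingHom (-1)) (by
      apply RingHom.ext
      intro c
      simp) (-1) 3 0 (1 / 36) (by simp) ptA_i ptA_q ptA_r famA
  · rw [ProjLine.infty, Category.assoc, ProjLine.inr_desc]
    obtain ⟨ε, hε, hεx, hεc⟩ := exists_evTwo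
    have h3 : AffLine.pt 0 = Spec.map (CommRingCat.ofHom ε) ≫
        Spec.map (CommRingCat.ofHom toSTwo) := by
      rw [← Spec.map_comp, ← CommRingCat.ofHom_comp, hε]
    rw [h3, Category.assoc, hf₂, map_sigma rule famB hid.symm]
    exact h₂ ℂ ε hεc 0 1 0 1 (1 / 2) hεx ptB_q ptB_s ptB_e ptB_j famB

end Pool.Agent.Work.MP_2eb777_ag
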